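import Mathlib

/-! An abstract kernel on `[0, L]` that is concave on both sides of the diagonal. -/

namespace Pool.Agent.Lib.MP_efb7ef_gt.T

open Set Function

/-- The data: kernel `K`, its first and second derivatives in the first variable above the
diagonal (`P1`, `P2`, for `s < t`) and below it (`M1`, `M2`), and the jump `J`. -/
structure Dat where
  L : ℝ
  c : ℝ
  K : ℝ → ℝ → ℝ
  P1 : ℝ → ℝ → ℝ
  P2 : ℝ → ℝ → ℝ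
  M1 : ℝ → ℝ → ℝ
  M2 : ℝ → ℝ → ℝ
  J : ℝ → ℝ

/-- First derivative of the kernel off the diagonal. -/
noncomputable def Dat.D1 (d : Dat) (t s : ℝ) : ℝ := if s < t then d.P1 t s else d.M1 t s

/-- The positive kernel. -/
noncomputable def Dat.N (d : Dat) (t s : ℝ) : ℝ :=
  -(if s < t then d.P2 t s + d.c * d.P1 t s else d.M2 t s + d.c * d.M1 t s) / d.J t

/-- Iterates of the positive kernel on `[0, α]`. -/
noncomputable def Dat.it (d : Dat) (g : ℝ → ℝ) (α : ℝ) : ℕ → ℝ → ℝ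
  | 0 => g
  | k + 1 => fun t => ∫ s in (0 : ℝ)..α, d.N t s * d.it g α k s

/-- Integration against an atom at `s₀` plus the density `f` on `[0, α]`. -/
noncomputable def lam (s₀ α : ℝ) (f ψ : ℝ → ℝ) : ℝ := ψ s₀ + ∫ s in (0 : ℝ)..α, ψ s * f s

/-- A bounded nonnegative measurable density on `[0, α]`. -/
structure Dens (α : ℝ) (f : ℝ → ℝ) : Prop where
  meas : Measurable f
  bd : ∃ C, ∀ t ∈ Icc 0 α, 0 ≤ f t ∧ f t ≤ C

/-- A solution of the integral equation with source at `s₀`. -/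
structure Dat.Sol (d : Dat) (s₀ α : ℝ) (f : ℝ → ℝ) : Prop extends Dens α f where
  eq : ∀ t ∈ Icc 0 α, f t = lam s₀ α f (d.N t)

/-- The series with source at `L` converges. -/
structure Dat.Adm (d : Dat) (α : ℝ) : Prop where
  pos : 0 < α
  lt3 : α < 3
  ltL : α < d.L
  sum : Summable fun k => ∫ s in (0 : ℝ)..α, d.it (fun t => d.N t d.L) α k s

/-- The regularity assumptions. -/
structure Dat.Reg (d : Dat) : Prop where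
  L1 : 1 ≤ d.L
  cK : Continuous (uncurry d.K)
  symm : ∀ t s, d.K t s = d.K s t
  K0 : ∀ t s, 0 ≤ d.K t s
  mP1 : Measurable (uncurry d.P1)
  mP2 : Measurable (uncurry d.P2)
  mM1 : Measurable (uncurry d.M1)
  mM2 : Measurable (uncurry d.M2)
  mJ : Measurable d.J
  cP1 : ContinuousOn (uncurry d.P1) {p | 0 ≤ p.2 ∧ p.2 ≤ p.1 ∧ p.1 < d.L}
  cP2 : ContinuousOn (uncurry d.P2) {p | 0 ≤ p.2 ∧ p.2 ≤ p.1 ∧ p.1 < d.L}
  cM1 : ContinuousOn (uncurry d.M1) {p | 0 ≤ p.1 ∧ p.1 ≤ p.2 ∧ p.2 ≤ d.L ∧ p.1 < d.L}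
  cM2 : ContinuousOn (uncurry d.M2) {p | 0 ≤ p.1 ∧ p.1 ≤ p.2 ∧ p.2 ≤ d.L ∧ p.1 < d.L}
  cJ : ContinuousOn d.J (Ico 0 d.L)
  J0 : ∀ t ∈ Ico 0 d.L, 0 < d.J t
  dP : ∀ s t, 0 ≤ s → s < t → t < d.L →
    HasDerivAt (fun u => d.K u s) (d.P1 t s) t ∧ HasDerivAt (fun u => d.P1 u s) (d.P2 t s) t
  dM : ∀ t s, 0 ≤ t → t < s → s ≤ d.L →
    HasDerivAt (fun u => d.K u s) (d.M1 t s) t ∧ HasDerivAt (fun u => d.M1 u s) (d.M2 t s) t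
  jump : ∀ s ∈ Ico 0 d.L, d.P1 s s - d.M1 s s = d.J s
  zero : ∀ s ∈ Ioc 0 d.L, d.M1 0 s = 0

/-- The inequalities. -/
structure Dat.Hyp (d : Dat) : Prop extends d.Reg where
  nearP : ∀ s t, 0 ≤ s → s ≤ t → t ≤ 3 → t < d.L → d.P2 t s + d.c * d.P1 t s < 0
  nearM : ∀ t s, 0 ≤ t → t ≤ s → s ≤ 3 → s < d.L → d.M2 t s + d.c * d.M1 t s < 0
  nearL : ∀ t ∈ Ico 0 d.L, d.M2 t d.L + d.c * d.M1 t d.L < 0
  far : ∀ t, 3 ≤ t → t < d.L → ∃ l κ : ℝ, 0 ≤ κ ∧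
    (∀ s ∈ Icc (0 : ℝ) 3, d.P2 t s + l * d.P1 t s - κ * (d.K t s - d.K (1 / 2) s) < 0) ∧
    d.M2 t d.L + l * d.M1 t d.L - κ * (d.K t d.L - d.K (1 / 2) d.L) < 0
  start : ∀ s ∈ Icc (0 : ℝ) (1 / 2), d.K 0 s < d.K d.L s
  row : ∀ t ∈ Icc (0 : ℝ) (1 / 2), ∀ s ∈ Icc (0 : ℝ) (1 / 2), d.N t s ≤ 19 / 10
  stop : 3 < d.L → ∃ β w : Fin 6 → ℝ, (∀ i, β i ∈ Icc (0 : ℝ) (11 / 4)) ∧ ∑ i, w i = 1 ∧
    ∀ s ∈ Icc (0 : ℝ) 3, d.K d.L s ≤ ∑ i, w i * d.K (β i) s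

end Pool.Agent.Lib.MP_efb7ef_gt.T
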