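import Mathlib

/-! Affine arithmetic in three variables with fixed point numbers (unit `2 ^ 32`); a signed
number is a difference of two natural numbers. -/

namespace Pool.Agent.Lib.MP_efb7ef_gt.T

/-- The form `(c - d) + (x - u) ε₁ + (y - v) ε₂ + (z - w) ε₃ ± r`. -/
structure Af where
  ok : Bool
  c : Nat
  d : Nat
  x : Nat
  u : Nat
  y : Nat
  v : Nat
  z : Nat
  w : Nat
  r : Nat

namespace Af

def rad (a : Af) : Nat :=
  Nat.add (Nat.add (Nat.add a.x a.u) (Nat.add a.y a.v)) (Nat.add (Nat.add a.z a.w) a.r)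

def dy (n : Nat) : Af := ⟨true, n, 0, 0, 0, 0, 0, 0, 0, 0⟩

def neg (a : Af) : Af := ⟨a.ok, a.d, a.c, a.u, a.x, a.v, a.y, a.w, a.z, a.r⟩

def cst (n : Int) (d : Nat) : Af :=
  ⟨Nat.blt 0 d, Nat.div (Nat.mul (Int.toNat n) 4294967296) d,
    Nat.div (Nat.mul (Int.toNat (Int.neg n)) 4294967296) d, 0, 0, 0, 0, 0, 0, 1⟩

def nrm (ok : Bool) (c d x u y v z w r : Nat) : Af :=
  ⟨ok, Nat.sub c d, Nat.sub d c, Nat.sub x u, Nat.sub u x, Nat.sub y v, Nat.sub v y, Nat.sub z w,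
    Nat.sub w z, r⟩

def add (a b : Af) : Af :=
  nrm (and a.ok b.ok) (Nat.add a.c b.c) (Nat.add a.d b.d) (Nat.add a.x b.x) (Nat.add a.u b.u)
    (Nat.add a.y b.y) (Nat.add a.v b.v) (Nat.add a.z b.z) (Nat.add a.w b.w) (Nat.add a.r b.r)

def sub (a b : Af) : Af :=
  nrm (and a.ok b.ok) (Nat.add a.c b.d) (Nat.add a.d b.c) (Nat.add a.x b.u) (Nat.add a.u b.x)
    (Nat.add a.y b.v) (Nat.add a.v b.y) (Nat.add a.z b.w) (Nat.add a.w b.z) (Nat.add a.r b.r)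

def smul (k : Nat) (a : Af) : Af :=
  ⟨a.ok, Nat.mul k a.c, Nat.mul k a.d, Nat.mul k a.x, Nat.mul k a.u, Nat.mul k a.y, Nat.mul k a.v,
    Nat.mul k a.z, Nat.mul k a.w, Nat.mul k a.r⟩

def sadd (k : Nat) (a : Af) : Af :=
  let c := Nat.add (Nat.mul k 4294967296) a.c
  ⟨a.ok, Nat.sub c a.d, Nat.sub a.d c, a.x, a.u, a.y, a.v, a.z, a.w, a.r⟩

def ssub (k : Nat) (a : Af) : Af :=
  let c := Nat.add (Nat.mul k 4294967296) a.d
  ⟨a.ok, Nat.sub c a.c, Nat.sub a.c c, a.u, a.x, a.v, a.y, a.w, a.z, a.r⟩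

def shs (p q : Nat) : Nat := Nat.shiftRight (Nat.sub p q) 32

def nsh (ok : Bool) (c x u y v z w r : Nat) : Af :=
  ⟨ok, c, 0, shs x u, shs u x, shs y v, shs v y, shs z w, shs w z, r⟩

def mulP (a b : Af) : Af :=
  nsh (and a.ok b.ok) (Nat.shiftRight (Nat.mul a.c b.c) 32)
    (Nat.add (Nat.mul a.c b.x) (Nat.mul b.c a.x)) (Nat.add (Nat.mul a.c b.u) (Nat.mul b.c a.u))
    (Nat.add (Nat.mul a.c b.y) (Nat.mul b.c a.y)) (Nat.add (Nat.mul a.c b.v) (Nat.mul b.c a.v))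
    (Nat.add (Nat.mul a.c b.z) (Nat.mul b.c a.z)) (Nat.add (Nat.mul a.c b.w) (Nat.mul b.c a.w))
    (Nat.add (Nat.shiftRight (Nat.add (Nat.add (Nat.mul a.c b.r) (Nat.mul b.c a.r))
      (Nat.mul a.rad b.rad)) 32) 5)

def mul (a b : Af) : Af :=
  cond (Nat.beq a.d 0) (cond (Nat.beq b.d 0) (mulP a b) (neg (mulP a (neg b))))
    (cond (Nat.beq b.d 0) (neg (mulP (neg a) b)) (mulP (neg a) (neg b)))

def lin (ok : Bool) (p k e : Nat) (a : Af) : Af :=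
  ⟨ok, p, 0, Nat.shiftRight (Nat.mul k a.x) 32, Nat.shiftRight (Nat.mul k a.u) 32,
    Nat.shiftRight (Nat.mul k a.y) 32, Nat.shiftRight (Nat.mul k a.v) 32,
    Nat.shiftRight (Nat.mul k a.z) 32, Nat.shiftRight (Nat.mul k a.w) 32,
    Nat.add (Nat.shiftRight (Nat.mul k a.r) 32) e⟩

def sqP (a : Af) : Af :=
  let h := Nat.div (Nat.mul a.rad a.rad) 2
  lin a.ok (Nat.shiftRight (Nat.add (Nat.mul a.c a.c) h) 32) (Nat.mul 2 a.c)
    (Nat.add (Nat.shiftRight h 32) 7) a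

def sq (a : Af) : Af := cond (Nat.beq a.d 0) (sqP a) (sqP (neg a))

def inv (a : Af) : Af :=
  let c := a.c
  let R := a.rad
  let c2 := Nat.mul c c
  let h := Nat.div (Nat.mul (Nat.mul R R) 9223372036854775808) (Nat.mul c2 (Nat.sub c R))
  let k := Nat.div 79228162514264337593543950336 c2
  ⟨and a.ok (Nat.blt R c), Nat.add (Nat.div 18446744073709551616 c) h, 0,
    Nat.shiftRight (Nat.mul k a.u) 32, Nat.shiftRight (Nat.mul k a.x) 32,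
    Nat.shiftRight (Nat.mul k a.v) 32, Nat.shiftRight (Nat.mul k a.y) 32,
    Nat.shiftRight (Nat.mul k a.w) 32, Nat.shiftRight (Nat.mul k a.z) 32,
    Nat.add (Nat.shiftRight (Nat.add (Nat.mul k a.r) R) 32) (Nat.add h 8)⟩

def nw (n g : Nat) : Nat := Nat.shiftRight (Nat.add g (Nat.div n g)) 1

def isq (n : Nat) : Nat :=
  let g := nw n (nw n (nw n (nw n (nw n (nw n
    (Nat.shiftLeft 1 (Nat.add (Nat.shiftRight (Nat.log2 n) 1) 1)))))))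
  cond (Nat.ble (Nat.mul g g) n) g (Nat.pred g)

def isqOk (n s : Nat) : Bool :=
  and (Nat.ble (Nat.mul s s) n) (Nat.ble n (Nat.mul (Nat.succ s) (Nat.succ s)))

def rt (a : Af) : Af :=
  let c := a.c
  let R := a.rad
  cond (Nat.blt (Nat.mul 2 R) c)
    (let n := Nat.mul c 4294967296
     let s := isq n
     let m := Nat.sub (Nat.mul 2 c) R
     let h := Nat.div (Nat.mul (Nat.mul R R) n) (Nat.mul (Nat.mul 4 s) (Nat.mul m m))
     lin (and (and a.ok (isqOk n s)) (Nat.blt h s)) (Nat.sub s h)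
       (Nat.div 9223372036854775808 s)
       (Nat.add (Nat.add (Nat.shiftRight
         (Nat.mul R (Nat.add (Nat.div 9223372036854775808 (Nat.mul s s)) 2)) 32) h) 8) a)
    (let n := Nat.mul (Nat.sub c R) 4294967296
     let s := isq n
     let n' := Nat.mul (Nat.add c R) 4294967296
     let s' := isq n'
     let p := Nat.div (Nat.add s (Nat.succ s')) 2
     ⟨and (and a.ok (isqOk n s)) (isqOk n' s'), p, 0, 0, 0, 0, 0, 0, 0,
       Nat.sub (Nat.succ s') p⟩)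

def abs (a : Af) : Af :=
  cond (Nat.ble (Nat.add a.rad a.d) a.c) a
    (cond (Nat.ble (Nat.add a.rad a.c) a.d) a.neg
      ⟨a.ok, 0, 0, 0, 0, 0, 0, 0, 0, Nat.add (Nat.add a.c a.d) a.rad⟩)

def isNeg (a : Af) : Bool := and a.ok (Nat.blt (Nat.add a.rad a.c) a.d)

end Af

/-- A box with nonnegative corners, in units `2 ^ (-32)`. -/
structure Box where
  l0 : Nat
  h0 : Nat
  l1 : Nat
  h1 : Nat
  l2 : Nat
  h2 : Nat

def mid (l h : Nat) : Nat := Nat.shiftRight (Nat.add l h) 1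

def Box.v0 (b : Box) : Af :=
  ⟨true, mid b.l0 b.h0, 0, Nat.sub b.h0 (mid b.l0 b.h0), 0, 0, 0, 0, 0, 0⟩

def Box.v1 (b : Box) : Af :=
  ⟨true, mid b.l1 b.h1, 0, 0, 0, Nat.sub b.h1 (mid b.l1 b.h1), 0, 0, 0, 0⟩

def Box.v2 (b : Box) : Af :=
  ⟨true, mid b.l2 b.h2, 0, 0, 0, 0, 0, Nat.sub b.h2 (mid b.l2 b.h2), 0, 0⟩

/-- Subdivision trees: `o` uses the main test, `p` the side test, `a`, `b`, `c` bisect. -/
inductive Tr
  | o : Tr
  | p : Tr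
  | a : Tr → Tr → Tr
  | b : Tr → Tr → Tr
  | c : Tr → Tr → Tr

noncomputable def go (f g : Box → Bool) (t : Tr) : Box → Bool :=
  Tr.rec f g
    (fun _ _ u v B => and (u ⟨B.l0, mid B.l0 B.h0, B.l1, B.h1, B.l2, B.h2⟩)
      (v ⟨mid B.l0 B.h0, B.h0, B.l1, B.h1, B.l2, B.h2⟩))
    (fun _ _ u v B => and (u ⟨B.l0, B.h0, B.l1, mid B.l1 B.h1, B.l2, B.h2⟩)
      (v ⟨B.l0, B.h0, mid B.l1 B.h1, B.h1, B.l2, B.h2⟩))
    (fun _ _ u v B => and (u ⟨B.l0, B.h0, B.l1, B.h1, B.l2, mid B.l2 B.h2⟩)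
      (v ⟨B.l0, B.h0, B.l1, B.h1, mid B.l2 B.h2, B.h2⟩)) t

/-- The noise symbols. -/
structure Eps where
  a : ℝ
  b : ℝ
  c : ℝ
  ha : |a| ≤ 1
  hb : |b| ≤ 1
  hc : |c| ≤ 1

/-- The real number `x` is described by the affine form `A`. -/
def Mem (ε : Eps) (A : Af) (x : ℝ) : Prop :=
  A.ok = true → (A.c = 0 ∨ A.d = 0) ∧ |x * 4294967296 - (((A.c : ℝ) - A.d) +
    ((A.x : ℝ) - A.u) * ε.a + ((A.y : ℝ) - A.v) * ε.b + ((A.z : ℝ) - A.w) * ε.c)| ≤ A.r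

def Box.mem (B : Box) (x y z : ℝ) : Prop :=
  (B.l0 ≤ x * 4294967296 ∧ x * 4294967296 ≤ B.h0) ∧ (B.l1 ≤ y * 4294967296 ∧
    y * 4294967296 ≤ B.h1) ∧ (B.l2 ≤ z * 4294967296 ∧ z * 4294967296 ≤ B.h2)

end Pool.Agent.Lib.MP_efb7ef_gt.T
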