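import Pool.Agent.Lib.MP_efb7ef_gt.T.AfMem

/-! Soundness of the subdivision. -/

namespace Pool.Agent.Lib.MP_efb7ef_gt.T

theorem go_eps {l h : Nat} {u : ℝ} (h1 : l ≤ u) (h2 : u ≤ h) :
    ∃ e : ℝ, |e| ≤ 1 ∧ u = (mid l h : ℕ) + (Nat.sub h (mid l h) : ℕ) * e := by
  have hm : mid l h = (l + h) / 2 := Nat.shiftRight_eq_div_pow _ 1
  have hl : l ≤ h := by exact_mod_cast h1.trans h2
  have a1 : (mid l h : ℝ) ≤ h := by exact_mod_cast (by omega : mid l h ≤ h)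
  have a2 : (mid l h : ℝ) + mid l h ≤ l + h := by
    exact_mod_cast (by omega : mid l h + mid l h ≤ l + h)
  rw [Nat.sub_eq, Nat.cast_sub (by omega : mid l h ≤ h)]
  rcases a1.eq_or_lt with e | e
  · exact ⟨0, by simp, by linarith⟩
  · have p := sub_pos.2 e
    refine ⟨(u - mid l h) / (h - mid l h), ?_, by field_simp; ring⟩
    rw [abs_div, abs_of_pos p, div_le_one p, abs_le]
    constructor <;> linarith

theorem Box.exists_eps {B : Box} {x y z : ℝ} (h : B.mem x y z) :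
    ∃ ε, Mem ε B.v0 x ∧ Mem ε B.v1 y ∧ Mem ε B.v2 z := by
  obtain ⟨a, ha, ea⟩ := go_eps h.1.1 h.1.2
  obtain ⟨b, hb, eb⟩ := go_eps h.2.1.1 h.2.1.2
  obtain ⟨c, hc, ec⟩ := go_eps h.2.2.1 h.2.2.2
  refine ⟨⟨a, b, c, ha, hb, hc⟩, fun _ => ⟨.inr rfl, ?_⟩, fun _ => ⟨.inr rfl, ?_⟩,
    fun _ => ⟨.inr rfl, ?_⟩⟩
  · rw [ea]
    simp [Box.v0]
  · rw [eb]
    simp [Box.v1]
  · rw [ec]
    simp [Box.v2]

theorem go_sound {f g : Box → Bool} {P : ℝ → ℝ → ℝ → Prop}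
    (hf : ∀ B, f B = true → ∀ x y z, B.mem x y z → P x y z)
    (hg : ∀ B, g B = true → ∀ x y z, B.mem x y z → P x y z) (t : Tr) :
    ∀ B, go f g t B = true → ∀ x y z, B.mem x y z → P x y z := by
  induction t with
  | o => exact hf
  | p => exact hg
  | a s t hs ht =>
    intro B h x y z m
    obtain ⟨u, v⟩ := Bool.and_eq_true_iff.1 h
    rcases le_total (x * 4294967296) (mid B.l0 B.h0) with e | e
    · exact hs _ u x y z ⟨⟨m.1.1, e⟩, m.2⟩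
    · exact ht _ v x y z ⟨⟨e, m.1.2⟩, m.2⟩
  | b s t hs ht =>
    intro B h x y z m
    obtain ⟨u, v⟩ := Bool.and_eq_true_iff.1 h
    rcases le_total (y * 4294967296) (mid B.l1 B.h1) with e | e
    · exact hs _ u x y z ⟨m.1, ⟨m.2.1.1, e⟩, m.2.2⟩
    · exact ht _ v x y z ⟨m.1, ⟨e, m.2.1.2⟩, m.2.2⟩
  | c s t hs ht =>
    intro B h x y z m
    obtain ⟨u, v⟩ := Bool.and_eq_true_iff.1 h
    rcases le_total (z * 4294967296) (mid B.l2 B.h2) with e | e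
    · exact hs _ u x y z ⟨m.1, m.2.1, m.2.2.1, e⟩
    · exact ht _ v x y z ⟨m.1, m.2.1, e, m.2.2.2⟩

end Pool.Agent.Lib.MP_efb7ef_gt.T
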