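import Pool.Agent.Lib.MP_efb7ef_gt.T.AfMem

/-! Soundness of the inverse. -/

namespace Pool.Agent.Lib.MP_efb7ef_gt.T

variable {ε : Eps} {A : Af} {x : ℝ}

theorem inv_div (a : ℕ) {b : ℕ} (hb : 0 < b) :
    ((a / b : ℕ) : ℝ) ≤ a / b ∧ (a : ℝ) / b ≤ (a / b : ℕ) + 1 := by
  refine ⟨Nat.cast_div_le, ?_⟩
  rw [div_le_iff₀ (Nat.cast_pos.2 hb)]
  exact_mod_cast (mul_comm b _ ▸ Nat.lt_mul_div_succ a hb).le

theorem inv_core {U c R D p q h s : ℝ} (hU : 0 < U) (hR : R < c) (hD : |D| ≤ R)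
    (a1 : p ≤ U ^ 2 / c) (a2 : U ^ 2 / c ≤ p + 1) (b1 : q ≤ U ^ 3 / c ^ 2)
    (b2 : U ^ 3 / c ^ 2 ≤ q + 1) (h1 : R ^ 2 * (U ^ 2 / 2) / (c ^ 2 * (c - R)) ≤ h + 1)
    (hs : R / U - s ≤ 1) : |U ^ 2 / (c + D) - (p + h + -q * D / U)| + 4 ≤ s + (h + 8) := by
  have r0 : 0 ≤ R := (abs_nonneg D).trans hD
  have c0 : 0 < c := r0.trans_lt hR
  obtain ⟨d1, d2⟩ := abs_le.1 hD
  have m0 : 0 < c - R := by linarith
  have m1 : 0 < c + D := by linarith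
  have e : U ^ 2 / (c + D) - (p + h + -q * D / U) = (U ^ 2 / c - p) - h +
      D ^ 2 * U ^ 2 / (c ^ 2 * (c + D)) - (U ^ 3 / c ^ 2 - q) * D / U := by
    field_simp
    ring
  have t0 : 0 ≤ D ^ 2 * U ^ 2 / (c ^ 2 * (c + D)) := by positivity
  have t1 : D ^ 2 * U ^ 2 / (c ^ 2 * (c + D)) ≤ R ^ 2 * U ^ 2 / (c ^ 2 * (c - R)) := by
    have : D ^ 2 ≤ R ^ 2 := sq_le_sq' d1 d2
    gcongr
    linarith
  have t2 : R ^ 2 * U ^ 2 / (c ^ 2 * (c - R)) = 2 * (R ^ 2 * (U ^ 2 / 2) / (c ^ 2 * (c - R))) := by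
    ring
  have t3 : |(U ^ 3 / c ^ 2 - q) * D / U| ≤ R / U := by
    rw [abs_div, abs_mul, abs_of_pos hU, abs_of_nonneg (sub_nonneg.2 b1)]
    refine div_le_div_of_nonneg_right ?_ hU.le
    exact (mul_le_mul (sub_le_iff_le_add'.2 b2) hD (abs_nonneg D) zero_le_one).trans_eq (one_mul R)
  obtain ⟨t4, t5⟩ := abs_le.1 t3
  rw [e, ← le_sub_iff_add_le, abs_le]
  constructor <;> linarith

theorem inv_fin {c p q h s : ℕ} (x0 : 0 < x)
    (k : |4294967296 ^ 2 / ((c : ℝ) + (x * 4294967296 - c)) -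
      (p + h + -q * (x * 4294967296 - c) / 4294967296)| + 4 ≤ (s : ℝ) + (h + 8)) :
    |x⁻¹ * 4294967296 - (((p + h : ℕ) : ℝ) +
      q * (-x * 4294967296 - (((0 : ℕ) : ℝ) - c)) / 4294967296)| + 4 ≤ ((s + (h + 8) : ℕ) : ℝ) := by
  have e : 4294967296 ^ 2 / ((c : ℝ) + (x * 4294967296 - c)) = x⁻¹ * 4294967296 := by
    rw [add_sub_cancel]
    field_simp
  rw [e] at k
  push_cast
  convert k using 4
  ring

theorem inv_sh (a b e : ℕ) :
    Nat.shiftRight a 32 + (Nat.shiftRight b 32 + e) ≤ Nat.shiftRight (a + b) 32 + e := by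
  have k : ∀ n : ℕ, Nat.shiftRight n 32 = n / 4294967296 := fun n =>
    Nat.shiftRight_eq_div_pow n 32
  rw [k, k, k]
  omega

theorem Mem.inv (h : Mem ε A x) : Mem ε A.inv x⁻¹ := fun k => by
  obtain ⟨k1, k2⟩ := Bool.and_eq_true_iff.1 k
  have k3 : A.rad < A.c := Nat.blt_eq.mp k2
  have k4 := h.rad k1
  have c0 : 0 < A.c := by omega
  have k5 : A.d = 0 := (h k1).1.resolve_left c0.ne'
  refine ⟨.inr rfl, (h.neg.lin (ok := true) (fun _ => k1) (fun _ => ?_) rfl).2.trans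
    (Nat.cast_le.2 (inv_sh _ A.rad _))⟩
  rw [show A.neg.c = A.d from rfl, show A.neg.d = A.c from rfl, k5]
  rw [k5, Nat.cast_zero, sub_zero] at k4
  generalize A.rad = R at k3 k4 ⊢
  generalize A.c = c at k3 k4 c0 ⊢
  have r1 : (R : ℝ) < c := by exact_mod_cast k3
  obtain ⟨a1, a2⟩ := inv_div 18446744073709551616 c0
  obtain ⟨b1, b2⟩ := inv_div 79228162514264337593543950336 (Nat.mul_pos c0 c0)
  obtain ⟨-, h1⟩ := inv_div (R * R * 9223372036854775808)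
    (Nat.mul_pos (Nat.mul_pos c0 c0) (Nat.sub_pos_of_lt k3))
  have x0 : 0 < x := by
    have := (abs_le.1 k4).1
    by_contra! n
    linarith
  exact inv_fin x0 (inv_core (U := 4294967296) (by norm_num) r1 k4 (a1.trans_eq (by norm_num))
    (le_of_eq_of_le (by norm_num) a2) (b1.trans_eq (by push_cast; ring))
    (le_of_eq_of_le (by push_cast; ring) b2)
    (le_of_eq_of_le (by push_cast [Nat.cast_sub k3.le]; ring) h1) (shn_err R).2)

end Pool.Agent.Lib.MP_efb7ef_gt.T
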