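import Pool.Agent.Lib.MP_efb7ef_gt.T.AfDef

/-! Soundness of the linear operations of affine arithmetic. -/

namespace Pool.Agent.Lib.MP_efb7ef_gt.T

variable {ε : Eps} {A B : Af} {x y : ℝ}

theorem am_div (n : ℕ) {d : ℕ} (h : 0 < d) :
    0 ≤ (n : ℝ) / d - (n / d : ℕ) ∧ (n : ℝ) / d - (n / d : ℕ) ≤ 1 := by
  rw [← Nat.floor_div_eq_div (K := ℝ)]
  exact ⟨sub_nonneg.2 (Nat.floor_le (by positivity)), (Nat.self_sub_floor_lt_one _).le⟩

theorem am_sub (p q : ℕ) : ((Nat.sub p q : ℕ) : ℝ) - (Nat.sub q p : ℕ) = p - q := by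
  rcases le_total p q with h | h <;> simp [Nat.sub_eq_zero_of_le h, Nat.cast_sub h]

theorem am_or (p q : ℕ) : Nat.sub p q = 0 ∨ Nat.sub q p = 0 :=
  (le_total p q).imp Nat.sub_eq_zero_of_le Nat.sub_eq_zero_of_le

theorem am_eps {p t r : ℝ} (k : |p| ≤ r) (h : |t| ≤ 1) : -r ≤ p * t ∧ p * t ≤ r :=
  abs_le.1 ((abs_mul p t).trans_le ((mul_le_of_le_one_right (abs_nonneg p) h).trans k))

theorem am_dif (p q : ℕ) : |(p : ℝ) - q| ≤ p + q := by simpa using abs_sub (p : ℝ) q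

theorem shn_err (n : ℕ) : 0 ≤ (n : ℝ) / 4294967296 - (Nat.shiftRight n 32 : ℕ) ∧
    (n : ℝ) / 4294967296 - (Nat.shiftRight n 32 : ℕ) ≤ 1 := by
  simpa [Nat.shiftRight_eq_div_pow] using am_div n (d := 4294967296) (by norm_num)

theorem am_sh (p q : ℕ) : |(p : ℝ) / 4294967296 - (Nat.shiftRight p 32 : ℕ) -
    (q / 4294967296 - (Nat.shiftRight q 32 : ℕ))| ≤ 1 :=
  abs_le.2 ⟨by linarith [shn_err p |>.1, shn_err q |>.2], by
    linarith [shn_err p |>.2, shn_err q |>.1]⟩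

theorem Mem.rad (h : Mem ε A x) (ho : A.ok = true) : |x * 4294967296 - ((A.c : ℝ) - A.d)| ≤ A.rad := by
  have k := abs_le.1 (h ho).2
  have k1 := am_eps (am_dif A.x A.u) ε.ha
  have k2 := am_eps (am_dif A.y A.v) ε.hb
  have k3 := am_eps (am_dif A.z A.w) ε.hc
  simp only [Af.rad, Nat.add_eq, Nat.cast_add]
  rw [abs_le]
  constructor <;> linarith

theorem Mem.dy (n : ℕ) (h : x = n / 4294967296) : Mem ε (Af.dy n) x := by
  intro _
  simp [Af.dy, h]

theorem Mem.cst (n : ℤ) (d : ℕ) (h : x = n / d) : Mem ε (Af.cst n d) x := by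
  intro ho
  have hd : 0 < d := Nat.blt_eq ▸ ho
  have h1 := am_div (n.toNat * 4294967296) hd
  have h2 := am_div ((-n).toNat * 4294967296) hd
  have e : (n : ℝ) = n.toNat - (-n).toNat := by
    exact_mod_cast (Int.toNat_sub_toNat_neg n).symm
  change (n.toNat * 4294967296 / d = 0 ∨ (-n).toNat * 4294967296 / d = 0) ∧
    |_ - (((n.toNat * 4294967296 / d : ℕ) : ℝ) - ((-n).toNat * 4294967296 / d : ℕ) + _ + _ + _)| ≤ _
  refine ⟨(le_total n 0).imp (fun k => ?_) fun k => ?_, ?_⟩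
  · rw [Int.toNat_eq_zero.2 k, zero_mul, Nat.zero_div]
  · rw [Int.toNat_eq_zero.2 (neg_nonpos.2 k), zero_mul, Nat.zero_div]
  simp only [Af.cst, Nat.cast_mul, Nat.cast_ofNat, sub_self, zero_mul, add_zero, Nat.cast_one,
    mul_div_right_comm] at h1 h2 ⊢
  rw [h, e, sub_div, abs_le]
  constructor <;> linarith

theorem Mem.add (h : Mem ε A x) (k : Mem ε B y) : Mem ε (A.add B) (x + y) := by
  intro ho
  simp only [Af.add, Af.nrm, Bool.and_eq_true, am_sub, am_or, Nat.add_eq, true_and] at ho ⊢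
  have h1 := abs_le.1 (h ho.1).2
  have h2 := abs_le.1 (k ho.2).2
  push_cast
  rw [abs_le]
  constructor <;> linarith

theorem Mem.sub (h : Mem ε A x) (k : Mem ε B y) : Mem ε (A.sub B) (x - y) := by
  intro ho
  simp only [Af.sub, Af.nrm, Bool.and_eq_true, am_sub, am_or, Nat.add_eq, true_and] at ho ⊢
  have h1 := abs_le.1 (h ho.1).2
  have h2 := abs_le.1 (k ho.2).2
  push_cast
  rw [abs_le]
  constructor <;> linarith

theorem Mem.neg (h : Mem ε A x) : Mem ε A.neg (-x) := by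
  intro ho
  have h1 := abs_le.1 (h ho).2
  refine ⟨(h ho).1.symm, abs_le.2 ?_⟩
  simp only [Af.neg]
  constructor <;> linarith

theorem Mem.smul (k : ℕ) (h : Mem ε A x) : Mem ε (Af.smul k A) (k * x) := by
  intro ho
  have h1 := mul_le_mul_of_nonneg_left (h ho).2 (Nat.cast_nonneg k)
  simp only [Af.smul, Nat.mul_eq, Nat.cast_mul]
  refine ⟨(h ho).1.imp (by simp +contextual) (by simp +contextual), le_of_eq_of_le ?_ h1⟩
  rw [← Nat.abs_cast (R := ℝ) k, ← abs_mul, Nat.abs_cast]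
  congr 1
  ring

theorem Mem.sadd (k : ℕ) (h : Mem ε A x) : Mem ε (Af.sadd k A) (k + x) := by
  intro ho
  simp only [Af.sadd, am_sub, am_or, true_and, Nat.add_eq, Nat.mul_eq]
  push_cast
  refine le_of_eq_of_le ?_ (h ho).2
  congr 1
  ring

theorem Mem.ssub (k : ℕ) (h : Mem ε A x) : Mem ε (Af.ssub k A) (k - x) := by
  intro ho
  simp only [Af.ssub, am_sub, am_or, true_and, Nat.add_eq, Nat.mul_eq]
  push_cast
  refine le_of_eq_of_le ?_ (h ho).2
  rw [← abs_neg]
  congr 1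
  ring

theorem Mem.abs (h : Mem ε A x) : Mem ε A.abs |x| := by
  rw [Af.abs]
  cases e1 : Nat.ble (Nat.add A.rad A.d) A.c
  · cases e2 : Nat.ble (Nat.add A.rad A.c) A.d
    · intro ho
      have k := h.rad ho
      have k1 := abs_sub_abs_le_abs_sub (x * 4294967296) (A.c - A.d)
      have k2 := am_dif A.c A.d
      simp only [cond_false, Nat.add_eq, Nat.cast_add, Nat.cast_zero, zero_mul, add_zero, sub_zero,
        abs_mul, abs_abs, true_or, true_and] at k1 ⊢
      linarith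
    · intro ho
      have k := (abs_le.1 (h.rad ho)).2
      have k1 : (A.rad : ℝ) + A.c ≤ A.d := by exact_mod_cast Nat.le_of_ble_eq_true e2
      rw [abs_of_nonpos (a := x) (by linarith)]
      exact h.neg ho
  · intro ho
    have k := (abs_le.1 (h.rad ho)).1
    have k1 : (A.rad : ℝ) + A.d ≤ A.c := by exact_mod_cast Nat.le_of_ble_eq_true e1
    rw [abs_of_nonneg (a := x) (by linarith)]
    exact h ho

theorem Mem.lin (h : Mem ε A x) {ok : Bool} {p k e : ℕ} (ho : ok = true → A.ok = true)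
    (hy : ok = true → |y * 4294967296 -
      (p + k * (x * 4294967296 - ((A.c : ℝ) - A.d)) / 4294967296)| + 4 ≤ e) :
    Mem ε (Af.lin ok p k e A) y := by
  intro hk
  have h1 := abs_le.1 (le_sub_iff_add_le.2 (hy hk))
  have h2 := abs_le.1 ((abs_mul _ _).trans_le (mul_le_mul (Nat.abs_cast k).le (h (ho hk)).2
    (abs_nonneg _) (Nat.cast_nonneg k)))
  have k0 := shn_err (k * A.r)
  have k1 := am_eps (am_sh (k * A.x) (k * A.u)) ε.ha
  have k2 := am_eps (am_sh (k * A.y) (k * A.v)) ε.hb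
  have k3 := am_eps (am_sh (k * A.z) (k * A.w)) ε.hc
  simp only [Af.lin, Nat.add_eq, Nat.mul_eq, Nat.cast_add, Nat.cast_mul, Nat.cast_zero, or_true,
    true_and, abs_le] at k0 k1 k2 k3 ⊢
  constructor <;> linarith

theorem Mem.lt_zero (h : Mem ε A x) (hn : A.isNeg = true) : x < 0 := by
  simp only [Af.isNeg, Bool.and_eq_true, Nat.blt_eq, Nat.add_eq] at hn
  have k := (abs_le.1 (h.rad hn.1)).2
  have k1 : (A.rad : ℝ) + A.c < A.d := by exact_mod_cast hn.2
  linarith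

theorem Mem.smul2 (h : Mem ε A x) : Mem ε (Af.smul 2 A) (2 * x) := by
  simpa using h.smul 2

theorem Mem.smul3 (h : Mem ε A x) : Mem ε (Af.smul 3 A) (3 * x) := by
  simpa using h.smul 3

theorem Mem.smul4 (h : Mem ε A x) : Mem ε (Af.smul 4 A) (4 * x) := by
  simpa using h.smul 4

theorem Mem.sadd1 (h : Mem ε A x) : Mem ε (Af.sadd 1 A) (1 + x) := by
  simpa using h.sadd 1

theorem Mem.sadd2 (h : Mem ε A x) : Mem ε (Af.sadd 2 A) (2 + x) := by
  simpa using h.sadd 2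

theorem Mem.ssub1 (h : Mem ε A x) : Mem ε (Af.ssub 1 A) (1 - x) := by
  simpa using h.ssub 1

end Pool.Agent.Lib.MP_efb7ef_gt.T
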