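import Pool.Agent.Lib.MP_efb7ef_gt.T.AfMem

/-! Soundness of the product. -/

namespace Pool.Agent.Lib.MP_efb7ef_gt.T

variable {ε : Eps} {A B : Af} {x y : ℝ}

theorem afm_shs (p q : ℕ) {e : ℝ} (he : |e| ≤ 1) :
    |(((p : ℝ) - q) / 4294967296 - ((Af.shs p q : ℝ) - Af.shs q p)) * e| ≤ 1 := by
  rw [abs_mul]
  refine mul_le_one₀ ?_ (abs_nonneg e) he
  have h1 := shn_err (p - q)
  have h2 := shn_err (q - p)
  have h3 : ((p - q : ℕ) : ℝ) + q = (q - p : ℕ) + p := by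
    exact_mod_cast (by omega : p - q + q = q - p + p)
  simp only [Af.shs, Nat.sub_eq]
  rw [abs_le]
  constructor <;> linarith [h1.1, h1.2, h2.1, h2.2]

theorem afm_le {c : ℕ} {t r : ℝ} (h : |t| ≤ r) : |c * t| ≤ c * r := by
  rw [abs_mul, Nat.abs_cast]
  exact mul_le_mul_of_nonneg_left h c.cast_nonneg

theorem afm_mul (h : Mem ε A x) (k : Mem ε B y) (ha : A.ok = true → A.d = 0)
    (hb : B.ok = true → B.d = 0) : Mem ε (A.mulP B) (x * y) := by
  intro ho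
  obtain ⟨o1, o2⟩ := Bool.and_eq_true_iff.1 ho
  refine ⟨.inr rfl, ?_⟩
  have m1 := abs_le.1 (afm_le (c := A.c) (k o2).2)
  have m2 := abs_le.1 (afm_le (c := B.c) (h o1).2)
  have m3 := abs_le.1 ((abs_mul _ _).trans_le
    (mul_le_mul (h.rad o1) (k.rad o2) (abs_nonneg _) (Nat.cast_nonneg _)))
  rw [hb o2] at m1 m3
  rw [ha o1] at m2 m3
  have e0 := shn_err (A.c * B.c)
  have e1 := abs_le.1 (afm_shs (A.c * B.x + B.c * A.x) (A.c * B.u + B.c * A.u) ε.ha)
  have e2 := abs_le.1 (afm_shs (A.c * B.y + B.c * A.y) (A.c * B.v + B.c * A.v) ε.hb)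
  have e3 := abs_le.1 (afm_shs (A.c * B.z + B.c * A.z) (A.c * B.w + B.c * A.w) ε.hc)
  have e4 := shn_err (A.c * B.r + B.c * A.r + A.rad * B.rad)
  simp only [Af.mulP, Af.nsh, Nat.add_eq, Nat.mul_eq]
  push_cast at *
  rw [abs_le]
  constructor <;> linarith [m1.1, m1.2, m2.1, m2.2, m3.1, m3.2, e0.1, e0.2, e1.1, e1.2, e2.1, e2.2,
    e3.1, e3.2, e4.2]

theorem afm_neg (h : Mem ε A x) (e : Nat.beq A.d 0 = false) (ho : A.neg.ok = true) : A.neg.d = 0 :=
  (h ho).1.resolve_right (Nat.ne_of_beq_eq_false e)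

theorem afm_sq (h : Mem ε A x) (ha : A.ok = true → A.d = 0) : Mem ε A.sqP (x ^ 2) := by
  refine h.lin id fun ho => ?_
  have h1 := abs_le.1 (h.rad ho)
  rw [ha ho] at h1 ⊢
  have h2 := sq_le_sq' h1.1 h1.2
  have h3 := sq_nonneg (x * 4294967296 - ((A.c : ℝ) - (0 : ℕ)))
  have h4 : (A.rad : ℝ) * A.rad ≤ 2 * (A.rad * A.rad / 2 : ℕ) + 1 := by
    exact_mod_cast (by omega : A.rad * A.rad ≤ 2 * (A.rad * A.rad / 2) + 1)
  have e0 := shn_err (A.c * A.c + A.rad * A.rad / 2)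
  have e1 := shn_err (A.rad * A.rad / 2)
  simp only [Nat.add_eq, Nat.mul_eq, show ∀ a, Nat.div a 2 = a / 2 from fun _ => rfl]
  generalize A.rad * A.rad / 2 = g at *
  push_cast at *
  rw [← le_sub_iff_add_le, abs_le]
  constructor <;> linarith [e0.1, e0.2, e1.2]

theorem Mem.mul (h : Mem ε A x) (k : Mem ε B y) : Mem ε (A.mul B) (x * y) := by
  unfold Af.mul
  cases e : Nat.beq A.d 0 <;> cases e' : Nat.beq B.d 0 <;> simp only [cond_true, cond_false]
  · simpa using afm_mul h.neg k.neg (afm_neg h e) (afm_neg k e')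
  · simpa using (afm_mul h.neg k (afm_neg h e) fun _ => Nat.eq_of_beq_eq_true e').neg
  · simpa using (afm_mul h k.neg (fun _ => Nat.eq_of_beq_eq_true e) (afm_neg k e')).neg
  · exact afm_mul h k (fun _ => Nat.eq_of_beq_eq_true e) fun _ => Nat.eq_of_beq_eq_true e'

theorem Mem.sq (h : Mem ε A x) : Mem ε A.sq (x ^ 2) := by
  unfold Af.sq
  cases e : Nat.beq A.d 0 <;> simp only [cond_true, cond_false]
  · simpa using afm_sq h.neg (afm_neg h e)
  · exact afm_sq h fun _ => Nat.eq_of_beq_eq_true e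

end Pool.Agent.Lib.MP_efb7ef_gt.T
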