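import Pool.Agent.Lib.MP_efb7ef_gt.T.AfMem

/-! Soundness of the square root. -/

namespace Pool.Agent.Lib.MP_efb7ef_gt.T

variable {ε : Eps} {A : Af} {x : ℝ}

theorem rt_scale (x : ℝ) : √x * 4294967296 = √(x * 4294967296 * 4294967296) := by
  rw [mul_assoc, Real.sqrt_mul' x (by norm_num), Real.sqrt_mul_self (by norm_num)]

theorem rt_quad {c R s h X U σ V : ℝ} (hU : 0 < U) (hR : 0 ≤ R) (hc : 2 * R < c)
    (hD : |X - c| ≤ R) (hs : 0 < s) (hσ : s ≤ σ) (e1 : σ * σ = c * U) (hV : 0 ≤ V)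
    (e2 : V * V = X * U)
    (hh : R * R * (c * U) < (h + 1) * (4 * s * ((2 * c - R) * (2 * c - R)))) :
    (V - σ) * (V - σ) ≤ 4 * σ * (h + 1) := by
  obtain ⟨d1, d2⟩ := abs_le.1 hD
  have c0 : 0 < c := by linarith
  have cR : 0 < c - R := by linarith
  have m0 : 0 < 2 * c - R := by linarith
  have σ0 : 0 < σ := by linarith
  have a1 : σ * (c - R) ≤ V * c := by
    refine (mul_self_le_mul_self_iff (by positivity) (by positivity)).2 ?_
    have e3 : σ * (c - R) * (σ * (c - R)) = c * U * ((c - R) * (c - R)) := by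
      rw [← e1]; ring
    have e4 : V * c * (V * c) = c * U * (X * c) := by
      have : V * c * (V * c) = V * V * (c * c) := by ring
      rw [this, e2]; ring
    rw [e3, e4]
    refine mul_le_mul_of_nonneg_left ?_ (by positivity)
    exact mul_le_mul (by linarith) (by linarith) cR.le (by linarith)
  have a2 : σ * (2 * c - R) ≤ (V + σ) * c := by linarith
  have a3 : σ * (2 * c - R) * (σ * (2 * c - R)) ≤ (V + σ) * c * ((V + σ) * c) :=
    mul_self_le_mul_self (by positivity) a2
  have a4 : (X - c) * (X - c) ≤ R * R := by nlinarith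
  have w0 : 0 ≤ (V - σ) * (V - σ) := mul_self_nonneg _
  have e5 : (V - σ) * (V + σ) = (X - c) * U := by linarith
  have a5 : (V - σ) * (V - σ) * ((2 * c - R) * (2 * c - R)) * (c * U) ≤
      R * R * (c * U) * (c * U) := by
    calc (V - σ) * (V - σ) * ((2 * c - R) * (2 * c - R)) * (c * U)
        = (V - σ) * (V - σ) * (σ * (2 * c - R) * (σ * (2 * c - R))) := by rw [← e1]; ring
      _ ≤ (V - σ) * (V - σ) * ((V + σ) * c * ((V + σ) * c)) := mul_le_mul_of_nonneg_left a3 w0
      _ = ((V - σ) * (V + σ)) * ((V - σ) * (V + σ)) * (c * c) := by ring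
      _ = (X - c) * (X - c) * ((c * U) * (c * U)) := by rw [e5]; ring
      _ ≤ R * R * ((c * U) * (c * U)) := mul_le_mul_of_nonneg_right a4 (by positivity)
      _ = _ := by ring
  have a6 : (V - σ) * (V - σ) * ((2 * c - R) * (2 * c - R)) ≤ R * R * (c * U) :=
    le_of_mul_le_mul_right a5 (by positivity)
  have a7 : (V - σ) * (V - σ) * ((2 * c - R) * (2 * c - R)) <
      4 * s * (h + 1) * ((2 * c - R) * (2 * c - R)) := by linarith
  have a8 : (V - σ) * (V - σ) < 4 * s * (h + 1) := lt_of_mul_lt_mul_right a7 (by positivity)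
  have h0 : 0 ≤ h + 1 := by
    by_contra hn
    have : 4 * s * (h + 1) ≤ 0 := mul_nonpos_of_nonneg_of_nonpos (by positivity) (by linarith)
    linarith
  have a9 : 4 * s * (h + 1) ≤ 4 * σ * (h + 1) :=
    mul_le_mul_of_nonneg_right (by linarith) h0
  linarith

theorem rt_slope {s σ k q N : ℝ} (hN : 0 ≤ N) (hs : 0 < s) (h1 : s ≤ σ) (h2 : σ ≤ s + 1)
    (hk1 : k ≤ N / s) (hk2 : N / s < k + 1) (hq : N / (s * s) < q + 1) :
    |N / σ - k| ≤ q + 2 := by
  have σ0 : 0 < σ := by linarith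
  have q0 : 0 ≤ N / (s * s) := by positivity
  have a1 : N / σ ≤ N / s := div_le_div_of_nonneg_left hN hs h1
  have a2 : N / s - N / σ ≤ N / (s * s) := by
    have e : N / s - N / σ = N * (σ - s) / (s * σ) := by field_simp
    rw [e]
    calc N * (σ - s) / (s * σ) ≤ N / (s * σ) := by
          refine div_le_div_of_nonneg_right ?_ (by positivity)
          nlinarith
      _ ≤ N / (s * s) :=
          div_le_div_of_nonneg_left hN (by positivity) (mul_le_mul_of_nonneg_left h1 hs.le)
  rw [abs_le]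
  constructor <;> linarith

theorem rt_core {c R s h k q X U N : ℝ} (hU : 0 < U) (hN : 2 * N = U * U) (hR : 0 ≤ R)
    (hc : 2 * R < c) (hD : |X - c| ≤ R) (hs : 0 < s) (h1 : s * s ≤ c * U)
    (h2 : c * U ≤ (s + 1) * (s + 1))
    (hh : R * R * (c * U) < (h + 1) * (4 * s * ((2 * c - R) * (2 * c - R))))
    (hk1 : k ≤ N / s) (hk2 : N / s < k + 1) (hq : N / (s * s) < q + 1) :
    |√(X * U) - (s - h + k * (X - c) / U)| ≤ R * (q + 2) / U + h + 3 := by
  obtain ⟨d1, d2⟩ := abs_le.1 hD
  have c0 : 0 < c := by linarith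
  have X0 : 0 < X := by linarith
  have N0 : 0 ≤ N := by nlinarith
  have e1 : √(c * U) * √(c * U) = c * U := Real.mul_self_sqrt (by positivity)
  have e2 : √(X * U) * √(X * U) = X * U := Real.mul_self_sqrt (by positivity)
  have l1 : s ≤ √(c * U) := Real.le_sqrt_of_sq_le (by rw [sq]; exact h1)
  have l2 : √(c * U) ≤ s + 1 := Real.sqrt_le_iff.2 ⟨by linarith, by rw [sq]; exact h2⟩
  have V0 : 0 ≤ √(X * U) := Real.sqrt_nonneg _
  generalize √(c * U) = σ at *
  generalize √(X * U) = V at *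
  have σ0 : 0 < σ := by linarith
  have w := rt_quad hU hR hc hD hs l1 e1 V0 e2 hh
  have sl := rt_slope N0 hs l1 l2 hk1 hk2 hq
  have t0 : 0 ≤ (V - σ) * (V - σ) / (2 * σ) := div_nonneg (mul_self_nonneg _) (by positivity)
  have t1 : (V - σ) * (V - σ) / (2 * σ) ≤ 2 * (h + 1) := by
    rw [div_le_iff₀ (by positivity)]; linarith
  have e3 : V = σ + (X - c) * (N / σ) / U - (V - σ) * (V - σ) / (2 * σ) := by
    have e4 : (X - c) * (N / σ) / U = (X - c) * U / (2 * σ) := by
      have : N = U * U / 2 := by linarith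
      rw [this]; field_simp
    have e5 : (X - c) * U = V * V - σ * σ := by linarith
    rw [e4, e5]; field_simp; ring
  have b : |(X - c) * (N / σ - k) / U| ≤ R * (q + 2) / U := by
    rw [abs_div, abs_of_pos hU, abs_mul]
    exact div_le_div_of_nonneg_right (mul_le_mul hD sl (abs_nonneg _) hR) hU.le
  have e6 : (X - c) * (N / σ - k) / U = (X - c) * (N / σ) / U - k * (X - c) / U := by ring
  obtain ⟨b1, b2⟩ := abs_le.1 b
  rw [abs_le]
  constructor <;> linarith

theorem isqOk_spec {n s : ℕ} (h : Af.isqOk n s = true) :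
    (s : ℝ) * s ≤ n ∧ (n : ℝ) ≤ (s + 1) * (s + 1) := by
  simp only [Af.isqOk, Bool.and_eq_true, Nat.ble_eq, Nat.mul_eq, Nat.succ_eq_add_one] at h
  exact ⟨by exact_mod_cast h.1, by exact_mod_cast h.2⟩

theorem div_lt_real (a : ℕ) {b : ℕ} (hb : 0 < b) : (a : ℝ) < (((a / b : ℕ) : ℝ) + 1) * b := by
  have := Nat.lt_mul_div_succ a hb
  rw [mul_comm] at this
  exact_mod_cast this

theorem rt_main (h : Mem ε A x) {c R n s m g : ℕ} (ec : c = A.c) (eR : R = A.rad)
    (hc : 2 * R < c) (en : n = c * 4294967296) (em : m = 2 * c - R)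
    (eg : g = R * R * n / (4 * s * (m * m))) :
    Mem ε (Af.lin (and (and A.ok (Af.isqOk n s)) (Nat.blt g s)) (s - g) (9223372036854775808 / s)
      (Nat.shiftRight (R * (9223372036854775808 / (s * s) + 2)) 32 + g + 8) A) √x := by
  refine h.lin (fun ho => ?_) (fun ho => ?_)
  · simp only [Bool.and_eq_true] at ho
    exact ho.1.1
  simp only [Bool.and_eq_true, Nat.blt_eq] at ho
  obtain ⟨⟨ho, hq⟩, hg⟩ := ho
  have hs : 0 < s := Nat.zero_lt_of_lt hg
  obtain ⟨q1, q2⟩ := isqOk_spec hq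
  have hr := h.rad ho
  have e0 : A.d = 0 := (h ho).1.resolve_left (by omega)
  have e1 : (A.c : ℝ) - A.d = c := by rw [e0, ec, Nat.cast_zero, sub_zero]
  have e2 : (n : ℝ) = c * 4294967296 := by rw [en]; push_cast; ring
  have e3 : (m : ℝ) = 2 * c - R := by
    rw [em, Nat.cast_sub (by omega)]; push_cast; ring
  have m0 : 0 < m := by omega
  have s0 : (0 : ℝ) < s := by exact_mod_cast hs
  have g1 := div_lt_real (R * R * n) (show 0 < 4 * s * (m * m) by positivity)
  rw [← eg] at g1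
  push_cast at g1
  rw [e2, e3] at g1
  rw [e2] at q1 q2
  rw [← eR, e1] at hr
  have k1 : ((9223372036854775808 / s : ℕ) : ℝ) ≤ 9223372036854775808 / s := by
    simpa using Nat.cast_div_le (α := ℝ) (m := 9223372036854775808) (n := s)
  have k2 : (9223372036854775808 : ℝ) / s < ((9223372036854775808 / s : ℕ) : ℝ) + 1 := by
    rw [div_lt_iff₀ s0]
    simpa using div_lt_real 9223372036854775808 hs
  have k3 : (9223372036854775808 : ℝ) / (s * s) <
      ((9223372036854775808 / (s * s) : ℕ) : ℝ) + 1 := by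
    rw [div_lt_iff₀ (by positivity)]
    simpa using div_lt_real 9223372036854775808 (show 0 < s * s by positivity)
  have core := rt_core (U := 4294967296) (N := 9223372036854775808) (by norm_num) (by norm_num)
    (Nat.cast_nonneg R) (by exact_mod_cast hc) hr s0 q1 q2 g1 k1 k2 k3
  have sh := (shn_err (R * (9223372036854775808 / (s * s) + 2))).2
  rw [rt_scale, e1, Nat.cast_sub hg.le, Nat.cast_add, Nat.cast_add]
  generalize Nat.shiftRight _ 32 = r at *
  generalize 9223372036854775808 / (s * s) = q at *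
  generalize 9223372036854775808 / s = k at *
  push_cast at sh ⊢
  linarith

theorem rt_wide (h : Mem ε A x) {c R n s n' s' p : ℕ} (ec : c = A.c) (eR : R = A.rad)
    (en : n = (c - R) * 4294967296) (en' : n' = (c + R) * 4294967296)
    (ep : p = (s + (s' + 1)) / 2) :
    Mem ε ⟨and (and A.ok (Af.isqOk n s)) (Af.isqOk n' s'), p, 0, 0, 0, 0, 0, 0, 0, s' + 1 - p⟩
      √x := by
  intro ho
  simp only [Bool.and_eq_true] at ho
  obtain ⟨⟨ho, hq⟩, hq'⟩ := ho
  have q1 := (isqOk_spec hq).1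
  have q2 := (isqOk_spec hq').2
  obtain ⟨d1, d2⟩ := abs_le.1 (h.rad ho)
  rw [← eR, ← ec] at d1 d2
  have c1 : (0 : ℝ) ≤ A.d := Nat.cast_nonneg _
  have up : √(x * 4294967296 * 4294967296) ≤ s' + 1 := by
    refine Real.sqrt_le_iff.2 ⟨by positivity, ?_⟩
    rw [en'] at q2
    push_cast at q2
    rw [sq]
    linarith
  have lo : (s : ℝ) ≤ √(x * 4294967296 * 4294967296) := by
    rcases le_or_gt c R with hle | hlt
    · have n0 : n = 0 := by rw [en, Nat.sub_eq_zero_of_le hle, zero_mul]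
      rw [n0, Nat.cast_zero] at q1
      have := Real.sqrt_nonneg (x * 4294967296 * 4294967296)
      nlinarith
    · rw [(h ho).1.resolve_left (by omega), Nat.cast_zero] at d1
      refine Real.le_sqrt_of_sq_le ?_
      rw [en, Nat.cast_mul, Nat.cast_sub hlt.le] at q1
      push_cast at q1
      rw [sq]
      linarith
  have p1 : (s' : ℝ) + 1 ≤ p + ((s' + 1 - p : ℕ) : ℝ) := by
    have : s' + 1 ≤ p + (s' + 1 - p) := by omega
    exact_mod_cast this
  have p2 : (p : ℝ) ≤ s + ((s' + 1 - p : ℕ) : ℝ) := by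
    have : p ≤ s + (s' + 1 - p) := by omega
    exact_mod_cast this
  refine ⟨.inr rfl, ?_⟩
  rw [rt_scale, abs_le]
  simp only [Nat.cast_zero, sub_zero, zero_mul, add_zero]
  constructor <;> linarith

theorem Mem.rt (h : Mem ε A x) : Mem ε A.rt √x := by
  unfold Af.rt
  cases hb : Nat.blt (Nat.mul 2 A.rad) A.c
  · simp only [hb, cond_false]
    exact rt_wide h rfl rfl rfl rfl rfl
  · simp only [hb, cond_true]
    exact rt_main h rfl rfl (Nat.blt_eq.mp hb) rfl rfl rfl

end Pool.Agent.Lib.MP_efb7ef_gt.T
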