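import Pool.Agent.Lib.MP_efb7ef_gt.T.Defs
import Pool.Agent.Lib.MP_efb7ef_gt.T.Abs

/-! The smooth branches of the kernel and their derivatives. The sign `θ` is `1` above the
diagonal and `-1` below it. -/

namespace Pool.Agent.Lib.MP_efb7ef_gt.T

open Set Function

noncomputable def vv (e t s : ℝ) : ℝ := (1 - e) * t + (1 + e) * s

noncomputable def ww (e t s : ℝ) : ℝ := √(vv e t s ^ 2 + 4 * (1 - e * s ^ 2))

noncomputable def uu (θ e t s : ℝ) : ℝ := θ * ww e t s - vv e t s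

noncomputable def qq (θ e t s : ℝ) : ℝ := 4 * (1 - e * s ^ 2) + 2 * e * ((t - s) * uu θ e t s)

noncomputable def h1 (θ e t s : ℝ) : ℝ := uu θ e t s * (uu θ e t s + 2 * s) / (θ * ww e t s)

noncomputable def h2 (θ e t s : ℝ) : ℝ :=
  -((1 - e) * uu θ e t s * (2 * uu θ e t s ^ 2 + 3 * uu θ e t s * vv e t s +
    2 * s * (uu θ e t s + 2 * vv e t s))) / (θ * ww e t s) ^ 3

noncomputable def s1 (θ e t s : ℝ) : ℝ := h1 θ e t s / √(qq θ e t s)

noncomputable def s2 (θ e t s : ℝ) : ℝ :=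
  h2 θ e t s / √(qq θ e t s) - e * h1 θ e t s ^ 2 / √(qq θ e t s) ^ 3

/-- The concrete data. -/
noncomputable def dat (e : ℝ) : Dat where
  L := 1 / √e
  c := 2 * (1 - e) / 3
  K := kk e
  P1 t s := e * (s1 1 e t s + s1 1 e t (-s))
  P2 t s := e * (s2 1 e t s + s2 1 e t (-s))
  M1 t s := e * (s1 (-1) e t s + s1 1 e t (-s))
  M2 t s := e * (s2 (-1) e t s + s2 1 e t (-s))
  J := jj e

variable {θ e t s : ℝ}

theorem le_L (he : 0 < e) (ht : 0 ≤ t) : t ≤ 1 / √e ↔ e * t ^ 2 ≤ 1 := by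
  rw [← sq_le_sq₀ ht (by positivity), div_pow, Real.sq_sqrt he.le, one_pow, le_div_iff₀' he]

theorem lt_L (he : 0 < e) (ht : 0 ≤ t) : t < 1 / √e ↔ e * t ^ 2 < 1 := by
  rw [← sq_lt_sq₀ ht (by positivity), div_pow, Real.sq_sqrt he.le, one_pow, lt_div_iff₀' he]

theorem br_sq (he : 0 ≤ e) (ht : e * t ^ 2 ≤ 1) (hs : e * s ^ 2 ≤ 1) (hθ : θ * (t - s) = |t - s|) :
    (√((xx e t - xx e s) ^ 2 + (e * (t - s)) ^ 2) + √((xx e t + xx e s) ^ 2 + (e * (t - s)) ^ 2)) ^ 2 =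
      qq θ e t s := by
  have a : xx e t ^ 2 = 1 - e * t ^ 2 := Real.sq_sqrt (by linarith)
  have b : xx e s ^ 2 = 1 - e * s ^ 2 := Real.sq_sqrt (by linarith)
  have c : ((xx e t - xx e s) ^ 2 + (e * (t - s)) ^ 2) * ((xx e t + xx e s) ^ 2 + (e * (t - s)) ^ 2) =
      (e * (t - s)) ^ 2 * (vv e t s ^ 2 + 4 * (1 - e * s ^ 2)) := by
    have : (xx e t - xx e s) ^ 2 * (xx e t + xx e s) ^ 2 = (xx e t ^ 2 - xx e s ^ 2) ^ 2 := by ring
    rw [a, b] at this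
    unfold vv
    linear_combination this + 2 * (e * (t - s)) ^ 2 * (a + b)
  rw [add_sq, Real.sq_sqrt (by positivity), Real.sq_sqrt (by positivity), mul_assoc,
    ← Real.sqrt_mul (by positivity), c, Real.sqrt_mul (by positivity), Real.sqrt_sq_eq_abs, abs_mul,
    abs_of_nonneg he, ← hθ]
  unfold qq uu ww vv
  linear_combination 2 * a + 2 * b

/-- The sum of the distances to two points on one horizontal line. -/
theorem pair_eq (he : 0 ≤ e) (ht : e * t ^ 2 ≤ 1) (hs : e * s ^ 2 ≤ 1)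
    (hθ : θ * (t - s) = |t - s|) :
    √((xx e t - xx e s) ^ 2 + (e * (t - s)) ^ 2) + √((xx e t + xx e s) ^ 2 + (e * (t - s)) ^ 2) =
      √(qq θ e t s) := by
  rw [← br_sq he ht hs hθ, Real.sqrt_sq (by positivity)]

theorem br_xx (e s : ℝ) : xx e (-s) = xx e s := by simp [xx]

theorem kk_P (he : 0 ≤ e) (h0 : 0 ≤ s) (hst : s ≤ t) (ht : e * t ^ 2 ≤ 1) :
    kk e t s = √(qq 1 e t s) + √(qq 1 e t (-s)) := by
  have hs : e * s ^ 2 ≤ 1 := (mul_le_mul_of_nonneg_left (pow_le_pow_left₀ h0 hst 2) he).trans ht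
  rw [← pair_eq he ht hs (by rw [one_mul, abs_of_nonneg (by linarith)]),
    ← pair_eq he ht (by rwa [neg_sq]) (by rw [one_mul, abs_of_nonneg (by linarith)]), br_xx,
    sub_neg_eq_add, kk]

theorem kk_M (he : 0 ≤ e) (h0 : -s ≤ t) (hts : t ≤ s) (hs : e * s ^ 2 ≤ 1) :
    kk e t s = √(qq (-1) e t s) + √(qq 1 e t (-s)) := by
  have ht : e * t ^ 2 ≤ 1 := (mul_le_mul_of_nonneg_left (sq_le_sq' h0 hts) he).trans hs
  rw [← pair_eq he ht hs (by rw [neg_one_mul, abs_of_nonpos (by linarith)]),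
    ← pair_eq he ht (by rwa [neg_sq]) (by rw [one_mul, abs_of_nonneg (by linarith)]), br_xx,
    sub_neg_eq_add, kk]

theorem ww_pos (he : 0 < e) (he1 : e ≤ 1) (ht : e * t ^ 2 ≤ 1) (hs : e * s ^ 2 ≤ 1) :
    0 < ww e t s ∧ ww e t s ^ 2 = vv e t s ^ 2 + 4 * (1 - e * s ^ 2) := by
  have : 0 < vv e t s ^ 2 + 4 * (1 - e * s ^ 2) := by
    by_contra! h
    have h1 : e * s ^ 2 = 1 := by nlinarith [sq_nonneg (vv e t s)]
    have h2 : vv e t s = 0 := pow_eq_zero_iff two_ne_zero |>.1 (by nlinarith [sq_nonneg (vv e t s)])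
    have h3 : (1 - e) ^ 2 * (e * t ^ 2) = (1 + e) ^ 2 := by
      unfold vv at h2
      linear_combination e * ((1 - e) * t - (1 + e) * s) * h2 + (1 + e) ^ 2 * h1
    nlinarith [mul_le_mul_of_nonneg_left ht (sq_nonneg (1 - e))]
  exact ⟨Real.sqrt_pos.2 this, Real.sq_sqrt this.le⟩

theorem qq_pos (he : 0 < e) (ht : e * t ^ 2 < 1) (hs : e * s ^ 2 ≤ 1)
    (hθ : θ * (t - s) = |t - s|) : 0 < qq θ e t s := by
  have a : 0 < xx e t := Real.sqrt_pos.2 (by linarith)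
  have b : 0 ≤ xx e s := Real.sqrt_nonneg _
  rw [← br_sq he.le ht.le hs hθ]
  positivity

theorem br_W (hθ : θ = 1 ∨ θ = -1) (hw : 0 < vv e t s ^ 2 + 4 * (1 - e * s ^ 2)) :
    θ * ww e t s ≠ 0 ∧
    HasDerivAt (fun u => θ * ww e u s) ((1 - e) * vv e t s / (θ * ww e t s)) t ∧
    HasDerivAt (fun u => uu θ e u s) (-((1 - e) * uu θ e t s) / (θ * ww e t s)) t := by
  have w0 : ww e t s ≠ 0 := (Real.sqrt_pos.2 hw).ne'
  have v : HasDerivAt (fun u => vv e u s) (1 - e) t := by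
    simpa [vv] using ((hasDerivAt_id t).const_mul (1 - e)).add_const ((1 + e) * s)
  have w := (((v.fun_pow 2).add_const (4 * (1 - e * s ^ 2))).sqrt hw.ne').const_mul θ
  have k : HasDerivAt (fun u => θ * ww e u s) ((1 - e) * vv e t s / (θ * ww e t s)) t := by
    refine w.congr_deriv ?_
    rw [show √(vv e t s ^ 2 + 4 * (1 - e * s ^ 2)) = ww e t s from rfl]
    rcases hθ with rfl | rfl <;> field_simp <;> norm_num <;> ring
  have t0 : θ ≠ 0 := by rcases hθ with rfl | rfl <;> norm_num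
  refine ⟨mul_ne_zero t0 w0, k, (k.fun_sub v).congr_deriv ?_⟩
  unfold uu
  field_simp
  ring

theorem deriv_s0 (hθ : θ = 1 ∨ θ = -1) (hw : 0 < vv e t s ^ 2 + 4 * (1 - e * s ^ 2))
    (hq : 0 < qq θ e t s) : HasDerivAt (fun u => √(qq θ e u s)) (e * s1 θ e t s) t := by
  obtain ⟨w0, -, u⟩ := br_W hθ hw
  refine (((((hasDerivAt_id' t).sub_const s).fun_mul u).const_mul (2 * e)).const_add
    (4 * (1 - e * s ^ 2))).sqrt hq.ne' |>.congr_deriv ?_
  rw [show 4 * (1 - e * s ^ 2) + 2 * e * ((t - s) * uu θ e t s) = qq θ e t s from rfl]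
  have := (Real.sqrt_pos.2 hq).ne'
  simp only [s1, h1, uu]
  generalize θ * ww e t s = W at *
  unfold vv
  field_simp
  ring

theorem deriv_s1 (hθ : θ = 1 ∨ θ = -1) (hw : 0 < vv e t s ^ 2 + 4 * (1 - e * s ^ 2))
    (hq : 0 < qq θ e t s) : HasDerivAt (fun u => s1 θ e u s) (s2 θ e t s) t := by
  obtain ⟨w0, w, u⟩ := br_W hθ hw
  have q0 := (Real.sqrt_pos.2 hq).ne'
  refine (((u.fun_mul (u.add_const (2 * s))).fun_div w w0).fun_div (deriv_s0 hθ hw hq)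
    q0).congr_deriv ?_
  simp only [s1, s2, h1, h2, uu]
  generalize θ * ww e t s = W at *
  field_simp
  ring

end Pool.Agent.Lib.MP_efb7ef_gt.T
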