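import Pool.Agent.Lib.MP_efb7ef_gt.T.ProgA

/-! The tests on boxes. -/

namespace Pool.Agent.Lib.MP_efb7ef_gt.T

def fNearP (B : Box) : Bool := (pNearP B.v0 B.v1 B.v2).isNeg

def fNearM (B : Box) : Bool := (pNearM B.v0 B.v1 B.v2).isNeg

def fRowP (B : Box) : Bool := (pRowP B.v0 B.v1 B.v2).isNeg

def fRowM (B : Box) : Bool := (pRowM B.v0 B.v1 B.v2).isNeg

def fStart (B : Box) : Bool := (pStart B.v0 B.v1).isNeg

def fStop (B : Box) : Bool := (pStop B.v0 B.v1).isNeg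

def fFarA (l k : Nat) (B : Box) : Bool := (pFarA B.v0 B.v1 B.v2 (Af.dy l) (Af.dy k)).isNeg

def fFarB (l k : Nat) (B : Box) : Bool := (pFarB B.v0 B.v1 B.v2 (Af.dy l) (Af.dy k)).isNeg

/-- `3 < x` on the box -/
def big (l : Nat) : Bool := Nat.blt 12884901888 l

/-- `1 ≤ e * t ^ 2` on the box -/
def out (e t : Nat) : Bool := Nat.ble 79228162514264337593543950336 (Nat.mul e (Nat.mul t t))

def gP (B : Box) : Bool := or (Nat.blt B.h1 B.l2) (or (big B.l1) (out B.l0 B.l1))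

def gM (B : Box) : Bool := or (Nat.blt B.h2 B.l1) (or (big B.l2) (out B.l0 B.l2))

def gS (B : Box) : Bool := big B.l1

def gA (B : Box) : Bool := or (big B.l2) (out B.l0 B.l1)

def gB (B : Box) : Bool :=
  or (big B.l2) (Nat.blt (Nat.mul B.h1 B.h1) (Nat.mul B.l0 4294967296))

end Pool.Agent.Lib.MP_efb7ef_gt.T
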