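import Pool.Agent.Lib.MP_efb7ef_gt.T.Abs

/-! An atom plus a bounded density. -/

namespace Pool.Agent.Lib.MP_efb7ef_gt.T

open Set Function MeasureTheory

variable {d : Dat}

theorem Dens.int {α : ℝ} {f ψ : ℝ → ℝ} (h0 : 0 ≤ α) (hf : Dens α f) (hψ : Measurable ψ)
    (hb : ∃ C, ∀ s ∈ Icc 0 α, |ψ s| ≤ C) : IntervalIntegrable (fun s => ψ s * f s) volume 0 α := by
  obtain ⟨C, hC⟩ := hb
  obtain ⟨B, hB⟩ := hf.bd
  refine (intervalIntegrable_iff_integrableOn_Icc_of_le h0).2 (Measure.integrableOn_of_bounded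
    (M := C * B) measure_Icc_lt_top.ne (hψ.mul hf.meas).aestronglyMeasurable
    (ae_restrict_of_forall_mem measurableSet_Icc fun s hs => ?_))
  rw [norm_mul, Real.norm_of_nonneg (hB s hs).1]
  exact mul_le_mul (hC s hs) (hB s hs).2 (hB s hs).1 ((abs_nonneg _).trans (hC s hs))

theorem Dens.intc {α : ℝ} {f ψ : ℝ → ℝ} (h0 : 0 ≤ α) (hf : Dens α f) (hψ : Continuous ψ) :
    IntervalIntegrable (fun s => ψ s * f s) volume 0 α := by
  exact hf.int h0 hψ.measurable (isCompact_Icc.exists_bound_of_continuousOn hψ.continuousOn)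

/-- Fubini for a bounded measurable function on a rectangle. -/
theorem swap_bd {α β C : ℝ} {F : ℝ → ℝ → ℝ} (h0 : 0 ≤ α) (h1 : 0 ≤ β)
    (hF : Measurable (uncurry F)) (hb : ∀ t ∈ Icc 0 α, ∀ s ∈ Icc 0 β, |F t s| ≤ C) :
    ∫ t in (0 : ℝ)..α, ∫ s in (0 : ℝ)..β, F t s = ∫ s in (0 : ℝ)..β, ∫ t in (0 : ℝ)..α, F t s := by
  simp only [intervalIntegral.integral_of_le h0, intervalIntegral.integral_of_le h1]
  refine integral_integral_swap ?_
  rw [Measure.prod_restrict]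
  exact Measure.integrableOn_of_bounded (M := C)
    (by rw [Measure.prod_prod]; exact ENNReal.mul_ne_top measure_Ioc_lt_top.ne measure_Ioc_lt_top.ne)
    hF.aestronglyMeasurable (ae_restrict_of_forall_mem (measurableSet_Ioc.prod measurableSet_Ioc)
      fun p hp => hb _ (Ioc_subset_Icc_self hp.1) _ (Ioc_subset_Icc_self hp.2))

theorem lam_mono {s₀ α : ℝ} {f φ ψ : ℝ → ℝ} (h0 : 0 ≤ α) (hf : Dens α f) (hφ : Continuous φ)
    (hψ : Continuous ψ) (h1 : φ s₀ ≤ ψ s₀) (h2 : ∀ s ∈ Icc 0 α, φ s ≤ ψ s) :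
    lam s₀ α f φ ≤ lam s₀ α f ψ := by
  obtain ⟨B, hB⟩ := hf.bd
  exact add_le_add h1 (intervalIntegral.integral_mono_on h0 (hf.intc h0 hφ) (hf.intc h0 hψ)
    fun s hs => mul_le_mul_of_nonneg_right (h2 s hs) (hB s hs).1)

theorem lam_const (s₀ α : ℝ) (f : ℝ → ℝ) (x : ℝ) :
    lam s₀ α f (fun _ => x) = x * lam s₀ α f (fun _ => 1) := by
  simp [lam, mul_add]

theorem one_le_lam (s₀ : ℝ) {α : ℝ} {f : ℝ → ℝ} (h0 : 0 ≤ α) (hf : Dens α f) :
    1 ≤ lam s₀ α f (fun _ => 1) := by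
  obtain ⟨B, hB⟩ := hf.bd
  exact le_add_of_nonneg_right (intervalIntegral.integral_nonneg h0 fun s hs =>
    mul_nonneg zero_le_one (hB s hs).1)

private theorem lam_par {K : ℝ → ℝ → ℝ} (hK : Continuous (uncurry K)) {α : ℝ} {f : ℝ → ℝ}
    (h0 : 0 ≤ α) (hf : Dens α f) : Continuous fun t => ∫ s in (0 : ℝ)..α, K t s * f s := by
  refine continuous_iff_continuousAt.2 fun t => ?_
  obtain ⟨C, hC⟩ := ((isCompact_closedBall t 1).prod (isCompact_Icc (a := (0 : ℝ)) (b := α))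
    ).exists_bound_of_continuousOn hK.continuousOn
  obtain ⟨B, hB⟩ := hf.bd
  refine intervalIntegral.continuousAt_of_dominated_interval (bound := fun _ => C * B)
    (.of_forall fun u => ((hK.uncurry_left u).measurable.mul hf.meas).aestronglyMeasurable)
    (Filter.Eventually.mono (Metric.closedBall_mem_nhds t one_pos) fun u hu =>
      .of_forall fun s hs => ?_) intervalIntegrable_const
    (.of_forall fun s _ => ((hK.uncurry_right s).mul continuous_const).continuousAt)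
  rw [uIoc_of_le h0] at hs
  have h1 := hB s (Ioc_subset_Icc_self hs)
  have h2 := hC (u, s) ⟨hu, Ioc_subset_Icc_self hs⟩
  rw [norm_mul, Real.norm_of_nonneg h1.1]
  exact mul_le_mul h2 h1.2 h1.1 ((norm_nonneg _).trans h2)

theorem lam_cont (h : d.Reg) (s₀ : ℝ) {α : ℝ} {f : ℝ → ℝ} (h0 : 0 ≤ α) (hf : Dens α f) :
    Continuous fun t => lam s₀ α f (d.K t) := by
  exact (h.cK.uncurry_right s₀).add (lam_par h.cK h0 hf)

theorem lam_swap (h : d.Reg) (s₀ s₁ : ℝ) {α β : ℝ} {f g : ℝ → ℝ} (h0 : 0 ≤ α) (h1 : 0 ≤ β)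
    (hf : Dens α f) (hg : Dens β g) :
    lam s₁ β g (fun t => lam s₀ α f (d.K t)) = lam s₀ α f (fun s => lam s₁ β g (d.K s)) := by
  obtain ⟨C, hC⟩ := ((isCompact_Icc (a := (0 : ℝ)) (b := β)).prod
    (isCompact_Icc (a := (0 : ℝ)) (b := α))).exists_bound_of_continuousOn h.cK.continuousOn
  obtain ⟨A, hA⟩ := hf.bd
  obtain ⟨B, hB⟩ := hg.bd
  have e := swap_bd (F := fun t s => d.K t s * f s * g t) (C := C * A * B) h1 h0
    ((h.cK.measurable.mul (hf.meas.comp measurable_snd)).mul (hg.meas.comp measurable_fst))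
    fun t ht s hs => by
      have h2 := hC (t, s) ⟨ht, hs⟩
      have h3 := (norm_nonneg _).trans h2
      rw [abs_mul, abs_mul, abs_of_nonneg (hA s hs).1, abs_of_nonneg (hB t ht).1]
      exact mul_le_mul (mul_le_mul h2 (hA s hs).2 (hA s hs).1 h3) (hB t ht).2 (hB t ht).1
        (mul_nonneg h3 ((hA s hs).1.trans (hA s hs).2))
  simp only [lam, add_mul]
  rw [intervalIntegral.integral_add (hg.intc h1 (h.cK.uncurry_right s₀))
    (hg.intc h1 (lam_par h.cK h0 hf)), intervalIntegral.integral_add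
      (hf.intc h0 (h.cK.uncurry_right s₁)) (hf.intc h0 (lam_par h.cK h1 hg))]
  simp only [← intervalIntegral.integral_mul_const]
  rw [e, h.symm s₁ s₀]
  simp only [h.symm s₁, h.symm _ s₀, mul_assoc, fun s =>
    show (fun t => d.K t s * (f s * g t)) = fun t => d.K s t * (g t * f s) from
      funext fun t => by rw [h.symm, mul_comm (f s)]]
  ring

/-- Discretisation of an atom plus a density. -/
theorem lam_disc {K : ℝ → ℝ → ℝ} (hK : Continuous (uncurry K)) {L s₀ α : ℝ} {f : ℝ → ℝ}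
    (hs : s₀ ∈ Icc 0 L) (hα : α ∈ Icc 0 L) (hf : Dens α f) {ζ : ℝ} (hζ : 0 < ζ) :
    ∃ (n : ℕ) (z w : Fin n → ℝ), (∀ i, z i ∈ Icc 0 L) ∧ (∀ i, 0 ≤ w i) ∧
      ∑ i, w i = lam s₀ α f (fun _ => 1) ∧
      ∀ t ∈ Icc 0 L, |∑ i, w i * K t (z i) - lam s₀ α f (K t)| ≤ ζ := by
  obtain ⟨B, hB⟩ := hf.bd
  have h0 : IntervalIntegrable f volume 0 α := by simpa using hf.intc hα.1 continuous_one
  have hS : 0 ≤ ∫ s in (0 : ℝ)..α, f s :=
    intervalIntegral.integral_nonneg hα.1 fun s hs => (hB s hs).1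
  obtain ⟨δ, hδ, hu⟩ := Metric.uniformContinuousOn_iff_le.1
    (((isCompact_Icc (a := (0 : ℝ)) (b := L)).prod (isCompact_Icc (a := (0 : ℝ)) (b := L))
      ).uniformContinuousOn_of_continuous hK.continuousOn) (ζ / ((∫ s in (0 : ℝ)..α, f s) + 1))
    (by positivity)
  obtain ⟨N, hN⟩ := exists_nat_gt (α / δ)
  have hn : (0 : ℝ) < N := (div_nonneg hα.1 hδ.le).trans_lt hN
  have hd : α / N ≤ δ := (div_le_comm₀ hδ hn).1 hN.le
  obtain ⟨a, ha⟩ : ∃ a : ℕ → ℝ, ∀ k, a k = k * (α / N) := ⟨_, fun _ => rfl⟩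
  have a0 : a 0 = 0 := by simp [ha]
  have aN : a N = α := by rw [ha, mul_div_cancel₀ _ hn.ne']
  have a1 : ∀ k, a (k + 1) = a k + α / N := fun k => by rw [ha, ha]; push_cast; ring
  have am : Monotone a := monotone_nat_of_le_succ fun k => by
    rw [a1]; exact le_add_of_nonneg_right (div_nonneg hα.1 hn.le)
  have hc : ∀ k < N, Icc (a k) (a (k + 1)) ⊆ Icc 0 α := fun k hk =>
    Icc_subset_Icc (a0 ▸ am k.zero_le) (aN ▸ am hk)
  have hi : ∀ {g : ℝ → ℝ}, IntervalIntegrable g volume 0 α → ∀ k < N,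
      IntervalIntegrable g volume (a k) (a (k + 1)) := fun hg k hk => hg.mono_set (by
    rw [uIcc_of_le (am k.le_succ), uIcc_of_le hα.1]
    exact hc k hk)
  have hm : ∀ k < N, ∀ s ∈ Icc (a k) (a (k + 1)), s ∈ Icc 0 L := fun k hk s hs =>
    Icc_subset_Icc_right hα.2 (hc k hk hs)
  have e := intervalIntegral.sum_integral_adjacent_intervals (hi h0)
  rw [a0, aN] at e
  refine ⟨N + 1, Fin.cons s₀ fun k => a k, Fin.cons 1 fun k => ∫ s in a k..a (k + 1), f s,
    Fin.cases hs fun k => hm k k.2 _ (left_mem_Icc.2 (am (Nat.le_succ _))),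
    Fin.cases zero_le_one fun k => intervalIntegral.integral_nonneg (am (Nat.le_succ _))
      fun s hs => (hB s (hc k k.2 hs)).1, ?_, fun t ht => ?_⟩
  · simp only [Fin.sum_univ_succ, Fin.cons_zero, Fin.cons_succ, lam, one_mul, ← e,
      Finset.sum_range]
  have h1 := hi (hf.intc hα.1 (hK.uncurry_left t))
  have e' := intervalIntegral.sum_integral_adjacent_intervals h1
  rw [a0, aN] at e'
  simp only [Fin.sum_univ_succ, Fin.cons_zero, Fin.cons_succ, lam, one_mul, ← e',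
    add_sub_add_left_eq_sub, Finset.sum_range, ← Finset.sum_sub_distrib]
  refine (Finset.abs_sum_le_sum_abs _ _).trans ((Finset.sum_le_sum (g := fun k : Fin N =>
    ζ / ((∫ s in (0 : ℝ)..α, f s) + 1) * ∫ s in a k..a (k + 1), f s) fun k _ => ?_).trans ?_)
  · rw [← intervalIntegral.integral_mul_const, ← intervalIntegral.integral_sub
      ((hi h0 k k.2).mul_const _) (h1 k k.2), ← intervalIntegral.integral_const_mul]
    refine intervalIntegral.norm_integral_le_of_norm_le (E := ℝ) (am (Nat.le_succ _))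
      (.of_forall fun s hs => ?_) ((hi h0 k k.2).const_mul _)
    have h2 := Ioc_subset_Icc_self hs
    have h3 := (hB s (hc k k.2 h2)).1
    rw [mul_comm, ← sub_mul, norm_mul, Real.norm_of_nonneg h3]
    refine mul_le_mul_of_nonneg_right (hu (t, a k) ⟨ht, hm k k.2 _ (left_mem_Icc.2
      (am (Nat.le_succ _)))⟩ (t, s) ⟨ht, hm k k.2 s h2⟩ ?_) h3
    rw [dist_prod_same_left, Real.dist_eq, abs_sub_comm, abs_of_nonneg (sub_nonneg.2 h2.1)]
    linarith [h2.2, a1 k]
  · rw [← Finset.mul_sum, ← Finset.sum_range fun k => ∫ s in a k..a (k + 1), f s, e,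
      div_mul_eq_mul_div, div_le_iff₀ (by positivity)]
    exact mul_le_mul_of_nonneg_left (le_add_of_nonneg_right zero_le_one) hζ.le

end Pool.Agent.Lib.MP_efb7ef_gt.T
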