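import Pool.Agent.Lib.MP_efb7ef_gt.T.Defs
import Pool.Agent.Lib.MP_efb7ef_gt.T.Lam
import Pool.Agent.Lib.MP_efb7ef_gt.Ell

/-! The four mirror images of a point of the ellipse. -/

namespace Pool.Agent.Lib.MP_efb7ef_gt.T

open Set Function MeasureTheory

variable {a b : ℝ}

theorem kk_cont (e : ℝ) : Continuous (uncurry (kk e)) := by
  unfold kk xx uncurry
  fun_prop

theorem kk_symm (e t s : ℝ) : kk e t s = kk e s t := by
  unfold kk
  congr 3 <;> ring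

/-- The point with parameter `t` and signs `i`, `j`. -/
noncomputable def pt (a e : ℝ) (i j : Bool) (t : ℝ) : EuclideanSpace ℝ (Fin 2) :=
  !₂[(if i then 1 else -1) * (a * xx e t), (if j then 1 else -1) * (a * (e * t))]

theorem pt_mem (hb : 0 < b) (hab : b ≤ a) (i j : Bool) {t : ℝ} (ht : t ∈ Icc 0 (a / b)) :
    pt a (b ^ 2 / a ^ 2) i j t ∈ ellipse a b := by
  have ha : 0 < a := hb.trans_le hab
  have h1 : t * b ≤ a := (le_div_iff₀ hb).1 ht.2
  have h2 : xx (b ^ 2 / a ^ 2) t ^ 2 = 1 - b ^ 2 / a ^ 2 * t ^ 2 := by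
    refine Real.sq_sqrt (sub_nonneg.2 ?_)
    rw [div_mul_eq_mul_div, div_le_one (by positivity), ← mul_pow, mul_comm]
    exact pow_le_pow_left₀ (mul_nonneg ht.1 hb.le) h1 2
  have h3 : ∀ i : Bool, (if i then 1 else -1 : ℝ) ^ 2 = 1 := fun i => by cases i <;> simp
  change (_ * _) ^ 2 / a ^ 2 + (_ * _) ^ 2 / b ^ 2 = 1
  rw [mul_pow, mul_pow _ (a * (_ * t)), h3, h3, mul_pow, h2]
  field_simp
  ring

theorem pt_surj (hb : 0 < b) (hab : b ≤ a) {p : EuclideanSpace ℝ (Fin 2)} (hp : p ∈ ellipse a b) :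
    ∃ i j, ∃ t ∈ Icc 0 (a / b), p = pt a (b ^ 2 / a ^ 2) i j t := by
  have ha : 0 < a := hb.trans_le hab
  have hp : p 0 ^ 2 / a ^ 2 + p 1 ^ 2 / b ^ 2 = 1 := hp
  have h1 : |p 1| ≤ b := by
    refine abs_le_of_sq_le_sq' ?_ hb.le |> abs_le.2
    rw [← div_le_one (by positivity)]
    linarith [div_nonneg (sq_nonneg (p 0)) (sq_nonneg a)]
  have h2 : xx (b ^ 2 / a ^ 2) (|p 1| * a / b ^ 2) = |p 0| / a := by
    rw [xx, ← Real.sqrt_sq (by positivity : 0 ≤ |p 0| / a), div_pow, div_pow, mul_pow, sq_abs,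
      sq_abs, eq_sub_of_add_eq hp]
    congr 1
    field_simp
  have h3 : ∀ x : ℝ, x = (if decide (0 ≤ x) then 1 else -1) * |x| := fun x => by
    by_cases h : 0 ≤ x
    · simp [h, abs_of_nonneg h]
    · simp [h, abs_of_neg (not_le.1 h)]
  refine ⟨decide (0 ≤ p 0), decide (0 ≤ p 1), |p 1| * a / b ^ 2, ⟨by positivity, ?_⟩, ?_⟩
  · rw [div_le_div_iff₀ (by positivity) hb]
    nlinarith [mul_pos ha hb]
  · ext i
    fin_cases i
    · change p 0 = _ * (a * _)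
      rw [h2, mul_div_cancel₀ _ ha.ne']
      exact h3 _
    · change p 1 = _ * (a * _)
      rw [show a * (b ^ 2 / a ^ 2 * (|p 1| * a / b ^ 2)) = |p 1| by field_simp]
      exact h3 _

theorem link_dist (ha : 0 ≤ a) (e : ℝ) (i j i' j' : Bool) (t s : ℝ) :
    dist (pt a e i' j' s) (pt a e i j t) =
      a * √((xx e t - (if i = i' then 1 else -1) * xx e s) ^ 2 +
        (e * (t - (if j = j' then 1 else -1) * s)) ^ 2) := by
  rw [EuclideanSpace.dist_eq, ← Real.sqrt_sq ha, ← Real.sqrt_mul (sq_nonneg a), Real.sqrt_sq ha]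
  congr 1
  cases i <;> cases j <;> cases i' <;> cases j' <;> simp [pt, Real.dist_eq] <;> ring

theorem pt_sum (ha : 0 ≤ a) (e : ℝ) (i j : Bool) (t s : ℝ) :
    ∑ i' : Bool, ∑ j' : Bool, dist (pt a e i' j' s) (pt a e i j t) = a * kk e t s := by
  simp only [link_dist ha, Fintype.sum_bool, kk]
  cases i <;> cases j <;> simp <;> ring

/-- A magic number is nearly attained for weighted configurations. -/
theorem magic_weights {Γ : Set (EuclideanSpace ℝ (Fin 2))} {m D : ℝ} (hm : IsMagic Γ m)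
    (hD : ∀ x ∈ Γ, ∀ y ∈ Γ, dist x y ≤ D) {ι : Type} [Fintype ι]
    (z : ι → EuclideanSpace ℝ (Fin 2)) (hz : ∀ i, z i ∈ Γ) (w : ι → ℝ) (w0 : ∀ i, 0 ≤ w i)
    (w1 : ∑ i, w i = 1) {ζ : ℝ} (hζ : 0 < ζ) :
    ∃ y ∈ Γ, |∑ i, w i * dist (z i) y - m| ≤ ζ := by
  obtain ⟨K, hK⟩ := exists_nat_gt (|Fintype.card ι * (D + |m|)| / ζ)
  have hK0 : (0 : ℝ) < K := lt_of_le_of_lt (by positivity) hK
  have hcard : ((Fintype.card (Σ j : ι, Fin ⌈K * w j⌉₊) : ℕ) : ℝ) = ∑ j, (⌈K * w j⌉₊ : ℝ) := by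
    simp
  have hpos : (0 : ℝ) < ((Fintype.card (Σ j : ι, Fin ⌈K * w j⌉₊) : ℕ) : ℝ) := by
    rw [hcard]
    refine lt_of_lt_of_le ?_ (Finset.sum_le_sum fun j _ => Nat.le_ceil _)
    rw [← Finset.mul_sum, w1, mul_one]; exact hK0
  obtain ⟨y, hy, e⟩ := hm.fintype (ι := Σ j : ι, Fin ⌈K * w j⌉₊)
    (by exact_mod_cast hpos) (fun x => z x.1) fun _ => hz _
  rw [hcard, Fintype.sum_sigma] at e
  simp only [Finset.sum_const, Finset.card_univ, Fintype.card_fin, nsmul_eq_mul] at e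
  have a2 : K * (∑ j, w j * dist (z j) y - m) =
      ∑ j, (K * w j - ⌈K * w j⌉₊) * (dist (z j) y - m) := by
    simp only [sub_mul, mul_sub, Finset.sum_sub_distrib, mul_assoc, ← Finset.mul_sum,
      ← Finset.sum_mul, e, w1]
    ring
  have a3 : |K * (∑ j, w j * dist (z j) y - m)| ≤ Fintype.card ι * (D + |m|) := by
    rw [a2]
    refine (Finset.abs_sum_le_sum_abs _ _).trans
      ((Finset.sum_le_card_nsmul _ _ (D + |m|) fun j _ => ?_).trans
        (by rw [Finset.card_univ, nsmul_eq_mul]))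
    rw [abs_mul]
    refine (mul_le_of_le_one_left (abs_nonneg _) (abs_le.2 ⟨?_, ?_⟩)).trans
      ((abs_sub _ _).trans ?_)
    · linarith [Nat.ceil_lt_add_one (mul_nonneg hK0.le (w0 j))]
    · linarith [Nat.le_ceil (K * w j)]
    · rw [abs_of_nonneg dist_nonneg]; linarith [hD _ (hz j) y hy]
  rw [abs_mul, abs_of_pos hK0] at a3
  rw [div_lt_iff₀ hζ] at hK
  exact ⟨y, hy, le_of_mul_le_mul_left (a3.trans ((le_abs_self _).trans hK.le)) hK0⟩

end Pool.Agent.Lib.MP_efb7ef_gt.T
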