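import Pool.Agent.Lib.MP_efb7ef_gt.T.Br
import Pool.Agent.Lib.MP_efb7ef_gt.T.Link

/-! Regularity of the concrete kernel. -/

namespace Pool.Agent.Lib.MP_efb7ef_gt.T

open Set Function MeasureTheory

variable {e : ℝ}

@[fun_prop] theorem conc_ww (e : ℝ) {X : Type} [TopologicalSpace X] {f g : X → ℝ}
    (hf : Continuous f) (hg : Continuous g) : Continuous fun x => ww e (f x) (g x) := by
  unfold ww vv
  fun_prop

theorem conc_cont (θ e : ℝ) : Continuous (fun p : ℝ × ℝ => vv e p.1 p.2) ∧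
    Continuous (fun p : ℝ × ℝ => ww e p.1 p.2) ∧ Continuous (fun p : ℝ × ℝ => uu θ e p.1 p.2) ∧
    Continuous fun p : ℝ × ℝ => √(qq θ e p.1 p.2) := by
  unfold qq uu vv
  refine ⟨?_, ?_, ?_, ?_⟩ <;> fun_prop

theorem conc_meas (θ e : ℝ) : Measurable (fun p : ℝ × ℝ => s1 θ e p.1 p.2) ∧
    Measurable fun p : ℝ × ℝ => s2 θ e p.1 p.2 := by
  obtain ⟨a, b, c, d⟩ := conc_cont θ e
  have a := a.measurable
  have b := b.measurable
  have c := c.measurable
  have d := d.measurable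
  have m1 : Measurable fun p : ℝ × ℝ => h1 θ e p.1 p.2 :=
    (c.mul (c.add (measurable_snd.const_mul 2))).div (b.const_mul θ)
  have m2 : Measurable fun p : ℝ × ℝ => h2 θ e p.1 p.2 :=
    ((c.const_mul _).mul ((((c.pow_const 2).const_mul 2).add ((c.const_mul 3).mul a)).add
      ((measurable_snd.const_mul 2).mul (c.add (a.const_mul 2))))).neg.div
      ((b.const_mul θ).pow_const 3)
  exact ⟨m1.div d, (m2.div d).sub (((m1.pow_const 2).const_mul e).div (d.pow_const 3))⟩

/-- Everything that is needed about one branch at one point. -/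
theorem conc_at (he : 0 < e) (he1 : e ≤ 1) {θ t s : ℝ} (hθ : θ = 1 ∨ θ = -1) (ht : e * t ^ 2 < 1)
    (hs : e * s ^ 2 ≤ 1) (h : θ * (t - s) = |t - s|) :
    ContinuousAt (fun p : ℝ × ℝ => s1 θ e p.1 p.2) (t, s) ∧
    ContinuousAt (fun p : ℝ × ℝ => s2 θ e p.1 p.2) (t, s) ∧
    HasDerivAt (fun u => √(qq θ e u s)) (e * s1 θ e t s) t ∧
    HasDerivAt (fun u => s1 θ e u s) (s2 θ e t s) t := by
  obtain ⟨w0, w2⟩ := ww_pos he he1 ht.le hs
  have hw : 0 < vv e t s ^ 2 + 4 * (1 - e * s ^ 2) := w2 ▸ pow_pos w0 2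
  have hq := qq_pos he ht hs h
  have n1 : θ * ww e t s ≠ 0 :=
    mul_ne_zero (by rcases hθ with rfl | rfl <;> norm_num) w0.ne'
  have n2 : √(qq θ e t s) ≠ 0 := (Real.sqrt_pos.2 hq).ne'
  obtain ⟨a, b, c, d⟩ := conc_cont θ e
  have m1 : ContinuousAt (fun p : ℝ × ℝ => h1 θ e p.1 p.2) (t, s) :=
    (c.mul (c.add (continuous_snd.const_mul 2))).continuousAt.div
      (b.const_mul θ).continuousAt n1
  have m2 : ContinuousAt (fun p : ℝ × ℝ => h2 θ e p.1 p.2) (t, s) :=
    ((c.const_mul _).mul ((((c.pow 2).const_mul 2).add ((c.const_mul 3).mul a)).add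
      ((continuous_snd.const_mul 2).mul (c.add (a.const_mul 2))))).neg.continuousAt.div
      ((b.const_mul θ).pow 3).continuousAt (pow_ne_zero 3 n1)
  exact ⟨m1.div d.continuousAt n2, (m2.div d.continuousAt n2).sub
    (((m1.pow 2).const_mul e).div (d.pow 3).continuousAt (pow_ne_zero 3 n2)),
    deriv_s0 hθ hw hq, deriv_s1 hθ hw hq⟩

/-- The branch of the mirror image. -/
theorem conc_neg (he : 0 < e) (he1 : e ≤ 1) {t s : ℝ} (ht : e * t ^ 2 < 1) (hs : e * s ^ 2 ≤ 1)
    (h : -s ≤ t) :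
    ContinuousAt (fun p : ℝ × ℝ => s1 1 e p.1 (-p.2)) (t, s) ∧
    ContinuousAt (fun p : ℝ × ℝ => s2 1 e p.1 (-p.2)) (t, s) ∧
    HasDerivAt (fun u => √(qq 1 e u (-s))) (e * s1 1 e t (-s)) t ∧
    HasDerivAt (fun u => s1 1 e u (-s)) (s2 1 e t (-s)) t := by
  obtain ⟨a, b, c⟩ := conc_at he he1 (.inl rfl) ht (s := -s) (by rwa [neg_sq])
    (by rw [one_mul, abs_of_nonneg (sub_nonneg.2 h)])
  have n : ContinuousAt (fun p : ℝ × ℝ => (p.1, -p.2)) (t, s) := by fun_prop
  have a' := ContinuousAt.comp (f := fun p : ℝ × ℝ => (p.1, -p.2)) (x := (t, s)) a n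
  have b' := ContinuousAt.comp (f := fun p : ℝ × ℝ => (p.1, -p.2)) (x := (t, s)) b n
  exact ⟨a', b', c⟩

theorem conc_P (he : 0 < e) (he1 : e ≤ 1) {t s : ℝ} (h0 : 0 ≤ s) (h : s ≤ t) (hL : t < 1 / √e) :
    ContinuousAt (uncurry (dat e).P1) (t, s) ∧ ContinuousAt (uncurry (dat e).P2) (t, s) ∧
    (s < t → HasDerivAt (fun u => kk e u s) ((dat e).P1 t s) t) ∧
    HasDerivAt (fun u => (dat e).P1 u s) ((dat e).P2 t s) t := by
  have ht := (lt_L he (h0.trans h)).1 hL
  have hs := (le_L he h0).1 (h.trans hL.le)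
  obtain ⟨a, b, c, d⟩ := conc_at he he1 (.inl rfl) ht hs
    (by rw [one_mul, abs_of_nonneg (sub_nonneg.2 h)])
  obtain ⟨a', b', c', d'⟩ := conc_neg he he1 ht hs (by linarith)
  refine ⟨(a.add a').const_mul e, (b.add b').const_mul e, fun l => ?_, (d.add d').const_mul e⟩
  refine ((c.add c').congr_of_eventuallyEq ?_).congr_deriv (mul_add _ _ _).symm
  filter_upwards [Ioo_mem_nhds l hL] with u hu
  exact kk_P he.le h0 hu.1.le ((le_L he (h0.trans hu.1.le)).1 hu.2.le)

theorem conc_M (he : 0 < e) (he1 : e ≤ 1) {t s : ℝ} (h0 : -s ≤ t) (h : t ≤ s) (hL : s ≤ 1 / √e)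
    (ht : e * t ^ 2 < 1) :
    ContinuousAt (uncurry (dat e).M1) (t, s) ∧ ContinuousAt (uncurry (dat e).M2) (t, s) ∧
    (-s < t → t < s → HasDerivAt (fun u => kk e u s) ((dat e).M1 t s) t) ∧
    HasDerivAt (fun u => (dat e).M1 u s) ((dat e).M2 t s) t := by
  have hs := (le_L he (by linarith)).1 hL
  obtain ⟨a, b, c, d⟩ := conc_at he he1 (.inr rfl) ht hs
    (by rw [neg_one_mul, abs_of_nonpos (sub_nonpos.2 h)])
  obtain ⟨a', b', c', d'⟩ := conc_neg he he1 ht hs h0
  refine ⟨(a.add a').const_mul e, (b.add b').const_mul e, fun l l' => ?_, (d.add d').const_mul e⟩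
  refine ((c.add c').congr_of_eventuallyEq ?_).congr_deriv (mul_add _ _ _).symm
  filter_upwards [Ioo_mem_nhds l l'] with u hu
  exact kk_M he.le hu.1.le hu.2.le hs

theorem conc_jump (he : 0 < e) (he1 : e ≤ 1) {s : ℝ} (hs : e * s ^ 2 < 1) :
    (dat e).P1 s s - (dat e).M1 s s = jj e s := by
  have w0 := (ww_pos he he1 hs.le hs.le).1.ne'
  have hX : 0 < 4 * (1 - e * s ^ 2) := by linarith
  have v : vv e s s = 2 * s := by
    unfold vv
    ring
  have q : ∀ θ, qq θ e s s = 4 * (1 - e * s ^ 2) := fun θ => by simp [qq]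
  have a : h1 1 e s s - h1 (-1) e s s = 2 * ww e s s := by
    simp only [h1, uu, v]
    field_simp
    ring
  have b : ww e s s / √(4 * (1 - e * s ^ 2)) = √(1 + s ^ 2 / (1 - e * s ^ 2)) := by
    rw [ww, ← Real.sqrt_div' _ hX.le, v]
    congr 1
    generalize 1 - e * s ^ 2 = X at hX
    have : X ≠ 0 := by linarith
    field_simp
    ring
  simp only [dat, s1, q, jj]
  rw [← b]
  linear_combination e / √(4 * (1 - e * s ^ 2)) * a

theorem conc_zero (e s : ℝ) : (dat e).M1 0 s = 0 := by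
  have v : vv e 0 (-s) = -vv e 0 s := by
    unfold vv
    ring
  have w : ww e 0 (-s) = ww e 0 s := by simp only [ww, v, neg_sq]
  have u : uu 1 e 0 (-s) = -uu (-1) e 0 s := by
    simp only [uu, v, w]
    ring
  have q : qq 1 e 0 (-s) = qq (-1) e 0 s := by
    simp only [qq, u]
    ring
  have h : h1 1 e 0 (-s) = -h1 (-1) e 0 s := by
    simp only [h1, u, w]
    ring
  simp only [dat, s1, q, h]
  ring

theorem dat_reg (he : 0 < e) (he1 : e ≤ 1) : (dat e).Reg := by
  have n : Measurable fun p : ℝ × ℝ => (p.1, -p.2) := by fun_prop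
  have a := (conc_meas 1 e).1.comp n
  have b := (conc_meas 1 e).2.comp n
  have X : ∀ t ∈ Ico 0 (dat e).L, 0 < 1 - e * t ^ 2 := fun t ht =>
    sub_pos.2 ((lt_L he ht.1).1 ht.2)
  exact
    { L1 := (le_L he zero_le_one).2 (by simpa using he1)
      cK := kk_cont e
      symm := kk_symm e
      K0 := fun t s => by
        simp only [dat, kk]
        positivity
      mP1 := ((conc_meas 1 e).1.add a).const_mul e
      mP2 := ((conc_meas 1 e).2.add b).const_mul e
      mM1 := ((conc_meas (-1) e).1.add a).const_mul e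
      mM2 := ((conc_meas (-1) e).2.add b).const_mul e
      mJ := by
        change Measurable fun t => 2 * e * √(1 + t ^ 2 / (1 - e * t ^ 2))
        fun_prop
      cP1 := fun p h => (conc_P he he1 h.1 h.2.1 h.2.2).1.continuousWithinAt
      cP2 := fun p h => (conc_P he he1 h.1 h.2.1 h.2.2).2.1.continuousWithinAt
      cM1 := fun p h => (conc_M he he1 (by linarith [h.1, h.2.1]) h.2.1 h.2.2.1
        ((lt_L he h.1).1 h.2.2.2)).1.continuousWithinAt
      cM2 := fun p h => (conc_M he he1 (by linarith [h.1, h.2.1]) h.2.1 h.2.2.1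
        ((lt_L he h.1).1 h.2.2.2)).2.1.continuousWithinAt
      cJ := by
        change ContinuousOn (fun t => 2 * e * √(1 + t ^ 2 / (1 - e * t ^ 2))) _
        exact (continuousOn_const.add (ContinuousOn.div (by fun_prop) (by fun_prop)
          fun t ht => (X t ht).ne')).sqrt.const_mul _
      J0 := fun t ht => by
        have := X t ht
        simp only [dat, jj]
        positivity
      dP := fun s t h0 h hL => (conc_P he he1 h0 h.le hL).2.2.imp_left (· h)
      dM := fun t s h0 h hL => (conc_M he he1 (by linarith) h.le hL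
        ((lt_L he h0).1 (h.trans_le hL))).2.2.imp_left (· (by linarith) h)
      jump := fun s hs => conc_jump he he1 ((lt_L he hs.1).1 hs.2)
      zero := fun s _ => conc_zero e s }

theorem nn_eq (he : 0 < e) (he1 : e ≤ 1) {t s : ℝ} (ht : t ∈ Ico 0 (dat e).L)
    (hs : s ∈ Icc 0 (dat e).L) (hts : s ≠ t) : nn e t s = (dat e).N t s := by
  rw [nn, Dat.N]
  rcases hts.lt_or_gt with l | l
  · obtain ⟨-, -, a, b⟩ := conc_P he he1 hs.1 l.le ht.2
    have c : deriv (fun u => kk e u s) =ᶠ[nhds t] fun u => (dat e).P1 u s := by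
      filter_upwards [Ioo_mem_nhds l ht.2] with u hu
      exact ((conc_P he he1 hs.1 hu.1.le hu.2).2.2.1 hu.1).deriv
    rw [c.deriv_eq, b.deriv, (a l).deriv, if_pos l]
    rfl
  · have l' : -s < t := by linarith [ht.1]
    have hs' := (le_L he hs.1).1 hs.2
    obtain ⟨-, -, a, b⟩ := conc_M he he1 l'.le l.le hs.2 ((lt_L he ht.1).1 ht.2)
    have c : deriv (fun u => kk e u s) =ᶠ[nhds t] fun u => (dat e).M1 u s := by
      filter_upwards [Ioo_mem_nhds l' l] with u hu
      exact ((conc_M he he1 hu.1.le hu.2.le hs.2 ((mul_lt_mul_of_pos_left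
        (sq_lt_sq' hu.1 hu.2) he).trans_le hs')).2.2.1 hu.1 hu.2).deriv
    rw [c.deriv_eq, b.deriv, (a l' l).deriv, if_neg l.not_gt]
    rfl

end Pool.Agent.Lib.MP_efb7ef_gt.T
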