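import Pool.Agent.Lib.MP_efb7ef_gt.T.Conc

/-! The source at the minor vertex. -/

namespace Pool.Agent.Lib.MP_efb7ef_gt.T

open Set Function MeasureTheory

variable {e : ℝ}

/-- The branches at a minor vertex, where the square root `ww` is `-θ * vv`. -/
theorem vertex_br {θ t s : ℝ} (hθ : θ = 1 ∨ θ = -1) (hs : e * s ^ 2 = 1)
    (hv : θ * vv e t s < 0) : qq θ e t s = 4 * e * (s - t) * vv e t s ∧
      h1 θ e t s = 4 * (s - vv e t s) ∧ h2 θ e t s = -(4 * (1 - e)) := by
  have w : θ * ww e t s = -vv e t s := by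
    rw [ww, hs, sub_self, mul_zero, add_zero, Real.sqrt_sq_eq_abs]
    rcases hθ with rfl | rfl
    · rw [abs_of_neg (by linarith), one_mul]
    · rw [abs_of_pos (by linarith), neg_one_mul]
  have v0 : vv e t s ≠ 0 := fun z => by simp [z] at hv
  simp only [qq, h1, h2, uu, w, hs]
  refine ⟨by ring, ?_, ?_⟩ <;> field_simp <;> ring

/-- The potential of the minor vertices is concave and nonincreasing. -/
theorem vertex (he : 0 < e) (he1 : e ≤ 1) {t : ℝ} (ht : t ∈ Ico 0 (dat e).L) :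
    (dat e).M1 t (dat e).L ≤ 0 ∧ (dat e).M2 t (dat e).L < 0 := by
  obtain ⟨t0, tL⟩ := ht
  have hL : e * (dat e).L ^ 2 = 1 := by
    simp only [dat, div_pow, Real.sq_sqrt he.le]
    field_simp
  show e * (s1 (-1) e t (dat e).L + s1 1 e t (-(dat e).L)) ≤ 0 ∧
    e * (s2 (-1) e t (dat e).L + s2 1 e t (-(dat e).L)) < 0
  generalize (dat e).L = L at tL hL
  have L0 : 0 < L := t0.trans_lt tL
  have a1 : 0 ≤ (1 - e) * t := mul_nonneg (sub_nonneg.2 he1) t0
  have a2 : 0 < e * L := mul_pos he L0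
  have a3 : 0 ≤ e * t := mul_nonneg he.le t0
  have v1 : vv e t L = (1 - e) * t + (1 + e) * L := rfl
  have v2 : vv e t (-L) = (1 - e) * t - (1 + e) * L := by rw [vv]; ring
  obtain ⟨q1, b1, c1⟩ := vertex_br (θ := -1) (t := t) (.inr rfl) hL (by rw [v1]; linarith)
  obtain ⟨q2, b2, c2⟩ := vertex_br (θ := 1) (t := t) (s := -L) (.inl rfl) (by rw [neg_sq, hL])
    (by rw [v2]; linarith)
  have p1 : 0 < qq (-1) e t L := by
    rw [q1, v1]
    exact mul_pos (mul_pos (by positivity) (sub_pos.2 tL)) (by linarith)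
  have p2 : qq (-1) e t L ≤ qq 1 e t (-L) := by
    rw [q1, q2, v1, v2]
    nlinarith [mul_nonneg a3 a2.le]
  have r1 := Real.sqrt_pos.2 p1
  have r2 := Real.sqrt_le_sqrt p2
  have r3 := r1.trans_le r2
  have b3 : h1 (-1) e t L < 0 := by rw [b1, v1]; linarith
  refine ⟨mul_nonpos_of_nonneg_of_nonpos he.le ?_, mul_neg_of_pos_of_neg he ?_⟩
  · have b4 : h1 1 e t (-L) ≤ -h1 (-1) e t L := by rw [b1, b2, v1, v2]; linarith
    have := div_le_div₀ (neg_pos.2 b3).le b4 r1 r2
    rw [neg_div] at this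
    rw [s1, s1]
    linarith
  · have d1 := div_nonneg (mul_nonneg zero_le_four (sub_nonneg.2 he1)) r1.le
    have d2 := div_nonneg (mul_nonneg zero_le_four (sub_nonneg.2 he1)) r3.le
    have d3 := div_pos (mul_pos he (sq_pos_of_neg b3)) (pow_pos r1 3)
    have d4 := div_nonneg (mul_nonneg he.le (sq_nonneg (h1 1 e t (-L)))) (pow_pos r3 3).le
    rw [s2, s2, c1, c2, neg_div, neg_div]
    linarith

theorem vertex_far (he : 0 < e) (he1 : e ≤ 1) {t l κ : ℝ} (ht : t ∈ Ico (1 / 2) (dat e).L)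
    (hκ : 0 ≤ κ) (hl : κ * t ≤ l) : (dat e).M2 t (dat e).L + l * (dat e).M1 t (dat e).L -
      κ * ((dat e).K t (dat e).L - (dat e).K (1 / 2) (dat e).L) < 0 := by
  obtain ⟨t0, tL⟩ := ht
  have m : ∀ u ∈ Icc (1 / 2) t, u ∈ Ico 0 (dat e).L := fun u hu =>
    ⟨le_trans (by norm_num) hu.1, hu.2.trans_lt tL⟩
  have D := fun u hu => (dat_reg he he1).dM u _ (m u hu).1 (m u hu).2 le_rfl
  have an : AntitoneOn (fun u => (dat e).M1 u (dat e).L) (Icc (1 / 2) t) :=
    antitoneOn_of_hasDerivWithinAt_nonpos (convex_Icc _ _)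
      (fun u hu => (D u hu).2.continuousAt.continuousWithinAt)
      (fun u hu => (D u (interior_subset hu)).2.hasDerivWithinAt)
      fun u hu => (vertex he he1 (m u (interior_subset hu))).2.le
  have hs := (convex_Icc (1 / 2) t).mul_sub_le_image_sub_of_le_deriv
    (C := (dat e).M1 t (dat e).L) (fun u hu => (D u hu).1.continuousAt.continuousWithinAt)
    (fun u hu => (D u (interior_subset hu)).1.differentiableAt.differentiableWithinAt)
    (fun u hu => by
      rw [(D u (interior_subset hu)).1.deriv]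
      exact an (interior_subset hu) (right_mem_Icc.2 t0) (interior_subset hu).2)
    _ (left_mem_Icc.2 t0) _ (right_mem_Icc.2 t0) t0
  obtain ⟨n1, n2⟩ := vertex he he1 (m t (right_mem_Icc.2 t0))
  nlinarith [mul_le_mul_of_nonneg_left hs hκ, mul_nonneg (sub_nonneg.2 hl) (neg_nonneg.2 n1),
    mul_nonneg hκ (neg_nonneg.2 n1)]

end Pool.Agent.Lib.MP_efb7ef_gt.T
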