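import Pool.Agent.Lib.MP_efb7ef_gt.T.Inv

/-! Solutions of the integral equation have a constant potential on `[0, α]`. -/

namespace Pool.Agent.Lib.MP_efb7ef_gt.T

open Set Function MeasureTheory

variable {d : Dat}

theorem inv2_ii {β C : ℝ} {g : ℝ → ℝ} (h0 : 0 ≤ β) (hg : Measurable g)
    (hb : ∀ s ∈ Icc 0 β, |g s| ≤ C) : IntervalIntegrable g volume 0 β := by
  rw [intervalIntegrable_iff_integrableOn_Icc_of_le h0]
  refine Measure.integrableOn_of_bounded (M := C) (by simp) hg.aestronglyMeasurable ?_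
  filter_upwards [ae_restrict_mem measurableSet_Icc] with s hs
  simpa using hb s hs

theorem inv2_EJ (h : d.Reg) {α : ℝ} (hL : α < d.L) :
    ∃ C, 0 ≤ C ∧ ∀ τ ∈ Icc 0 α, |Real.exp (d.c * τ) * d.J τ| ≤ C := by
  have hc : ContinuousOn (fun τ => Real.exp (d.c * τ) * d.J τ) (Icc 0 α) := by
    refine ContinuousOn.mul (by fun_prop) (h.cJ.mono ?_)
    intro x hx
    exact ⟨hx.1, lt_of_le_of_lt hx.2 hL⟩
  obtain ⟨C, hC⟩ := isCompact_Icc.exists_bound_of_continuousOn hc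
  refine ⟨max C 0, le_max_right _ _, fun τ hτ => ?_⟩
  exact le_trans (by simpa using hC τ hτ) (le_max_left _ _)

theorem inv2_cut {α t : ℝ} {g : ℝ → ℝ} (ht : t ∈ Icc 0 α) :
    ∫ s in (0 : ℝ)..α, (if s < t then g s else 0) = ∫ s in (0 : ℝ)..t, g s := by
  have h1 : (fun s => if s < t then g s else 0) = indicator (Iio t) g := by
    funext s
    simp [indicator]
  rw [h1, intervalIntegral.integral_of_le (ht.1.trans ht.2), intervalIntegral.integral_of_le ht.1,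
    setIntegral_indicator measurableSet_Iio, integral_Ioc_eq_integral_Ioo]
  congr 2
  ext s
  simp only [mem_inter_iff, mem_Ioc, mem_Iio, mem_Ioo]
  constructor
  · rintro ⟨⟨a, _⟩, c⟩
    exact ⟨a, c⟩
  · rintro ⟨a, c⟩
    exact ⟨⟨a, c.le.trans ht.2⟩, c⟩

theorem inv_D1 (h : d.Hyp) {s₀ α : ℝ} {f : ℝ → ℝ} (h0 : 0 < α) (h3 : α ≤ 3) (hL : α < d.L)
    (hs : s₀ = α ∨ s₀ = d.L) (hf : d.Sol s₀ α f) : ∀ t ∈ Icc 0 α, lam s₀ α f (d.D1 t) = 0 := by
  intro t ht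
  have hR : d.Reg := h.toReg
  obtain ⟨CE, hCE0, hCE⟩ := inv2_EJ hR hL
  obtain ⟨CN, δ, hδ, hCN⟩ := N_bound h h3 hL
  obtain ⟨CD, hCD⟩ := D1_bound hR hL
  obtain ⟨Cf, hCf⟩ := hf.bd
  have hfm : Measurable f := hf.meas
  have hNm := N_meas hR
  have hDm := D1_meas hR
  have hJm := hR.mJ
  have htL : t ∈ Ico 0 d.L := ⟨ht.1, lt_of_le_of_lt ht.2 hL⟩
  have hsub : ∀ τ ∈ Icc 0 t, τ ∈ Icc 0 α := fun τ hτ => ⟨hτ.1, hτ.2.trans ht.2⟩
  have hs0 : s₀ ∈ Ioc 0 d.L := by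
    rcases hs with rfl | rfl
    · exact ⟨h0, hL.le⟩
    · exact ⟨h0.trans hL, le_rfl⟩
  have hts : ¬ s₀ < t := by
    rcases hs with rfl | rfl
    · exact not_lt.mpr ht.2
    · exact not_lt.mpr htL.2.le
  have hfa : ∀ s ∈ Icc 0 α, |f s| ≤ Cf := fun s hs => by
    rw [abs_of_nonneg (hCf s hs).1]; exact (hCf s hs).2
  have hNa : ∀ τ ∈ Icc 0 α, ∀ s ∈ Icc 0 α, |d.N τ s| ≤ CN := fun τ hτ s hs => by
    rw [abs_of_nonneg ((hCN τ hτ).1 s hs).1]; exact ((hCN τ hτ).1 s hs).2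
  have hN0 : ∀ τ ∈ Icc 0 α, |d.N τ s₀| ≤ CN := fun τ hτ => by
    rcases hs with rfl | rfl
    · exact hNa τ hτ _ ⟨h0.le, le_rfl⟩
    · rw [abs_of_nonneg (hδ.le.trans (hCN τ hτ).2.1)]; exact (hCN τ hτ).2.2
  have hCN0 : 0 ≤ CN := (abs_nonneg _).trans (hN0 0 ⟨le_rfl, h0.le⟩)
  have hEm : Measurable fun τ => Real.exp (d.c * τ) * d.J τ := by fun_prop
  have hsw := swap_bd (α := t) (β := α) (C := CE * CN * Cf)
    (F := fun τ s => Real.exp (d.c * τ) * d.J τ * d.N τ s * f s) ht.1 h0.le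
    (((hEm.comp measurable_fst).mul hNm).mul (hfm.comp measurable_snd))
    (fun τ hτ s hs => by
      rw [abs_mul, abs_mul]
      exact mul_le_mul (mul_le_mul (hCE τ (hsub τ hτ)) (hNa τ (hsub τ hτ) s hs) (abs_nonneg _) hCE0)
        (hfa s hs) (abs_nonneg _) (mul_nonneg hCE0 hCN0))
  have i1 : IntervalIntegrable (fun τ => Real.exp (d.c * τ) * d.J τ * f τ) volume 0 t :=
    inv2_ii (C := CE * Cf) ht.1 (hEm.mul hfm) fun τ hτ => by
      rw [abs_mul]
      exact mul_le_mul (hCE τ (hsub τ hτ)) (hfa τ (hsub τ hτ)) (abs_nonneg _) hCE0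
  have i2 : IntervalIntegrable (fun τ => Real.exp (d.c * τ) * d.J τ * d.N τ s₀) volume 0 t :=
    inv2_ii (C := CE * CN) ht.1 (hEm.mul (hNm.of_uncurry_right)) fun τ hτ => by
      rw [abs_mul]
      exact mul_le_mul (hCE τ (hsub τ hτ)) (hN0 τ (hsub τ hτ)) (abs_nonneg _) hCE0
  have i3 : IntervalIntegrable
      (fun s => if s < t then Real.exp (d.c * s) * d.J s * f s else 0) volume 0 α :=
    inv2_ii (C := CE * Cf) h0.le
      (Measurable.ite measurableSet_Iio (hEm.mul hfm) measurable_const) fun s hs => by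
      split_ifs
      · rw [abs_mul]
        exact mul_le_mul (hCE s hs) (hfa s hs) (abs_nonneg _) hCE0
      · simpa using mul_nonneg hCE0 ((abs_nonneg _).trans (hfa s hs))
  have i4 : IntervalIntegrable (fun s => d.D1 t s * f s) volume 0 α :=
    hf.toDens.int h0.le hDm.of_uncurry_left ⟨CD, (hCD t ht).1⟩
  have e1 : ∫ τ in (0 : ℝ)..t, ∫ s in (0 : ℝ)..α, Real.exp (d.c * τ) * d.J τ * d.N τ s * f s =
      (∫ τ in (0 : ℝ)..t, Real.exp (d.c * τ) * d.J τ * f τ) -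
        ∫ τ in (0 : ℝ)..t, Real.exp (d.c * τ) * d.J τ * d.N τ s₀ := by
    rw [← intervalIntegral.integral_sub i1 i2]
    refine intervalIntegral.integral_congr fun τ hτ => ?_
    rw [uIcc_of_le ht.1] at hτ
    have he := hf.eq τ (hsub τ hτ)
    simp only [lam] at he
    simp only [mul_assoc (Real.exp (d.c * τ) * d.J τ), intervalIntegral.integral_const_mul]
    rw [← mul_sub]
    congr 1
    linarith
  have e2 : ∫ s in (0 : ℝ)..α, ∫ τ in (0 : ℝ)..t, Real.exp (d.c * τ) * d.J τ * d.N τ s * f s =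
      (∫ τ in (0 : ℝ)..t, Real.exp (d.c * τ) * d.J τ * f τ) -
        Real.exp (d.c * t) * ∫ s in (0 : ℝ)..α, d.D1 t s * f s := by
    rw [← inv2_cut ht, ← intervalIntegral.integral_const_mul,
      ← intervalIntegral.integral_sub i3 (i4.const_mul _)]
    refine intervalIntegral.integral_congr_ae (Filter.Eventually.of_forall fun s hs => ?_)
    rw [uIoc_of_le h0.le] at hs
    have he := D1_ftc hR htL (s := s) ⟨hs.1, hs.2.trans hL.le⟩
    rw [intervalIntegral.integral_mul_const, ← mul_assoc, he]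
    split_ifs <;> ring
  have e3 := D1_ftc hR htL hs0
  rw [if_neg hts] at e3
  have e4 : Real.exp (d.c * t) * lam s₀ α f (d.D1 t) = 0 := by
    simp only [lam]
    rw [mul_add, e3]
    linarith
  exact (mul_eq_zero.mp e4).resolve_left (Real.exp_pos _).ne'

theorem inv_K (h : d.Hyp) {s₀ α : ℝ} {f : ℝ → ℝ} (h0 : 0 < α) (h3 : α ≤ 3) (hL : α < d.L)
    (hs : s₀ = α ∨ s₀ = d.L) (hf : d.Sol s₀ α f) :
    ∀ t ∈ Icc 0 α, lam s₀ α f (d.K t) = lam s₀ α f (d.K 0) := by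
  intro t ht
  have hR : d.Reg := h.toReg
  obtain ⟨CD, hCD⟩ := D1_bound hR hL
  obtain ⟨Cf, hCf⟩ := hf.bd
  have hfm : Measurable f := hf.meas
  have hDm := D1_meas hR
  have htL : t ∈ Ico 0 d.L := ⟨ht.1, lt_of_le_of_lt ht.2 hL⟩
  have hsub : ∀ τ ∈ Icc 0 t, τ ∈ Icc 0 α := fun τ hτ => ⟨hτ.1, hτ.2.trans ht.2⟩
  have hs0 : s₀ ∈ Ioc 0 d.L := by
    rcases hs with rfl | rfl
    · exact ⟨h0, hL.le⟩
    · exact ⟨h0.trans hL, le_rfl⟩
  have hfa : ∀ s ∈ Icc 0 α, |f s| ≤ Cf := fun s hs => by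
    rw [abs_of_nonneg (hCf s hs).1]; exact (hCf s hs).2
  have hCD0 : 0 ≤ CD := (abs_nonneg _).trans (hCD 0 ⟨le_rfl, h0.le⟩).2
  have hsw := swap_bd (α := t) (β := α) (C := CD * Cf)
    (F := fun τ s => d.D1 τ s * f s) ht.1 h0.le (hDm.mul (hfm.comp measurable_snd))
    (fun τ hτ s hs => by
      rw [abs_mul]
      exact mul_le_mul ((hCD τ (hsub τ hτ)).1 s hs) (hfa s hs) (abs_nonneg _) hCD0)
  have hK : ∀ u, Continuous (d.K u) := fun u => hR.cK.uncurry_left u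
  have i1 := hf.toDens.intc h0.le (hK t)
  have i2 := hf.toDens.intc h0.le (hK 0)
  have e1 : ∫ τ in (0 : ℝ)..t, ∫ s in (0 : ℝ)..α, d.D1 τ s * f s =
      -∫ τ in (0 : ℝ)..t, d.D1 τ s₀ := by
    rw [← intervalIntegral.integral_neg]
    refine intervalIntegral.integral_congr fun τ hτ => ?_
    rw [uIcc_of_le ht.1] at hτ
    have he := inv_D1 h h0 h3 hL hs hf τ (hsub τ hτ)
    simp only [lam] at he
    linarith
  have e2 : ∫ s in (0 : ℝ)..α, ∫ τ in (0 : ℝ)..t, d.D1 τ s * f s =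
      (∫ s in (0 : ℝ)..α, d.K t s * f s) - ∫ s in (0 : ℝ)..α, d.K 0 s * f s := by
    rw [← intervalIntegral.integral_sub i1 i2]
    refine intervalIntegral.integral_congr_ae (Filter.Eventually.of_forall fun s hs => ?_)
    rw [uIoc_of_le h0.le] at hs
    have he := K_ftc hR htL (s := s) ⟨hs.1, hs.2.trans hL.le⟩
    rw [intervalIntegral.integral_mul_const, ← he]
    ring
  have e3 := K_ftc hR htL hs0
  simp only [lam]
  linarith

end Pool.Agent.Lib.MP_efb7ef_gt.T
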