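import Pool.Agent.Lib.MP_efb7ef_gt.T.Gap
import Pool.Agent.Lib.MP_efb7ef_gt.T.Inv2

/-! The maximum principle in the gap `(α, L)`. -/

namespace Pool.Agent.Lib.MP_efb7ef_gt.T

open Set Function MeasureTheory

variable {d : Dat}

theorem g2_int {P : ℝ → ℝ → ℝ} {L α t : ℝ} {f : ℝ → ℝ} (hm : Measurable (uncurry P))
    (hc : ContinuousOn (uncurry P) {p | 0 ≤ p.2 ∧ p.2 ≤ p.1 ∧ p.1 < L}) (h0 : 0 ≤ α)
    (hf : Dens α f) (ht : t ∈ Ioo α L) : IntervalIntegrable (fun s => P t s * f s) volume 0 α :=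
  hf.int h0 hm.of_uncurry_left (isCompact_Icc.exists_bound_of_continuousOn
    (hc.comp (f := fun s => (t, s)) (by fun_prop) fun _ hs => ⟨hs.1, hs.2.trans ht.1.le, ht.2⟩))

theorem g2_comb (h : d.Reg) {α t r l κ : ℝ} {f : ℝ → ℝ} (h0 : 0 ≤ α) (hf : Dens α f)
    (ht : t ∈ Ioo α d.L)
    (hs : ∀ s ∈ Icc 0 α, d.P2 t s + l * d.P1 t s - κ * (d.K t s - d.K r s) < 0) :
    (∫ s in (0 : ℝ)..α, d.P2 t s * f s) + l * (∫ s in (0 : ℝ)..α, d.P1 t s * f s) -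
      κ * ((∫ s in (0 : ℝ)..α, d.K t s * f s) - ∫ s in (0 : ℝ)..α, d.K r s * f s) ≤ 0 := by
  have i1 := (g2_int h.mP1 h.cP1 h0 hf ht).const_mul l
  have i2 := g2_int h.mP2 h.cP2 h0 hf ht
  have i3 := hf.intc h0 (h.cK.uncurry_left t)
  have i4 := hf.intc h0 (h.cK.uncurry_left r)
  obtain ⟨C, hC⟩ := hf.bd
  rw [← intervalIntegral.integral_sub i3 i4, ← intervalIntegral.integral_const_mul,
    ← intervalIntegral.integral_const_mul, ← intervalIntegral.integral_add i2 i1, sub_nonpos]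
  exact intervalIntegral.integral_mono_on h0 (i2.add i1) ((i3.sub i4).const_mul κ) fun s e => by
    nlinarith [mul_nonneg (neg_nonneg.2 (hs s e).le) (hC s e).1]

theorem g2_anti {U V : ℝ → ℝ} {a b : ℝ} (hc : ContinuousOn U (Icc a b))
    (hd : ∀ u ∈ Ioo a b, HasDerivAt U (V u) u ∧ V u < 0) : StrictAntiOn U (Icc a b) :=
  strictAntiOn_of_deriv_neg (convex_Icc a b) hc fun u hu => by
    rw [interior_Icc] at hu
    rw [(hd u hu).1.deriv]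
    exact (hd u hu).2

/-- No local minimum below the level. -/
theorem no_min (h : d.Hyp) {s₀ α : ℝ} {f : ℝ → ℝ} (h0 : 1 / 2 ≤ α) (h3 : α ≤ 3) (hL : α < d.L)
    (hs : s₀ = α ∨ s₀ = d.L) (hf : d.Sol s₀ α f) {t : ℝ} (ht : t ∈ Ioo α d.L)
    (hle : lam s₀ α f (d.K t) ≤ lam s₀ α f (d.K 0)) :
    ¬ IsLocalMin (fun u => lam s₀ α f (d.K u)) t := by
  intro hm
  have a0 : 0 < α := by linarith
  obtain ⟨l, κ, k0, k1, k2⟩ : ∃ l κ : ℝ, 0 ≤ κ ∧
      (∀ s ∈ Icc 0 α, d.P2 t s + l * d.P1 t s - κ * (d.K t s - d.K (1 / 2) s) < 0) ∧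
      d.M2 t d.L + l * d.M1 t d.L - κ * (d.K t d.L - d.K (1 / 2) d.L) < 0 := by
    rcases le_total t 3 with e | e
    · exact ⟨d.c, 0, le_rfl, fun s hs => by
        simpa using h.nearP s t hs.1 (hs.2.trans ht.1.le) e ht.2,
        by simpa using h.nearL t ⟨(a0.trans ht.1).le, ht.2⟩⟩
    · obtain ⟨l, κ, k0, k1, k2⟩ := h.far t e ht.2
      exact ⟨l, κ, k0, fun s hs => k1 s ⟨hs.1, hs.2.trans h3⟩, k2⟩
  obtain ⟨A, B, a1, a2, a3⟩ : ∃ (A : ℝ → ℝ) (B : ℝ),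
      (∀ u ∈ Ioo α d.L, HasDerivAt (fun u => d.K u s₀) (A u) u) ∧ HasDerivAt A B t ∧
      B + l * A t - κ * (d.K t s₀ - d.K (1 / 2) s₀) < 0 := by
    rcases hs with rfl | rfl
    · exact ⟨_, _, fun u hu => (h.dP _ u a0.le hu.1 hu.2).1, (h.dP _ t a0.le ht.1 ht.2).2,
        k1 _ ⟨a0.le, le_rfl⟩⟩
    · exact ⟨_, _, fun u hu => (h.dM u _ (a0.trans hu.1).le hu.2 le_rfl).1,
        (h.dM t _ (a0.trans ht.1).le ht.2 le_rfl).2, k2⟩
  obtain ⟨b1, b2⟩ := min_test hm (U1 := fun u => A u + ∫ s in (0 : ℝ)..α, d.P1 u s * f s)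
    (Filter.eventually_of_mem (Ioo_mem_nhds ht.1 ht.2) fun u hu =>
      (a1 u hu).add (gap_deriv h.toReg a0.le hf.toDens hu).1)
    (a2.add (gap_deriv h.toReg a0.le hf.toDens ht).2)
  have b3 := g2_comb h.toReg a0.le hf.toDens ht k1
  rw [← inv_K h a0 h3 hL hs hf (1 / 2) ⟨by norm_num, h0⟩, lam, lam] at hle
  have b4 := mul_nonneg k0 (sub_nonneg.2 hle)
  have b5 := congrArg (l * ·) b1
  simp only [mul_add, mul_zero] at b5
  linarith

/-- The potential does not drop below the level between two points at the level or above. -/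
theorem g2_ge (h : d.Hyp) {s₀ α : ℝ} {f : ℝ → ℝ} (h0 : 1 / 2 ≤ α) (h3 : α ≤ 3) (hL : α < d.L)
    (hs : s₀ = α ∨ s₀ = d.L) (hf : d.Sol s₀ α f) {b : ℝ} (hb : b ≤ d.L)
    (hF : lam s₀ α f (d.K 0) ≤ lam s₀ α f (d.K b)) :
    ∀ t ∈ Icc α b, lam s₀ α f (d.K 0) ≤ lam s₀ α f (d.K t) := fun t ht => by
  have a0 : 0 < α := by linarith
  obtain ⟨x, hx, hm⟩ := isCompact_Icc.exists_isMinOn ⟨t, ht⟩
    (lam_cont h.toReg s₀ a0.le hf.toDens).continuousOn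
  refine le_trans (not_lt.1 fun e => ?_) (hm ht)
  have h1 : α < x := hx.1.lt_of_ne fun z =>
    e.ne (z ▸ inv_K h a0 h3 hL hs hf α ⟨a0.le, le_rfl⟩)
  have h2 : x < b := hx.2.lt_of_ne fun z => e.not_ge (z ▸ hF)
  exact no_min h h0 h3 hL hs hf ⟨h1, h2.trans_le hb⟩ e.le (hm.isLocalMin (Icc_mem_nhds h1 h2))

theorem gap_mu (h : d.Hyp) {α : ℝ} {f : ℝ → ℝ} (h0 : 1 / 2 ≤ α) (h3 : α ≤ 3) (hL : α < d.L)
    (hf : d.Sol α α f) (hF : lam α α f (d.K 0) ≤ lam α α f (d.K d.L)) :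
    ∀ t ∈ Icc 0 d.L, lam α α f (d.K 0) ≤ lam α α f (d.K t) := by
  intro t ht
  rcases le_total t α with e | e
  · exact (inv_K h (by linarith) h3 hL (.inl rfl) hf t ⟨ht.1, e⟩).ge
  · exact g2_ge h h0 h3 hL (.inl rfl) hf le_rfl hF t ⟨e, ht.2⟩

theorem gap_nu (h : d.Hyp) {α : ℝ} {f : ℝ → ℝ} (h0 : 1 / 2 ≤ α) (h3 : α < 3) (hL : α < d.L)
    (hf : d.Sol d.L α f) : ∀ t ∈ Icc 0 d.L, lam d.L α f (d.K t) ≤ lam d.L α f (d.K 0) := by
  intro t ht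
  have a0 : 0 < α := by linarith
  have hK := inv_K h a0 h3.le hL (.inr rfl) hf
  rcases le_or_gt t α with e | e
  · exact (hK t ⟨ht.1, e⟩).le
  obtain ⟨b, b1, b2⟩ := exists_between (lt_min h3 e)
  rw [lt_min_iff] at b2
  have bL := b2.2.trans_le ht.2
  let V : ℝ → ℝ := fun u => d.M1 u d.L + ∫ s in (0 : ℝ)..α, d.P1 u s * f s
  have v0 : V α = 0 := by
    rw [← inv_D1 h a0 h3.le hL (.inr rfl) hf α ⟨a0.le, le_rfl⟩, lam, Dat.D1, if_neg hL.not_gt]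
    refine congrArg _ (intervalIntegral.integral_congr_ae ?_)
    filter_upwards [(countable_singleton α).ae_notMem volume] with s h1 h2
    rw [uIoc_of_le a0.le] at h2
    rw [Dat.D1, if_pos (h2.2.lt_of_ne h1)]
  have v1 : ContinuousOn V (Icc α b) :=
    (h.cM1.comp (f := fun u => (u, d.L)) (by fun_prop) fun u hu =>
      ⟨a0.le.trans hu.1, hu.2.trans bL.le, le_rfl, hu.2.trans_lt bL⟩).add
      ((gap_cont h.toReg a0.le hf.toDens).mono fun u hu => ⟨hu.1, hu.2.trans_lt bL⟩)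
  have v2 : StrictAntiOn (fun u => Real.exp (d.c * u) * V u) (Icc α b) :=
    g2_anti (ContinuousOn.mul (by fun_prop) v1) fun u hu => by
      have hu' : u ∈ Ioo α d.L := ⟨hu.1, hu.2.trans bL⟩
      refine ⟨((hasDerivAt_id' u).const_mul d.c).exp.mul
        ((h.dM u _ (a0.trans hu.1).le hu'.2 le_rfl).2.add
          (gap_deriv h.toReg a0.le hf.toDens hu').2), ?_⟩
      have k1 := g2_comb (r := 0) (l := d.c) (κ := 0) h.toReg a0.le hf.toDens hu' fun s hs => by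
        simpa using h.nearP s u hs.1 (hs.2.trans hu.1.le) (hu.2.trans b2.1).le hu'.2
      have k2 := h.nearL u ⟨(a0.trans hu.1).le, hu'.2⟩
      have k3 := Real.exp_pos (d.c * u)
      nlinarith
  have v3 : StrictAntiOn (fun u => lam d.L α f (d.K u)) (Icc α b) :=
    g2_anti (V := V) (lam_cont h.toReg _ a0.le hf.toDens).continuousOn fun u hu => by
      have hu' : u ∈ Ioo α d.L := ⟨hu.1, hu.2.trans bL⟩
      refine ⟨(h.dM u _ (a0.trans hu.1).le hu'.2 le_rfl).1.add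
        (gap_deriv h.toReg a0.le hf.toDens hu').1, ?_⟩
      have := v2 ⟨le_rfl, b1.le⟩ ⟨hu.1.le, hu.2.le⟩ hu.1
      simp only [v0, mul_zero] at this
      exact neg_of_mul_neg_right this (Real.exp_pos _).le
  have v4 := v3 ⟨le_rfl, b1.le⟩ ⟨b1.le, le_rfl⟩ b1
  simp only [hK α ⟨a0.le, le_rfl⟩] at v4
  exact not_lt.1 fun z =>
    v4.not_ge (g2_ge h h0 h3.le hL (.inr rfl) hf ht.2 z.le b ⟨b1.le, b2.2.le⟩)

end Pool.Agent.Lib.MP_efb7ef_gt.T
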