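import Pool.Agent.Lib.MP_efb7ef_gt.T.Game
import Pool.Agent.Lib.MP_efb7ef_gt.T.Gap2

/-! The value of the game. -/

namespace Pool.Agent.Lib.MP_efb7ef_gt.T

open Set Function MeasureTheory

variable {d : Dat}

theorem g2_cont (h : d.Reg) (t : ℝ) : Continuous (d.K t) := h.cK.uncurry_left t

theorem g2_shift {s₀ α : ℝ} {f ψ : ℝ → ℝ} (h0 : 0 ≤ α) (hf : Dens α f) (hψ : Continuous ψ)
    (x : ℝ) : lam s₀ α f (fun s => ψ s + x) = lam s₀ α f ψ + x * lam s₀ α f (fun _ => 1) := by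
  rw [← lam_const]
  simp only [lam, add_mul]
  rw [intervalIntegral.integral_add (hf.intc h0 hψ) (hf.intc h0 continuous_const)]
  ring

theorem g2_sum {n : ℕ} {s₀ α : ℝ} {f : ℝ → ℝ} (h0 : 0 ≤ α) (hf : Dens α f) (w : Fin n → ℝ)
    {ψ : Fin n → ℝ → ℝ} (hψ : ∀ i, Continuous (ψ i)) :
    lam s₀ α f (fun s => ∑ i, w i * ψ i s) = ∑ i, w i * lam s₀ α f (ψ i) := by
  simp only [lam, Finset.sum_mul, mul_add, Finset.sum_add_distrib, mul_assoc]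
  rw [intervalIntegral.integral_finsetSum fun i _ => (hf.intc h0 (hψ i)).const_mul (w i)]
  simp only [intervalIntegral.integral_const_mul]

theorem g2_nonneg (h : d.Reg) {s₀ α : ℝ} {f : ℝ → ℝ} (h0 : 0 ≤ α) (hf : Dens α f) (t : ℝ) :
    0 ≤ lam s₀ α f (d.K t) := by
  have := lam_mono (s₀ := s₀) h0 hf (continuous_const (y := 0)) (g2_cont h t) (h.K0 _ _)
    fun s _ => h.K0 _ _
  rwa [lam_const, zero_mul] at this

theorem g2_unif (h : d.Reg) {ω : ℝ} (hω : 0 < ω) : ∃ η > 0, ∀ t ∈ Icc 0 d.L, ∀ u ∈ Icc 0 d.L,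
    ∀ s ∈ Icc 0 d.L, |t - u| < η → d.K t s ≤ d.K u s + ω := by
  obtain ⟨η, h1, h2⟩ := Metric.uniformContinuousOn_iff.1
    ((isCompact_Icc.prod isCompact_Icc).uniformContinuousOn_of_continuous
      (s := Icc 0 d.L ×ˢ Icc 0 d.L) h.cK.continuousOn) ω hω
  refine ⟨η, h1, fun t ht u hu s hs e => ?_⟩
  have := h2 (t, s) ⟨ht, hs⟩ (u, s) ⟨hu, hs⟩ (by simpa [Prod.dist_eq, Real.dist_eq, h1] using e)
  rw [Real.dist_eq] at this
  have := (abs_lt.1 this).2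
  simp only [uncurry_apply_pair] at this
  linarith

theorem g2_max (h : d.Reg) : ∃ C, ∀ s ∈ Icc 0 d.L, d.K d.L s ≤ C := by
  obtain ⟨C, hC⟩ := isCompact_Icc.exists_bound_of_continuousOn
    (s := Icc 0 d.L) (g2_cont h d.L).continuousOn
  exact ⟨C, fun s hs => (le_abs_self _).trans (hC s hs)⟩

/-- The lower bound. -/
theorem g2_low (h : d.Hyp) {m ζ : ℝ} (hζ : 0 < ζ)
    (hm : ∀ α, 1 / 2 ≤ α → d.Adm α → m ≤ d.phi α) :
    ∃ α f, 1 / 2 ≤ α ∧ d.Adm α ∧ d.Sol α α f ∧ lam α α f (d.K 0) < lam α α f (d.K d.L) ∧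
      (m - ζ) * lam α α f (fun _ => 1) ≤ lam α α f (d.K 0) := by
  by_contra hc
  push Not at hc
  have hr := h.toReg
  have R : ∀ α f, 1 / 2 ≤ α → d.Adm α → d.Sol α α f → ∃ g, d.Sol d.L α g ∧
      m * lam d.L α g (fun _ => 1) * lam α α f (fun _ => 1) ≤
        lam α α f (d.K 0) * lam d.L α g (fun _ => 1) +
          (lam α α f (d.K d.L) - lam α α f (d.K 0)) := fun α f h1 h2 h3 => by
    obtain ⟨g, g1, g2⟩ := phi_eq h h2
    refine ⟨g, g1, ?_⟩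
    rw [← recip h h2.pos h2.lt3.le h2.ltL h3 g1, ← g2]
    have := one_le_lam d.L h2.pos.le g1.toDens
    have := one_le_lam α h2.pos.le h3.toDens
    have := hm α h1 h2
    gcongr
  let B : Set ℝ := {α | 1 / 2 ≤ α ∧ d.Adm α ∧
    ∃ f, d.Sol α α f ∧ lam α α f (d.K 0) < lam α α f (d.K d.L)}
  have H : ∀ α f, 1 / 2 ≤ α → d.Adm α → d.Sol α α f → lam α α f (d.K 0) < lam α α f (d.K d.L) →
      ∃ g, d.Sol d.L α g ∧ ζ * lam d.L α g (fun _ => 1) * lam α α f (fun _ => 1) <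
        lam α α f (d.K d.L) - lam α α f (d.K 0) := fun α f h1 h2 h3 h4 => by
    obtain ⟨g, g1, g2⟩ := R α f h1 h2 h3
    have k1 := one_le_lam d.L h2.pos.le g1.toDens
    have k2 := mul_lt_mul_of_pos_right (hc α f h1 h2 h3 h4) (one_pos.trans_le k1)
    exact ⟨g, g1, by linarith⟩
  have hB : (1 / 2 : ℝ) ∈ B := by
    obtain ⟨f, hf⟩ := sol_mu h (adm_half h)
    have h0 : (0 : ℝ) ≤ 1 / 2 := by norm_num
    obtain ⟨C, hC⟩ := hf.bd
    exact ⟨le_rfl, adm_half h, f, hf, add_lt_add_of_lt_of_le (h.start _ ⟨h0, le_rfl⟩)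
      (intervalIntegral.integral_mono_on h0 (hf.intc h0 (g2_cont hr _)) (hf.intc h0 (g2_cont hr _))
        fun s hs => mul_le_mul_of_nonneg_right (h.start s hs).le (hC s hs).1)⟩
  have bd : BddAbove B := ⟨3, fun α hα => hα.2.1.lt3.le⟩
  have A3 : sSup B ≤ 3 := csSup_le ⟨_, hB⟩ fun α hα => hα.2.1.lt3.le
  have AL : sSup B ≤ d.L := csSup_le ⟨_, hB⟩ fun α hα => hα.2.1.ltL.le
  have near : ∀ r > 0, ∃ α ∈ B, sSup B - r < α := fun r hr =>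
    exists_lt_of_lt_csSup ⟨_, hB⟩ (by linarith)
  obtain ⟨η, η0, hη⟩ := g2_unif hr hζ
  have L0 : 0 ≤ d.L := zero_le_one.trans hr.L1
  rcases AL.eq_or_lt with e | AL
  · obtain ⟨α, ⟨h1, h2, f, h3, h4⟩, h5⟩ := near η η0
    obtain ⟨g, g1, g2⟩ := H α f h1 h2 h3 h4
    have a0 := h2.pos.le
    have aL := h2.ltL.le
    have k : ∀ s ∈ Icc 0 α, d.K d.L s ≤ d.K α s + ζ := fun s hs =>
      hη _ ⟨L0, le_rfl⟩ _ ⟨a0, aL⟩ s ⟨hs.1, hs.2.trans aL⟩ (by rw [abs_lt]; constructor <;> linarith)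
    have k1 := lam_mono (s₀ := α) a0 h3.toDens (g2_cont hr _) ((g2_cont hr α).add_const ζ)
      (k α ⟨a0, le_rfl⟩) k
    rw [g2_shift a0 h3.toDens (g2_cont hr α),
      inv_K h h2.pos h2.lt3.le h2.ltL (.inl rfl) h3 α ⟨a0, le_rfl⟩] at k1
    have k2 := one_le_lam d.L a0 g1.toDens
    have k3 := one_le_lam α a0 h3.toDens
    have k4 : ζ * 1 * lam α α f (fun _ => 1) ≤
        ζ * lam d.L α g (fun _ => 1) * lam α α f (fun _ => 1) := by gcongr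
    linarith
  rcases A3.eq_or_lt with e | A3
  · obtain ⟨α, ⟨h1, h2, f, h3, h4⟩, h5⟩ := near (1 / 4) (by norm_num)
    obtain ⟨β, w, b1, b2, b3⟩ := h.stop (e ▸ AL)
    have a0 := h2.pos.le
    have a3 := h2.lt3.le
    have k1 := lam_mono (s₀ := α) a0 h3.toDens (g2_cont hr d.L)
      (continuous_finsetSum _ fun i _ => (g2_cont hr (β i)).const_mul (w i))
      (b3 α ⟨a0, a3⟩) fun s hs => b3 s ⟨hs.1, hs.2.trans a3⟩
    rw [g2_sum a0 h3.toDens w fun i => g2_cont hr (β i), Finset.sum_congr rfl fun i _ => by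
      rw [inv_K h h2.pos a3 h2.ltL (.inl rfl) h3 (β i) ⟨(b1 i).1, by linarith [(b1 i).2]⟩],
      ← Finset.sum_mul, b2, one_mul] at k1
    exact h4.not_ge k1
  obtain ⟨γ, g0, g1⟩ := exists_between (lt_min A3 AL)
  obtain ⟨γ3, γL⟩ := lt_min_iff.1 g1
  obtain ⟨C, hC⟩ := g2_max hr
  obtain ⟨z, z0, hz⟩ := adm_step h γ3 γL (C / ζ)
  obtain ⟨r, r0, r1, r2, r3⟩ : ∃ r > 0, 2 * r ≤ z ∧ 2 * r ≤ η ∧ sSup B + r ≤ γ :=
    ⟨min (min z η / 2) (γ - sSup B), lt_min (half_pos (lt_min z0 η0)) (sub_pos.2 g0),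
      by linarith [min_le_left (min z η / 2) (γ - sSup B), min_le_left z η],
      by linarith [min_le_left (min z η / 2) (γ - sSup B), min_le_right z η],
      by linarith [min_le_right (min z η / 2) (γ - sSup B)]⟩
  obtain ⟨α, hα, h5⟩ := near r r0
  have h6 := le_csSup bd hα
  obtain ⟨h1, h2, f, h3, h4⟩ := hα
  obtain ⟨g, g1, g2⟩ := H α f h1 h2 h3 h4
  have a0 := h2.pos.le
  have aL := h2.ltL.le
  have k3 := one_le_lam α a0 h3.toDens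
  have k1 := lam_mono (s₀ := α) a0 h3.toDens (g2_cont hr d.L) (continuous_const (y := C))
    (hC α ⟨a0, aL⟩) fun s hs => hC s ⟨hs.1, hs.2.trans aL⟩
  rw [lam_const] at k1
  have k2 : ζ * lam d.L α g (fun _ => 1) ≤ C :=
    le_of_mul_le_mul_right (by linarith [g2_nonneg hr (s₀ := α) a0 h3.toDens 0])
      (one_pos.trans_le k3)
  have ad : d.Adm (sSup B + r) := hz α _ g h2.pos g1 (by rwa [le_div_iff₀' hζ]) (by linarith) r3
    (by linarith)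
  obtain ⟨f', hf'⟩ := sol_mu h ad
  have h1' : 1 / 2 ≤ sSup B + r := by linarith
  have nb : lam _ _ f' (d.K d.L) ≤ lam _ _ f' (d.K 0) := not_lt.1 fun e => by
    linarith [le_csSup bd (show sSup B + r ∈ B from ⟨h1', ad, f', hf', e⟩)]
  obtain ⟨g', g1', g2'⟩ := R _ f' h1' ad hf'
  have k4 := one_le_lam d.L ad.pos.le g1'.toDens
  have k5 := one_le_lam (sSup B + r) ad.pos.le hf'.toDens
  have k6 : m * lam _ _ f' (fun _ => 1) ≤ lam _ _ f' (d.K 0) :=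
    le_of_mul_le_mul_right (by linarith) (one_pos.trans_le k4)
  have k7 := level_le h h2.pos (by linarith) ad.lt3.le ad.ltL h3 hf' (fun t ht s hs =>
    hη t ⟨a0.trans ht.1, ht.2.trans ad.ltL.le⟩ α ⟨a0, aL⟩ s ⟨hs.1, hs.2.trans aL⟩
      (by rw [abs_lt]; constructor <;> linarith [ht.1, ht.2])) hζ.le
  have k8 := mul_le_mul_of_nonneg_right k6 (zero_le_one.trans k3)
  have k9 := mul_lt_mul_of_pos_right (hc α f h1 h2 h3 h4) (one_pos.trans_le k5)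
  linarith

theorem game (h : d.Hyp) : ∃ m : ℝ, IsGLB (d.phi '' {α | 1 / 2 ≤ α ∧ d.Adm α}) m ∧
    (∀ ζ > 0, ∃ s₀ ∈ Icc 0 d.L, ∃ α ∈ Icc 0 d.L, ∃ f, Dens α f ∧
      ∀ t ∈ Icc 0 d.L, lam s₀ α f (d.K t) ≤ (m + ζ) * lam s₀ α f (fun _ => 1)) ∧
    (∀ ζ > 0, ∃ s₀ ∈ Icc 0 d.L, ∃ α ∈ Icc 0 d.L, ∃ f, Dens α f ∧
      ∀ t ∈ Icc 0 d.L, (m - ζ) * lam s₀ α f (fun _ => 1) ≤ lam s₀ α f (d.K t)) := by
  have hr := h.toReg
  have L0 : 0 ≤ d.L := zero_le_one.trans hr.L1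
  have ne : (d.phi '' {α | 1 / 2 ≤ α ∧ d.Adm α}).Nonempty := ⟨_, _, ⟨le_rfl, adm_half h⟩, rfl⟩
  have glb := isGLB_csInf ne ⟨0, by
    rintro _ ⟨α, hα, rfl⟩
    obtain ⟨f, h1, h2⟩ := phi_eq h hα.2
    exact nonneg_of_mul_nonneg_left (h2 ▸ g2_nonneg hr hα.2.pos.le h1.toDens 0)
      (one_pos.trans_le (one_le_lam d.L hα.2.pos.le h1.toDens))⟩
  refine ⟨_, glb, fun ζ hζ => ?_, fun ζ hζ => ?_⟩
  · obtain ⟨_, ⟨α, hα, rfl⟩, h0⟩ := exists_lt_of_csInf_lt ne (lt_add_of_pos_right _ hζ)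
    obtain ⟨f, h1, h2⟩ := phi_eq h hα.2
    refine ⟨_, ⟨L0, le_rfl⟩, α, ⟨hα.2.pos.le, hα.2.ltL.le⟩, f, h1.toDens, fun t ht =>
      (gap_nu h hα.1 hα.2.lt3 hα.2.ltL h1 t ht).trans ?_⟩
    rw [← h2]
    exact mul_le_mul_of_nonneg_right h0.le
      (zero_le_one.trans (one_le_lam d.L hα.2.pos.le h1.toDens))
  · obtain ⟨α, f, h1, h2, h3, h4, h5⟩ := g2_low h hζ fun α a b => glb.1 ⟨α, ⟨a, b⟩, rfl⟩
    exact ⟨α, ⟨h2.pos.le, h2.ltL.le⟩, α, ⟨h2.pos.le, h2.ltL.le⟩, f, h3.toDens, fun t ht =>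
      h5.trans (gap_mu h h1 h2.lt3.le h2.ltL h3 h4.le t ht)⟩

end Pool.Agent.Lib.MP_efb7ef_gt.T
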