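import Pool.Agent.Lib.MP_efb7ef_gt.T.Link

/-! From nearly optimal measures on a quarter of the ellipse to the magic number. -/

namespace Pool.Agent.Lib.MP_efb7ef_gt.T

open Set Function MeasureTheory

variable {a b : ℝ}

/-- A weighted configuration on the ellipse whose potential is close to that of a measure. -/
theorem link_conf (hb : 0 < b) (hab : b ≤ a) {s₀ α : ℝ} {f : ℝ → ℝ} (hs : s₀ ∈ Icc 0 (a / b))
    (hα : α ∈ Icc 0 (a / b)) (hf : Dens α f) {ζ : ℝ} (hζ : 0 < ζ) :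
    ∃ (n : ℕ) (z : Fin n × Bool × Bool → EuclideanSpace ℝ (Fin 2)) (w : Fin n × Bool × Bool → ℝ),
      (∀ i, z i ∈ ellipse a b) ∧ (∀ i, 0 ≤ w i) ∧ ∑ i, w i = 1 ∧
      ∀ y ∈ ellipse a b, ∃ t ∈ Icc 0 (a / b),
        |∑ i, w i * dist (z i) y -
          a / 4 * (lam s₀ α f (kk (b ^ 2 / a ^ 2) t) / lam s₀ α f (fun _ => 1))| ≤ a / 4 * ζ := by
  have ha : 0 < a := lt_of_lt_of_le hb hab
  obtain ⟨n, z, w, hz, w0, w1, hw⟩ := lam_disc (kk_cont (b ^ 2 / a ^ 2)) hs hα hf hζ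
  have hS := one_le_lam s₀ hα.1 hf
  set S := lam s₀ α f (fun _ => 1) with hSd
  have hS0 : 0 < S := by linarith
  refine ⟨n, fun k => pt a (b ^ 2 / a ^ 2) k.2.1 k.2.2 (z k.1), fun k => w k.1 / (4 * S),
    fun k => pt_mem hb hab _ _ (hz _), fun k => div_nonneg (w0 _) (by positivity), ?_,
    fun y hy => ?_⟩
  · rw [Fintype.sum_prod_type]
    have : ∀ k, ∑ _y : Bool × Bool, w k / (4 * S) = w k / S := fun k => by
      rw [Finset.sum_const, Finset.card_univ, Fintype.card_prod, Fintype.card_bool, nsmul_eq_mul]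
      push_cast; field_simp
    simp only [this]
    rw [← Finset.sum_div, w1, div_self hS0.ne']
  · obtain ⟨i, j, t, ht, rfl⟩ := pt_surj hb hab hy
    refine ⟨t, ht, ?_⟩
    have e : ∑ k : Fin n × Bool × Bool, w k.1 / (4 * S) *
        dist (pt a (b ^ 2 / a ^ 2) k.2.1 k.2.2 (z k.1)) (pt a (b ^ 2 / a ^ 2) i j t) =
        a / 4 * ((∑ k, w k * kk (b ^ 2 / a ^ 2) t (z k)) / S) := by
      rw [Fintype.sum_prod_type, Finset.sum_div, Finset.mul_sum]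
      refine Finset.sum_congr rfl fun k _ => ?_
      rw [Fintype.sum_prod_type]
      simp only [← Finset.mul_sum]
      rw [pt_sum ha.le]
      field_simp
    rw [e, ← mul_sub, ← sub_div, abs_mul, abs_of_pos (by positivity : 0 < a / 4), abs_div,
      abs_of_pos hS0]
    refine mul_le_mul_of_nonneg_left ?_ (by positivity)
    rw [div_le_iff₀ hS0]
    exact (hw t ht).trans (le_mul_of_one_le_right hζ.le hS)

theorem link_up (hb : 0 < b) (hab : b ≤ a) {m : ℝ}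
    (hu : ∀ ζ > 0, ∃ s₀ ∈ Icc 0 (a / b), ∃ α ∈ Icc 0 (a / b), ∃ f, Dens α f ∧ ∀ t ∈ Icc 0 (a / b),
      lam s₀ α f (kk (b ^ 2 / a ^ 2) t) ≤ (m + ζ) * lam s₀ α f (fun _ => 1))
    {ζ : ℝ} (hζ : 0 < ζ) :
    ∃ (n : ℕ) (z : Fin n × Bool × Bool → EuclideanSpace ℝ (Fin 2)) (w : Fin n × Bool × Bool → ℝ),
      (∀ i, z i ∈ ellipse a b) ∧ (∀ i, 0 ≤ w i) ∧ ∑ i, w i = 1 ∧
      ∀ y ∈ ellipse a b, ∑ i, w i * dist (z i) y ≤ a * m / 4 + ζ := by
  have ha : 0 < a := lt_of_lt_of_le hb hab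
  have hη : 0 < 2 * ζ / a := by positivity
  obtain ⟨s₀, hs, α, hα, f, hf, h⟩ := hu _ hη
  obtain ⟨n, z, w, hz, w0, w1, hw⟩ := link_conf hb hab hs hα hf hη
  refine ⟨n, z, w, hz, w0, w1, fun y hy => ?_⟩
  obtain ⟨t, ht, h2⟩ := hw y hy
  have hS := one_le_lam s₀ hα.1 hf
  have h3 : lam s₀ α f (kk (b ^ 2 / a ^ 2) t) / lam s₀ α f (fun _ => 1) ≤ m + 2 * ζ / a := by
    rw [div_le_iff₀ (by linarith)]; exact h t ht
  have h4 := mul_le_mul_of_nonneg_left h3 (by positivity : 0 ≤ a / 4)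
  have h5 : a / 4 * (2 * ζ / a) = ζ / 2 := by field_simp; ring
  rw [mul_add, h5] at h4
  rw [h5] at h2
  linarith [(abs_le.1 h2).2]

theorem link_low (hb : 0 < b) (hab : b ≤ a) {m : ℝ}
    (hl : ∀ ζ > 0, ∃ s₀ ∈ Icc 0 (a / b), ∃ α ∈ Icc 0 (a / b), ∃ f, Dens α f ∧ ∀ t ∈ Icc 0 (a / b),
      (m - ζ) * lam s₀ α f (fun _ => 1) ≤ lam s₀ α f (kk (b ^ 2 / a ^ 2) t))
    {ζ : ℝ} (hζ : 0 < ζ) :
    ∃ (n : ℕ) (z : Fin n × Bool × Bool → EuclideanSpace ℝ (Fin 2)) (w : Fin n × Bool × Bool → ℝ),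
      (∀ i, z i ∈ ellipse a b) ∧ (∀ i, 0 ≤ w i) ∧ ∑ i, w i = 1 ∧
      ∀ y ∈ ellipse a b, a * m / 4 - ζ ≤ ∑ i, w i * dist (z i) y := by
  have ha : 0 < a := lt_of_lt_of_le hb hab
  have hη : 0 < 2 * ζ / a := by positivity
  obtain ⟨s₀, hs, α, hα, f, hf, h⟩ := hl _ hη
  obtain ⟨n, z, w, hz, w0, w1, hw⟩ := link_conf hb hab hs hα hf hη
  refine ⟨n, z, w, hz, w0, w1, fun y hy => ?_⟩
  obtain ⟨t, ht, h2⟩ := hw y hy
  have hS := one_le_lam s₀ hα.1 hf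
  have h3 : m - 2 * ζ / a ≤ lam s₀ α f (kk (b ^ 2 / a ^ 2) t) / lam s₀ α f (fun _ => 1) := by
    rw [le_div_iff₀ (by linarith)]; exact h t ht
  have h4 := mul_le_mul_of_nonneg_left h3 (by positivity : 0 ≤ a / 4)
  have h5 : a / 4 * (2 * ζ / a) = ζ / 2 := by field_simp; ring
  rw [mul_sub, h5] at h4
  rw [h5] at h2
  linarith [(abs_le.1 h2).1]

theorem link_swap {n : ℕ} (x : Fin n → EuclideanSpace ℝ (Fin 2)) {ι : Type}
    [Fintype ι] (z : ι → EuclideanSpace ℝ (Fin 2)) (w : ι → ℝ) :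
    ∑ k, w k * ((∑ i, dist (x i) (z k)) / n) = (∑ i, ∑ k, w k * dist (z k) (x i)) / n := by
  rw [Finset.sum_comm, Finset.sum_div]
  refine Finset.sum_congr rfl fun k _ => ?_
  rw [← Finset.mul_sum, mul_div_assoc]
  simp only [dist_comm]

theorem link_of (hb : 0 < b) (hab : b ≤ a) {m : ℝ}
    (hu : ∀ ζ > 0, ∃ s₀ ∈ Icc 0 (a / b), ∃ α ∈ Icc 0 (a / b), ∃ f, Dens α f ∧ ∀ t ∈ Icc 0 (a / b),
      lam s₀ α f (kk (b ^ 2 / a ^ 2) t) ≤ (m + ζ) * lam s₀ α f (fun _ => 1))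
    (hl : ∀ ζ > 0, ∃ s₀ ∈ Icc 0 (a / b), ∃ α ∈ Icc 0 (a / b), ∃ f, Dens α f ∧ ∀ t ∈ Icc 0 (a / b),
      (m - ζ) * lam s₀ α f (fun _ => 1) ≤ lam s₀ α f (kk (b ^ 2 / a ^ 2) t)) :
    IsMagic (ellipse a b) (a * m / 4) := by
  have ha : 0 < a := lt_of_lt_of_le hb hab
  intro n hn x hx
  have hn' : (0 : ℝ) < n := by exact_mod_cast hn
  have hγ : Continuous (gam a b) :=
    (LipschitzWith.of_dist_le' (K := a + b) (gam_lip ha.le hb.le)).continuous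
  have hper : Periodic (gam a b) (2 * Real.pi) := fun t => by
    simp only [gam, Real.cos_add_two_pi, Real.sin_add_two_pi]
  have hcomp : IsCompact (ellipse a b) := by
    rw [← range_gam ha.ne' hb.ne']
    exact hper.compact_of_continuous (by positivity) hγ
  have hconn : IsPreconnected (ellipse a b) := by
    rw [← range_gam ha.ne' hb.ne']
    exact isPreconnected_range hγ
  have hne : (ellipse a b).Nonempty := ⟨x ⟨0, hn⟩, hx _⟩
  set g : EuclideanSpace ℝ (Fin 2) → ℝ := fun y => (∑ i, dist (x i) y) / n with hg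
  have hgc : Continuous g := by rw [hg]; fun_prop
  obtain ⟨p, hp, hmin⟩ := hcomp.exists_isMinOn hne hgc.continuousOn
  obtain ⟨q, hq, hmax⟩ := hcomp.exists_isMaxOn hne hgc.continuousOn
  have h1 : g p ≤ a * m / 4 := by
    refine le_of_forall_pos_le_add fun ζ hζ => ?_
    obtain ⟨N, z, w, hz, w0, w1, hw⟩ := link_up hb hab hu hζ
    calc g p = ∑ k, w k * g p := by rw [← Finset.sum_mul, w1, one_mul]
      _ ≤ ∑ k, w k * g (z k) :=
        Finset.sum_le_sum fun k _ => mul_le_mul_of_nonneg_left (hmin (hz k)) (w0 k)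
      _ = (∑ i, ∑ k, w k * dist (z k) (x i)) / n := link_swap x z w
      _ ≤ (∑ _i : Fin n, (a * m / 4 + ζ)) / n :=
        div_le_div_of_nonneg_right (Finset.sum_le_sum fun i _ => hw _ (hx i)) hn'.le
      _ = a * m / 4 + ζ := by
        rw [Finset.sum_const, Finset.card_univ, Fintype.card_fin, nsmul_eq_mul,
          mul_div_cancel_left₀ _ hn'.ne']
  have h2 : a * m / 4 ≤ g q := by
    refine le_of_forall_pos_le_add fun ζ hζ => ?_
    obtain ⟨N, z, w, hz, w0, w1, hw⟩ := link_low hb hab hl hζ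
    rw [← sub_le_iff_le_add]
    calc a * m / 4 - ζ = (∑ _i : Fin n, (a * m / 4 - ζ)) / n := by
          rw [Finset.sum_const, Finset.card_univ, Fintype.card_fin, nsmul_eq_mul,
            mul_div_cancel_left₀ _ hn'.ne']
      _ ≤ (∑ i, ∑ k, w k * dist (z k) (x i)) / n :=
        div_le_div_of_nonneg_right (Finset.sum_le_sum fun i _ => hw _ (hx i)) hn'.le
      _ = ∑ k, w k * g (z k) := (link_swap x z w).symm
      _ ≤ ∑ k, w k * g q :=
        Finset.sum_le_sum fun k _ => mul_le_mul_of_nonneg_left (hmax (hz k)) (w0 k)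
      _ = g q := by rw [← Finset.sum_mul, w1, one_mul]
  obtain ⟨y, hy, e⟩ := hconn.intermediate_value hp hq hgc.continuousOn ⟨h1, h2⟩
  exact ⟨y, hy, e⟩

theorem link_to (hb : 0 < b) (hab : b ≤ a) {m m' : ℝ}
    (hu : ∀ ζ > 0, ∃ s₀ ∈ Icc 0 (a / b), ∃ α ∈ Icc 0 (a / b), ∃ f, Dens α f ∧ ∀ t ∈ Icc 0 (a / b),
      lam s₀ α f (kk (b ^ 2 / a ^ 2) t) ≤ (m + ζ) * lam s₀ α f (fun _ => 1))
    (hl : ∀ ζ > 0, ∃ s₀ ∈ Icc 0 (a / b), ∃ α ∈ Icc 0 (a / b), ∃ f, Dens α f ∧ ∀ t ∈ Icc 0 (a / b),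
      (m - ζ) * lam s₀ α f (fun _ => 1) ≤ lam s₀ α f (kk (b ^ 2 / a ^ 2) t))
    (hm : IsMagic (ellipse a b) m') : m' = a * m / 4 := by
  have ha : 0 < a := lt_of_lt_of_le hb hab
  have hD : ∀ x ∈ ellipse a b, ∀ y ∈ ellipse a b, dist x y ≤ (a + b) * 2 := by
    rw [← range_gam ha.ne' hb.ne']
    rintro _ ⟨s, rfl⟩ _ ⟨t, rfl⟩
    exact gam_diam ha.le hb.le s t
  refine le_antisymm (le_of_forall_pos_le_add fun ζ hζ => ?_)
    (le_of_forall_pos_le_add fun ζ hζ => ?_)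
  · obtain ⟨N, z, w, hz, w0, w1, hw⟩ := link_up hb hab hu (half_pos hζ)
    obtain ⟨y, hy, h⟩ := magic_weights hm hD z hz w w0 w1 (half_pos hζ)
    linarith [(abs_le.1 h).1, hw y hy]
  · obtain ⟨N, z, w, hz, w0, w1, hw⟩ := link_low hb hab hl (half_pos hζ)
    obtain ⟨y, hy, h⟩ := magic_weights hm hD z hz w w0 w1 (half_pos hζ)
    linarith [(abs_le.1 h).2, hw y hy]

end Pool.Agent.Lib.MP_efb7ef_gt.T
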