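import Pool.Agent.Lib.MP_efb7ef_gt.T.Conc
import Pool.Agent.Lib.MP_efb7ef_gt.T.Game2
import Pool.Agent.Lib.MP_efb7ef_gt.T.Link2

/-! The formula, given the inequalities. -/

namespace Pool.Agent.Lib.MP_efb7ef_gt.T

open Set Function MeasureTheory

variable {e : ℝ}

theorem ph_eq (he : 0 < e) (he1 : e ≤ 1) {α : ℝ} (hα : α ∈ Ico 0 (dat e).L) (k : ℕ) :
    ∀ t ∈ Icc 0 α, ph e α k t = (dat e).it (fun t => (dat e).N t (dat e).L) α k t := by
  induction k with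
  | zero =>
    intro t ht
    have h : t < (dat e).L := ht.2.trans_lt hα.2
    exact nn_eq he he1 ⟨ht.1, h⟩ ⟨ht.1.trans h.le, le_rfl⟩ h.ne'
  | succ k ih =>
    intro t ht
    refine intervalIntegral.integral_congr_ae ?_
    filter_upwards [(Set.countable_singleton t).ae_notMem volume] with s hs hm
    rw [uIoc_of_le hα.1] at hm
    rw [ih s ⟨hm.1.le, hm.2⟩, nn_eq he he1 ⟨ht.1, ht.2.trans_lt hα.2⟩
      ⟨hm.1.le, hm.2.trans hα.2.le⟩ hs]

theorem conc3_int (he : 0 < e) (he1 : e ≤ 1) {α : ℝ} (hα : α ∈ Ico 0 (dat e).L) (k : ℕ) :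
    ∫ s in (0 : ℝ)..α, ph e α k s =
      ∫ s in (0 : ℝ)..α, (dat e).it (fun t => (dat e).N t (dat e).L) α k s :=
  intervalIntegral.integral_congr fun s hs => ph_eq he he1 hα k s (uIcc_of_le hα.1 ▸ hs)

theorem conc3_intK (he : 0 < e) (he1 : e ≤ 1) {α : ℝ} (hα : α ∈ Ico 0 (dat e).L) (k : ℕ) :
    ∫ s in (0 : ℝ)..α, kk e 0 s * ph e α k s =
      ∫ s in (0 : ℝ)..α, (dat e).K 0 s * (dat e).it (fun t => (dat e).N t (dat e).L) α k s :=
  intervalIntegral.integral_congr fun s hs =>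
    congrArg (kk e 0 s * ·) (ph_eq he he1 hα k s (uIcc_of_le hα.1 ▸ hs))

theorem val_eq (he : 0 < e) (he1 : e ≤ 1) {α : ℝ} (hα : α ∈ Ico 0 (dat e).L) :
    val e α = (dat e).phi α / 4 := by
  rw [val, Dat.phi, div_div, mul_comm _ (4 : ℝ)]
  simp only [conc3_int he he1 hα, conc3_intK he he1 hα]
  rfl

theorem adm_eq (he : 0 < e) (he1 : e ≤ 1) (h : (dat e).Hyp) :
    adm e = {α | 1 / 2 ≤ α ∧ (dat e).Adm α} := by
  ext α
  constructor
  · rintro ⟨h1, h2, h3, h4, -⟩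
    have hα : α ∈ Ico 0 (dat e).L := ⟨by linarith, h3⟩
    exact ⟨h1, by linarith, h2, h3, by simpa only [conc3_int he he1 hα] using h4⟩
  · rintro ⟨h1, h2⟩
    have hα : α ∈ Ico 0 (dat e).L := ⟨h2.pos.le, h2.ltL⟩
    obtain ⟨f, -, hf⟩ := sol_nu h h2
    refine ⟨h1, h2.lt3, h2.ltL, by simpa only [conc3_int he he1 hα] using h2.sum, ?_⟩
    simp only [conc3_intK he he1 hα]
    exact (hf _ (h.cK.comp (Continuous.prodMk_right 0))).summable

/-- The formula, given the inequalities. -/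
theorem formula_of {a b : ℝ} (hb : 0 < b) (hab : b ≤ a) (h : (dat (b ^ 2 / a ^ 2)).Hyp) :
    ∃ M : ℝ, IsGLB (val (b ^ 2 / a ^ 2) '' adm (b ^ 2 / a ^ 2)) M ∧
      ∀ m : ℝ, IsMagic (ellipse a b) m ↔ m = a * M := by
  have ha : 0 < a := hb.trans_le hab
  have he : 0 < b ^ 2 / a ^ 2 := by positivity
  have he1 : b ^ 2 / a ^ 2 ≤ 1 := by
    rw [div_le_one (by positivity)]
    gcongr
  have hL : (dat (b ^ 2 / a ^ 2)).L = a / b := by
    change 1 / √(b ^ 2 / a ^ 2) = a / b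
    rw [← div_pow, Real.sqrt_sq (by positivity), one_div_div]
  obtain ⟨m, h1, h2, h3⟩ := game h
  rw [hL] at h2 h3
  refine ⟨m / 4, ?_, fun m' => ⟨fun hm => (link_to hb hab h2 h3 hm).trans (mul_div_assoc _ _ _),
    fun hm => hm ▸ mul_div_assoc a m 4 ▸ link_of hb hab h2 h3⟩⟩
  have v : ∀ α, (dat (b ^ 2 / a ^ 2)).Adm α →
      val (b ^ 2 / a ^ 2) α = (dat (b ^ 2 / a ^ 2)).phi α / 4 := fun α hα =>
    val_eq he he1 ⟨hα.pos.le, hα.ltL⟩
  rw [adm_eq he he1 h]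
  constructor
  · rintro _ ⟨α, hα, rfl⟩
    rw [v α hα.2]
    linarith [h1.1 ⟨α, hα, rfl⟩]
  · intro x hx
    have : 4 * x ≤ m := h1.2 (by
      rintro _ ⟨α, hα, rfl⟩
      have := hx ⟨α, hα, rfl⟩
      rw [v α hα.2] at this
      linarith)
    linarith

end Pool.Agent.Lib.MP_efb7ef_gt.T
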