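import Mathlib

/-! The test functions on real numbers (machine generated). -/

namespace Pool.Agent.Lib.MP_efb7ef_gt.T

noncomputable def rPlus (e t s l : ℝ) : ℝ :=
  let X := 1 - e * s ^ 2
  let a := 1 - e
  let v := a * t + (1 + e) * s
  let w := √(v ^ 2 + 4 * X)
  let ig := (v + w)⁻¹
  let u := 4 * X * ig
  let iw := w⁻¹
  let q := (√(1 + 2 * (e * ((t - s) * ig))))⁻¹
  let p := (u + 2 * s) * iw
  2 * (√X * (ig * q)) * (l * p - a * (2 * u ^ 2 + 3 * (u * v) + 2 * (s * (u + 2 * v))) * (iw * iw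
      ^ 2) - e * ig * (p * q) ^ 2)

noncomputable def rMir (e t s l : ℝ) : ℝ :=
  let X := 1 - e * s ^ 2
  let a := 1 - e
  let v := a * t - (1 + e) * s
  let w := √(v ^ 2 + 4 * X)
  let u := w - v
  let iw := w⁻¹
  let h := u * (u - 2 * s) * iw
  let i := (√(4 * X + 2 * (e * ((t + s) * u))))⁻¹
  (l * h - a * u * (2 * u ^ 2 + 3 * (u * v) - 2 * (s * (u + 2 * v))) * (iw * iw ^ 2) - e * (h * i)
      ^ 2) * i

noncomputable def rLow (e t s l m : ℝ) : ℝ :=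
  let X := 1 - e * s ^ 2
  let a := 1 - e
  let v := a * t + (1 + e) * s
  let w := √(v ^ 2 + 4 * X)
  let g := v + w
  let iw := w⁻¹
  let h := g * (g - 2 * s) * iw
  let Q := 4 * X + 2 * (e * ((s - t) * g))
  Q * (√Q * m - l * h - a * g * (2 * g ^ 2 - 3 * (g * v) - 2 * (s * (g - 2 * v))) * (iw * iw ^ 2))
      - e * h ^ 2

noncomputable def rKap (e t s : ℝ) : ℝ :=
  let X := 1 - e * s ^ 2
  let v := (1 - e) * t + (1 + e) * s
  let d := t - s
  let H := |d| * √(v ^ 2 + 4 * X) - d * v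
  (2 * H - 4 * s ^ 2) * (2 + √(4 * X + 2 * (e * H)))⁻¹

noncomputable def rKk (e t s : ℝ) : ℝ :=
  rKap e t s + rKap e t (-s)

noncomputable def rKv (r s : ℝ) : ℝ :=
  let p := (1 - r * s) ^ 2
  let n := p - s ^ 2
  2 * (n * (1 + √(1 + r ^ 2 * n))⁻¹)

noncomputable def rKL (r s : ℝ) : ℝ :=
  rKv r s + rKv r (-s)

noncomputable def rNearP (e t s : ℝ) : ℝ :=
  let l := ((2 : ℝ) / 3) * (1 - e)
  rPlus e t s l + rMir e t s l

noncomputable def rNearM (e t s : ℝ) : ℝ :=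
  let l := ((2 : ℝ) / 3) * (1 - e)
  rLow e t s l (rMir e t s l)

noncomputable def rRowP (e t s : ℝ) : ℝ :=
  (-rNearP e t s) - ((19 : ℝ) / 5)

noncomputable def rRowM (e t s : ℝ) : ℝ :=
  let l := ((2 : ℝ) / 3) * (1 - e)
  (-rLow e t s l (rMir e t s l + ((19 : ℝ) / 5)))

noncomputable def rFarA (e t s l k : ℝ) : ℝ :=
  rPlus e t s l + rMir e t s l - k * (rKk e t s - rKk e ((2147483648 : ℝ) / 4294967296) s)

noncomputable def rFarB (e z s l k : ℝ) : ℝ :=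
  let s2 := s ^ 2
  let X := 1 - e * s2
  let a := 1 - e
  let b := 1 + e
  let y := s * z
  let Z := 4 * X * z ^ 2
  let yb := b * y
  let vp := a + yb
  let vm := a - yb
  let wp := √(vp ^ 2 + Z)
  let wm := √(vm ^ 2 + Z)
  let gm := (vm + wm)⁻¹
  let up := 4 * X * (vp + wp)⁻¹
  let um := 4 * X * gm
  let ip := wp⁻¹
  let im := wm⁻¹
  let Hp := (1 - y) * up
  let Hm := (1 + y) * um
  let Sp := √(4 * X + 2 * (e * Hp))
  let Sm := √(4 * X + 2 * (e * Hm))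
  let jp := Sp⁻¹
  let jm := Sm⁻¹
  let Dw := 4 * (a * b * (wp + wm)⁻¹)
  let Du := -(up * gm * (2 * b + Dw))
  let Di := -(Dw * (ip * im))
  let Dj := -(2 * (e * (Du - (up + um)) * (Sp + Sm)⁻¹) * (jp * jm))
  let mp := ip * jp
  let Pp := up * mp
  let Pm := um * (im * jm)
  let D1 := Du * mp + um * (Di * jp + im * Dj)
  let ip2 := ip ^ 2
  let im2 := im ^ 2
  let D2 := D1 * (vp * ip2) + Pm * (2 * (b * ip2) + vm * (Di * (ip + im)))
  let zp := z * up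
  let zm := z * um
  let k1 := up * Pp + um * Pm + 2 * (s2 * D1)
  let k2 := a * (Pp * up * ip2 * (2 * (z * zp) + 3 * vp + 2 * y) + Pm * um * im2 * (2 * (z * zm) +
      3 * vm - 2 * y) + 4 * (s2 * D2)) + e * ((Pp * (zp + 2 * s)) ^ 2 * jp + (Pm * (zm - 2 * s)) ^
      2 * jm)
  let k0 := (2 * Hp - 4 * s2) * (2 + Sp)⁻¹ + (2 * Hm - 4 * s2) * (2 + Sm)⁻¹
  l * k1 - k2 - k * (k0 - rKk e ((2147483648 : ℝ) / 4294967296) s)

noncomputable def rStart (r s : ℝ) : ℝ :=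
  rKk (r ^ 2) ((0 : ℝ) / 4294967296) s - rKL r s

noncomputable def rStop (r s : ℝ) : ℝ :=
  let e := r ^ 2
  let k := rKk e ((11811160064 : ℝ) / 4294967296) s
  rKL r s - k - (((-508 : ℝ) / 10000) + ((4093 : ℝ) / 10000) * e) * (rKk e ((0 : ℝ) / 4294967296)
      s - k) - (((-601 : ℝ) / 10000) + ((4641 : ℝ) / 10000) * e) * (rKk e ((2147483648 : ℝ) /
      4294967296) s - k) - (((-456 : ℝ) / 10000) + ((3037 : ℝ) / 10000) * e) * (rKk e ((4294967296
      : ℝ) / 4294967296) s - k) - (((-1471 : ℝ) / 10000) + ((12117 : ℝ) / 10000) * e) * (rKk e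
      ((6442450944 : ℝ) / 4294967296) s - k) - (((-992 : ℝ) / 10000) + ((5606 : ℝ) / 10000) * e) *
      (rKk e ((8589934592 : ℝ) / 4294967296) s - k)

end Pool.Agent.Lib.MP_efb7ef_gt.T
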