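import Pool.Agent.Lib.MP_efb7ef_gt.T.ProgA
import Pool.Agent.Lib.MP_efb7ef_gt.T.ProgR
import Pool.Agent.Lib.MP_efb7ef_gt.T.AfMul
import Pool.Agent.Lib.MP_efb7ef_gt.T.AfInv
import Pool.Agent.Lib.MP_efb7ef_gt.T.AfRt

/-! The two versions of the test functions agree (machine generated). -/

namespace Pool.Agent.Lib.MP_efb7ef_gt.T

variable {ε : Eps}

theorem memPlus {e' t' s' l' : Af} {e t s l : ℝ} (he : Mem ε e' e) (ht : Mem ε t' t) (hs : Mem ε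
      s' s) (hl : Mem ε l' l) :
    Mem ε (pPlus e' t' s' l') (rPlus e t s l) :=
  let X' : Af := (Af.ssub 1 (Af.mul e' (Af.sq s')))
  let X : ℝ := 1 - e * s ^ 2
  have hX : Mem ε X' X := (Mem.ssub1 (Mem.mul he (Mem.sq hs)))
  let a' : Af := (Af.ssub 1 e')
  let a : ℝ := 1 - e
  have ha : Mem ε a' a := (Mem.ssub1 he)
  let v' : Af := (Af.add (Af.mul a' t') (Af.mul (Af.sadd 1 e') s'))
  let v : ℝ := a * t + (1 + e) * s
  have hv : Mem ε v' v := (Mem.add (Mem.mul ha ht) (Mem.mul (Mem.sadd1 he) hs))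
  let w' : Af := (Af.rt (Af.add (Af.sq v') (Af.smul 4 X')))
  let w : ℝ := √(v ^ 2 + 4 * X)
  have hw : Mem ε w' w := (Mem.rt (Mem.add (Mem.sq hv) (Mem.smul4 hX)))
  let ig' : Af := (Af.inv (Af.add v' w'))
  let ig : ℝ := (v + w)⁻¹
  have hig : Mem ε ig' ig := (Mem.inv (Mem.add hv hw))
  let u' : Af := (Af.mul (Af.smul 4 X') ig')
  let u : ℝ := 4 * X * ig
  have hu : Mem ε u' u := (Mem.mul (Mem.smul4 hX) hig)
  let iw' : Af := (Af.inv w')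
  let iw : ℝ := w⁻¹
  have hiw : Mem ε iw' iw := (Mem.inv hw)
  let q' : Af := (Af.inv (Af.rt (Af.sadd 1 (Af.smul 2 (Af.mul e' (Af.mul (Af.sub t' s') ig'))))))
  let q : ℝ := (√(1 + 2 * (e * ((t - s) * ig))))⁻¹
  have hq : Mem ε q' q := (Mem.inv (Mem.rt (Mem.sadd1 (Mem.smul2 (Mem.mul he (Mem.mul (Mem.sub ht
      hs) hig))))))
  let p' : Af := (Af.mul (Af.add u' (Af.smul 2 s')) iw')
  let p : ℝ := (u + 2 * s) * iw
  have hp : Mem ε p' p := (Mem.mul (Mem.add hu (Mem.smul2 hs)) hiw)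
  (Mem.mul (Mem.smul2 (Mem.mul (Mem.rt hX) (Mem.mul hig hq))) (Mem.sub (Mem.sub (Mem.mul hl hp)
      (Mem.mul (Mem.mul ha (Mem.add (Mem.add (Mem.smul2 (Mem.sq hu)) (Mem.smul3 (Mem.mul hu hv)))
      (Mem.smul2 (Mem.mul hs (Mem.add hu (Mem.smul2 hv)))))) (Mem.mul hiw (Mem.sq hiw)))) (Mem.mul
      (Mem.mul he hig) (Mem.sq (Mem.mul hp hq)))))

theorem memMir {e' t' s' l' : Af} {e t s l : ℝ} (he : Mem ε e' e) (ht : Mem ε t' t) (hs : Mem ε s'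
      s) (hl : Mem ε l' l) :
    Mem ε (pMir e' t' s' l') (rMir e t s l) :=
  let X' : Af := (Af.ssub 1 (Af.mul e' (Af.sq s')))
  let X : ℝ := 1 - e * s ^ 2
  have hX : Mem ε X' X := (Mem.ssub1 (Mem.mul he (Mem.sq hs)))
  let a' : Af := (Af.ssub 1 e')
  let a : ℝ := 1 - e
  have ha : Mem ε a' a := (Mem.ssub1 he)
  let v' : Af := (Af.sub (Af.mul a' t') (Af.mul (Af.sadd 1 e') s'))
  let v : ℝ := a * t - (1 + e) * s
  have hv : Mem ε v' v := (Mem.sub (Mem.mul ha ht) (Mem.mul (Mem.sadd1 he) hs))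
  let w' : Af := (Af.rt (Af.add (Af.sq v') (Af.smul 4 X')))
  let w : ℝ := √(v ^ 2 + 4 * X)
  have hw : Mem ε w' w := (Mem.rt (Mem.add (Mem.sq hv) (Mem.smul4 hX)))
  let u' : Af := (Af.sub w' v')
  let u : ℝ := w - v
  have hu : Mem ε u' u := (Mem.sub hw hv)
  let iw' : Af := (Af.inv w')
  let iw : ℝ := w⁻¹
  have hiw : Mem ε iw' iw := (Mem.inv hw)
  let h' : Af := (Af.mul (Af.mul u' (Af.sub u' (Af.smul 2 s'))) iw')
  let h : ℝ := u * (u - 2 * s) * iw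
  have hh : Mem ε h' h := (Mem.mul (Mem.mul hu (Mem.sub hu (Mem.smul2 hs))) hiw)
  let i' : Af := (Af.inv (Af.rt (Af.add (Af.smul 4 X') (Af.smul 2 (Af.mul e' (Af.mul (Af.add t'
      s') u'))))))
  let i : ℝ := (√(4 * X + 2 * (e * ((t + s) * u))))⁻¹
  have hi : Mem ε i' i := (Mem.inv (Mem.rt (Mem.add (Mem.smul4 hX) (Mem.smul2 (Mem.mul he (Mem.mul
      (Mem.add ht hs) hu))))))
  (Mem.mul (Mem.sub (Mem.sub (Mem.mul hl hh) (Mem.mul (Mem.mul (Mem.mul ha hu) (Mem.sub (Mem.add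
      (Mem.smul2 (Mem.sq hu)) (Mem.smul3 (Mem.mul hu hv))) (Mem.smul2 (Mem.mul hs (Mem.add hu
      (Mem.smul2 hv)))))) (Mem.mul hiw (Mem.sq hiw)))) (Mem.mul he (Mem.sq (Mem.mul hh hi)))) hi)

theorem memLow {e' t' s' l' m' : Af} {e t s l m : ℝ} (he : Mem ε e' e) (ht : Mem ε t' t) (hs : Mem
      ε s' s) (hl : Mem ε l' l) (hm : Mem ε m' m) :
    Mem ε (pLow e' t' s' l' m') (rLow e t s l m) :=
  let X' : Af := (Af.ssub 1 (Af.mul e' (Af.sq s')))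
  let X : ℝ := 1 - e * s ^ 2
  have hX : Mem ε X' X := (Mem.ssub1 (Mem.mul he (Mem.sq hs)))
  let a' : Af := (Af.ssub 1 e')
  let a : ℝ := 1 - e
  have ha : Mem ε a' a := (Mem.ssub1 he)
  let v' : Af := (Af.add (Af.mul a' t') (Af.mul (Af.sadd 1 e') s'))
  let v : ℝ := a * t + (1 + e) * s
  have hv : Mem ε v' v := (Mem.add (Mem.mul ha ht) (Mem.mul (Mem.sadd1 he) hs))
  let w' : Af := (Af.rt (Af.add (Af.sq v') (Af.smul 4 X')))
  let w : ℝ := √(v ^ 2 + 4 * X)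
  have hw : Mem ε w' w := (Mem.rt (Mem.add (Mem.sq hv) (Mem.smul4 hX)))
  let g' : Af := (Af.add v' w')
  let g : ℝ := v + w
  have hg : Mem ε g' g := (Mem.add hv hw)
  let iw' : Af := (Af.inv w')
  let iw : ℝ := w⁻¹
  have hiw : Mem ε iw' iw := (Mem.inv hw)
  let h' : Af := (Af.mul (Af.mul g' (Af.sub g' (Af.smul 2 s'))) iw')
  let h : ℝ := g * (g - 2 * s) * iw
  have hh : Mem ε h' h := (Mem.mul (Mem.mul hg (Mem.sub hg (Mem.smul2 hs))) hiw)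
  let Q' : Af := (Af.add (Af.smul 4 X') (Af.smul 2 (Af.mul e' (Af.mul (Af.sub s' t') g'))))
  let Q : ℝ := 4 * X + 2 * (e * ((s - t) * g))
  have hQ : Mem ε Q' Q := (Mem.add (Mem.smul4 hX) (Mem.smul2 (Mem.mul he (Mem.mul (Mem.sub hs ht)
      hg))))
  (Mem.sub (Mem.mul hQ (Mem.sub (Mem.sub (Mem.mul (Mem.rt hQ) hm) (Mem.mul hl hh)) (Mem.mul
      (Mem.mul (Mem.mul ha hg) (Mem.sub (Mem.sub (Mem.smul2 (Mem.sq hg)) (Mem.smul3 (Mem.mul hg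
      hv))) (Mem.smul2 (Mem.mul hs (Mem.sub hg (Mem.smul2 hv)))))) (Mem.mul hiw (Mem.sq hiw)))))
      (Mem.mul he (Mem.sq hh)))

theorem memKap {e' t' s' : Af} {e t s : ℝ} (he : Mem ε e' e) (ht : Mem ε t' t) (hs : Mem ε s' s) :
    Mem ε (pKap e' t' s') (rKap e t s) :=
  let X' : Af := (Af.ssub 1 (Af.mul e' (Af.sq s')))
  let X : ℝ := 1 - e * s ^ 2
  have hX : Mem ε X' X := (Mem.ssub1 (Mem.mul he (Mem.sq hs)))
  let v' : Af := (Af.add (Af.mul (Af.ssub 1 e') t') (Af.mul (Af.sadd 1 e') s'))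
  let v : ℝ := (1 - e) * t + (1 + e) * s
  have hv : Mem ε v' v := (Mem.add (Mem.mul (Mem.ssub1 he) ht) (Mem.mul (Mem.sadd1 he) hs))
  let d' : Af := (Af.sub t' s')
  let d : ℝ := t - s
  have hd : Mem ε d' d := (Mem.sub ht hs)
  let H' : Af := (Af.sub (Af.mul (Af.abs d') (Af.rt (Af.add (Af.sq v') (Af.smul 4 X')))) (Af.mul
      d' v'))
  let H : ℝ := |d| * √(v ^ 2 + 4 * X) - d * v
  have hH : Mem ε H' H := (Mem.sub (Mem.mul (Mem.abs hd) (Mem.rt (Mem.add (Mem.sq hv) (Mem.smul4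
      hX)))) (Mem.mul hd hv))
  (Mem.mul (Mem.sub (Mem.smul2 hH) (Mem.smul4 (Mem.sq hs))) (Mem.inv (Mem.sadd2 (Mem.rt (Mem.add
      (Mem.smul4 hX) (Mem.smul2 (Mem.mul he hH)))))))

theorem memKk {e' t' s' : Af} {e t s : ℝ} (he : Mem ε e' e) (ht : Mem ε t' t) (hs : Mem ε s' s) :
    Mem ε (pKk e' t' s') (rKk e t s) :=
  (Mem.add (memKap he ht hs) (memKap he ht (Mem.neg hs)))

theorem memKv {r' s' : Af} {r s : ℝ} (hr : Mem ε r' r) (hs : Mem ε s' s) :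
    Mem ε (pKv r' s') (rKv r s) :=
  let p' : Af := (Af.sq (Af.ssub 1 (Af.mul r' s')))
  let p : ℝ := (1 - r * s) ^ 2
  have hp : Mem ε p' p := (Mem.sq (Mem.ssub1 (Mem.mul hr hs)))
  let n' : Af := (Af.sub p' (Af.sq s'))
  let n : ℝ := p - s ^ 2
  have hn : Mem ε n' n := (Mem.sub hp (Mem.sq hs))
  (Mem.smul2 (Mem.mul hn (Mem.inv (Mem.sadd1 (Mem.rt (Mem.sadd1 (Mem.mul (Mem.sq hr) hn)))))))

theorem memKL {r' s' : Af} {r s : ℝ} (hr : Mem ε r' r) (hs : Mem ε s' s) :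
    Mem ε (pKL r' s') (rKL r s) :=
  (Mem.add (memKv hr hs) (memKv hr (Mem.neg hs)))

theorem memNearP {e' t' s' : Af} {e t s : ℝ} (he : Mem ε e' e) (ht : Mem ε t' t) (hs : Mem ε s' s) :
    Mem ε (pNearP e' t' s') (rNearP e t s) :=
  let l' : Af := (Af.mul (Af.cst (2) 3) (Af.ssub 1 e'))
  let l : ℝ := ((2 : ℝ) / 3) * (1 - e)
  have hl : Mem ε l' l := (Mem.mul (Mem.cst (2) 3 (by norm_num)) (Mem.ssub1 he))
  (Mem.add (memPlus he ht hs hl) (memMir he ht hs hl))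

theorem memNearM {e' t' s' : Af} {e t s : ℝ} (he : Mem ε e' e) (ht : Mem ε t' t) (hs : Mem ε s' s) :
    Mem ε (pNearM e' t' s') (rNearM e t s) :=
  let l' : Af := (Af.mul (Af.cst (2) 3) (Af.ssub 1 e'))
  let l : ℝ := ((2 : ℝ) / 3) * (1 - e)
  have hl : Mem ε l' l := (Mem.mul (Mem.cst (2) 3 (by norm_num)) (Mem.ssub1 he))
  (memLow he ht hs hl (memMir he ht hs hl))

theorem memRowP {e' t' s' : Af} {e t s : ℝ} (he : Mem ε e' e) (ht : Mem ε t' t) (hs : Mem ε s' s) :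
    Mem ε (pRowP e' t' s') (rRowP e t s) :=
  (Mem.sub (Mem.neg (memNearP he ht hs)) (Mem.cst (19) 5 (by norm_num)))

theorem memRowM {e' t' s' : Af} {e t s : ℝ} (he : Mem ε e' e) (ht : Mem ε t' t) (hs : Mem ε s' s) :
    Mem ε (pRowM e' t' s') (rRowM e t s) :=
  let l' : Af := (Af.mul (Af.cst (2) 3) (Af.ssub 1 e'))
  let l : ℝ := ((2 : ℝ) / 3) * (1 - e)
  have hl : Mem ε l' l := (Mem.mul (Mem.cst (2) 3 (by norm_num)) (Mem.ssub1 he))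
  (Mem.neg (memLow he ht hs hl (Mem.add (memMir he ht hs hl) (Mem.cst (19) 5 (by norm_num)))))

theorem memFarA {e' t' s' l' k' : Af} {e t s l k : ℝ} (he : Mem ε e' e) (ht : Mem ε t' t) (hs :
      Mem ε s' s) (hl : Mem ε l' l) (hk : Mem ε k' k) :
    Mem ε (pFarA e' t' s' l' k') (rFarA e t s l k) :=
  (Mem.sub (Mem.add (memPlus he ht hs hl) (memMir he ht hs hl)) (Mem.mul hk (Mem.sub (memKk he ht
      hs) (memKk he (Mem.dy 2147483648 (by norm_num)) hs))))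

theorem memFarB {e' z' s' l' k' : Af} {e z s l k : ℝ} (he : Mem ε e' e) (hz : Mem ε z' z) (hs :
      Mem ε s' s) (hl : Mem ε l' l) (hk : Mem ε k' k) :
    Mem ε (pFarB e' z' s' l' k') (rFarB e z s l k) :=
  let s2' : Af := (Af.sq s')
  let s2 : ℝ := s ^ 2
  have hs2 : Mem ε s2' s2 := (Mem.sq hs)
  let X' : Af := (Af.ssub 1 (Af.mul e' s2'))
  let X : ℝ := 1 - e * s2
  have hX : Mem ε X' X := (Mem.ssub1 (Mem.mul he hs2))
  let a' : Af := (Af.ssub 1 e')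
  let a : ℝ := 1 - e
  have ha : Mem ε a' a := (Mem.ssub1 he)
  let b' : Af := (Af.sadd 1 e')
  let b : ℝ := 1 + e
  have hb : Mem ε b' b := (Mem.sadd1 he)
  let y' : Af := (Af.mul s' z')
  let y : ℝ := s * z
  have hy : Mem ε y' y := (Mem.mul hs hz)
  let Z' : Af := (Af.mul (Af.smul 4 X') (Af.sq z'))
  let Z : ℝ := 4 * X * z ^ 2
  have hZ : Mem ε Z' Z := (Mem.mul (Mem.smul4 hX) (Mem.sq hz))
  let yb' : Af := (Af.mul b' y')
  let yb : ℝ := b * y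
  have hyb : Mem ε yb' yb := (Mem.mul hb hy)
  let vp' : Af := (Af.add a' yb')
  let vp : ℝ := a + yb
  have hvp : Mem ε vp' vp := (Mem.add ha hyb)
  let vm' : Af := (Af.sub a' yb')
  let vm : ℝ := a - yb
  have hvm : Mem ε vm' vm := (Mem.sub ha hyb)
  let wp' : Af := (Af.rt (Af.add (Af.sq vp') Z'))
  let wp : ℝ := √(vp ^ 2 + Z)
  have hwp : Mem ε wp' wp := (Mem.rt (Mem.add (Mem.sq hvp) hZ))
  let wm' : Af := (Af.rt (Af.add (Af.sq vm') Z'))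
  let wm : ℝ := √(vm ^ 2 + Z)
  have hwm : Mem ε wm' wm := (Mem.rt (Mem.add (Mem.sq hvm) hZ))
  let gm' : Af := (Af.inv (Af.add vm' wm'))
  let gm : ℝ := (vm + wm)⁻¹
  have hgm : Mem ε gm' gm := (Mem.inv (Mem.add hvm hwm))
  let up' : Af := (Af.mul (Af.smul 4 X') (Af.inv (Af.add vp' wp')))
  let up : ℝ := 4 * X * (vp + wp)⁻¹
  have hup : Mem ε up' up := (Mem.mul (Mem.smul4 hX) (Mem.inv (Mem.add hvp hwp)))
  let um' : Af := (Af.mul (Af.smul 4 X') gm')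
  let um : ℝ := 4 * X * gm
  have hum : Mem ε um' um := (Mem.mul (Mem.smul4 hX) hgm)
  let ip' : Af := (Af.inv wp')
  let ip : ℝ := wp⁻¹
  have hip : Mem ε ip' ip := (Mem.inv hwp)
  let im' : Af := (Af.inv wm')
  let im : ℝ := wm⁻¹
  have him : Mem ε im' im := (Mem.inv hwm)
  let Hp' : Af := (Af.mul (Af.ssub 1 y') up')
  let Hp : ℝ := (1 - y) * up
  have hHp : Mem ε Hp' Hp := (Mem.mul (Mem.ssub1 hy) hup)
  let Hm' : Af := (Af.mul (Af.sadd 1 y') um')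
  let Hm : ℝ := (1 + y) * um
  have hHm : Mem ε Hm' Hm := (Mem.mul (Mem.sadd1 hy) hum)
  let Sp' : Af := (Af.rt (Af.add (Af.smul 4 X') (Af.smul 2 (Af.mul e' Hp'))))
  let Sp : ℝ := √(4 * X + 2 * (e * Hp))
  have hSp : Mem ε Sp' Sp := (Mem.rt (Mem.add (Mem.smul4 hX) (Mem.smul2 (Mem.mul he hHp))))
  let Sm' : Af := (Af.rt (Af.add (Af.smul 4 X') (Af.smul 2 (Af.mul e' Hm'))))
  let Sm : ℝ := √(4 * X + 2 * (e * Hm))
  have hSm : Mem ε Sm' Sm := (Mem.rt (Mem.add (Mem.smul4 hX) (Mem.smul2 (Mem.mul he hHm))))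
  let jp' : Af := (Af.inv Sp')
  let jp : ℝ := Sp⁻¹
  have hjp : Mem ε jp' jp := (Mem.inv hSp)
  let jm' : Af := (Af.inv Sm')
  let jm : ℝ := Sm⁻¹
  have hjm : Mem ε jm' jm := (Mem.inv hSm)
  let Dw' : Af := (Af.smul 4 (Af.mul (Af.mul a' b') (Af.inv (Af.add wp' wm'))))
  let Dw : ℝ := 4 * (a * b * (wp + wm)⁻¹)
  have hDw : Mem ε Dw' Dw := (Mem.smul4 (Mem.mul (Mem.mul ha hb) (Mem.inv (Mem.add hwp hwm))))
  let Du' : Af := (Af.neg (Af.mul (Af.mul up' gm') (Af.add (Af.smul 2 b') Dw')))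
  let Du : ℝ := -(up * gm * (2 * b + Dw))
  have hDu : Mem ε Du' Du := (Mem.neg (Mem.mul (Mem.mul hup hgm) (Mem.add (Mem.smul2 hb) hDw)))
  let Di' : Af := (Af.neg (Af.mul Dw' (Af.mul ip' im')))
  let Di : ℝ := -(Dw * (ip * im))
  have hDi : Mem ε Di' Di := (Mem.neg (Mem.mul hDw (Mem.mul hip him)))
  let Dj' : Af := (Af.neg (Af.mul (Af.smul 2 (Af.mul (Af.mul e' (Af.sub Du' (Af.add up' um')))
      (Af.inv (Af.add Sp' Sm')))) (Af.mul jp' jm')))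
  let Dj : ℝ := -(2 * (e * (Du - (up + um)) * (Sp + Sm)⁻¹) * (jp * jm))
  have hDj : Mem ε Dj' Dj := (Mem.neg (Mem.mul (Mem.smul2 (Mem.mul (Mem.mul he (Mem.sub hDu
      (Mem.add hup hum))) (Mem.inv (Mem.add hSp hSm)))) (Mem.mul hjp hjm)))
  let mp' : Af := (Af.mul ip' jp')
  let mp : ℝ := ip * jp
  have hmp : Mem ε mp' mp := (Mem.mul hip hjp)
  let Pp' : Af := (Af.mul up' mp')
  let Pp : ℝ := up * mp
  have hPp : Mem ε Pp' Pp := (Mem.mul hup hmp)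
  let Pm' : Af := (Af.mul um' (Af.mul im' jm'))
  let Pm : ℝ := um * (im * jm)
  have hPm : Mem ε Pm' Pm := (Mem.mul hum (Mem.mul him hjm))
  let D1' : Af := (Af.add (Af.mul Du' mp') (Af.mul um' (Af.add (Af.mul Di' jp') (Af.mul im' Dj'))))
  let D1 : ℝ := Du * mp + um * (Di * jp + im * Dj)
  have hD1 : Mem ε D1' D1 := (Mem.add (Mem.mul hDu hmp) (Mem.mul hum (Mem.add (Mem.mul hDi hjp)
      (Mem.mul him hDj))))
  let ip2' : Af := (Af.sq ip')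
  let ip2 : ℝ := ip ^ 2
  have hip2 : Mem ε ip2' ip2 := (Mem.sq hip)
  let im2' : Af := (Af.sq im')
  let im2 : ℝ := im ^ 2
  have him2 : Mem ε im2' im2 := (Mem.sq him)
  let D2' : Af := (Af.add (Af.mul D1' (Af.mul vp' ip2')) (Af.mul Pm' (Af.add (Af.smul 2 (Af.mul b'
      ip2')) (Af.mul vm' (Af.mul Di' (Af.add ip' im'))))))
  let D2 : ℝ := D1 * (vp * ip2) + Pm * (2 * (b * ip2) + vm * (Di * (ip + im)))
  have hD2 : Mem ε D2' D2 := (Mem.add (Mem.mul hD1 (Mem.mul hvp hip2)) (Mem.mul hPm (Mem.add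
      (Mem.smul2 (Mem.mul hb hip2)) (Mem.mul hvm (Mem.mul hDi (Mem.add hip him))))))
  let zp' : Af := (Af.mul z' up')
  let zp : ℝ := z * up
  have hzp : Mem ε zp' zp := (Mem.mul hz hup)
  let zm' : Af := (Af.mul z' um')
  let zm : ℝ := z * um
  have hzm : Mem ε zm' zm := (Mem.mul hz hum)
  let k1' : Af := (Af.add (Af.add (Af.mul up' Pp') (Af.mul um' Pm')) (Af.smul 2 (Af.mul s2' D1')))
  let k1 : ℝ := up * Pp + um * Pm + 2 * (s2 * D1)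
  have hk1 : Mem ε k1' k1 := (Mem.add (Mem.add (Mem.mul hup hPp) (Mem.mul hum hPm)) (Mem.smul2
      (Mem.mul hs2 hD1)))
  let k2' : Af := (Af.add (Af.mul a' (Af.add (Af.add (Af.mul (Af.mul (Af.mul Pp' up') ip2')
      (Af.add (Af.add (Af.smul 2 (Af.mul z' zp')) (Af.smul 3 vp')) (Af.smul 2 y'))) (Af.mul
      (Af.mul (Af.mul Pm' um') im2') (Af.sub (Af.add (Af.smul 2 (Af.mul z' zm')) (Af.smul 3 vm'))
      (Af.smul 2 y')))) (Af.smul 4 (Af.mul s2' D2')))) (Af.mul e' (Af.add (Af.mul (Af.sq (Af.mul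
      Pp' (Af.add zp' (Af.smul 2 s')))) jp') (Af.mul (Af.sq (Af.mul Pm' (Af.sub zm' (Af.smul 2
      s')))) jm'))))
  let k2 : ℝ := a * (Pp * up * ip2 * (2 * (z * zp) + 3 * vp + 2 * y) + Pm * um * im2 * (2 * (z *
      zm) + 3 * vm - 2 * y) + 4 * (s2 * D2)) + e * ((Pp * (zp + 2 * s)) ^ 2 * jp + (Pm * (zm - 2 *
      s)) ^ 2 * jm)
  have hk2 : Mem ε k2' k2 := (Mem.add (Mem.mul ha (Mem.add (Mem.add (Mem.mul (Mem.mul (Mem.mul hPp
      hup) hip2) (Mem.add (Mem.add (Mem.smul2 (Mem.mul hz hzp)) (Mem.smul3 hvp)) (Mem.smul2 hy)))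
      (Mem.mul (Mem.mul (Mem.mul hPm hum) him2) (Mem.sub (Mem.add (Mem.smul2 (Mem.mul hz hzm))
      (Mem.smul3 hvm)) (Mem.smul2 hy)))) (Mem.smul4 (Mem.mul hs2 hD2)))) (Mem.mul he (Mem.add
      (Mem.mul (Mem.sq (Mem.mul hPp (Mem.add hzp (Mem.smul2 hs)))) hjp) (Mem.mul (Mem.sq (Mem.mul
      hPm (Mem.sub hzm (Mem.smul2 hs)))) hjm))))
  let k0' : Af := (Af.add (Af.mul (Af.sub (Af.smul 2 Hp') (Af.smul 4 s2')) (Af.inv (Af.sadd 2
      Sp'))) (Af.mul (Af.sub (Af.smul 2 Hm') (Af.smul 4 s2')) (Af.inv (Af.sadd 2 Sm'))))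
  let k0 : ℝ := (2 * Hp - 4 * s2) * (2 + Sp)⁻¹ + (2 * Hm - 4 * s2) * (2 + Sm)⁻¹
  have hk0 : Mem ε k0' k0 := (Mem.add (Mem.mul (Mem.sub (Mem.smul2 hHp) (Mem.smul4 hs2)) (Mem.inv
      (Mem.sadd2 hSp))) (Mem.mul (Mem.sub (Mem.smul2 hHm) (Mem.smul4 hs2)) (Mem.inv (Mem.sadd2
      hSm))))
  (Mem.sub (Mem.sub (Mem.mul hl hk1) hk2) (Mem.mul hk (Mem.sub hk0 (memKk he (Mem.dy 2147483648
      (by norm_num)) hs))))

theorem memStart {r' s' : Af} {r s : ℝ} (hr : Mem ε r' r) (hs : Mem ε s' s) :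
    Mem ε (pStart r' s') (rStart r s) :=
  (Mem.sub (memKk (Mem.sq hr) (Mem.dy 0 (by norm_num)) hs) (memKL hr hs))

theorem memStop {r' s' : Af} {r s : ℝ} (hr : Mem ε r' r) (hs : Mem ε s' s) :
    Mem ε (pStop r' s') (rStop r s) :=
  let e' : Af := (Af.sq r')
  let e : ℝ := r ^ 2
  have he : Mem ε e' e := (Mem.sq hr)
  let k' : Af := (pKk e' (Af.dy 11811160064) s')
  let k : ℝ := rKk e ((11811160064 : ℝ) / 4294967296) s
  have hk : Mem ε k' k := (memKk he (Mem.dy 11811160064 (by norm_num)) hs)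
  (Mem.sub (Mem.sub (Mem.sub (Mem.sub (Mem.sub (Mem.sub (memKL hr hs) hk) (Mem.mul (Mem.add
      (Mem.cst (-508) 10000 (by norm_num)) (Mem.mul (Mem.cst (4093) 10000 (by norm_num)) he))
      (Mem.sub (memKk he (Mem.dy 0 (by norm_num)) hs) hk))) (Mem.mul (Mem.add (Mem.cst (-601)
      10000 (by norm_num)) (Mem.mul (Mem.cst (4641) 10000 (by norm_num)) he)) (Mem.sub (memKk he
      (Mem.dy 2147483648 (by norm_num)) hs) hk))) (Mem.mul (Mem.add (Mem.cst (-456) 10000 (by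
      norm_num)) (Mem.mul (Mem.cst (3037) 10000 (by norm_num)) he)) (Mem.sub (memKk he (Mem.dy
      4294967296 (by norm_num)) hs) hk))) (Mem.mul (Mem.add (Mem.cst (-1471) 10000 (by norm_num))
      (Mem.mul (Mem.cst (12117) 10000 (by norm_num)) he)) (Mem.sub (memKk he (Mem.dy 6442450944
      (by norm_num)) hs) hk))) (Mem.mul (Mem.add (Mem.cst (-992) 10000 (by norm_num)) (Mem.mul
      (Mem.cst (5606) 10000 (by norm_num)) he)) (Mem.sub (memKk he (Mem.dy 8589934592 (by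
      norm_num)) hs) hk)))

end Pool.Agent.Lib.MP_efb7ef_gt.T
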