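import Pool.Agent.Lib.MP_efb7ef_gt.T.ChkDef
import Pool.Agent.Lib.MP_efb7ef_gt.T.ProgM
import Pool.Agent.Lib.MP_efb7ef_gt.T.AfGo

/-! What a successful run of the tests proves. -/

namespace Pool.Agent.Lib.MP_efb7ef_gt.T

def Cov (P : ℝ → ℝ → ℝ → Prop) (B : Box) : Prop := ∀ x y z, B.mem x y z → P x y z

section

variable {P : ℝ → ℝ → ℝ → Prop} {l0 h0 l1 h1 l2 h2 m : ℕ}

theorem Cov.a (u : Cov P ⟨l0, m, l1, h1, l2, h2⟩) (v : Cov P ⟨m, h0, l1, h1, l2, h2⟩) :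
    Cov P ⟨l0, h0, l1, h1, l2, h2⟩ := fun x y z k =>
  (le_total (x * 4294967296) m).elim (fun e => u x y z ⟨⟨k.1.1, e⟩, k.2⟩)
    fun e => v x y z ⟨⟨e, k.1.2⟩, k.2⟩

theorem Cov.b (u : Cov P ⟨l0, h0, l1, m, l2, h2⟩) (v : Cov P ⟨l0, h0, m, h1, l2, h2⟩) :
    Cov P ⟨l0, h0, l1, h1, l2, h2⟩ := fun x y z k =>
  (le_total (y * 4294967296) m).elim (fun e => u x y z ⟨k.1, ⟨k.2.1.1, e⟩, k.2.2⟩)
    fun e => v x y z ⟨k.1, ⟨e, k.2.1.2⟩, k.2.2⟩

theorem Cov.c (u : Cov P ⟨l0, h0, l1, h1, l2, m⟩) (v : Cov P ⟨l0, h0, l1, h1, m, h2⟩) :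
    Cov P ⟨l0, h0, l1, h1, l2, h2⟩ := fun x y z k =>
  (le_total (z * 4294967296) m).elim (fun e => u x y z ⟨k.1, k.2.1, k.2.2.1, e⟩)
    fun e => v x y z ⟨k.1, k.2.1, e, k.2.2.2⟩

end

theorem blt_spec {p q : ℕ} {x y : ℝ} (h : Nat.blt p q = true) (hx : x * 4294967296 ≤ p)
    (hy : q ≤ y * 4294967296) : x < y := by
  have : (p : ℝ) < q := by exact_mod_cast Nat.blt_eq.mp h
  linarith

theorem big_spec {l : ℕ} {x : ℝ} (h : big l = true) (hx : l ≤ x * 4294967296) : 3 < x :=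
  blt_spec h (by norm_num) hx

theorem out_spec {e t : ℕ} {x y : ℝ} (h : out e t = true) (hx : e ≤ x * 4294967296)
    (hy : t ≤ y * 4294967296) : 1 ≤ x * y ^ 2 := by
  have h1 : (79228162514264337593543950336 : ℝ) ≤ e * (t * t) := by
    exact_mod_cast Nat.le_of_ble_eq_true h
  have h2 : (e : ℝ) * (t * t) ≤ x * 4294967296 * (y * 4294967296 * (y * 4294967296)) := by
    have a : (0 : ℝ) ≤ e := Nat.cast_nonneg _
    have b : (0 : ℝ) ≤ t := Nat.cast_nonneg _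
    exact mul_le_mul hx (mul_le_mul hy hy b (b.trans hy)) (mul_nonneg b b) (a.trans hx)
  linarith

theorem low_spec {e z : ℕ} {x y : ℝ} (h : Nat.blt (Nat.mul z z) (Nat.mul e 4294967296) = true)
    (hx : e ≤ x * 4294967296) (h0 : 0 ≤ y * 4294967296) (hy : y * 4294967296 ≤ z) :
    y ^ 2 < x := by
  have h1 : (z : ℝ) * z < e * 4294967296 := by exact_mod_cast Nat.blt_eq.mp h
  have h2 := mul_le_mul hy hy h0 (h0.trans hy)
  linarith

def PP (f : ℝ → ℝ → ℝ → ℝ) (e t s : ℝ) : Prop := s ≤ t → t ≤ 3 → e * t ^ 2 < 1 → f e t s < 0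

def PM (f : ℝ → ℝ → ℝ → ℝ) (e t s : ℝ) : Prop := t ≤ s → s ≤ 3 → e * s ^ 2 < 1 → f e t s < 0

def PS (f : ℝ → ℝ → ℝ) (r s _z : ℝ) : Prop := s ≤ 3 → f r s < 0

def PA (l k : ℕ) (e t s : ℝ) : Prop :=
  s ≤ 3 → e * t ^ 2 < 1 → rFarA e t s (l / 4294967296) (k / 4294967296) < 0

def PB (l k : ℕ) (e z s : ℝ) : Prop :=
  s ≤ 3 → e ≤ z ^ 2 → rFarB e z s (l / 4294967296) (k / 4294967296) < 0

theorem gP_spec (f : ℝ → ℝ → ℝ → ℝ) (B : Box) (h : gP B = true) : Cov (PP f) B := by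
  intro x y z m a b c
  rcases Bool.or_eq_true_iff.1 h with h | h
  · exact absurd (blt_spec h m.2.1.2 m.2.2.1) a.not_gt
  rcases Bool.or_eq_true_iff.1 h with h | h
  · exact absurd (big_spec h m.2.1.1) b.not_gt
  · exact absurd (out_spec h m.1.1 m.2.1.1) c.not_ge

theorem gM_spec (f : ℝ → ℝ → ℝ → ℝ) (B : Box) (h : gM B = true) : Cov (PM f) B := by
  intro x y z m a b c
  rcases Bool.or_eq_true_iff.1 h with h | h
  · exact absurd (blt_spec h m.2.2.2 m.2.1.1) a.not_gt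
  rcases Bool.or_eq_true_iff.1 h with h | h
  · exact absurd (big_spec h m.2.2.1) b.not_gt
  · exact absurd (out_spec h m.1.1 m.2.2.1) c.not_ge

theorem gS_spec (f : ℝ → ℝ → ℝ) (B : Box) (h : gS B = true) : Cov (PS f) B :=
  fun _ _ _ m a => absurd (big_spec h m.2.1.1) a.not_gt

variable {t : Tr} {B : Box} {l k : ℕ}

theorem covNearP (h : go fNearP gP t B = true) : Cov (PP rNearP) B :=
  go_sound (fun _ h _ _ _ m _ _ _ => let ⟨_, a, b, c⟩ := Box.exists_eps m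
    (memNearP a b c).lt_zero h) (gP_spec _) t B h

theorem covNearM (h : go fNearM gM t B = true) : Cov (PM rNearM) B :=
  go_sound (fun _ h _ _ _ m _ _ _ => let ⟨_, a, b, c⟩ := Box.exists_eps m
    (memNearM a b c).lt_zero h) (gM_spec _) t B h

theorem covRowP (h : go fRowP gP t B = true) : Cov (PP rRowP) B :=
  go_sound (fun _ h _ _ _ m _ _ _ => let ⟨_, a, b, c⟩ := Box.exists_eps m
    (memRowP a b c).lt_zero h) (gP_spec _) t B h

theorem covRowM (h : go fRowM gM t B = true) : Cov (PM rRowM) B :=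
  go_sound (fun _ h _ _ _ m _ _ _ => let ⟨_, a, b, c⟩ := Box.exists_eps m
    (memRowM a b c).lt_zero h) (gM_spec _) t B h

theorem covStart (h : go fStart gS t B = true) : Cov (PS rStart) B :=
  go_sound (fun _ h _ _ _ m _ => let ⟨_, a, b, _⟩ := Box.exists_eps m
    (memStart a b).lt_zero h) (gS_spec _) t B h

theorem covStop (h : go fStop gS t B = true) : Cov (PS rStop) B :=
  go_sound (fun _ h _ _ _ m _ => let ⟨_, a, b, _⟩ := Box.exists_eps m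
    (memStop a b).lt_zero h) (gS_spec _) t B h

theorem covFarA (h : go (fFarA l k) gA t B = true) : Cov (PA l k) B :=
  go_sound (fun _ h _ _ _ m _ _ => let ⟨_, a, b, c⟩ := Box.exists_eps m
    (memFarA a b c (Mem.dy l rfl) (Mem.dy k rfl)).lt_zero h)
    (fun _ h _ _ _ m a b => (Bool.or_eq_true_iff.1 h).elim
      (fun h => absurd (big_spec h m.2.2.1) a.not_gt)
      fun h => absurd (out_spec h m.1.1 m.2.1.1) b.not_ge) t B h

theorem covFarB (h : go (fFarB l k) gB t B = true) : Cov (PB l k) B :=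
  go_sound (fun _ h _ _ _ m _ _ => let ⟨_, a, b, c⟩ := Box.exists_eps m
    (memFarB a b c (Mem.dy l rfl) (Mem.dy k rfl)).lt_zero h)
    (fun _ h _ _ _ m a b => (Bool.or_eq_true_iff.1 h).elim
      (fun h => absurd (big_spec h m.2.2.1) a.not_gt)
      fun h => absurd (low_spec h m.1.1 ((Nat.cast_nonneg _).trans m.2.1.1) m.2.1.2) b.not_gt)
    t B h

def QA (e t _z : ℝ) : Prop := e * t ^ 2 < 1 → ∃ l k : ℝ, 0 ≤ k ∧ k * t ≤ l ∧
  ∀ s, 0 ≤ s → s ≤ 3 → rFarA e t s l k < 0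

def QB (e z _z : ℝ) : Prop := e ≤ z ^ 2 → ∃ l k : ℝ, 0 ≤ k ∧ k * z ^ 2 ≤ l ∧
  ∀ s, 0 ≤ s → s ≤ 3 → rFarB e z s l k < 0

variable {l0 h0 l1 h1 : ℕ}

theorem cellA (h : Cov (PA l k) ⟨l0, h0, l1, h1, 0, 17179869184⟩)
    (hk : k * h1 ≤ l * 4294967296) : Cov QA ⟨l0, h0, l1, h1, 0, 0⟩ := by
  intro e t _ m a
  refine ⟨l / 4294967296, k / 4294967296, by positivity, ?_, fun s s0 s3 =>
    h e t s ⟨m.1, m.2.1, by simpa using s0, by simp only [Nat.cast_ofNat]; linarith⟩ s3 a⟩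
  have b : (k : ℝ) * h1 ≤ l * 4294967296 := by exact_mod_cast hk
  have c := mul_le_mul_of_nonneg_left m.2.1.2 (Nat.cast_nonneg (α := ℝ) k)
  simp only at c
  linarith

theorem cellB (h : Cov (PB l k) ⟨l0, h0, l1, h1, 0, 17179869184⟩)
    (hk : k * (h1 * h1) ≤ l * 18446744073709551616) : Cov QB ⟨l0, h0, l1, h1, 0, 0⟩ := by
  intro e z _ m a
  refine ⟨l / 4294967296, k / 4294967296, by positivity, ?_, fun s s0 s3 =>
    h e z s ⟨m.1, m.2.1, by simpa using s0, by simp only [Nat.cast_ofNat]; linarith⟩ s3 a⟩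
  have b : (k : ℝ) * (h1 * h1) ≤ l * 18446744073709551616 := by exact_mod_cast hk
  have z0 := (Nat.cast_nonneg (α := ℝ) _).trans m.2.1.1
  have c := mul_le_mul_of_nonneg_left (mul_le_mul m.2.1.2 m.2.1.2 z0 (z0.trans m.2.1.2))
    (Nat.cast_nonneg (α := ℝ) k)
  simp only at c
  linarith

theorem cellA0 (h : out l0 l1 = true) : Cov QA ⟨l0, h0, l1, h1, 0, 0⟩ :=
  fun _ _ _ m a => absurd (out_spec h m.1.1 m.2.1.1) a.not_ge

theorem cellB0 (h : Nat.blt (Nat.mul h1 h1) (Nat.mul l0 4294967296) = true) :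
    Cov QB ⟨l0, h0, l1, h1, 0, 0⟩ :=
  fun _ _ _ m a => absurd (low_spec h m.1.1 ((Nat.cast_nonneg _).trans m.2.1.1) m.2.1.2) a.not_gt

end Pool.Agent.Lib.MP_efb7ef_gt.T
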