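import Pool.Agent.Lib.MP_efb7ef_gt.Defs

/-!
The objects in the formula for the magic number of an ellipse. Here `e = b ^ 2 / a ^ 2`, and the
point with parameter `t` of the ellipse with half axes `1` and `√e` is `(xx e t, e * t)`; the
parameter runs from `0` (major vertex) to `1 / √e` (minor vertex).
-/

namespace Pool.Agent.Lib.MP_efb7ef_gt.T

/-- The abscissa of the point with parameter `t`. -/
noncomputable def xx (e t : ℝ) : ℝ := √(1 - e * t ^ 2)

/-- The sum of the distances from the point `t` to the four mirror images of the point `s`. -/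
noncomputable def kk (e t s : ℝ) : ℝ :=
  √((xx e t - xx e s) ^ 2 + (e * (t - s)) ^ 2) + √((xx e t + xx e s) ^ 2 + (e * (t - s)) ^ 2) +
    (√((xx e t - xx e s) ^ 2 + (e * (t + s)) ^ 2) + √((xx e t + xx e s) ^ 2 + (e * (t + s)) ^ 2))

/-- Twice the speed of the parametrisation. -/
noncomputable def jj (e t : ℝ) : ℝ := 2 * e * √(1 + t ^ 2 / (1 - e * t ^ 2))

/-- The kernel of the series. -/
noncomputable def nn (e t s : ℝ) : ℝ :=
  -(deriv (deriv fun u => kk e u s) t + 2 * (1 - e) / 3 * deriv (fun u => kk e u s) t) / jj e t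

/-- The terms of the series: iterated integrals of the kernel over `[0, α]`. -/
noncomputable def ph (e α : ℝ) : ℕ → ℝ → ℝ
  | 0 => fun t => nn e t (1 / √e)
  | k + 1 => fun t => ∫ s in (0 : ℝ)..α, nn e t s * ph e α k s

/-- The quotient of the two series. -/
noncomputable def val (e α : ℝ) : ℝ :=
  (kk e 0 (1 / √e) + ∑' k, ∫ s in (0 : ℝ)..α, kk e 0 s * ph e α k s) /
    (4 * (1 + ∑' k, ∫ s in (0 : ℝ)..α, ph e α k s))

/-- The end points `α` in `[1 / 2, min 3 (1 / √e))` for which both series converge. -/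
def adm (e : ℝ) : Set ℝ :=
  {α | 1 / 2 ≤ α ∧ α < 3 ∧ α < 1 / √e ∧ (Summable fun k => ∫ s in (0 : ℝ)..α, ph e α k s) ∧
    Summable fun k => ∫ s in (0 : ℝ)..α, kk e 0 s * ph e α k s}

end Pool.Agent.Lib.MP_efb7ef_gt.T
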