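import Pool.Agent.Lib.MP_efb7ef_gt.T.Neu2
import Pool.Agent.Lib.MP_efb7ef_gt.T.Inv2

/-! Reciprocity. -/

namespace Pool.Agent.Lib.MP_efb7ef_gt.T

open Set Function MeasureTheory

variable {d : Dat}

/-- The value attached to an end point `α`. -/
noncomputable def Dat.phi (d : Dat) (α : ℝ) : ℝ :=
  (d.K 0 d.L + ∑' k, ∫ s in (0 : ℝ)..α, d.K 0 s * d.it (fun t => d.N t d.L) α k s) /
    (1 + ∑' k, ∫ s in (0 : ℝ)..α, d.it (fun t => d.N t d.L) α k s)

theorem game_congr {s₀ α : ℝ} {φ ψ : ℝ → ℝ} (f : ℝ → ℝ) (h0 : 0 ≤ α)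
    (h2 : ∀ s ∈ Icc 0 α, φ s = ψ s) : lam s₀ α f φ = lam s₀ α f ψ + (φ s₀ - ψ s₀) := by
  have e : ∫ s in (0 : ℝ)..α, φ s * f s = ∫ s in (0 : ℝ)..α, ψ s * f s :=
    intervalIntegral.integral_congr fun s hs => by
      rw [uIcc_of_le h0] at hs
      simp only [h2 s hs]
  rw [lam, lam, e]
  ring

theorem game_add (s₀ : ℝ) {α : ℝ} {f φ : ℝ → ℝ} (h0 : 0 ≤ α) (hf : Dens α f) (hφ : Continuous φ)
    (x : ℝ) : lam s₀ α f (fun s => φ s + x) = lam s₀ α f φ + x * lam s₀ α f (fun _ => 1) := by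
  rw [← lam_const]
  simp only [lam, add_mul]
  rw [intervalIntegral.integral_add (hf.intc h0 hφ) (hf.intc h0 continuous_const)]
  ring

theorem phi_eq (h : d.Hyp) {α : ℝ} (hα : d.Adm α) : ∃ f, d.Sol d.L α f ∧
    d.phi α * lam d.L α f (fun _ => 1) = lam d.L α f (d.K 0) := by
  obtain ⟨f, h1, h2⟩ := sol_nu h hα
  refine ⟨f, h1, ?_⟩
  have h3 := (h2 (fun _ => 1) continuous_const).tsum_eq
  have h4 := (h2 (d.K 0) (h.cK.uncurry_left 0)).tsum_eq
  have h5 := one_le_lam d.L hα.pos.le h1.toDens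
  simp only [one_mul] at h3
  rw [Dat.phi, h3, h4]
  simp only [lam, one_mul] at h5 ⊢
  exact div_mul_cancel₀ _ (by linarith)

/-- Reciprocity. -/
theorem recip (h : d.Hyp) {α : ℝ} {f g : ℝ → ℝ} (h0 : 0 < α) (h3 : α ≤ 3) (hL : α < d.L)
    (hf : d.Sol α α f) (hg : d.Sol d.L α g) :
    lam d.L α g (d.K 0) * lam α α f (fun _ => 1) =
      lam α α f (d.K 0) * lam d.L α g (fun _ => 1) + (lam α α f (d.K d.L) - lam α α f (d.K 0)) := by
  have e := lam_swap h.toReg α d.L h0.le h0.le hf.toDens hg.toDens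
  have k := inv_K h h0 h3 hL (.inr rfl) hg
  rw [game_congr g h0.le (inv_K h h0 h3 hL (.inl rfl) hf), game_congr f h0.le k,
    k α ⟨h0.le, le_rfl⟩, lam_const d.L α g, lam_const α α f] at e
  linarith

/-- The level depends continuously on the end point. -/
theorem level_le (h : d.Hyp) {α β ω : ℝ} {f g : ℝ → ℝ} (h0 : 0 < α) (hαβ : α ≤ β) (h3 : β ≤ 3)
    (hL : β < d.L) (hf : d.Sol α α f) (hg : d.Sol β β g)
    (hω : ∀ t ∈ Icc α β, ∀ s ∈ Icc 0 α, d.K t s ≤ d.K α s + ω) (hω0 : 0 ≤ ω) :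
    lam β β g (d.K 0) * lam α α f (fun _ => 1) ≤
      (lam α α f (d.K 0) + ω * lam α α f (fun _ => 1)) * lam β β g (fun _ => 1) := by
  have b0 := h0.trans_le hαβ
  have e := lam_swap h.toReg α β h0.le b0.le hf.toDens hg.toDens
  have k := inv_K h b0 h3 hL (.inl rfl) hg
  have k' := inv_K h h0 (hαβ.trans h3) (hαβ.trans_lt hL) (.inl rfl) hf
  have S := one_le_lam α h0.le hf.toDens
  rw [game_congr f h0.le fun s hs => k s ⟨hs.1, hs.2.trans hαβ⟩, k α ⟨h0.le, hαβ⟩, sub_self,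
    add_zero, lam_const α α f] at e
  have key : ∀ t ∈ Icc 0 β,
      lam α α f (d.K t) ≤ lam α α f (d.K 0) + ω * lam α α f (fun _ => 1) := fun t ht => by
    rcases le_total t α with h1 | h1
    · rw [k' t ⟨ht.1, h1⟩]
      exact le_add_of_nonneg_right (mul_nonneg hω0 (zero_le_one.trans S))
    · rw [← k' α ⟨h0.le, le_rfl⟩, ← game_add α h0.le hf.toDens (h.cK.uncurry_left α)]
      exact lam_mono h0.le hf.toDens (h.cK.uncurry_left t) ((h.cK.uncurry_left α).add_const ω)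
        (hω t ⟨h1, ht.2⟩ α ⟨h0.le, le_rfl⟩) (hω t ⟨h1, ht.2⟩)
  rw [← e, ← lam_const]
  exact lam_mono b0.le hg.toDens (lam_cont h.toReg α h0.le hf.toDens) continuous_const
    (key β ⟨b0.le, le_rfl⟩) key

end Pool.Agent.Lib.MP_efb7ef_gt.T
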