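import Pool.Agent.Lib.MP_efb7ef_gt.T.Lam

/-! Differentiation of the potential in the gap `(α, L)`. -/

namespace Pool.Agent.Lib.MP_efb7ef_gt.T

open Set Function MeasureTheory

variable {d : Dat}

theorem min_test {U U1 : ℝ → ℝ} {U2 t : ℝ} (hm : IsLocalMin U t)
    (h1 : ∀ᶠ u in nhds t, HasDerivAt U (U1 u) u) (h2 : HasDerivAt U1 U2 t) :
    U1 t = 0 ∧ 0 ≤ U2 := by
  have h0 := h1.self_of_nhds
  refine ⟨hm.hasDerivAt_eq_zero h0, not_lt.1 fun hn => ?_⟩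
  have e1 : deriv U =ᶠ[nhds t] U1 := h1.mono fun u hu => hu.deriv
  have e2 : deriv (deriv U) t = U2 := e1.deriv_eq.trans h2.deriv
  have hM := isLocalMax_of_deriv_deriv_neg (e2 ▸ hn) hm.deriv_eq_zero h0.continuousAt
  have e3 : U =ᶠ[nhds t] fun _ => U t := by
    filter_upwards [hm, hM] with u a b using le_antisymm b a
  rw [e3.deriv.deriv_eq] at e2
  simp only [deriv_const', deriv_const] at e2
  exact hn.ne' e2

theorem gap_bd {G : ℝ → ℝ → ℝ} {L α b : ℝ} {f : ℝ → ℝ}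
    (hG : ContinuousOn (uncurry G) {p | 0 ≤ p.2 ∧ p.2 ≤ p.1 ∧ p.1 < L}) (hb : b < L)
    (hf : Dens α f) : ∃ C, ∀ u ∈ Icc α b, ∀ s ∈ Icc 0 α, |G u s| ≤ C ∧ ‖G u s * f s‖ ≤ C := by
  obtain ⟨C, hC⟩ := ((isCompact_Icc (a := α) (b := b)).prod
    (isCompact_Icc (a := 0) (b := α))).exists_bound_of_continuousOn
    (hG.mono fun p hp => ⟨hp.2.1, hp.2.2.trans hp.1.1, hp.1.2.trans_lt hb⟩)
  obtain ⟨B, hB⟩ := hf.bd
  refine ⟨max C (C * B), fun u hu s hs => ?_⟩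
  have k : |G u s| ≤ C := hC (u, s) ⟨hu, hs⟩
  refine ⟨k.trans (le_max_left _ _), le_trans ?_ (le_max_right _ _)⟩
  rw [Real.norm_eq_abs, abs_mul, abs_of_nonneg (hB s hs).1]
  exact mul_le_mul k (hB s hs).2 (hB s hs).1 ((abs_nonneg _).trans k)

theorem gap_aux {G G' : ℝ → ℝ → ℝ} {L α t : ℝ} {f : ℝ → ℝ} (m : Measurable (uncurry G))
    (m' : Measurable (uncurry G'))
    (c : ContinuousOn (uncurry G) {p | 0 ≤ p.2 ∧ p.2 ≤ p.1 ∧ p.1 < L})
    (c' : ContinuousOn (uncurry G') {p | 0 ≤ p.2 ∧ p.2 ≤ p.1 ∧ p.1 < L})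
    (hd : ∀ s u, 0 ≤ s → s < u → u < L → HasDerivAt (fun u => G u s) (G' u s) u) (h0 : 0 ≤ α)
    (hf : Dens α f) (ht : t ∈ Ioo α L) :
    HasDerivAt (fun u => ∫ s in (0 : ℝ)..α, G u s * f s) (∫ s in (0 : ℝ)..α, G' t s * f s) t := by
  obtain ⟨b, b1, b2⟩ := exists_between ht.2
  obtain ⟨C, hC⟩ := gap_bd c b2 hf
  obtain ⟨C', hC'⟩ := gap_bd c' b2 hf
  refine (intervalIntegral.hasDerivAt_integral_of_dominated_loc_of_deriv_le
    (F := fun u s => G u s * f s) (F' := fun u s => G' u s * f s) (bound := fun _ => C')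
    (Ioo_mem_nhds ht.1 b1) (.of_forall fun u => (m.of_uncurry_left.mul hf.meas).aestronglyMeasurable)
    (hf.int h0 m.of_uncurry_left ⟨C, fun s hs => (hC t ⟨ht.1.le, b1.le⟩ s hs).1⟩)
    (m'.of_uncurry_left.mul hf.meas).aestronglyMeasurable (.of_forall fun s hs u hu => ?_)
    intervalIntegrable_const (.of_forall fun s hs u hu => ?_)).2 <;> rw [uIoc_of_le h0] at hs
  · exact (hC' u (Ioo_subset_Icc_self hu) s (Ioc_subset_Icc_self hs)).2
  · exact (hd s u hs.1.le (hs.2.trans_lt hu.1) (hu.2.trans b2)).mul_const _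

/-- Differentiation under the integral sign in the gap. -/
theorem gap_deriv (h : d.Reg) {α : ℝ} {f : ℝ → ℝ} (h0 : 0 ≤ α) (hf : Dens α f) {t : ℝ}
    (ht : t ∈ Ioo α d.L) :
    HasDerivAt (fun u => ∫ s in (0 : ℝ)..α, d.K u s * f s) (∫ s in (0 : ℝ)..α, d.P1 t s * f s) t ∧
      HasDerivAt (fun u => ∫ s in (0 : ℝ)..α, d.P1 u s * f s)
        (∫ s in (0 : ℝ)..α, d.P2 t s * f s) t :=
  ⟨gap_aux h.cK.measurable h.mP1 h.cK.continuousOn h.cP1
    (fun s u a b c => (h.dP s u a b c).1) h0 hf ht,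
    gap_aux h.mP1 h.mP2 h.cP1 h.cP2 (fun s u a b c => (h.dP s u a b c).2) h0 hf ht⟩

theorem gap_cont (h : d.Reg) {α : ℝ} {f : ℝ → ℝ} (h0 : 0 ≤ α) (hf : Dens α f) :
    ContinuousOn (fun u => ∫ s in (0 : ℝ)..α, d.P1 u s * f s) (Ico α d.L) := by
  intro t ht
  obtain ⟨b, b1, b2⟩ := exists_between ht.2
  obtain ⟨C, hC⟩ := gap_bd h.cP1 b2 hf
  refine intervalIntegral.continuousWithinAt_of_dominated_interval (bound := fun _ => C)
    (.of_forall fun u => (h.mP1.of_uncurry_left.mul hf.meas).aestronglyMeasurable) ?_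
    intervalIntegrable_const (.of_forall fun s hs => ?_)
  · filter_upwards [self_mem_nhdsWithin, mem_nhdsWithin_of_mem_nhds (Iio_mem_nhds b1)] with u u1 u2
    refine .of_forall fun s hs => ?_
    rw [uIoc_of_le h0] at hs
    exact (hC u ⟨u1.1, le_of_lt u2⟩ s (Ioc_subset_Icc_self hs)).2
  · rw [uIoc_of_le h0] at hs
    refine ContinuousWithinAt.mul ?_ continuousWithinAt_const
    exact (h.cP1.comp (f := fun u => (u, s)) (by fun_prop)
      fun u hu => ⟨hs.1.le, hs.2.trans hu.1, hu.2⟩) t ht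

end Pool.Agent.Lib.MP_efb7ef_gt.T
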