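import Pool.Agent.Lib.MP_efb7ef_gt.T.Br
import Pool.Agent.Lib.MP_efb7ef_gt.T.ProgR

/-! The test function for large `t`, written with divided differences in `z = 1 / t`. -/

namespace Pool.Agent.Lib.MP_efb7ef_gt.T

variable {e t s : ℝ}

theorem id2_side (he : 0 < e) (he1 : e ≤ 1) (hs : |s| < t) (ht : e * t ^ 2 < 1) {X v w u H S : ℝ}
    (hX : X = 1 - e * s ^ 2) (hv : v = 1 - e + (1 + e) * (s * t⁻¹))
    (hw : w = √(v ^ 2 + 4 * X * t⁻¹ ^ 2)) (hu : u = 4 * X * (v + w)⁻¹) (hH : H = (1 - s * t⁻¹) * u)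
    (hS : S = √(4 * X + 2 * (e * H))) :
    (0 < w ∧ w ^ 2 = v ^ 2 + 4 * X * t⁻¹ ^ 2 ∧ 0 < v + w ∧ 0 < S ∧ S ^ 2 = 4 * X + 2 * (e * H)) ∧
    s1 1 e t s = t⁻¹ ^ 2 * (u * (w⁻¹ * S⁻¹)) * (t⁻¹ * u + 2 * s) ∧
    s2 1 e t s = -(t⁻¹ ^ 3 * ((1 - e) * (u * (w⁻¹ * S⁻¹)) * w⁻¹ ^ 2 * (t⁻¹ * u *
      (2 * t⁻¹ ^ 2 * u + 3 * v + 2 * (s * t⁻¹)) + 4 * s * v))) -
      t⁻¹ ^ 4 * e * (u * (w⁻¹ * S⁻¹) * (t⁻¹ * u + 2 * s)) ^ 2 * S⁻¹ ∧
    rKap e t s = (2 * H - 4 * s ^ 2) * (2 + S)⁻¹ := by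
  have t0 : 0 < t := (abs_nonneg s).trans_lt hs
  have d0 : 0 < t - s := sub_pos.2 (lt_of_abs_lt hs)
  have X0 : 0 < X := by
    rw [hX, sub_pos]
    exact (mul_le_mul_of_nonneg_left (sq_le_sq.2 (hs.le.trans (le_abs_self t))) he.le).trans_lt ht
  obtain ⟨w0, w2⟩ := ww_pos (t := t) (s := s) he he1 ht.le (by linarith)
  rw [← hX] at w2
  have e1 : vv e t s = t * v := by
    rw [hv, vv]
    field_simp
  have e0 : w ^ 2 = v ^ 2 + 4 * X * t⁻¹ ^ 2 := hw ▸ Real.sq_sqrt (by positivity)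
  have e2 : ww e t s = t * w := by
    refine (pow_left_inj₀ w0.le (hw ▸ by positivity) two_ne_zero).1 ?_
    rw [w2, e1, mul_pow t w, e0]
    field_simp
  have w1 : 0 < w := (mul_pos_iff_of_pos_left t0).1 (e2 ▸ w0)
  have g0 : 0 < v + w := by
    have : |v| < w := abs_lt_of_sq_lt_sq (by rw [e0, lt_add_iff_pos_right]; positivity) w1.le
    linarith [neg_abs_le v]
  have e3 : uu 1 e t s = t⁻¹ * u := by
    rw [uu, e1, e2, hu]
    field_simp at e0 ⊢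
    linear_combination e0
  have e4 : (t - s) * uu 1 e t s = H := by
    rw [e3, hH]
    field_simp
  have e5 : qq 1 e t s = 4 * X + 2 * (e * H) := by rw [qq, e4, hX, mul_assoc]
  have q0 := qq_pos (θ := 1) (s := s) he ht (by linarith) (by rw [one_mul, abs_of_pos d0])
  rw [e5] at q0
  have S0 : 0 < S := hS ▸ Real.sqrt_pos.2 q0
  refine ⟨⟨w1, e0, g0, S0, hS ▸ Real.sq_sqrt q0.le⟩, ?_, ?_, ?_⟩
  · rw [s1, h1, e5, ← hS, e3, e2]
    field_simp
  · rw [s2, h1, h2, e5, ← hS, e3, e2, e1]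
    field_simp
    ring
  · have e6 : |t - s| * ww e t s - (t - s) * vv e t s = H := by
      rw [abs_of_pos d0, ← e4, uu]
      ring
    simp only [rKap]
    rw [show (1 - e) * t + (1 + e) * s = vv e t s from rfl,
      show √(vv e t s ^ 2 + 4 * (1 - e * s ^ 2)) = ww e t s from rfl, e6, ← hX, ← hS]

theorem rFarB_eq (he : 0 < e) (he1 : e ≤ 1) (hs : 0 ≤ s) (hst : s < t) (ht : e * t ^ 2 < 1)
    (l k : ℝ) : t⁻¹ ^ 4 * rFarB e t⁻¹ s l k =
      s2 1 e t s + s2 1 e t (-s) + l * t⁻¹ * (s1 1 e t s + s1 1 e t (-s)) -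
        k * t⁻¹ ^ 4 * (rKk e t s - rKk e (1 / 2) s) := by
  unfold rFarB
  extract_lets σ X a b y Z yb vp vm wp wm gm up um ip im Hp Hm Sp Sm jp jm Dw Du Di Dj mp Pp Pm D1
    ip2 im2 D2 zp zm k1 k2 k0
  obtain ⟨⟨p1, p2, p3, p4, p5⟩, p6, p7, p8⟩ := id2_side (s := s) he he1 (by rwa [abs_of_nonneg hs])
    ht (X := X) (v := vp) (w := wp) (u := up) (H := Hp) (S := Sp) rfl rfl rfl rfl rfl rfl
  obtain ⟨⟨m1, m2, m3, m4, m5⟩, m6, m7, m8⟩ := id2_side (s := -s) he he1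
    (by rwa [abs_neg, abs_of_nonneg hs]) ht (X := X) (v := vm) (w := wm) (u := um) (H := Hm)
    (S := Sm) (by rw [neg_sq]) (by simp only [vm, yb, a, b, y]; ring) rfl rfl
    (by simp only [Hm, y]; ring) rfl
  have dv : vp - vm = 2 * b * y := by simp only [vp, vm, yb]; ring
  have dw : y * Dw = wp - wm := by
    have : 0 < wp + wm := add_pos p1 m1
    simp only [Dw]
    field_simp
    simp only [vp, vm, yb] at p2 m2
    linear_combination m2 - p2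
  have du : y * Du = up - um := by
    have e1 : um * (vm + wm) = up * (vp + wp) := by
      simp only [um, gm, up]
      field_simp
    have e2 : gm * (vm + wm) = 1 := inv_mul_cancel₀ m3.ne'
    refine mul_right_cancel₀ m3.ne' ?_
    simp only [Du]
    linear_combination (-up * (2 * b * y + y * Dw)) * e2 - up * dw + up * dv + e1
  have ep : ip * wp = 1 := inv_mul_cancel₀ p1.ne'
  have em : im * wm = 1 := inv_mul_cancel₀ m1.ne'
  have fp : jp * Sp = 1 := inv_mul_cancel₀ p4.ne'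
  have fm : jm * Sm = 1 := inv_mul_cancel₀ m4.ne'
  have di : y * Di = ip - im := by
    simp only [Di]
    linear_combination -(ip * im) * dw - im * ep + ip * em
  have dj : y * Dj = jp - jm := by
    have e1 : 2 * (e * (y * (Du - (up + um)))) = (Sp - Sm) * (Sp + Sm) := by
      simp only [Hp, Hm] at p5 m5
      linear_combination 2 * e * du - p5 + m5
    have e2 : (Sp + Sm) * (Sp + Sm)⁻¹ = 1 := mul_inv_cancel₀ (add_pos p4 m4).ne'
    simp only [Dj]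
    linear_combination -((Sp + Sm)⁻¹ * (jp * jm)) * e1 - (Sp - Sm) * (jp * jm) * e2 - jm * fp +
      jp * fm
  have d1 : y * D1 = Pp - Pm := by
    simp only [D1, Pp, Pm, mp]
    linear_combination ip * jp * du + um * jp * di + um * im * dj
  have d2 : y * D2 = Pp * vp * ip2 - Pm * vm * im2 := by
    simp only [D2, ip2, im2]
    linear_combination vp * ip ^ 2 * d1 - Pm * ip ^ 2 * dv + Pm * vm * (ip + im) * di
  rw [p6, p7, m6, m7, rKk.eq_1 e t, p8, m8, neg_sq,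
    show (2147483648 : ℝ) / 4294967296 = 1 / 2 by norm_num]
  simp only [k1, k2, k0, zp, zm, σ, ip2, im2, Pp, Pm, mp, ip, im, jp, jm, a, y] at d1 d2 ⊢
  linear_combination 2 * l * t⁻¹ ^ 3 * s * d1 - 4 * (1 - e) * t⁻¹ ^ 3 * s * d2

end Pool.Agent.Lib.MP_efb7ef_gt.T
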