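import Pool.Agent.Lib.MP_efb7ef_gt.T.Id1
import Pool.Agent.Lib.MP_efb7ef_gt.T.Id2
import Pool.Agent.Lib.MP_efb7ef_gt.T.Conc2

/-! The inequalities for the kernel follow from the signs of the test functions. -/

namespace Pool.Agent.Lib.MP_efb7ef_gt.T

open Set

/-- The signs of the test functions. -/
structure Num : Prop where
  nearP : ∀ e t s : ℝ, 0 ≤ e → e ≤ 1 → 0 ≤ s → s ≤ t → t ≤ 3 → e * t ^ 2 < 1 → rNearP e t s < 0
  nearM : ∀ e t s : ℝ, 0 ≤ e → e ≤ 1 → 0 ≤ t → t ≤ s → s ≤ 3 → e * s ^ 2 < 1 → rNearM e t s < 0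
  rowP : ∀ e t s : ℝ, 0 ≤ e → e ≤ 1 → 0 ≤ s → s ≤ t → t ≤ 1 / 2 → rRowP e t s < 0
  rowM : ∀ e t s : ℝ, 0 ≤ e → e ≤ 1 → 0 ≤ t → t ≤ s → s ≤ 1 / 2 → rRowM e t s < 0
  start : ∀ r s : ℝ, 0 ≤ r → r ≤ 1 → 0 ≤ s → s ≤ 1 / 2 → rStart r s < 0
  stop : ∀ r s : ℝ, 0 ≤ r → r ≤ 1 / 3 → 0 ≤ s → s ≤ 3 → rStop r s < 0
  farA : ∀ e t : ℝ, 0 ≤ e → 3 ≤ t → t ≤ 32 / 9 → e * t ^ 2 < 1 → ∃ l k : ℝ, 0 ≤ k ∧ k * t ≤ l ∧
    ∀ s, 0 ≤ s → s ≤ 3 → rFarA e t s l k < 0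
  farB : ∀ e z : ℝ, 0 ≤ e → 0 ≤ z → z ≤ 9 / 32 → e ≤ z ^ 2 → ∃ l k : ℝ, 0 ≤ k ∧ k * z ^ 2 ≤ l ∧
    ∀ s, 0 ≤ s → s ≤ 3 → rFarB e z s l k < 0

theorem hyp_P {e t s : ℝ} (he : 0 < e) (he1 : e ≤ 1) (hs : 0 ≤ s) (hst : s ≤ t)
    (ht : e * t ^ 2 < 1) (l : ℝ) :
    (dat e).P2 t s + l * (dat e).P1 t s = e * (rPlus e t s l + rMir e t s l) := by
  rw [rPlus_eq he he1 hs hst ht, rMir_eq]
  simp only [dat]
  ring

theorem hyp_M {e t s : ℝ} (he : 0 < e) (hts : t ≤ s) (ht : e * t ^ 2 < 1) (hs : e * s ^ 2 ≤ 1)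
    (l m : ℝ) : ∃ q : ℝ, 0 < q ∧ e * rLow e t s l (rMir e t s l + m) =
      q * ((dat e).M2 t s + l * (dat e).M1 t s + e * m) := by
  have hq : 0 < qq (-1) e t s :=
    qq_pos he ht hs (by rw [neg_one_mul, abs_of_nonpos (by linarith)])
  refine ⟨_, pow_pos (Real.sqrt_pos.2 hq) 3, ?_⟩
  rw [rLow_eq hq, rMir_eq]
  simp only [dat]
  ring

theorem hyp_c (e : ℝ) : (dat e).c = 2 / 3 * (1 - e) := by
  simp only [dat]
  ring

theorem hyp_sq {e t s : ℝ} (he : 0 < e) (hs : 0 ≤ s) (hst : s ≤ t) : e * s ^ 2 ≤ e * t ^ 2 :=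
  mul_le_mul_of_nonneg_left (pow_le_pow_left₀ hs hst 2) he.le

theorem hyp_row (h : Num) {e : ℝ} (he : 0 < e) (he1 : e ≤ 1) :
    ∀ t ∈ Icc (0 : ℝ) (1 / 2), ∀ s ∈ Icc (0 : ℝ) (1 / 2), (dat e).N t s ≤ 19 / 10 := by
  intro t ht s hs
  have a : e * t ^ 2 < 1 := (hyp_sq he ht.1 ht.2).trans_lt (by linarith)
  have b : e * s ^ 2 < 1 := (hyp_sq he hs.1 hs.2).trans_lt (by linarith)
  have j : 2 * e ≤ (dat e).J t := by
    have : 1 ≤ √(1 + t ^ 2 / (1 - e * t ^ 2)) :=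
      Real.one_le_sqrt.2 (le_add_of_nonneg_right (div_nonneg (sq_nonneg t) (by linarith)))
    exact le_mul_of_one_le_right (by linarith) this
  rw [Dat.N, div_le_iff₀ (by linarith), hyp_c]
  split_ifs with l
  · have k := h.rowP e t s he.le he1 hs.1 l.le ht.2
    rw [hyp_P he he1 hs.1 l.le a]
    simp only [rRowP, rNearP] at k
    nlinarith
  · have k := h.rowM e t s he.le he1 ht.1 (not_lt.1 l) hs.2
    obtain ⟨q, q0, hq⟩ := hyp_M he (not_lt.1 l) a b.le (2 / 3 * (1 - e)) (19 / 5)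
    simp only [rRowM] at k
    have := (mul_pos_iff_of_pos_left q0).1 (hq ▸ mul_pos he (neg_lt_zero.1 k))
    linarith

theorem hyp_far (h : Num) {e : ℝ} (he : 0 < e) (he1 : e ≤ 1) {t : ℝ} (h3 : 3 ≤ t)
    (a : e * t ^ 2 < 1) : ∃ l κ : ℝ, 0 ≤ κ ∧ κ * t ≤ l ∧ ∀ s ∈ Icc (0 : ℝ) 3,
      (dat e).P2 t s + l * (dat e).P1 t s - κ * ((dat e).K t s - (dat e).K (1 / 2) s) < 0 := by
  have K : ∀ s ∈ Icc (0 : ℝ) 3,
      (dat e).K t s - (dat e).K (1 / 2) s = e * (rKk e t s - rKk e (1 / 2) s) := fun s hs => by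
    have b : e * s ^ 2 ≤ 1 := (hyp_sq he hs.1 (hs.2.trans h3)).trans a.le
    show kk e t s - kk e (1 / 2) s = _
    rw [rKk_eq he.le a.le b, rKk_eq he.le (by linarith) b]
    ring
  rcases le_total t (32 / 9) with h4 | h4
  · obtain ⟨l, k, k0, kl, hk⟩ := h.farA e t he.le h3 h4 a
    refine ⟨l, k, k0, kl, fun s hs => ?_⟩
    have z := mul_neg_of_pos_of_neg he (hk s hs.1 hs.2)
    rw [rFarA, show (2147483648 : ℝ) / 4294967296 = 1 / 2 by norm_num] at z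
    rw [hyp_P he he1 hs.1 (hs.2.trans h3) a, K s hs]
    linarith
  · have t0 : 0 < t := by linarith
    have z0 : 0 < t⁻¹ := inv_pos.2 t0
    have zt : t⁻¹ * t = 1 := inv_mul_cancel₀ t0.ne'
    obtain ⟨l, k, k0, kl, hk⟩ := h.farB e t⁻¹ he.le z0.le
      ((inv_anti₀ (by norm_num) h4).trans (by norm_num))
      (by rw [inv_pow, ← one_div, le_div_iff₀ (by positivity)]; exact a.le)
    refine ⟨l * t⁻¹, k * t⁻¹ ^ 4, by positivity, ?_, fun s hs => ?_⟩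
    · have : k * t⁻¹ ^ 4 * t = k * t⁻¹ ^ 2 * t⁻¹ := by
        linear_combination k * t⁻¹ ^ 3 * zt
      rw [this]
      exact mul_le_mul_of_nonneg_right kl z0.le
    · have z := mul_neg_of_pos_of_neg he (mul_neg_of_pos_of_neg (pow_pos z0 4) (hk s hs.1 hs.2))
      rw [rFarB_eq he he1 hs.1 (by linarith [hs.2]) a] at z
      rw [K s hs]
      simp only [dat]
      linarith

theorem hyp_stop (h : Num) {e : ℝ} (he : 0 < e) (h3 : 3 < (dat e).L) :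
    ∃ β w : Fin 6 → ℝ, (∀ i, β i ∈ Icc (0 : ℝ) (11 / 4)) ∧ ∑ i, w i = 1 ∧
      ∀ s ∈ Icc (0 : ℝ) 3, (dat e).K (dat e).L s ≤ ∑ i, w i * (dat e).K (β i) s := by
  have a : e * 3 ^ 2 < 1 := (lt_L he (by norm_num)).1 h3
  refine ⟨![0, 1 / 2, 1, 3 / 2, 2, 11 / 4],
    ![-508 / 10000 + 4093 / 10000 * e, -601 / 10000 + 4641 / 10000 * e,
      -456 / 10000 + 3037 / 10000 * e, -1471 / 10000 + 12117 / 10000 * e,
      -992 / 10000 + 5606 / 10000 * e, 14028 / 10000 - 29494 / 10000 * e], fun i => ?_, ?_,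
    fun s hs => ?_⟩
  · fin_cases i <;> norm_num
  · simp only [Fin.sum_univ_six, Matrix.cons_val]
    ring
  · have b : e * s ^ 2 ≤ 1 := (hyp_sq he hs.1 hs.2).trans a.le
    have z := mul_neg_of_pos_of_neg he (h.stop (√e) s (Real.sqrt_nonneg e)
      (Real.sqrt_le_iff.2 ⟨by norm_num, by linarith⟩) hs.1 hs.2)
    simp only [rStop, Real.sq_sqrt he.le] at z
    rw [show (11811160064 : ℝ) / 4294967296 = 11 / 4 by norm_num,
      show (0 : ℝ) / 4294967296 = 0 by norm_num,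
      show (2147483648 : ℝ) / 4294967296 = 1 / 2 by norm_num,
      show (4294967296 : ℝ) / 4294967296 = 1 by norm_num,
      show (6442450944 : ℝ) / 4294967296 = 3 / 2 by norm_num,
      show (8589934592 : ℝ) / 4294967296 = 2 by norm_num] at z
    simp only [Fin.sum_univ_six, Matrix.cons_val, dat]
    rw [rKL_eq he b, rKk_eq (t := 0) he.le (by linarith) b,
      rKk_eq (t := 1 / 2) he.le (by linarith) b, rKk_eq (t := 1) he.le (by linarith) b,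
      rKk_eq (t := 3 / 2) he.le (by linarith) b, rKk_eq (t := 2) he.le (by linarith) b,
      rKk_eq (t := 11 / 4) he.le (by linarith) b]
    linarith

theorem dat_hyp (h : Num) {e : ℝ} (he : 0 < e) (he1 : e ≤ 1) : (dat e).Hyp := by
  refine ⟨dat_reg he he1, fun s t s0 st t3 tL => ?_, fun t s t0 ts s3 sL => ?_, fun t ht => ?_,
    fun t t3 tL => ?_, fun s hs => ?_, hyp_row h he he1, hyp_stop h he⟩
  · have a := (lt_L he (s0.trans st)).1 tL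
    rw [hyp_P he he1 s0 st a, hyp_c]
    exact mul_neg_of_pos_of_neg he (h.nearP e t s he.le he1 s0 st t3 a)
  · have b := (lt_L he (t0.trans ts)).1 sL
    obtain ⟨q, q0, hq⟩ := hyp_M he ts ((hyp_sq he t0 ts).trans_lt b) b.le (2 / 3 * (1 - e)) 0
    have z := mul_neg_of_pos_of_neg he (h.nearM e t s he.le he1 t0 ts s3 b)
    rw [add_zero, mul_zero, add_zero] at hq
    rw [rNearM, hq] at z
    rw [hyp_c]
    exact neg_of_mul_neg_right z q0.le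
  · obtain ⟨a, b⟩ := vertex he he1 ht
    have c : 0 ≤ (dat e).c := by
      rw [hyp_c]
      linarith
    linarith [mul_nonpos_of_nonneg_of_nonpos c a]
  · obtain ⟨l, κ, k0, kl, hk⟩ := hyp_far h he he1 t3 ((lt_L he (by linarith)).1 tL)
    exact ⟨l, κ, k0, hk, vertex_far he he1 ⟨by linarith, tL⟩ k0 kl⟩
  · have b : e * s ^ 2 ≤ 1 := (hyp_sq he hs.1 hs.2).trans (by linarith)
    have z := mul_neg_of_pos_of_neg he (h.start (√e) s (Real.sqrt_nonneg e)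
      (Real.sqrt_le_one.2 he1) hs.1 hs.2)
    rw [rStart, Real.sq_sqrt he.le, zero_div] at z
    show kk e 0 s < kk e (1 / √e) s
    rw [rKL_eq he b, rKk_eq (t := 0) he.le (by linarith) b]
    linarith

end Pool.Agent.Lib.MP_efb7ef_gt.T
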