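import Pool.Agent.Lib.MP_efb7ef_gt.T.Br
import Pool.Agent.Lib.MP_efb7ef_gt.T.ProgR

/-! The test functions in terms of the branches of the kernel. -/

namespace Pool.Agent.Lib.MP_efb7ef_gt.T

variable {e t s : ℝ}

theorem rPlus_eq (he : 0 < e) (he1 : e ≤ 1) (hs : 0 ≤ s) (hst : s ≤ t) (ht : e * t ^ 2 < 1)
    (l : ℝ) : rPlus e t s l = s2 1 e t s + l * s1 1 e t s := by
  have hX : 0 < 1 - e * s ^ 2 :=
    sub_pos.2 ((mul_le_mul_of_nonneg_left (pow_le_pow_left₀ hs hst 2) he.le).trans_lt ht)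
  obtain ⟨w0, w2⟩ := ww_pos (t := t) (s := s) he he1 ht.le (by linarith)
  have v0 : 0 ≤ vv e t s :=
    add_nonneg (mul_nonneg (by linarith) (hs.trans hst)) (mul_nonneg (by linarith) hs)
  have g0 : 0 < vv e t s + ww e t s := by linarith
  have hu : uu 1 e t s = 4 * (1 - e * s ^ 2) * (vv e t s + ww e t s)⁻¹ := by
    rw [eq_mul_inv_iff_mul_eq₀ g0.ne', uu]
    linear_combination w2
  have d0 : 0 ≤ t - s := sub_nonneg.2 hst
  have r0 : 0 < √(1 + 2 * (e * ((t - s) * (vv e t s + ww e t s)⁻¹))) := by positivity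
  have hS : √(qq 1 e t s) =
      2 * √(1 - e * s ^ 2) * √(1 + 2 * (e * ((t - s) * (vv e t s + ww e t s)⁻¹))) := by
    rw [Real.sqrt_eq_iff_mul_self_eq (qq_pos he ht (by linarith) (by
      rw [one_mul, abs_of_nonneg d0])).le (by positivity), mul_mul_mul_comm,
      Real.mul_self_sqrt (by positivity), mul_mul_mul_comm, Real.mul_self_sqrt hX.le, qq, hu]
    ring
  have x0 : 0 < √(1 - e * s ^ 2) := Real.sqrt_pos.2 hX
  have x2 := Real.sq_sqrt hX.le
  simp only [rPlus, s2, s1, h1, h2, hu, hS, one_mul]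
  rw [show (1 - e) * t + (1 + e) * s = vv e t s from rfl,
    show √(vv e t s ^ 2 + 4 * (1 - e * s ^ 2)) = ww e t s from rfl]
  generalize √(1 + 2 * (e * ((t - s) * (vv e t s + ww e t s)⁻¹))) = r at r0
  generalize √(1 - e * s ^ 2) = x at x0 x2
  rw [← x2]
  generalize (vv e t s + ww e t s)⁻¹ = i
  field_simp
  ring

theorem rMir_eq (e t s l : ℝ) : rMir e t s l = s2 1 e t (-s) + l * s1 1 e t (-s) := by
  have v : vv e t (-s) = (1 - e) * t - (1 + e) * s := by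
    rw [vv]
    ring
  simp only [rMir, s2, s1, h1, h2, qq, uu, ww, v, one_mul, neg_sq, sub_neg_eq_add, mul_assoc 2 e,
    div_eq_mul_inv, ← inv_pow]
  ring

theorem rLow_eq (hq : 0 < qq (-1) e t s) (l m : ℝ) : rLow e t s l m =
    √(qq (-1) e t s) ^ 3 * (s2 (-1) e t s + l * s1 (-1) e t s + m) := by
  have q : 4 * (1 - e * s ^ 2) + 2 * (e * ((s - t) * (vv e t s + ww e t s))) = qq (-1) e t s := by
    rw [qq, uu]
    ring
  have q0 := Real.sqrt_pos.2 hq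
  have q2 := Real.sq_sqrt hq.le
  simp only [rLow, s2, s1, h1, h2, uu]
  rw [show (1 - e) * t + (1 + e) * s = vv e t s from rfl,
    show √(vv e t s ^ 2 + 4 * (1 - e * s ^ 2)) = ww e t s from rfl, q]
  generalize √(qq (-1) e t s) = S at q0 q2
  rw [← q2]
  simp only [neg_one_mul, div_eq_mul_inv _ (-ww e t s), div_eq_mul_inv _ ((-ww e t s) ^ 3),
    ← inv_pow, inv_neg]
  generalize (ww e t s)⁻¹ = i
  field_simp
  ring

theorem id1_kap (he : 0 ≤ e) (ht : e * t ^ 2 ≤ 1) (hs : e * s ^ 2 ≤ 1) :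
    √((xx e t - xx e s) ^ 2 + (e * (t - s)) ^ 2) + √((xx e t + xx e s) ^ 2 + (e * (t - s)) ^ 2) =
      2 + e * rKap e t s := by
  obtain ⟨θ, hθ⟩ : ∃ θ : ℝ, θ * (t - s) = |t - s| := by
    rcases abs_choice (t - s) with h | h
    exacts [⟨1, by rw [h, one_mul]⟩, ⟨-1, by rw [h, neg_one_mul]⟩]
  have q : 4 * (1 - e * s ^ 2) + 2 * (e * (|t - s| * ww e t s - (t - s) * vv e t s)) =
      qq θ e t s := by
    rw [qq, uu, ← hθ]
    ring
  have q2 := Real.sq_sqrt (br_sq he ht hs hθ ▸ sq_nonneg _ : 0 ≤ qq θ e t s)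
  have q0 := Real.sqrt_nonneg (qq θ e t s)
  simp only [rKap]
  rw [show (1 - e) * t + (1 + e) * s = vv e t s from rfl,
    show √(vv e t s ^ 2 + 4 * (1 - e * s ^ 2)) = ww e t s from rfl, q, pair_eq he ht hs hθ]
  generalize √(qq θ e t s) = S at q0 q2
  rw [← q] at q2
  field_simp
  linear_combination q2

theorem rKk_eq (he : 0 ≤ e) (ht : e * t ^ 2 ≤ 1) (hs : e * s ^ 2 ≤ 1) :
    kk e t s = 4 + e * rKk e t s := by
  have := id1_kap (s := -s) he ht (by rwa [neg_sq])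
  rw [br_xx, sub_neg_eq_add] at this
  rw [kk, id1_kap he ht hs, this, rKk]
  ring

theorem id1_kv {r : ℝ} (hr : 0 < r) (hs : r ^ 2 * s ^ 2 ≤ 1) :
    √(xx (r ^ 2) s ^ 2 + (r ^ 2 * (1 / r - s)) ^ 2) = 1 + r ^ 2 * (rKv r s / 2) := by
  have q : xx (r ^ 2) s ^ 2 + (r ^ 2 * (1 / r - s)) ^ 2 = 1 + r ^ 2 * ((1 - r * s) ^ 2 - s ^ 2) := by
    rw [xx, Real.sq_sqrt (by linarith)]
    field_simp
    ring
  have q2 := Real.sq_sqrt (q ▸ by positivity : 0 ≤ 1 + r ^ 2 * ((1 - r * s) ^ 2 - s ^ 2))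
  have q0 := Real.sqrt_nonneg (1 + r ^ 2 * ((1 - r * s) ^ 2 - s ^ 2))
  simp only [rKv, q]
  generalize √(1 + r ^ 2 * ((1 - r * s) ^ 2 - s ^ 2)) = S at q0 q2
  field_simp
  linear_combination q2

theorem rKL_eq (he : 0 < e) (hs : e * s ^ 2 ≤ 1) : kk e (1 / √e) s = 4 + e * rKL (√e) s := by
  have r0 := Real.sqrt_pos.2 he
  have r2 := Real.sq_sqrt he.le
  generalize √e = r at r0 r2
  subst r2
  have z : xx (r ^ 2) (1 / r) = 0 := by
    rw [xx, div_pow, one_pow, mul_one_div_cancel (by positivity), sub_self, Real.sqrt_zero]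
  have a := id1_kv r0 hs
  have b := id1_kv (s := -s) r0 (by rwa [neg_sq])
  rw [br_xx, sub_neg_eq_add] at b
  rw [kk, z, zero_sub, neg_sq, zero_add, a, b, rKL]
  ring

end Pool.Agent.Lib.MP_efb7ef_gt.T
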