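import Pool.Agent.Lib.MP_efb7ef_gt.T.Neu

/-! The kernel as an integral of its derivatives. -/

namespace Pool.Agent.Lib.MP_efb7ef_gt.T

open Set Function MeasureTheory

variable {d : Dat}

theorem D1_meas (h : d.Reg) : Measurable (uncurry d.D1) :=
  Measurable.ite (measurableSet_lt measurable_snd measurable_fst) h.mP1 h.mM1

theorem D1_bound (h : d.Reg) {γ : ℝ} (hL : γ < d.L) :
    ∃ C, ∀ t ∈ Icc 0 γ, (∀ s ∈ Icc 0 γ, |d.D1 t s| ≤ C) ∧ |d.D1 t d.L| ≤ C := by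
  obtain ⟨A, hA⟩ := ((isCompact_Icc (a := (0 : ℝ × ℝ)) (b := (γ, γ))).inter_right
    (isClosed_le continuous_snd continuous_fst)).exists_bound_of_continuousOn
    (h.cP1.mono fun p hp => ⟨hp.1.1.2, hp.2, hp.1.2.1.trans_lt hL⟩)
  obtain ⟨B, hB⟩ := ((isCompact_Icc (a := (0 : ℝ × ℝ)) (b := (γ, d.L))).inter_right
    (isClosed_le continuous_fst continuous_snd)).exists_bound_of_continuousOn
    (h.cM1.mono fun p hp => ⟨hp.1.1.1, hp.2, hp.1.2.2, hp.1.2.1.trans_lt hL⟩)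
  have k : ∀ t ∈ Icc 0 γ, ∀ s, 0 ≤ s → s ≤ d.L → |d.D1 t s| ≤ max A B := fun t ht s h0 h1 => by
    rw [Dat.D1]
    split_ifs with c
    · exact le_max_of_le_left (hA (t, s) ⟨⟨⟨ht.1, h0⟩, ht.2, c.le.trans ht.2⟩, c.le⟩)
    · exact le_max_of_le_right (hB (t, s) ⟨⟨⟨ht.1, h0⟩, ht.2, h1⟩, not_lt.1 c⟩)
  exact ⟨_, fun t ht => ⟨fun s hs => k t ht s hs.1 (hs.2.trans hL.le),
    k t ht _ (zero_le_one.trans h.L1) le_rfl⟩⟩

theorem inv_ftc {a b : ℝ} {f f' g : ℝ → ℝ} (hab : a ≤ b) (hf : ContinuousOn f (Icc a b))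
    (hf' : ContinuousOn f' (Icc a b)) (hd : ∀ x ∈ Ioo a b, HasDerivAt f (f' x) x)
    (hg : ∀ x ∈ Ioo a b, g x = f' x) :
    IntervalIntegrable g volume a b ∧ ∫ x in a..b, g x = f b - f a :=
  have i : IntervalIntegrable g volume a b := (intervalIntegrable_iff_integrableOn_Ioo_of_le hab).2
    (((intervalIntegrable_iff_integrableOn_Ioo_of_le hab).1
      (hf'.intervalIntegrable_of_Icc hab)).congr_fun (fun x hx => (hg x hx).symm) measurableSet_Ioo)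
  ⟨i, intervalIntegral.integral_eq_sub_of_hasDerivAt_of_le hab hf (fun x hx => hg x hx ▸ hd x hx) i⟩

theorem inv_exp {a b c : ℝ} {f f' g : ℝ → ℝ} (hab : a ≤ b) (hf : ContinuousOn f (Icc a b))
    (hf' : ContinuousOn f' (Icc a b)) (hd : ∀ x ∈ Ioo a b, HasDerivAt f (f' x) x)
    (hg : ∀ x ∈ Ioo a b, g x = -(Real.exp (c * x) * (f' x + c * f x))) :
    IntervalIntegrable g volume a b ∧
      ∫ x in a..b, g x = -(Real.exp (c * b) * f b) - -(Real.exp (c * a) * f a) :=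
  inv_ftc (f := fun x => -(Real.exp (c * x) * f x)) hab (by fun_prop) (by fun_prop) (fun x hx =>
    (((hasDerivAt_id' x).const_mul c).exp.mul (hd x hx)).neg.congr_deriv (by ring)) hg

theorem inv_M {F : ℝ → ℝ → ℝ} {L t s : ℝ}
    (h : ContinuousOn (uncurry F) {p | 0 ≤ p.1 ∧ p.1 ≤ p.2 ∧ p.2 ≤ L ∧ p.1 < L}) (h1 : t ≤ s)
    (h2 : s ≤ L) (h3 : t < L) : ContinuousOn (fun u => F u s) (Icc 0 t) :=
  h.comp (Continuous.prodMk_left s).continuousOn fun _ hu =>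
    ⟨hu.1, hu.2.trans h1, h2, hu.2.trans_lt h3⟩

theorem inv_P {F : ℝ → ℝ → ℝ} {L t s : ℝ}
    (h : ContinuousOn (uncurry F) {p | 0 ≤ p.2 ∧ p.2 ≤ p.1 ∧ p.1 < L}) (h1 : 0 ≤ s) (h3 : t < L) :
    ContinuousOn (fun u => F u s) (Icc s t) :=
  h.comp (Continuous.prodMk_left s).continuousOn fun _ hu => ⟨h1, hu.1, hu.2.trans_lt h3⟩

theorem D1_ftc (h : d.Reg) {t s : ℝ} (ht : t ∈ Ico 0 d.L) (hs : s ∈ Ioc 0 d.L) :
    Real.exp (d.c * t) * d.D1 t s =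
      (if s < t then Real.exp (d.c * s) * d.J s else 0) -
        ∫ τ in (0 : ℝ)..t, Real.exp (d.c * τ) * d.J τ * d.N τ s := by
  have M : ∀ u, 0 ≤ u → u ≤ s → u < d.L → _ := fun u h0 h1 h2 =>
    inv_exp (c := d.c) (g := fun τ => Real.exp (d.c * τ) * d.J τ * d.N τ s) h0
      (inv_M h.cM1 h1 hs.2 h2) (inv_M h.cM2 h1 hs.2 h2)
      (fun x hx => (h.dM x s hx.1.le (hx.2.trans_le h1) hs.2).2) fun x hx => by
        have := (h.J0 x ⟨hx.1.le, hx.2.trans h2⟩).ne'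
        rw [Dat.N, if_neg (hx.2.trans_le h1).not_gt]
        field_simp
  rw [Dat.D1]
  split_ifs with c
  · obtain ⟨m1, m2⟩ := M s hs.1.le le_rfl (c.trans ht.2)
    obtain ⟨p1, p2⟩ := inv_exp (c := d.c) (g := fun τ => Real.exp (d.c * τ) * d.J τ * d.N τ s) c.le
      (inv_P h.cP1 hs.1.le ht.2) (inv_P h.cP2 hs.1.le ht.2)
      (fun x hx => (h.dP s x hs.1.le hx.1 (hx.2.trans ht.2)).2) fun x hx => by
        have := (h.J0 x ⟨(hs.1.trans hx.1).le, hx.2.trans ht.2⟩).ne'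
        rw [Dat.N, if_pos hx.1]
        field_simp
    rw [← intervalIntegral.integral_add_adjacent_intervals m1 p1, m2, p2, h.zero s hs,
      ← h.jump s ⟨hs.1.le, c.trans ht.2⟩]
    ring
  · rw [(M t ht.1 (not_lt.1 c) ht.2).2, h.zero s hs]
    ring

theorem K_ftc (h : d.Reg) {t s : ℝ} (ht : t ∈ Ico 0 d.L) (hs : s ∈ Ioc 0 d.L) :
    d.K t s - d.K 0 s = ∫ τ in (0 : ℝ)..t, d.D1 τ s := by
  have k : Continuous fun u => d.K u s := h.cK.comp (Continuous.prodMk_left s)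
  have M : ∀ u, 0 ≤ u → u ≤ s → u < d.L → _ := fun u h0 h1 h2 =>
    inv_ftc (g := fun τ => d.D1 τ s) h0 k.continuousOn (inv_M h.cM1 h1 hs.2 h2)
      (fun x hx => (h.dM x s hx.1.le (hx.2.trans_le h1) hs.2).1)
      fun x hx => if_neg (hx.2.trans_le h1).not_gt
  rcases lt_or_ge s t with c | c
  · obtain ⟨m1, m2⟩ := M s hs.1.le le_rfl (c.trans ht.2)
    obtain ⟨p1, p2⟩ := inv_ftc (g := fun τ => d.D1 τ s) c.le k.continuousOn
      (inv_P h.cP1 hs.1.le ht.2) (fun x hx => (h.dP s x hs.1.le hx.1 (hx.2.trans ht.2)).1)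
      fun x hx => if_pos hx.1
    rw [← intervalIntegral.integral_add_adjacent_intervals m1 p1, m2, p2]
    ring
  · exact (M t ht.1 c ht.2).2.symm

end Pool.Agent.Lib.MP_efb7ef_gt.T
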