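import Pool.Agent.Lib.MP_efb7ef_gt.T.Num
import Pool.Agent.Lib.MP_efb7ef_gt.T.Conc3

/-! The formula for the magic number of an ellipse. -/

namespace Pool.Agent.Lib.MP_efb7ef_gt.T

theorem formula {a b : ℝ} (hb : 0 < b) (hab : b ≤ a) :
    ∃ M : ℝ, IsGLB (val (b ^ 2 / a ^ 2) '' adm (b ^ 2 / a ^ 2)) M ∧
      ∀ m : ℝ, IsMagic (ellipse a b) m ↔ m = a * M := by
  have ha : 0 < a := hb.trans_le hab
  refine formula_of hb hab (dat_hyp num (by positivity) ?_)
  rw [div_le_one (by positivity)]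
  exact pow_le_pow_left₀ hb.le hab 2

end Pool.Agent.Lib.MP_efb7ef_gt.T
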