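import Pool.Agent.Lib.MP_efb7ef_gt.T.Main

/-! The formula, with all positive end points allowed. -/

namespace Pool.Agent.Lib.MP_efb7ef_gt.T

open Set Function MeasureTheory

variable {d : Dat}

theorem gap_nu0 (h : d.Hyp) {α b : ℝ} {f : ℝ → ℝ} (a0 : 0 < α) (h3 : α < 3) (hL : α < d.L)
    (hf : d.Sol d.L α f) (hb : 0 ≤ b) (b3 : b < 3) (bL : b < d.L) :
    lam d.L α f (d.K b) ≤ lam d.L α f (d.K 0) := by
  have hK := inv_K h a0 h3.le hL (.inr rfl) hf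
  rcases le_or_gt b α with e | b1
  · exact (hK b ⟨hb, e⟩).le
  let V : ℝ → ℝ := fun u => d.M1 u d.L + ∫ s in (0 : ℝ)..α, d.P1 u s * f s
  have v0 : V α = 0 := by
    rw [← inv_D1 h a0 h3.le hL (.inr rfl) hf α ⟨a0.le, le_rfl⟩, lam, Dat.D1, if_neg hL.not_gt]
    refine congrArg _ (intervalIntegral.integral_congr_ae ?_)
    filter_upwards [(countable_singleton α).ae_notMem volume] with s h1 h2
    rw [uIoc_of_le a0.le] at h2
    rw [Dat.D1, if_pos (h2.2.lt_of_ne h1)]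
  have v1 : ContinuousOn V (Icc α b) :=
    (h.cM1.comp (f := fun u => (u, d.L)) (by fun_prop) fun u hu =>
      ⟨a0.le.trans hu.1, hu.2.trans bL.le, le_rfl, hu.2.trans_lt bL⟩).add
      ((gap_cont h.toReg a0.le hf.toDens).mono fun u hu => ⟨hu.1, hu.2.trans_lt bL⟩)
  have v2 : StrictAntiOn (fun u => Real.exp (d.c * u) * V u) (Icc α b) :=
    g2_anti (ContinuousOn.mul (by fun_prop) v1) fun u hu => by
      have hu' : u ∈ Ioo α d.L := ⟨hu.1, hu.2.trans bL⟩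
      refine ⟨((hasDerivAt_id' u).const_mul d.c).exp.mul
        ((h.dM u _ (a0.trans hu.1).le hu'.2 le_rfl).2.add
          (gap_deriv h.toReg a0.le hf.toDens hu').2), ?_⟩
      have k1 := g2_comb (r := 0) (l := d.c) (κ := 0) h.toReg a0.le hf.toDens hu' fun s hs => by
        simpa using h.nearP s u hs.1 (hs.2.trans hu.1.le) (hu.2.trans b3).le hu'.2
      have k2 := h.nearL u ⟨(a0.trans hu.1).le, hu'.2⟩
      have k3 := Real.exp_pos (d.c * u)
      nlinarith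
  have v3 : StrictAntiOn (fun u => lam d.L α f (d.K u)) (Icc α b) :=
    g2_anti (V := V) (lam_cont h.toReg _ a0.le hf.toDens).continuousOn fun u hu => by
      have hu' : u ∈ Ioo α d.L := ⟨hu.1, hu.2.trans bL⟩
      refine ⟨(h.dM u _ (a0.trans hu.1).le hu'.2 le_rfl).1.add
        (gap_deriv h.toReg a0.le hf.toDens hu').1, ?_⟩
      have := v2 ⟨le_rfl, b1.le⟩ ⟨hu.1.le, hu.2.le⟩ hu.1
      simp only [v0, mul_zero] at this
      exact neg_of_mul_neg_right this (Real.exp_pos _).le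
  have v4 := v3 ⟨le_rfl, b1.le⟩ ⟨b1.le, le_rfl⟩ b1
  simp only [hK α ⟨a0.le, le_rfl⟩] at v4
  exact v4.le

theorem low_all (h : d.Hyp) {m : ℝ} (hm : ∀ α, 1 / 2 ≤ α → d.Adm α → m ≤ d.phi α) {β : ℝ}
    (hβ : d.Adm β) : m ≤ d.phi β := by
  refine le_of_forall_pos_le_add fun ζ hζ => ?_
  obtain ⟨α, f, h1, h2, h3, h4, h5⟩ := g2_low h hζ hm
  obtain ⟨g, g1, g2⟩ := phi_eq h hβ
  have a0 := h2.pos.le
  have b0 := hβ.pos.le
  have L0 : 0 ≤ d.L := zero_le_one.trans h.L1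
  have e := lam_swap h.toReg α d.L a0 b0 h3.toDens g1.toDens
  have k := gap_mu h h1 h2.lt3.le h2.ltL h3 h4.le
  have k' : ∀ s ∈ Icc 0 α, lam d.L β g (d.K s) ≤ lam d.L β g (d.K 0) := fun s hs =>
    gap_nu0 h hβ.pos hβ.lt3 hβ.ltL g1 hs.1 (hs.2.trans_lt h2.lt3) (hs.2.trans_lt h2.ltL)
  have k1 := lam_mono (s₀ := d.L) b0 g1.toDens (continuous_const (y := lam α α f (d.K 0)))
    (lam_cont h.toReg α a0 h3.toDens) (k _ ⟨L0, le_rfl⟩)
    fun t ht => k t ⟨ht.1, ht.2.trans hβ.ltL.le⟩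
  have k2 := lam_mono (s₀ := α) a0 h3.toDens (lam_cont h.toReg d.L b0 g1.toDens)
    (continuous_const (y := lam d.L β g (d.K 0))) (k' _ ⟨a0, le_rfl⟩) k'
  rw [e, lam_const] at k1
  rw [lam_const, ← g2] at k2
  have k3 := one_pos.trans_le (one_le_lam d.L b0 g1.toDens)
  have k4 := one_pos.trans_le (one_le_lam α a0 h3.toDens)
  have k5 := mul_le_mul_of_nonneg_right h5 k3.le
  have k6 : (m - ζ) * (lam α α f (fun _ => 1) * lam d.L β g (fun _ => 1)) ≤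
      d.phi β * (lam α α f (fun _ => 1) * lam d.L β g (fun _ => 1)) := by linarith
  linarith [le_of_mul_le_mul_right k6 (mul_pos k4 k3)]

theorem formula2 {a b : ℝ} (hb : 0 < b) (hab : b ≤ a) {e : ℝ} (hE : e = b ^ 2 / a ^ 2) :
    ∃ M : ℝ, IsGLB (val e '' {α | 0 < α ∧ α < 3 ∧ α < a / b ∧
        (Summable fun k => ∫ s in (0 : ℝ)..α, ph e α k s) ∧
        Summable fun k => ∫ s in (0 : ℝ)..α, kk e 0 s * ph e α k s}) M ∧
      ∀ m : ℝ, IsMagic (ellipse a b) m ↔ m = a * M := by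
  have ha : 0 < a := hb.trans_le hab
  have he : 0 < e := by rw [hE]; positivity
  have he1 : e ≤ 1 := by
    rw [hE, div_le_one (by positivity)]
    exact pow_le_pow_left₀ hb.le hab 2
  have hL : 1 / √e = a / b := by
    rw [hE, ← div_pow, Real.sqrt_sq (by positivity), one_div_div]
  have h : (dat e).Hyp := dat_hyp num he he1
  obtain ⟨M, h1, h2⟩ := formula hb hab
  rw [← hE] at h1
  refine ⟨M, ⟨?_, fun x hx => h1.2 ?_⟩, h2⟩
  · rintro _ ⟨β, ⟨b0, b3, bL, b4, -⟩, rfl⟩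
    have hβ : β ∈ Ico 0 (dat e).L := ⟨b0.le, bL.trans_eq hL.symm⟩
    have := low_all h (m := 4 * M) (fun α a1 a2 => by
      have := h1.1 ⟨α, (adm_eq he he1 h).symm ▸ ⟨a1, a2⟩, rfl⟩
      rw [val_eq he he1 ⟨a2.pos.le, a2.ltL⟩] at this
      linarith) ⟨b0, b3, hβ.2, by simpa only [conc3_int he he1 hβ] using b4⟩
    rw [val_eq he he1 hβ]
    linarith
  · rintro _ ⟨β, ⟨b0, b3, bL, b4⟩, rfl⟩
    exact hx ⟨β, ⟨by linarith, b3, hL ▸ bL, b4⟩, rfl⟩

end Pool.Agent.Lib.MP_efb7ef_gt.T
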