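import Pool.Agent.Lib.MP_efb7ef_gt.T.Lam

/-! The iterates of the positive kernel. -/

namespace Pool.Agent.Lib.MP_efb7ef_gt.T

open Set Function MeasureTheory

variable {d : Dat}

theorem N_meas (h : d.Reg) : Measurable (uncurry d.N) :=
  (Measurable.ite (measurableSet_lt measurable_snd measurable_fst)
    (h.mP2.add (h.mP1.const_mul _)) (h.mM2.add (h.mM1.const_mul _))).neg.div
    (h.mJ.comp measurable_fst)

theorem N_bound (h : d.Hyp) {γ : ℝ} (h3 : γ ≤ 3) (hL : γ < d.L) : ∃ C δ : ℝ, 0 < δ ∧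
    ∀ t ∈ Icc 0 γ, (∀ s ∈ Icc 0 γ, 0 ≤ d.N t s ∧ d.N t s ≤ C) ∧ δ ≤ d.N t d.L ∧ d.N t d.L ≤ C := by
  have hI : ∀ t ∈ Icc 0 γ, t ∈ Ico 0 d.L := fun t ht => ⟨ht.1, ht.2.trans_lt hL⟩
  have cP : ContinuousOn (fun p : ℝ × ℝ => -(d.P2 p.1 p.2 + d.c * d.P1 p.1 p.2) / d.J p.1)
      ((Icc 0 γ ×ˢ Icc 0 γ) ∩ {p | p.2 ≤ p.1}) :=
    ((h.cP2.add (continuousOn_const.mul h.cP1)).neg.mono
      fun p hp => ⟨hp.1.2.1, hp.2, (hI _ hp.1.1).2⟩).div
      (h.cJ.comp continuousOn_fst fun p hp => hI _ hp.1.1) fun p hp => (h.J0 _ (hI _ hp.1.1)).ne'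
  have cM : ContinuousOn (fun p : ℝ × ℝ => -(d.M2 p.1 p.2 + d.c * d.M1 p.1 p.2) / d.J p.1)
      ((Icc 0 γ ×ˢ Icc 0 d.L) ∩ {p | p.1 ≤ p.2}) :=
    ((h.cM2.add (continuousOn_const.mul h.cM1)).neg.mono
      fun p hp => ⟨hp.1.1.1, hp.2, hp.1.2.2, (hI _ hp.1.1).2⟩).div
      (h.cJ.comp continuousOn_fst fun p hp => hI _ hp.1.1) fun p hp => (h.J0 _ (hI _ hp.1.1)).ne'
  obtain ⟨A, hA⟩ := ((isCompact_Icc.prod isCompact_Icc).inter_right
    (isClosed_le continuous_snd continuous_fst)).exists_bound_of_continuousOn cP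
  obtain ⟨B, hB⟩ := ((isCompact_Icc.prod isCompact_Icc).inter_right
    (isClosed_le continuous_fst continuous_snd)).exists_bound_of_continuousOn cM
  have hm : ∀ t ∈ Icc 0 γ, (t, d.L) ∈ (Icc 0 γ ×ˢ Icc 0 d.L) ∩ {p : ℝ × ℝ | p.1 ≤ p.2} :=
    fun t ht => ⟨⟨ht, zero_le_one.trans h.L1, le_rfl⟩, (hI t ht).2.le⟩
  obtain ⟨δ, δ0, hδ⟩ := isCompact_Icc.exists_forall_le' (a := 0)
    (cM.comp (continuousOn_id.prodMk continuousOn_const) hm)
    fun t ht => div_pos (neg_pos.2 (h.nearL t (hI t ht))) (h.J0 t (hI t ht))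
  refine ⟨max A B, δ, δ0, fun t ht => ⟨fun s hs => ?_, ?_⟩⟩
  · have j := (h.J0 t (hI t ht)).le
    unfold Dat.N
    split_ifs with e
    · exact ⟨div_nonneg (neg_pos.2 (h.nearP s t hs.1 e.le (ht.2.trans h3) (hI t ht).2)).le j,
        le_max_of_le_left ((le_abs_self _).trans (hA (t, s) ⟨⟨ht, hs⟩, e.le⟩))⟩
    · exact ⟨div_nonneg (neg_pos.2 (h.nearM t s ht.1 (not_lt.1 e) (hs.2.trans h3) (hI s hs).2)).le j,
        le_max_of_le_right ((le_abs_self _).trans
          (hB (t, s) ⟨⟨ht, hs.1, (hI s hs).2.le⟩, not_lt.1 e⟩))⟩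
  · rw [Dat.N, if_neg (hI t ht).2.not_gt]
    exact ⟨hδ t ht, le_max_of_le_right ((le_abs_self _).trans (hB _ (hm t ht)))⟩

theorem it_meas (h : d.Reg) {g : ℝ → ℝ} (hg : Measurable g) (α : ℝ) (k : ℕ) :
    Measurable (d.it g α k) := by
  induction k with
  | zero => exact hg
  | succ k ih =>
    have e : StronglyMeasurable (uncurry fun t s => d.N t s * d.it g α k s) :=
      ((N_meas h).mul (ih.comp measurable_snd)).stronglyMeasurable
    exact e.integral_prod_right.measurable.sub e.integral_prod_right.measurable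

/-- The iterates are bounded densities, also on a longer interval. -/
theorem it_dens (h : d.Hyp) {α γ : ℝ} (h0 : 0 ≤ α) (hγ : α ≤ γ) (h3 : γ ≤ 3) (hL : γ < d.L)
    {g : ℝ → ℝ} (hg : Dens γ g) (k : ℕ) : Dens γ (d.it g α k) := by
  refine ⟨it_meas h.toReg hg.meas α k, ?_⟩
  induction k with
  | zero => exact hg.bd
  | succ k ih =>
    obtain ⟨C, _, -, hC⟩ := N_bound h h3 hL
    obtain ⟨B, hB⟩ := ih
    have m : ∀ s ∈ Icc 0 α, s ∈ Icc 0 γ := fun s hs => ⟨hs.1, hs.2.trans hγ⟩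
    refine ⟨C * B * |α - 0|, fun t ht => ⟨intervalIntegral.integral_nonneg h0 fun s hs =>
      mul_nonneg ((hC t ht).1 s (m s hs)).1 (hB s (m s hs)).1, (le_abs_self _).trans
      (intervalIntegral.norm_integral_le_of_norm_le_const
        (f := fun s => d.N t s * d.it g α k s) fun s hs => ?_)⟩⟩
    rw [uIoc_of_le h0] at hs
    obtain ⟨a1, a2⟩ := (hC t ht).1 s (m s (Ioc_subset_Icc_self hs))
    obtain ⟨b1, b2⟩ := hB s (m s (Ioc_subset_Icc_self hs))
    rw [Real.norm_of_nonneg (mul_nonneg a1 b1)]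
    exact mul_le_mul a2 b2 b1 (a1.trans a2)

/-- A bounded supersolution forces convergence. -/
theorem it_super (h : d.Hyp) {α : ℝ} (h0 : 0 ≤ α) (h3 : α ≤ 3) (hL : α < d.L)
    {g F : ℝ → ℝ} (hg : Dens α g) (hF : Dens α F)
    (hs : ∀ t ∈ Icc 0 α, g t + ∫ s in (0 : ℝ)..α, d.N t s * F s ≤ F t) :
    Summable fun k => ∫ s in (0 : ℝ)..α, d.it g α k s := by
  obtain ⟨C, _, -, hC⟩ := N_bound h h3 hL
  have D := it_dens h h0 le_rfl h3 hL hg
  have i1 : ∀ {f : ℝ → ℝ}, Dens α f → IntervalIntegrable f volume 0 α := fun hf => by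
    simpa using hf.intc h0 (continuous_const (y := (1 : ℝ)))
  have i2 : ∀ t ∈ Icc 0 α, ∀ {f : ℝ → ℝ}, Dens α f →
      IntervalIntegrable (fun s => d.N t s * f s) volume 0 α := fun t ht f hf =>
    hf.int h0 (N_meas h.toReg).of_uncurry_left
      ⟨C, fun s m => (abs_of_nonneg ((hC t ht).1 s m).1).trans_le ((hC t ht).1 s m).2⟩
  have key : ∀ n, ∀ t ∈ Icc 0 α, ∑ k ∈ Finset.range n, d.it g α k t ≤ F t := fun n => by
    induction n with
    | zero => exact fun t ht => (hF.bd.choose_spec t ht).1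
    | succ n ih =>
      refine fun t ht => le_trans ?_ (hs t ht)
      rw [Finset.sum_range_succ', add_comm]
      refine add_le_add le_rfl ?_
      simp only [Dat.it]
      rw [← intervalIntegral.integral_finsetSum fun k _ => i2 t ht (D k)]
      refine intervalIntegral.integral_mono_on h0 ?_ (i2 t ht hF) fun s m => ?_
      · simpa only [Finset.sum_fn] using
          IntervalIntegrable.sum (Finset.range n) fun k _ => i2 t ht (D k)
      · rw [← Finset.mul_sum]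
        exact mul_le_mul_of_nonneg_left (ih s m) ((hC t ht).1 s m).1
  refine summable_of_sum_range_le (c := ∫ s in (0 : ℝ)..α, F s) (fun k =>
    intervalIntegral.integral_nonneg h0 fun s m => ((D k).bd.choose_spec s m).1) fun n => ?_
  rw [← intervalIntegral.integral_finsetSum fun k _ => i1 (D k)]
  refine intervalIntegral.integral_mono_on h0 ?_ (i1 hF) (key n)
  simpa only [Finset.sum_fn] using IntervalIntegrable.sum (Finset.range n) fun k _ => i1 (D k)

theorem adm_half (h : d.Hyp) : d.Adm (1 / 2) := by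
  have hL : 1 / 2 < d.L := one_half_lt_one.trans_le h.L1
  obtain ⟨C, δ, δ0, hC⟩ := N_bound h (by norm_num) hL
  have C0 : 0 ≤ C := by
    have := (hC 0 ⟨le_rfl, by norm_num⟩).2
    linarith
  refine ⟨one_half_pos, by norm_num, hL, it_super h one_half_pos.le (by norm_num) hL
    (F := fun _ => 20 * C)
    ⟨(N_meas h.toReg).of_uncurry_right, C, fun t ht => ⟨δ0.le.trans (hC t ht).2.1, (hC t ht).2.2⟩⟩
    ⟨measurable_const, _, fun _ _ => ⟨by positivity, le_rfl⟩⟩ fun t ht => ?_⟩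
  have := (le_abs_self _).trans (intervalIntegral.norm_integral_le_of_norm_le_const
    (f := fun s => d.N t s * (20 * C)) (a := 0) (b := 1 / 2) (C := 19 / 10 * (20 * C))
    fun s hs => by
      rw [uIoc_of_le one_half_pos.le] at hs
      have m := Ioc_subset_Icc_self hs
      rw [Real.norm_of_nonneg (mul_nonneg ((hC t ht).1 s m).1 (by positivity))]
      exact mul_le_mul_of_nonneg_right (h.row t ht s m) (by positivity))
  rw [sub_zero, abs_of_pos one_half_pos] at this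
  linarith [(hC t ht).2.2]

end Pool.Agent.Lib.MP_efb7ef_gt.T
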