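import Pool.Agent.Lib.MP_efb7ef_gt.T.Neu

/-! The Neumann series of the positive kernel. -/

namespace Pool.Agent.Lib.MP_efb7ef_gt.T

open Set Function MeasureTheory

variable {d : Dat}

theorem N_row (h : d.Reg) (t : ℝ) : Measurable (d.N t) :=
  (N_meas h).comp (measurable_const.prodMk measurable_id)

theorem N_col (h : d.Reg) (s : ℝ) : Measurable fun t => d.N t s :=
  (N_meas h).comp (measurable_id.prodMk measurable_const)

theorem Dens.int1 {α : ℝ} {f : ℝ → ℝ} (h0 : 0 ≤ α) (hf : Dens α f) :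
    IntervalIntegrable f volume 0 α := by
  simpa using hf.intc h0 (ψ := fun _ => 1) continuous_const

/-- A bounded kernel row against a density. -/
theorem row_le {α C : ℝ} {f ψ : ℝ → ℝ} (h0 : 0 ≤ α) (hf : Dens α f) (hψ : Measurable ψ)
    (hb : ∀ s ∈ Icc 0 α, 0 ≤ ψ s ∧ ψ s ≤ C) :
    0 ≤ ∫ s in (0 : ℝ)..α, ψ s * f s ∧
      ∫ s in (0 : ℝ)..α, ψ s * f s ≤ C * ∫ s in (0 : ℝ)..α, f s := by
  obtain ⟨D, hD⟩ := hf.bd
  refine ⟨intervalIntegral.integral_nonneg h0 fun s hs => mul_nonneg (hb s hs).1 (hD s hs).1, ?_⟩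
  rw [← intervalIntegral.integral_const_mul]
  exact intervalIntegral.integral_mono_on h0
    (hf.int h0 hψ ⟨C, fun s hs => by rw [abs_of_nonneg (hb s hs).1]; exact (hb s hs).2⟩)
    ((hf.int1 h0).const_mul C) fun s hs => mul_le_mul_of_nonneg_right (hb s hs).2 (hD s hs).1

/-- The sum of a convergent Neumann series. -/
theorem it_sum (h : d.Hyp) {α : ℝ} (h0 : 0 ≤ α) (h3 : α ≤ 3) (hL : α < d.L)
    {g : ℝ → ℝ} (hg : Dens α g) (hs : Summable fun k => ∫ s in (0 : ℝ)..α, d.it g α k s) :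
    ∃ f, Dens α f ∧ (∀ t ∈ Icc 0 α, f t = g t + ∫ s in (0 : ℝ)..α, d.N t s * f s) ∧
      ∀ ψ : ℝ → ℝ, Measurable ψ → (∃ C, ∀ s ∈ Icc 0 α, |ψ s| ≤ C) →
        HasSum (fun k => ∫ s in (0 : ℝ)..α, ψ s * d.it g α k s) (∫ s in (0 : ℝ)..α, ψ s * f s) := by
  obtain ⟨C, δ, -, hC⟩ := N_bound h h3 hL
  obtain ⟨D, hD⟩ := hg.bd
  have hd := it_dens h h0 le_rfl h3 hL hg
  obtain ⟨b, b1, b2⟩ : ∃ b : ℕ → ℝ, Summable b ∧
      ∀ k, ∀ t ∈ Icc 0 α, 0 ≤ d.it g α k t ∧ d.it g α k t ≤ b k := by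
    refine ⟨fun k => Nat.casesOn k D fun j => C * ∫ s in (0 : ℝ)..α, d.it g α j s,
      (summable_nat_add_iff 1).1 (hs.mul_left C), fun k t ht => ?_⟩
    cases k with
    | zero => exact hD t ht
    | succ j => exact row_le h0 (hd j) (N_row h.toReg t) (hC t ht).1
  have sm : ∀ t ∈ Icc 0 α, Summable fun k => d.it g α k t := fun t ht =>
    b1.of_nonneg_of_le (fun k => (b2 k t ht).1) fun k => (b2 k t ht).2
  have key : ∀ ψ : ℝ → ℝ, Measurable ψ → (∃ C, ∀ s ∈ Icc 0 α, |ψ s| ≤ C) →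
      HasSum (fun k => ∫ s in (0 : ℝ)..α, ψ s * d.it g α k s)
        (∫ s in (0 : ℝ)..α, ψ s * ∑' k, d.it g α k s) := by
    rintro ψ m ⟨E, hE⟩
    have u : ∀ t ∈ uIoc 0 α, t ∈ Icc 0 α := fun t ht => by
      rw [uIoc_of_le h0] at ht
      exact Ioc_subset_Icc_self ht
    refine intervalIntegral.hasSum_integral_of_dominated_convergence (fun k _ => E * b k)
      (fun k => (m.mul (hd k).meas).aestronglyMeasurable)
      (fun k => .of_forall fun t ht => ?_) (.of_forall fun t _ => b1.mul_left E)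
      intervalIntegrable_const (.of_forall fun t ht => (sm t (u t ht)).hasSum.mul_left _)
    have h1 := b2 k t (u t ht)
    rw [Real.norm_eq_abs, abs_mul, abs_of_nonneg h1.1]
    exact mul_le_mul (hE t (u t ht)) h1.2 h1.1 ((abs_nonneg _).trans (hE t (u t ht)))
  refine ⟨fun t => ∑' k, d.it g α k t, ⟨Measurable.tsum fun k => (hd k).meas, ∑' k, b k,
    fun t ht => ⟨tsum_nonneg fun k => (b2 k t ht).1,
      (sm t ht).tsum_le_tsum (fun k => (b2 k t ht).2) b1⟩⟩, fun t ht => ?_, key⟩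
  have h1 := key (d.N t) (N_row h.toReg t)
    ⟨C, fun s hs => by rw [abs_of_nonneg ((hC t ht).1 s hs).1]; exact ((hC t ht).1 s hs).2⟩
  rw [← h1.tsum_eq]
  exact (sm t ht).tsum_eq_zero_add

theorem dens_L (h : d.Hyp) {γ : ℝ} (h3 : γ ≤ 3) (hL : γ < d.L) : Dens γ fun t => d.N t d.L := by
  obtain ⟨C, δ, h1, hC⟩ := N_bound h h3 hL
  exact ⟨N_col h.toReg _, C, fun t ht => ⟨h1.le.trans (hC t ht).2.1, (hC t ht).2.2⟩⟩

theorem sol_nu (h : d.Hyp) {α : ℝ} (hα : d.Adm α) : ∃ f, d.Sol d.L α f ∧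
    ∀ ψ : ℝ → ℝ, Continuous ψ →
      HasSum (fun k => ∫ s in (0 : ℝ)..α, ψ s * d.it (fun t => d.N t d.L) α k s)
        (∫ s in (0 : ℝ)..α, ψ s * f s) := by
  obtain ⟨f, f1, f2, f3⟩ := it_sum h hα.pos.le hα.lt3.le hα.ltL (dens_L h hα.lt3.le hα.ltL) hα.sum
  exact ⟨f, ⟨f1, f2⟩, fun ψ c => f3 ψ c.measurable
    (isCompact_Icc.exists_bound_of_continuousOn c.continuousOn)⟩

theorem sol_mu (h : d.Hyp) {α : ℝ} (hα : d.Adm α) : ∃ f, d.Sol α α f := by
  obtain ⟨f, hf, -⟩ := sol_nu h hα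
  obtain ⟨C, δ, h1, hC⟩ := N_bound h hα.lt3.le hα.ltL
  obtain ⟨D, hD⟩ := hf.bd
  have h0 := hα.pos.le
  have hm : α ∈ Icc 0 α := right_mem_Icc.2 h0
  have c0 : 0 ≤ C / δ := div_nonneg (((hC α hm).1 α hm).1.trans ((hC α hm).1 α hm).2) h1.le
  have hg : Dens α fun t => d.N t α := ⟨N_col h.toReg _, C, fun t ht => (hC t ht).1 α hm⟩
  have hF : Dens α fun t => C / δ * f t := ⟨hf.meas.const_mul _, C / δ * D, fun t ht =>
    ⟨mul_nonneg c0 (hD t ht).1, mul_le_mul_of_nonneg_left (hD t ht).2 c0⟩⟩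
  obtain ⟨u, u1, u2, -⟩ := it_sum h h0 hα.lt3.le hα.ltL hg
    (it_super h h0 hα.lt3.le hα.ltL hg hF fun t ht => by
      have e := hf.eq t ht
      have e2 := mul_le_mul_of_nonneg_left (hC t ht).2.1 c0
      rw [div_mul_cancel₀ _ h1.ne'] at e2
      simp only [mul_left_comm (d.N t _), intervalIntegral.integral_const_mul]
      rw [e, lam, mul_add]
      linarith [((hC t ht).1 α hm).2])
  exact ⟨u, u1, u2⟩

theorem adm_step (h : d.Hyp) {γ : ℝ} (h3 : γ < 3) (hL : γ < d.L) (B : ℝ) : ∃ ζ > 0,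
    ∀ α α' f, 0 < α → d.Sol d.L α f → lam d.L α f (fun _ => 1) ≤ B → α ≤ α' → α' ≤ γ →
      α' ≤ α + ζ → d.Adm α' := by
  obtain ⟨C, δ, h1, hC⟩ := N_bound h h3.le hL
  refine ⟨δ / (2 * |C * (C * B)| + 1), by positivity, fun α α' f h0 hf hB a1 a2 a3 => ?_⟩
  have p' : 0 < α' := h0.trans_le a1
  have l3 : α' < 3 := a2.trans_lt h3
  have lL : α' < d.L := a2.trans_lt hL
  have s1 : Icc 0 α' ⊆ Icc 0 γ := Icc_subset_Icc_right a2
  have s2 : Icc 0 α ⊆ Icc 0 α' := Icc_subset_Icc_right a1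
  have C0 : 0 ≤ C := h1.le.trans ((hC 0 (s1 (left_mem_Icc.2 p'.le))).2.1.trans
    (hC 0 (s1 (left_mem_Icc.2 p'.le))).2.2)
  simp only [lam, one_mul] at hB
  obtain ⟨G, hG⟩ : ∃ G : ℝ → ℝ, G = fun t => d.N t d.L + ∫ s in (0 : ℝ)..α, d.N t s * f s :=
    ⟨_, rfl⟩
  have g1 : Measurable G := hG ▸ (N_col h.toReg _).add (it_meas h.toReg hf.meas α 1)
  have g2 : ∀ t ∈ Icc 0 α', 0 ≤ G t ∧ G t ≤ C * B := fun t ht => by
    obtain ⟨r1, r2⟩ := row_le h0.le hf.toDens (N_row h.toReg t)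
      fun s hs => (hC t (s1 ht)).1 s (s1 (s2 hs))
    obtain ⟨-, r3, r4⟩ := hC t (s1 ht)
    rw [hG]
    exact ⟨by linarith, by linarith [mul_le_mul_of_nonneg_left hB C0]⟩
  have g3 : Dens α' G := ⟨g1, _, g2⟩
  refine ⟨p', l3, lL, it_super h p'.le l3.le lL (dens_L h l3.le lL) (F := fun t => 2 * G t)
    ⟨g1.const_mul 2, 2 * (C * B), fun t ht => ⟨by linarith [g2 t ht], by linarith [g2 t ht]⟩⟩
    fun t ht => ?_⟩
  have r := (hC t (s1 ht)).1
  have i1 : IntervalIntegrable (fun s => d.N t s * G s) volume 0 α' := g3.int p'.le (N_row h.toReg t)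
    ⟨C, fun s hs => by rw [abs_of_nonneg (r s (s1 hs)).1]; exact (r s (s1 hs)).2⟩
  have i2 : IntervalIntegrable (fun s => d.N t s * G s) volume 0 α :=
    i1.mono_set (by rw [uIcc_of_le h0.le, uIcc_of_le p'.le]; exact s2)
  have i3 : IntervalIntegrable (fun s => d.N t s * G s) volume α α' := i2.symm.trans i1
  have e1 : ∫ s in (0 : ℝ)..α, d.N t s * G s = ∫ s in (0 : ℝ)..α, d.N t s * f s :=
    intervalIntegral.integral_congr fun s hs => by
      rw [uIcc_of_le h0.le] at hs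
      simp only [hG, hf.eq s hs, lam]
  have e2 : ∫ s in α..α', d.N t s * G s ≤ ∫ _ in α..α', |C * (C * B)| :=
    intervalIntegral.integral_mono_on a1 i3 intervalIntegrable_const fun s hs => by
      have hs' : s ∈ Icc 0 α' := ⟨h0.le.trans hs.1, hs.2⟩
      exact (mul_le_mul (r s (s1 hs')).2 (g2 s hs').2 (g2 s hs').1 C0).trans (le_abs_self _)
  rw [intervalIntegral.integral_const, smul_eq_mul] at e2
  have e3 : (α' - α) * (2 * |C * (C * B)| + 1) ≤ δ :=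
    (le_div_iff₀ (by positivity)).1 (by linarith)
  have e4 : G t = d.N t d.L + ∫ s in (0 : ℝ)..α, d.N t s * f s := by rw [hG]
  simp only [mul_left_comm (d.N t _), intervalIntegral.integral_const_mul]
  rw [← intervalIntegral.integral_add_adjacent_intervals i2 i3, e1, e4]
  linarith [(hC t (s1 ht)).2.1]

end Pool.Agent.Lib.MP_efb7ef_gt.T
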