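import Pool.Agent.Lib.MP_efb7ef_gt.T.ChkDef

/-! Runs of the tests (machine generated). -/

set_option maxRecDepth 100000

namespace Pool.Agent.Lib.MP_efb7ef_gt.T

open Tr

theorem k1 : go fNearP gP (c (c (b (c (a (b (c o o) (c o o)) (b (c o o) (c o o))) (a (b (c o o) (c
    (a o o) (a o o))) (b (c o o) (c o o)))) (a (c (b (c (a o o) (a o o)) (c (a o o) (a o o))) (b
    (c (a o o) (a o o)) (a (c o o) (c o o)))) (c (b (c (a o o) (a o o)) (c (a o o) (a o o))) (b (c
    (a o o) (a o o)) (c (a o o) (a o o)))))) (a (b (c (b (c o o) (a (c o o) (c o o))) (b (a o o)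
    (a (c o o) (c o o)))) (c (b (a (c o o) (c o o)) (a (c o o) (c o o))) (a (b (c o o) (c o o)) (b
    (c o o) (c o o))))) (b (c (b (c o o) (c o o)) (a (b o o) (b o o))) (c (a (b (c o o) (c o o))
    (b (c o o) (c o o))) (a (b (c o o) (c o o)) (b (c o o) (c o o))))))) (a (c (b (c (a (b o o) (b
    o o)) (a (b o o) (b o o))) (c (a (b (c o o) (c o o)) (b (c o o) (c o o))) (a (b (c o o) (c o
    o)) (b (c o o) (c o o))))) (b (c (b p (c (b p o) p)) p) (a (c (b (a o o) (a o o)) (b (c o p)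
    (a o o))) (c (b (c o o) (c o o)) (b (c o p) (a o o)))))) (c (b (c (a (b o (c o o)) (b o (c o
    o))) (a (b o (c o o)) (b o (c o o)))) (c (a (b (c o o) (c o o)) (b (c o o) (c o o))) (a (b (c
    o o) (c o o)) (b (c o o) (c o o))))) (a (b (c (b p (c o p)) p) (c (b (c o o) (c o (a o o))) (b
    (c o p) (a (c o o) (c o o))))) (b (c (b p (c o p)) p) (c (b (c o o) (c (a o o) (a o o))) (b (c
    (c o p) p) (a (c o o) (c o (b o o)))))))))) ⟨0, 1073741824, 4294967296, 8589934592, 0,
    8589934592⟩ = true := by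
  decide +kernel

theorem k86 : go (fFarA 3782213632 79888384) gA (a (c (a (c (b (c o o) (c (b o o) (a o o))) (b (a
    o o) (a (c o o) (c o o)))) (c (b (c o o) (c (a o o) (a o o))) (b (a o o) (a (c o o) (c o
    o))))) (a (c (b o (a o o)) (b o (a o o))) (c (b (a o o) (a o (c o o))) (b o (a o o))))) (c (a
    (c (b (c o o) (c (a o o) (a o o))) (b (a o o) (a (c o o) (c o o)))) (c (b (c o o) (c (a o o)
    (a o o))) (b (a o o) (a (c o o) (c o o))))) (a (c (b (a o o) (a (c o o) (c o o))) (b (a o o)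
    (a (c o o) (c o o)))) (c (b (a o o) (a (c o o) (c o o))) (b (a o o) (a (c o o) (c o o)))))))
    ⟨0, 268435456, 13958643712, 15300820992, 8589934592, 10737418240⟩ = true := by
  decide +kernel

theorem k4 : go fNearP gP (c (b (c (b (c (a o o) (a o o)) (a (c (b o o) (b o o)) (c (b o o) (b o
    o)))) (b (a (c (b o o) (b o o)) (c o o)) (a (c (b o o) (b o o)) (c (b o o) (b o o))))) (c (a
    (b (c (b o o) (b o o)) (c (a (b o o) (b o o)) (a (b o o) (b o o)))) (b (c (a o o) (a o o)) (c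
    (a o o) (a (b o o) o)))) (a (b (c (b o o) (a o o)) (c (a (b o o) (b o o)) (a (b o o) (b o
    o)))) (b (c (a o o) (a o o)) (c (a o o) (a o o)))))) (b (c (a (b (c (b o o) (b o o)) (c (b o
    o) (b o o))) (b (c o o) (c (a o o) (a o o)))) (a (b (c (b o o) (a o o)) (c (a o o) (a o o)))
    (b (c (a o o) (a o o)) (c (a o o) (a o o))))) (c (a (b (c (a o o) (a o o)) (c (a (b o o) (b o
    o)) (a (b o o) (b o o)))) (b (c (a o o) (a o o)) (c (a o o) (a (b o o) o)))) (a (b (c (a (b o
    o) o) (a (b o o) (b o o))) (c (a (b o o) (b o o)) (a (b o o) (b o o)))) (b (c (a o o) (a o o))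
    (c (a (b o o) (b o o)) (a (b o o) (b o o)))))))) ⟨0, 536870912, 8589934592, 12884901888, 0,
    4294967296⟩ = true := by
  decide +kernel

theorem k18 : go fNearP gP (b (c (a (b (c (c (c (b (c (b o o) (a o o)) (a (c o o) (c o o))) (b (a
    (c o o) (c o o)) (a (c o o) (c o o)))) (a (c (b (b p (c o p)) (c (a o o) (a o o))) (b p (a (c
    o o) (c o o)))) (c (b (c o p) (c o (a o o))) (b p (a (c o o) (c o o)))))) (a (c (c (b p (c (b
    p (c o p)) p)) p) p) (c (c (b p (c (b p (c o p)) p)) p) p))) (c (c (b (c (a (c (a o o) o) (c o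
    o)) (a (c o (a o o)) (c o o))) p) (b (a (c (c (a o o) (a o o)) (a (c o o) (c o o))) (c (a (c o
    o) (b o p)) (a (c o o) (b o p)))) p)) (a (b (c (c (a (c (b o o) (b o o)) (c (b o o) (b o o)))
    (a (b (c o p) (c o o)) (c (b o o) (b p o)))) (c (c (b p (c (b p (b p p)) p)) p) p)) p) (b (c
    (c (a (c (b o o) (b o o)) (b (c o o) p)) (a (c (b o o) (b p (a o p))) (b (c o p) p))) (c (c (b
    p (b p p)) p) p)) p)))) (b (c (c (c (b (c (b o o) (a o o)) (a (c o o) (c o o))) (b (a (c o o)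
    (c o o)) (a (c o o) (c o o)))) (c (b (c (b p o) p) (a (c o o) (a o o))) (b p (a (a (c o o) (c
    o o)) (a (c o o) (c o o)))))) (c (c (b p (c (a (b p (c o p)) (b p o)) p)) p) p)) (c (c (b (c
    (b (a o o) p) (b (a o o) p)) p) (a (b (c (b (c o o) p) (b (a o o) p)) p) (b (c (b (b o p) p)
    (b (b (c o o) p) p)) p))) (a (c (b (b (c (a (c o o) (b o p)) (c (c (b p o) p) p)) p) p) (b (b
    p p) p)) (c (b (c (b (b (a o o) p) p) (b (b p p) p)) p) (b (b p p) p)))))) (a (b p (b p p)) (b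
    p (b p p)))) p) ⟨2147483648, 4294967296, 0, 17179869184, 0, 17179869184⟩ = true := by
  decide +kernel

theorem k36 : go fStop gS (a (b (a (b o o) (b (a o o) (a o o))) (a (b (a o o) (a o o)) (b (a o o)
    (a o o)))) (b (a (b (a o o) (a o o)) (b (a (a o o) (b o o)) (a (a o o) (b o o)))) (a (b (a o
    (a o o)) (a (a o o) (a o o))) (b (a (a o o) (b o o)) (a (b o o) (b o o)))))) ⟨1073741824,
    1431655766, 2147483648, 2684354560, 0, 0⟩ = true := by
  decide +kernel

theorem k19 : go fNearM gM (b (c (c (b (c (b o o) (b o o)) (b (c p (c p o)) p)) (b (c (a (b o o)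
    (b o o)) (a (b o o) (b o o))) (a (c (b o o) (b o o)) (c (b o o) (b o o))))) (a (c (b (c (b o
    o) (b (a o o) o)) (c (b o o) (b o o))) (b (c (b (a o o) o) (b (a o o) (a o o))) (c (b o o) (b
    o o)))) (c (b (c (b o o) (b (a o o) o)) (c (b o o) (b o o))) (b (c (b (a o o) (a o o)) (b (a o
    o) (a o o))) (c (b o o) (b (a o o) (a o o))))))) (c (c p (b (c p (b (c p (b o p)) p)) p)) (a
    (c (b (c (b o o) (a o o)) (c p (b o p))) (b (a (c o o) (c o o)) (a (c o o) (c o o)))) (c (b (c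
    (b o o) (b o o)) (c p (b (c p o) p))) (b (a (c (b o o) (b o o)) (c (b o o) (b o o))) (a (c (b
    o o) (b o o)) (c (b o o) (b (a o o) (a o o))))))))) ⟨0, 1073741824, 0, 8589934592, 0,
    8589934592⟩ = true := by
  decide +kernel

theorem k67 : go fStop gS (b (a (b (a (a o o) (b o o)) (a (a o o) (a o o))) (b (a (b o o) (b (a o
    o) (a o o))) (a (a o o) (b o o)))) (a (b (a o o) (a o o)) (b (a (a o o) (a o o)) (a o o))))
    ⟨1252698795, 1342177280, 9663676416, 10200547328, 0, 0⟩ = true := by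
  decide +kernel

theorem k58 : go fStop gS (b (a (a (b (a o o) o) (b (a o o) o)) (a (b (a o (a o o)) (a o o)) (b (b
    (a o o) o) (a o o)))) (b (a (a o o) (a o o)) o)) ⟨0, 715827883, 10737418240, 12884901888, 0,
    0⟩ = true := by
  decide +kernel

theorem k71 : go fStop gS (b (b (a o (a o (a o o))) p) p) ⟨715827883, 1431655766, 12884901888,
    17179869184, 0, 0⟩ = true := by
  decide +kernel

end Pool.Agent.Lib.MP_efb7ef_gt.T
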