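import Pool.Agent.Lib.MP_efb7ef_gt.T.ChkDef

/-! Runs of the tests (machine generated). -/

set_option maxRecDepth 100000

namespace Pool.Agent.Lib.MP_efb7ef_gt.T

open Tr

theorem k127 : go (fFarB 30064771072 62352850944) gB (c (c (a (c (c (a (c (b o o) (b o o)) (a (b p
    o) p)) (a (c (b o o) (b o o)) (a (b p (a o p)) p))) (a (c (a (b o o) (b (a o p) (c o o))) (a
    (b (c o o) (c o o)) (b (a o p) (c o o)))) (a (b p (a (c o o) p)) p))) p) (a (c (a (c (a (b (c
    o o) (c o o)) (b (a (b p o) p) (c o o))) (a (b (c o o) (c o o)) (b (a (b p o) p) (c o (a o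
    o))))) (a (a (b p (c (b p o) (b p o))) p) p)) (a (c (a (b (c (a o o) (a o o)) (c o (a o o)))
    (b (a (b p (a o p)) p) (c (a o o) (a o o)))) (a (b (c (a o o) (a o o)) (c (a o o) (a o o))) (b
    (a (b p (a o p)) p) (c (a o (b o o)) (a o (b o o)))))) (a (a (b p (c (b p (a o p)) (a (b p (b
    p o)) p))) p) p))) p)) (c (a (c (a (c (c (c (a (c (b (c o p) o) p) (c (c (b (a o p) (a o o))
    p) p)) p) p) p) (b p (c (a (c (a (c (b p o) p) p) p) p) p))) p) p) p)) ⟨268435456, 536870912,
    1073741824, 1207959552, 8589934592, 17179869184⟩ = true := by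
  decide +kernel

theorem k65 : go fStop gS (b (a (b (a (b o o) (b o o)) (a (b (a o o) (a o o)) (b (a o o) (a o
    o)))) (b (a (b o o) (b o o)) (a (b (a o o) (a o o)) (b (a o o) (a o o))))) (a (b (a (b (a o o)
    (a o o)) (b (a o o) (a o o))) (a (b (a o o) (a o o)) (b (a o o) (a o o)))) (b (a (b (a o o) (a
    o o)) (b (a o o) (a o o))) (a (b (a o (a o o)) (a (a o o) (a o o))) (b (a (a o o) (a o o)) (a
    (a o o) (a o o))))))) ⟨1342177280, 1431655766, 9126805504, 9663676416, 0, 0⟩ = true := by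
  decide +kernel

theorem k101 : go (fFarB 25769803776 45166034944) gB (c (c (b (a (c (b o o) (b o o)) (c (b o o) (b
    o o))) (a (c (b (a o o) (a o o)) (b o o)) (c (b o o) (b o o)))) (b (a (b (c o o) (c o o)) (b
    (c o o) (c o o))) (a (c (b o o) (b o o)) (c (b o o) (b o o))))) (b (c (a (b (c o o) (c o o))
    (b (c o o) (c o o))) (a (b (c o o) (c o o)) (b (c o o) (c o o)))) (c (a (b (c o o) (c o o)) (b
    (c o o) (c o o))) (a (b (c o o) (c o o)) (b (c o o) (c o o)))))) ⟨0, 134217728, 805306368,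
    1073741824, 6442450944, 8589934592⟩ = true := by
  decide +kernel

theorem k27 : go fStop gS (b (a (b (a o (a o o)) (a (a o o) (a o o))) (b (a (a o o) (a o o)) (a (a
    o o) (a o o)))) (a (b (a (b o (a o o)) (b o (a o o))) (a (b (a o o) (a o o)) (b (a o o) (a o
    o)))) (b (a (b (a o o) (a o o)) (b (a o o) (a o o))) (a (b (a o o) (a o o)) (b (a o o) (a o
    o)))))) ⟨0, 715827883, 0, 1073741824, 0, 0⟩ = true := by
  decide +kernel

theorem k43 : go fStop gS (a (b (a (b o o) (b (a o o) (a o o))) (a (b (a o o) (a o o)) (b (a o o)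
    (a o o)))) (b (a (b (a o o) (a o (a o o))) (b (a (a o o) (a o o)) (a (a o o) (a o o)))) (a (b
    (a (a o o) (a o o)) (a (a o o) (b o o))) (b (a (b o o) (b o o)) (a (b o o) (b o (a o o)))))))
    ⟨1073741824, 1431655766, 4294967296, 4831838208, 0, 0⟩ = true := by
  decide +kernel

theorem k99 : go (fFarB 25769803776 45166034944) gB (b (c (a (b (c o o) (c o (a o o))) (b o o)) (a
    (b (c o o) (c o o)) (b o o))) (c (a (b (c (a o o) (a o o)) (c (a (b o (c o o)) o) (a (b o (c o
    o)) o))) (b (c o o) (c o o))) (a (b (c (a o o) (a o o)) (c (a (b o o) o) (a (b o o) o))) (b (c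
    o o) (c o o))))) ⟨0, 134217728, 805306368, 1073741824, 4831838208, 5368709120⟩ = true := by
  decide +kernel

theorem k83 : go (fFarA 3782213632 79888384) gA (c (c (a (b (c (a o o) (a o o)) (c (a o o) (a o
    o))) (b (a o p) p)) (a (b (c (a o o) (a o o)) (c (a o o) (a o o))) (b (a (b o p) p) p))) (a (c
    (b (c (a o o) (a o o)) (a (c o o) (c o o))) (b (a (c o o) (c o o)) (a (c (b o o) (b o o)) (c o
    o)))) (a (b (a (b (c o o) p) p) p) p))) ⟨268435456, 536870912, 13958643712, 15300820992,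
    4294967296, 6442450944⟩ = true := by
  decide +kernel

theorem k41 : go fStop gS (b (a (b (a o (a o o)) (a o (a o o))) (b (a (b o o) (b o o)) (a (b o o)
    (b o o)))) (a (b (a o o) (a o o)) (b (a (a o o) (b o o)) (a o (a o o))))) ⟨0, 715827883,
    4294967296, 6442450944, 0, 0⟩ = true := by
  decide +kernel

theorem k10 : go fNearP gP p ⟨1073741824, 2147483648, 8589934592, 17179869184, 0, 8589934592⟩ =
    true := by
  decide +kernel

theorem k105 : go (fFarB 34359738368 73898459136) gB p ⟨134217728, 268435456, 0, 536870912, 0,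
    8589934592⟩ = true := by
  decide +kernel

end Pool.Agent.Lib.MP_efb7ef_gt.T
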