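import Pool.Agent.Lib.MP_efb7ef_gt.T.ChkDef

/-! Runs of the tests (machine generated). -/

set_option maxRecDepth 100000

namespace Pool.Agent.Lib.MP_efb7ef_gt.T

open Tr

theorem k57 : go fStop gS (a (b (b (a (a o o) (b o o)) (a (b o (a o o)) (b (a o o) (a o o)))) (a
    (b (b (a o o) (a o o)) (a (b o o) (b o o))) (b (a (b o o) (b o o)) (a (b o o) (b o o))))) (b
    (b (a (b o (a o o)) (b (a o o) (a o o))) (a (b (a o o) (a o o)) (b (a o (a o o)) (a (a o o) (a
    o o))))) (a (b (a (b o o) (b o o)) (a (b o o) (b o o))) (b (a (b (a o o) (a o o)) (b (a o o)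
    (a o o))) (a (b o o) (b o o)))))) ⟨0, 715827883, 8589934592, 10737418240, 0, 0⟩ = true := by
  decide +kernel

theorem k30 : go fStop gS (b (a (b (b (a o o) (a o o)) (b (a o o) (a o o))) (b (a (b o o) (b (a o
    (a o o)) (a o (b o o)))) (a (b (a o o) (a o o)) (b (a o (b o o)) (a o (b o o)))))) (a (b (a (b
    o o) (b o o)) (a (b o o) (b o (a o o)))) (b (a (b (a o o) (a o o)) (b (a (a o o) (b o o)) (a
    (a o o) (b o (a o o))))) (a (b (a o o) (a o o)) (b (a (a o o) (b (a o o) (a o o))) (a (a o o)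
    (b (a o o) (a o o)))))))) ⟨1073741824, 1431655766, 0, 1073741824, 0, 0⟩ = true := by
  decide +kernel

theorem k46 : go fStop gS (a (b (a (b o o) (b (a o o) (a o o))) (a (b o o) (b (a o o) (a o o))))
    (b (a (b (a (a o o) (b o o)) (a (a o o) (b o o))) (b (a (b (a o o) (a o o)) (b (a o o) (a o
    o))) (a (b (a o o) (a o o)) (b (a o o) (a o o))))) (a (b (a (a o o) (a o o)) (a o (a o o))) (b
    (a (b (a o o) (a o o)) (b (a o o) (a o o))) (a (b (a o o) o) (b (a o o) (a o o)))))))
    ⟨1073741824, 1431655766, 5368709120, 5905580032, 0, 0⟩ = true := by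
  decide +kernel

theorem k109 : go (fFarB 34359738368 73898459136) gB (b (b p (a (b p (a (c (c o o) (c o o)) p))
    p)) (c (c (b (a (c (b o o) (b o o)) (b p (a o p))) (a (c (b o (a o o)) (b o o)) (c (b o o) (b
    o o)))) (b (a (b (c o o) (c o o)) (b p (a o p))) (a (c (b o o) (b o o)) (c (b o o) (b o o)))))
    (b (c (a (b o (c o o)) (b p (a o p))) (a (b o (c o o)) (b p (a o p)))) (c (a (c (b o o) (b o
    o)) (c (b o o) o)) (a (b (c o o) (c o o)) (b (c o o) (c o o))))))) ⟨134217728, 268435456,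
    536870912, 1073741824, 6442450944, 8589934592⟩ = true := by
  decide +kernel

theorem k32 : go fStop gS (a (b (a (b o o) (b (a o o) (a o o))) (a (b o o) (b (a o o) (a o o))))
    (b (a (b (a o o) (a o o)) (b (a (a o o) (b (a o o) (a o o))) (a (a o o) (b (a o o) (a o o)))))
    (a (b (a o o) (a o o)) (b (a (a o o) (b (a o o) (a o o))) (a (a o o) (b (a o o) o))))))
    ⟨1073741824, 1431655766, 1073741824, 1610612736, 0, 0⟩ = true := by
  decide +kernel

theorem k63 : go fStop gS (a (b (a (b o (a o o)) (b o (a o o))) (a (b (a o o) (a (a o o) (a o o)))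
    (b (a o o) (a (a o o) (a o o))))) (b (a (b o (a o o)) (b o (a o o))) (a (b (a o o) (a (a o o)
    (a o o))) (b (a o o) (a (a o o) (a o o)))))) ⟨1252698795, 1431655766, 8589934592, 9126805504,
    0, 0⟩ = true := by
  decide +kernel

theorem k69 : go fStop gS (a (b (a (b o o) (b (a o o) o)) (a (a o o) (a o o))) (b (a (b (a o (a o
    o)) (a o o)) (b (a (a o o) (b (a o o) o)) (a (a o o) (a o o)))) (a (b (a o o) o) (b (a o (a o
    o)) (a o o))))) ⟨1252698795, 1431655766, 10200547328, 10737418240, 0, 0⟩ = true := by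
  decide +kernel

theorem k9 : go fNearP gP (c (a (b (c (b (b (c (b (b (b (c (a o o) (a o o)) p) p) p) (b (b (b (c
    (a o o) (a o o)) p) p) p)) p) p) (b (b (c (b (b (a (c o o) (c o o)) p) p) (b (a (b (c o (b o
    p)) p) (b (c o o) p)) p)) p) p)) p) p) (a (b (c (b (b (c (a (b (b (b (c (a o o) (a o o)) p) p)
    p) (b (b (c (b (a o o) p) (a o o)) p) p)) (a (b (b (b (b (c (a o o) (a o o)) p) p) p) p) (b (b
    (b (c (a o o) (a o o)) p) p) p))) p) p) (a (b (b (c (b (b (a (c o o) (c o o)) p) p) (b (a (b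
    (b (c o o) p) p) (b (b (c o o) p) p)) p)) p) p) (c (b (b (b (a (b (c o o) p) (c (b (b o p) p)
    (b (b (b (a o o) p) p) p))) p) p) p) (b (b (a (b (b (c (b (a o o) p) (a o o)) p) p) (b (b (c
    (b (a o o) p) (a o (a o p))) p) p)) p) p)))) p) p)) ⟨0, 1073741824, 12884901888, 17179869184,
    0, 8589934592⟩ = true := by
  decide +kernel

theorem k3 : go fNearP gP (a (b p (c (a (c (c (b p (b p (c (c (b p (a o o)) p) p))) p) p) (b p (c
    (c (c (a (b p (c o p)) (b p (c (b p (c o p)) p))) p) p) p))) p)) (b p (c (a (b p (c (a (c (c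
    (c (b p (b p (c (b p (a o p)) p))) p) p) p) (b p (b p p))) p)) (b p (b p p))) p))) ⟨0,
    2147483648, 0, 8589934592, 8589934592, 17179869184⟩ = true := by
  decide +kernel

end Pool.Agent.Lib.MP_efb7ef_gt.T
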