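import Pool.Agent.Lib.MP_efb7ef_gt.T.ChkDef

/-! Runs of the tests (machine generated). -/

set_option maxRecDepth 100000

namespace Pool.Agent.Lib.MP_efb7ef_gt.T

open Tr

theorem k68 : go fStop gS (b (a (b (a (b (a o o) (a o o)) (b (a o o) (a o o))) (a (b (a o o) o) (b
    (a o o) (a o o)))) (b (a (b (a (a o o) (a o o)) (a o (a o o))) (b (a (a o o) (a o o)) (a (a o
    o) (a o o)))) (a (b (a o o) (a o o)) (b (a (a o o) (a o o)) (a (a o o) (a o o)))))) (a (b (a
    (a o o) (b o o)) (a (a o o) (a o o))) (b (a (b (a o o) (a o o)) (b (a o (a o o)) (a o o))) (a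
    (b o o) (b (a o o) (a o o)))))) ⟨1342177280, 1431655766, 9663676416, 10200547328, 0, 0⟩ = true
    := by
  decide +kernel

theorem k121 : go (fFarB 21474836480 33267974144) gB (a (c (a (c (b (c o o) (c o o)) (b (a o o) (a
    o o))) (c (b (c o o) (c o o)) (b (a o o) (a o o)))) (a (c (b (a o o) (a o o)) (b (a o o) (a o
    o))) (c (b (a o o) (a o o)) (b (a o o) (a o o))))) (c (c (a (b (c o o) (c o o)) (b (c o o) (c
    o o))) (a (b (a o o) (a o o)) (b (a (c o o) (c o o)) (a o o)))) (a (c (b (a o o) (a o o)) (b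
    (a o (c o o)) (a o o))) (c (b (a (c o o) (c o o)) (a o (c o o))) (a (b (c o o) o) (b (c o o)
    (c o o))))))) ⟨0, 268435456, 1073741824, 1207959552, 8589934592, 10737418240⟩ = true := by
  decide +kernel

theorem k55 : go fStop gS (b (a (b (a (b (a o o) (a o o)) (b (a o o) (a o o))) (a (b (a o o) (a o
    o)) (b (a o o) (a o o)))) (b (a (b (a o o) (a o o)) (b (a o o) (a o o))) (a (b (a o o) (a o
    o)) (b (a o o) (a o o))))) (a (b (a (b (a o o) (a o o)) (b (a o o) (a o o))) (a (b (a o o) o)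
    (b (a o o) o))) (b (a (b (a o o) (a o o)) (b (a o o) (a o o))) (a (b (a o o) o) (a o o)))))
    ⟨1252698795, 1431655766, 7516192768, 8053063680, 0, 0⟩ = true := by
  decide +kernel

theorem k12 : go fNearP gP (a (a (c (b (c (a o o) o) (a (c o o) (c o o))) (b (a o o) (a (c o o) (c
    o o)))) (c (b (c (a o o) (a o o)) (c (a (b o o) (b o o)) (a (b o o) (b o o)))) (b (a (c o o)
    (c o o)) (a (c o o) (c (b o o) (b o o)))))) (a (c (b (c (a o o) (a o o)) (c (a (b o o) (b o (c
    o o))) (a (b o o) (b o (c o o))))) (a (b (c o o) (c (b o o) (b o o))) (b (c o o) (c (b o (a o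
    o)) (a o (b o o)))))) (c (c (b (a (b o o) (b o o)) (a (b o (c o o)) (b (c o o) (c o o)))) (b
    (a (b o o) (b o o)) (a (b o (c o o)) (c (b o (a o o)) (b o (a o o)))))) (a (b (c (b o o) (b o
    o)) (c (a (b o o) (b o (c o o))) (a (b o o) (b o (c o o))))) (b (c (b o o) (b o (a o o))) (c
    (a (b o (c o o)) (c (b o o) (b o o))) (a (b o (c o o)) (b (c o o) (a (b o p) p))))))))) ⟨0,
    536870912, 10737418240, 12884901888, 8589934592, 10737418240⟩ = true := by
  decide +kernel

theorem k50 : go fStop gS (a (b (a (a o o) (b o (a o o))) (a (b o o) (b (a o o) (a o o)))) (b (a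
    (b (a o o) (a o o)) (b (a (a o o) (a o o)) (a (a o o) (b o o)))) (a (b (a o (a o o)) (a (a o
    o) (a o o))) (b (a (b o o) (b (a o o) (a o o))) (a (b (a o o) (a o o)) (b (a o o) (a o
    o))))))) ⟨1073741824, 1431655766, 6442450944, 6979321856, 0, 0⟩ = true := by
  decide +kernel

theorem k66 : go fStop gS (b (a (b (a (b (a o o) o) (b (a o o) (a o o))) (a (a o o) (b o o))) (b
    (a (b (a o o) (a o o)) (b (a (a o o) (a o o)) (a o o))) (a (b o o) (b (a o o) o)))) (a (b (a o
    (a o o)) (a o o)) (b (a (a o o) (a o o)) (a o o)))) ⟨1073741824, 1252698795, 9663676416,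
    10737418240, 0, 0⟩ = true := by
  decide +kernel

theorem k48 : go fStop gS (b (a (b (a o o) (a o o)) (b (a o (a o o)) (a (a o o) (b o o)))) (a (b
    (a o o) (a o (a o o))) (b (a (a o o) (b (a o o) (a o o))) (a (a o o) (b (a o o) (a o o))))))
    ⟨0, 715827883, 6442450944, 8589934592, 0, 0⟩ = true := by
  decide +kernel

theorem k5 : go fNearP gP (c (b (c (a (b (c o o) (c o o)) (c (b o o) (b o o))) (a (b (c o o) (c o
    o)) (c (b o o) (b o o)))) (a (c (b (c (a o o) (a o o)) (a (b (a o p) p) p)) (b (c (a o o) (a o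
    o)) (a (b (a o p) p) p))) p)) (c (b (a (b (c o o) (c (a o o) (a o o))) (c (b o o) (b o o))) (a
    (b (c (a o o) (a o o)) (a (b (a o p) p) p)) p)) (b (a (b (c o o) (c (a o o) (a o o))) (c (b o
    (a o p)) (b o (a o p)))) (a (b (c (a o o) (a o o)) (a (b (a o p) p) p)) p)))) ⟨536870912,
    1073741824, 8589934592, 12884901888, 0, 4294967296⟩ = true := by
  decide +kernel

theorem k104 : go (fFarB 25769803776 45166034944) gB (c (c (c (c (c (b (a (c (c (c (b o o) p) p)
    p) (c (c (c (c (b (a o o) o) p) p) p) p)) (a (c (c o p) p) (c (c (c (c (c (c (c (c (c (c (c (c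
    (c (c (c (c (c (c (c (c (c (c (c (c (b o o) p) p) p) p) p) p) p) p) p) p) p) p) p) p) p) p) p)
    p) p) p) p) p) p) p))) p) p) p) p) p) ⟨0, 134217728, 805306368, 1073741824, 12884901888,
    17179869184⟩ = true := by
  decide +kernel

end Pool.Agent.Lib.MP_efb7ef_gt.T
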