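import Pool.Agent.Lib.MP_efb7ef_gt.T.ChkDef

/-! Runs of the tests (machine generated). -/

set_option maxRecDepth 100000

namespace Pool.Agent.Lib.MP_efb7ef_gt.T

open Tr

theorem k2 : go fNearP gP (b (c (c (c (b (b (c o o) (c o o)) (a (b o (c o o)) (c o o))) (b (a (b o
    o) (b o o)) (a (b o (c o o)) (c o (b o o))))) (a (b (c (b p (c o p)) p) (c (b (c o o) (c o o))
    (b (c o p) (c o o)))) (b (c (b p (c o p)) p) (c (c (b o o) (b o o)) (a (b o o) (b o o)))))) (c
    (c (b p (c (b p (c (b p (a o o)) p)) p)) p) p)) (c (c (c (b (a (b (c o o) (c o o)) (c (b o o)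
    (b o o))) (a (c (b o (a o o)) (b o (a o o))) (b (c o o) p))) (a (b (c (b o o) (b o o)) (a (c
    (b o o) (b o o)) (c (b o o) (b o o)))) (b (c (a o o) (a o o)) (b (c o o) p)))) (a (c (b (c (b
    o o) (b o o)) (a (c (b o o) (b o o)) (c (b o o) (b o o)))) (b (a (b o o) (c o o)) (a (c (b o
    o) (b o o)) (c (b o o) (b o o))))) (c (b (c (a o o) (a o o)) (b (c o o) p)) (b (a (c o o) (c o
    o)) (b (c o (a o o)) p))))) (a (b (c (c (a (b o (c o o)) (b (c o o) (c o o))) (a (b (c o p) (c
    o o)) (b (c o p) (c o o)))) (c (c (b p (c (b p o) p)) p) p)) (c (c (a (c (b o o) (b o o)) (c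
    (b o o) (b o o))) (a (b (c o o) (c o (a o o))) (b (c o o) (a (b o p) p)))) (a (c (b (c o (a o
    o)) (c (a o o) (a o (b o o)))) (b (c (c o p) p) (a (c (b o o) (b o (c o o))) (c (b o o) (b o
    (a o p)))))) (c (b (c (a o o) (a o o)) (a (b (a (b o p) p) p) p)) (a (b (c (c o p) p) (b (a (b
    (c o p) p) p) p)) (b (c (c o p) p) p)))))) (b (c (c (a (b (c o o) (c o o)) (c (b o o) (b o
    o))) (a (b (c o p) (c o o)) (b (c o p) (c o o)))) (c (c (b p (c (b p o) p)) p) p)) (c (b (c (a
    (c o o) (a o p)) (a (c o o) (a (b o p) p))) p) (b (c (a (c (a o o) (b o (a o p))) (b (a (b o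
    p) p) p)) (c (c (b p (b p p)) p) p)) p)))))) ⟨1073741824, 2147483648, 0, 8589934592, 0,
    8589934592⟩ = true := by
  decide +kernel

theorem k52 : go fStop gS (b (a (b (a (a o o) (b o (a o o))) (a (b o (a o o)) (b (a o o) (a o
    o)))) (b (a (b (a o o) (a o o)) (b (a o o) (a o o))) (a (b (a o o) (a o o)) (b (a o o) (a o
    o))))) (a (b (a (b (a o o) (a o o)) (b (a o o) (a o o))) (a (b (a o o) (a o o)) (b (a o o) (a
    o o)))) (b (a (b (a o o) (a o o)) (b (a o o) (a o o))) (a (b (a o o) (a o o)) (b (a o o) (a o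
    o)))))) ⟨1252698795, 1431655766, 6979321856, 7516192768, 0, 0⟩ = true := by
  decide +kernel

theorem k93 : go (fFarB 68719476736 184150458368) gB (c (c (c (c (b (c (a o (b (a (c (b (a o p) o)
    (b o o)) p) (c (a o (b p o)) (a o (b p o))))) (a o (b (a (c o o) p) (c (a o (b p o)) (a o (b p
    o)))))) (c (a o (b o o)) (a o (b o o)))) (b (c (a o (b (a o p) (c (a o o) o))) (a o (b (a o p)
    o))) (c (a o o) o))) (c (b (c (a o o) o) o) (b o o))) (c (c o o) o)) (c (c o (c o o)) (c (b (c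
    o o) (c o (a o o))) (b (c o (a o o)) (c (a (b o o) o) (a (b o (c o (a o o))) o)))))) ⟨0,
    134217728, 536870912, 805306368, 0, 4294967296⟩ = true := by
  decide +kernel

theorem k7 : go fNearP gP (a (b (c (b (a (c o o) (c o o)) (a (c o o) (c o o))) (b (a o o) (a (c o
    o) (c o o)))) (c (b (a (c (b o o) (b o o)) (c (b o o) (b o o))) (a (c (b o o) (b o o)) (c (b o
    (a o o)) (a (b o o) (b o o))))) (a (b (c (b o o) (a o o)) (c (a o (b o o)) (a o (b o o)))) (b
    (c (a o o) (a o o)) (c (a (b o o) (b o o)) (a (b o o) (b o o))))))) (c (b (b (a (c o o) (c o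
    o)) (a (c o o) (c o o))) (a (b (c (b o o) (b o o)) (c (b (a o o) (a o o)) (a (b o o) (b o
    o)))) (b (c (b o o) (a o (b o o))) (c (a (b o o) (b o o)) (a (b o o) (b o (c o o))))))) (b (a
    (b (c o o) (c o o)) (b (c o o) (c o (a o o)))) (a (b (c (a o o) (a o o)) (c (a (b o o) (b o
    o)) (a (b o o) (b o (c o o))))) (b (c (a (b o o) (b o o)) (a (b o o) (b o o))) (c (a (b o (c o
    o)) (b o (c o o))) (a (b o (c o o)) (b (c o o) (c o o))))))))) ⟨0, 536870912, 8589934592,
    12884901888, 6442450944, 8589934592⟩ = true := by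
  decide +kernel

theorem k74 : go (fFarA 3435134976 70975488) gA (c (a (c (b (a (c o o) (c o o)) (a (c (b o o) o)
    (c o o))) (b (a (c o o) (c o o)) (a (c o o) (c o o)))) (c (b (a (c o o) (c o o)) (a (c o o) (c
    o o))) (a (b (c o o) (c o o)) (b (c o o) (c o o))))) (a (c (a (b (c o o) (c o o)) (b (c o o)
    (c o o))) (a (b o (c o o)) (b o (c o o)))) (c (a (b (c o o) (c o o)) (b (c o o) (c o o))) (a
    (b o (c o o)) (b o (c o o)))))) ⟨0, 268435456, 12884901888, 13958643712, 6442450944,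
    8589934592⟩ = true := by
  decide +kernel

theorem k108 : go (fFarB 34359738368 73898459136) gB (b (b p (a (b p (a (c o o) p)) p)) (c (b (c
    (a (b o o) (b p o)) (a (b o o) (b p o))) (c (a (b (c o o) (c (a (b o o) o) (a o o))) (b o (c o
    o))) (a (b (c o o) (c (a o o) (a o o))) (b o (c o o))))) (b (a (c (b o o) (b o o)) (b p (a o
    p))) (a (c (b (a o o) (a o o)) (b o (a o o))) (c (b o o) (b o o)))))) ⟨134217728, 268435456,
    536870912, 1073741824, 5368709120, 6442450944⟩ = true := by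
  decide +kernel

theorem k54 : go fStop gS (b (a (b (a o o) (a o o)) (b (a (a o o) (a o (a o o))) (a (a o o) (a o
    (a o o))))) (a (b (a o o) (a o o)) (b (a (a o o) (b o o)) (a (a o o) (a o o))))) ⟨1073741824,
    1252698795, 7516192768, 8053063680, 0, 0⟩ = true := by
  decide +kernel

theorem k42 : go fStop gS (b (a (b (a o o) (a o o)) (b (a (a o o) (a o o)) (a (a o o) (a o o))))
    (a (b (a o o) (a o o)) (b (a (a o o) (a o o)) (a o (a o o))))) ⟨715827883, 1073741824,
    4294967296, 5368709120, 0, 0⟩ = true := by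
  decide +kernel

theorem k15 : go fNearP gP (a (b p (c (a (c (c (b p (a o (b p (c o p)))) p) p) (b p (c (a (c (c (b
    p (a o o)) p) p) (b p (c (a (c (c (b p (a o o)) p) p) (b p (a (c (c (c (a o o) p) p) p) p)))
    p))) p))) p)) (b p (c (a (b p (b p p)) p) p))) ⟨0, 1073741824, 8589934592, 12884901888,
    12884901888, 17179869184⟩ = true := by
  decide +kernel

end Pool.Agent.Lib.MP_efb7ef_gt.T
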