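import Pool.Agent.Lib.MP_efb7ef_gt.T.ChkDef

/-! Runs of the tests (machine generated). -/

set_option maxRecDepth 100000

namespace Pool.Agent.Lib.MP_efb7ef_gt.T

open Tr

theorem k89 : go (fFarA 3782213632 79888384) gA (a (c (a (c (b (a (c o o) (c o o)) (a (c (b o o)
    (b o o)) (c (b o o) (b o o)))) (a (b o (c o o)) (b (c o o) (c (a o o) (a o o))))) (c (a (b (c
    o o) (c (b o (a o o)) (a (b o o) (b o o)))) (b (c (a o o) (a o o)) (a (b (a (b o p) p) p) p)))
    (a (b (c o o) (c (a (b o o) (b o o)) (a (b o o) (b o o)))) (b (c (a o o) (a o o)) (a (b (a (b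
    o p) p) p) p))))) (a (c (a (b o (c o o)) (b (c o o) (c (a o o) (a o o)))) (a (b o (c o o)) (b
    (c o o) (c (a o o) (a o o))))) (c (a (b (c o o) (c (a (b o o) (b o o)) (a (b o o) (b o o))))
    (c (b (a o o) (a (b o p) p)) (b (a o o) (a (b o p) p)))) (a (b (c o (a o o)) (c (a (b o o) (b
    o o)) (a o (b o o)))) (b (c (a o o) (a o (b o o))) (a (a (b (a o p) p) p) p)))))) (a (a (c (b
    (a (c (b o p) (b o p)) p) p) (a (b (a (c (b o p) (b o p)) p) p) p)) p) p)) ⟨268435456,
    536870912, 13958643712, 15300820992, 10737418240, 12884901888⟩ = true := by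
  decide +kernel

theorem k37 : go fStop gS (a (b (a (b (a o o) (a o o)) (b (a o o) (a o (a o o)))) (a (b (a o o) (a
    o o)) (b (a (a o o) (a o o)) (a (a o o) (a o o))))) (b (a (b (a (a o o) (a o o)) (a (a o o) (b
    o o))) (b (a (b o o) (b o (a o o))) (a (b o o) (b (a o o) (a o o))))) (a (b (a (a o o) (b o
    o)) (a (b o o) (b o o))) (b (a (b o o) (b (a o o) (a o o))) (a (b o o) (b (a o o) (a o
    o))))))) ⟨1073741824, 1431655766, 2684354560, 3221225472, 0, 0⟩ = true := by
  decide +kernel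

theorem k28 : go fStop gS (b (a (b (a (b (a o o) (a o o)) (b (a o o) (a o o))) (a (b (a o o) (a o
    o)) (b (a o o) (a o o)))) (b (a (b (a o o) (a o o)) (b (a o o) (a o o))) (a (b (a o o) (a o
    o)) (b (a o o) (a o o))))) (a (b (a (b o o) (b (a o o) o)) (a (a o o) (a o o))) (a (b (b (a o
    o) (a o o)) (a o o)) (b (b (a o o) (a o o)) (b (a o o) o))))) ⟨0, 715827883, 1073741824,
    2147483648, 0, 0⟩ = true := by
  decide +kernel

theorem k14 : go fNearP gP (b (c (a (a (c (b (c o (b o o)) (c (a o o) (a o (b o o)))) (b (c (b p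
    o) p) (c (a o (b o o)) (a (b o o) (b o (a o o)))))) (c (b (c (b o o) (b o (a o o))) (c (a (b o
    o) (b o o)) (a (b o o) (b o (a o p))))) (b (c (c (b p o) p) p) (a (c (b o (c o o)) (b (c o p)
    (a o (c o o)))) (c (b (c o o) (a (b o p) p)) (b (c (c o p) p) (a (b (c o o) p) p))))))) (b (c
    (a (c (b o (a o o)) (b (c o p) (a o (c o o)))) (c (b (a o o) (a (b o p) p)) (b (c (c o p) p)
    (a (b (a o p) p) p)))) (a (c (c (b p (c (b p o) p)) p) p) (b p (b p p)))) (c (a (a (b (b (c o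
    o) p) p) p) p) (a (b (a (b (c (c o o) p) p) p) p) p)))) (a (b p (c (a (c (c (b p (c (b p o)
    p)) p) p) (b p (c (c (c (c (a o (b p p)) p) p) p) p))) p)) (b p (b p p)))) (c (a (b (c (a (c
    (a (b o o) (c o (b o o))) (a (b o (c o o)) (b o (a o p)))) (a (a (b (c o o) p) p) p)) (a (a (c
    (b o (c o o)) (b o (a o o))) (c (b (c o o) (a (b o p) p)) (b (a o (c o o)) (a (b o p) p)))) (a
    (a (b (b (a (c o o) p) p) p) p) p))) (a (a (c (a (b (c o o) p) p) (a (b (c (c o o) (c o o)) p)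
    p)) p) p)) p) (a (b (c (a (b (a (c (a o o) (c o p)) (c (a (c o o) (c o (b o o))) (c (c (b p (c
    (a o o) p)) p) p))) (c (a (a o (c o o)) (a (b (c o o) p) p)) (a (a (c o o) (c o (b o o))) (a
    (b (c o (c o p)) p) p)))) (b (c (a (a (b (a o p) p) p) p) (b p p)) p)) (a (b p (c (a (c (c (b
    p (a o o)) p) p) (b p p)) p)) (b p p))) (c (a (a (a (b (c (c o o) (c o (a o o))) p) p) p) p)
    (a (b (c (a (a (c (a o (b o p)) (a (b o o) (b o p))) p) p) (a (a (c (c (c (b p (b p p)) p) p)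
    p) p) p)) p) p))) p))) ⟨536870912, 1073741824, 8589934592, 12884901888, 8589934592,
    12884901888⟩ = true := by
  decide +kernel

theorem k20 : go fNearM gM (b (c (c (b (c (b o o) (a o (b o o))) (c p (b (c p o) p))) (b (c (a (b
    o o) (b o o)) (a (b o o) (b o o))) (c (a (b o o) (b o o)) (a (b o o) (b o o))))) (a (c (b (c
    (b o o) (b (a o o) (a o o))) (c (b o o) (b o o))) (b (c (b (a o o) (a o o)) (b (a o o) (a o
    o))) (c (b (a o o) (a o o)) (b (a o o) (a o o))))) (c (b (c (b (a o o) o) (b (a o o) (a o o)))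
    (c (b o o) (b (a o o) (a o o)))) (c (b (b (a o o) (a o o)) (b (a o o) (a o o))) p)))) (c (c p
    (b (c p (b (c p (b o p)) p)) p)) (a (b (c (c (b o o) (b (a o o) (a o o))) (a (c (b o o) (b o
    (a o o))) (c (b o o) (c (a o p) p)))) (c (c p (b (c p o) p)) (a (c (b o o) (b (a o o) (a o (b
    o (c o o))))) (c (b o (b o p)) (c (a (c (a (b o o) p) p) p) p))))) (b (c (c (b o o) (b (a o o)
    (a o o))) (c (b (a o o) (a o o)) p)) (c (b (c p (b o p)) p) (c (a (b (c o o) (b (c p (c p p))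
    p)) (c (b o p) p)) p)))))) ⟨1073741824, 2147483648, 0, 8589934592, 0, 8589934592⟩ = true := by
  decide +kernel

theorem k98 : go (fFarB 25769803776 45166034944) gB (b (c (a (b (c o o) (c o o)) (b o o)) (a (b (c
    o o) (c o o)) (b o o))) (c (a (b (c (a o o) (a o o)) (c (a (b o o) o) (a (b o (c o o)) o))) (b
    (c o o) (c o o))) (a (b (c (a o o) (a o o)) (c (a (b o (c o o)) o) (a (b o (c o o)) o))) (b (c
    o o) (c o o))))) ⟨0, 134217728, 805306368, 1073741824, 4294967296, 4831838208⟩ = true := by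
  decide +kernel

theorem k53 : go fStop gS (b (a (b (a o o) (a o o)) (b (a (a o o) (a o (a o o))) (a (a o o) (a o
    (a o o))))) (a (b (a o o) (a o o)) (b (a (a o o) (b (a o o) o)) (a (a o o) (a o o)))))
    ⟨715827883, 1073741824, 7516192768, 8589934592, 0, 0⟩ = true := by
  decide +kernel

theorem k115 : go (fFarB 25769803776 48530391040) gB (c (b p (c (c (b p (a (c (b p (c (a (b p (c o
    o)) p) (a (b p (a o p)) p))) (b p (a (c o o) p))) p)) (b p (a (b p (c (a (b p (c o o)) p) (a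
    (b p (c o (a o p))) p))) p))) (a (c (b p (b p (a (c (b p (a (c (b p o) (b p o)) p)) (b p (a (c
    (b p o) (b p o)) p))) p))) (b p (a (b p (c (b p (a (c (b p o) (b p o)) p)) (a (b p (b p (c o
    o))) p))) p))) p))) (b p (c (b p (c (a (a (b p (a (c (b p (a (b p (c o o)) p)) (b p (a (b p (c
    o o)) p))) p)) p) p) (a (a (a (b p (c (b p (a (b p (c o o)) p)) (b p (a (b p (c (a o p) (a (b
    p o) p))) p)))) p) p) p))) (b p (c (a (b p (c (a (c (a (c (b p (a (b p o) p)) p) p) p) p) p))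
    p) p))))) ⟨268435456, 536870912, 0, 1073741824, 0, 17179869184⟩ = true := by
  decide +kernel

theorem k26 : go fStart gS (a o (b o (a o o))) ⟨0, 4294967296, 0, 2147483648, 0, 0⟩ = true := by
  decide +kernel

end Pool.Agent.Lib.MP_efb7ef_gt.T
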