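import Pool.Agent.Lib.MP_efb7ef_gt.T.ChkDef

/-! Runs of the tests (machine generated). -/

set_option maxRecDepth 100000

namespace Pool.Agent.Lib.MP_efb7ef_gt.T

open Tr

theorem k91 : go (fFarB 68719476736 196376788992) gB (c (c (c (c (b (a o p) (c o o)) (b (a o p) (c
    o o))) (c (b o o) o)) (c (b (a o p) (c o o)) (b (a (a (c o o) p) p) (c (b o (c o o)) (b (a o
    p) (c o (a o o))))))) (c (b (a (a (c (c (b o o) (b o o)) (b (a (a o p) p) (c o o))) p) p) (c
    (c (b (a o p) (c (a o o) (a (b o o) o))) (b (a (c o o) p) (c (a (b o o) o) (a (b o o) o)))) (b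
    (a (c (c o o) (b o o)) p) (c (a (c (b o o) (b o o)) (b p o)) (a (b (c o o) (c o o)) (b p
    o)))))) (b (a (a (c (b (a o p) (c o o)) (b (a o p) (c o o))) p) p) (c (b (a (c (b o o) (b o
    o)) p) (c (a (b o (c o o)) (b p o)) (a (b o o) (b p o)))) (b (a (c o o) p) (c (a (b o o) o) (a
    (b o o) o))))))) ⟨0, 134217728, 0, 536870912, 0, 8589934592⟩ = true := by
  decide +kernel

theorem k70 : go fStop gS (a (b (a (b (a (a o o) (a o o)) (a o o)) (b (a (a o o) (b o o)) (a o
    o))) (b (a o (a o o)) o)) (b (a (b (a (b o o) (b (a o o) o)) (a (a o o) (a o o))) (b (a (b (a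
    o (a o o)) (a o o)) (b (a (a o o) (b (a o o) (a o o))) (a (a o o) (b (a o o) o)))) (a (b (a o
    o) (a o o)) (b (a o (a o o)) (a o (a o o)))))) (a (b (a o o) o) (a (b (a o o) o) (b (b (a o o)
    o) o))))) ⟨715827883, 1431655766, 10737418240, 12884901888, 0, 0⟩ = true := by
  decide +kernel

theorem k113 : go (fFarB 34359738368 73898459136) gB (c (b (a (c (b (a o o) (a o o)) (b (a o o) (a
    o o))) (a (b p (a (b p (c o o)) p)) p)) (a (c (b (a o o) (a o o)) (a (b o o) (b o o))) (c (a
    (b o o) (b o o)) (a (b o o) (b (a o p) (c o o)))))) (b (a (c (b (a o (a o p)) (a o o)) (b (a o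
    (a o p)) (a o (c o o)))) (a (b p (a (b p (a (c o o) p)) p)) p)) (a (c (a (b o o) (b o o)) (a
    (b o o) (b (c o o) o))) (c (a (b (c o o) (c o o)) (b (a o p) (c o o))) (a (b (c o o) (c o o))
    (b (a (b p o) p) (c o o))))))) ⟨134217728, 268435456, 805306368, 1073741824, 10737418240,
    12884901888⟩ = true := by
  decide +kernel

theorem k72 : go (fFarA 3435134976 70975488) gA (c (c (a (c (b (c o o) (a o o)) (b (c o o) (a o
    o))) (c (a (b o o) (b o o)) (a (b o o) (c o o)))) (a (c (a (b o o) (b o o)) (a (b o o) (b o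
    o))) (c (a (b o o) (c o o)) (a (b o o) (c o o))))) (c (a (c (a (b o o) (b o o)) (a (b o o) (b
    o o))) (c (a (b o o) (c o o)) (a (b o o) (b o o)))) (a (c (a (b o (c o o)) (b o (c o o))) (a
    (b (c o o) (c o o)) (b (c o o) (c o o)))) (c (a (b o o) (b o o)) (a (b (c o o) (c o o)) (b o
    (a o p))))))) ⟨0, 536870912, 12884901888, 13958643712, 0, 4294967296⟩ = true := by
  decide +kernel

theorem k92 : go (fFarB 68719476736 196376788992) gB (b (a (a (c (c (b (a (a (c o o) p) p) (c (b o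
    o) (b o o))) (b (a (a (c o o) p) p) (c (b o o) (b o o)))) (c (c (b (c o p) (c o p)) p) p)) p)
    p) (c (c (b (a (c (c o o) (b (a o p) (c o o))) p) (c (a (c o o) (b p (a o p))) (a (b (c o o)
    (c o o)) (b p (a o p))))) (b (a (c (b (a o p) (c o o)) (b (a o p) (a o o))) p) (c (a (b (c o
    o) (c o o)) (b p (a o p))) (a (b (a o o) (a o o)) (a (b p o) p))))) (c (c (c (c (b (a (c (c (c
    (b o o) p) p) p) p) (c (a o (b p o)) p)) p) p) p) p))) ⟨0, 134217728, 0, 536870912,
    8589934592, 17179869184⟩ = true := by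
  decide +kernel

theorem k87 : go (fFarA 3782213632 79888384) gA (a (c (a (c (b o (a o o)) (b o o)) (c (b o (a o
    o)) (b o (a o o)))) (a (c (b o o) (b o o)) (c (b o o) (b o o)))) (c (a (c (b (a o o) (a o (c o
    o))) (b o (a o o))) (c (b (a o o) (a (c o o) (c o o))) (b (a o o) (a (c o o) (c o o))))) (a (c
    (b o (a o o)) (a (b o o) (b o o))) (c (a (b o (c o o)) (b o (c o o))) (a (b o o) (b o (c o
    o))))))) ⟨0, 268435456, 13958643712, 15300820992, 10737418240, 12884901888⟩ = true := by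
  decide +kernel

theorem k122 : go (fFarB 21474836480 33267974144) gB (c (a (c (b (a o o) o) (b (a o o) o)) (c (b
    (a o o) (a o o)) (b (a o o) (a o o)))) (a (c (b (a o o) o) (b (a o o) (a o o))) (c (b (a o o)
    (a o o)) (a (b o o) (b o o))))) ⟨0, 134217728, 1073741824, 1207959552, 10737418240,
    12884901888⟩ = true := by
  decide +kernel

theorem k51 : go fStop gS (b (a (b (a o o) (a o o)) (b (a o (a o o)) (a o (a o o)))) (a (b (a o o)
    (a o o)) (b (a (a o o) (a o o)) (a (a o o) (b o (a o o)))))) ⟨1073741824, 1252698795,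
    6979321856, 7516192768, 0, 0⟩ = true := by
  decide +kernel

theorem k24 : go fRowP gP (a (a (c o o) (c o o)) (c (a o o) (a o o))) ⟨0, 4294967296, 0,
    2147483648, 0, 2147483648⟩ = true := by
  decide +kernel

end Pool.Agent.Lib.MP_efb7ef_gt.T
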