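import Pool.Agent.Lib.MP_efb7ef_gt.T.ChkDef

/-! Runs of the tests (machine generated). -/

set_option maxRecDepth 100000

namespace Pool.Agent.Lib.MP_efb7ef_gt.T

open Tr

theorem k94 : go (fFarB 68719476736 184150458368) gB (c (c (b (c (a o o) (a (b o o) o)) (c (a (b o
    (c (a o o) (a (b o o) o))) (b o o)) (a (b (c o o) (c (a (b o o) o) (a (b o (c o o)) o))) (b o
    o)))) (b (c (a (b o o) o) (a (b o o) o)) (c (a (b (c o o) (c (a (b o (c o o)) o) (a (b o (c o
    o)) o))) (b o o)) (a (b (c o o) (c (a (b o o) o) (a (b o o) o))) (b o o))))) (c (b (a (c o o)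
    (c o o)) (c (a (b o (c (a o o) (a o o))) (b o o)) (a (b o (a (c o o) o)) (b o o)))) (b (a (c o
    o) (c o o)) (a (c (b o (a o o)) (b o o)) (c (b o o) o))))) ⟨0, 134217728, 536870912,
    805306368, 4294967296, 6442450944⟩ = true := by
  decide +kernel

theorem k73 : go (fFarA 3435134976 70975488) gA (a (c (c (a (b (c o o) (c (a o o) (a o o))) (b (c
    o o) (c o o))) (a (b (c (a o o) (a o o)) (c (a o o) (a o o))) (b (c o o) (c (a o o) (a o
    o))))) (a (c (b (c (a o o) (a o o)) (c (a o o) (a o o))) (b (a (c o o) (c o o)) (a (c o (b o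
    o)) (c o o)))) (c (b (c o (a o o)) (c (a o o) (a o o))) (b (a (c o o) o) (a (c o o) (c o
    o)))))) (c (c (a (b (c o o) (c o o)) (b (c o o) (a o p))) (a (b (c o o) (c o o)) (b (c o o) (a
    o p)))) (a (c (b (c o o) (c (a o o) (a o o))) (b (a o o) (a (c o o) (c o o)))) (c (b (c o o)
    (a o p)) (b (c o o) (a (c o o) p)))))) ⟨0, 536870912, 12884901888, 13958643712, 4294967296,
    6442450944⟩ = true := by
  decide +kernel

theorem k78 : go (fFarA 3435134976 70975488) gA (a (c (a (c (a (b o o) (b o o)) (a (b o o) (b o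
    o))) (c (a (b o (c o o)) (b o (c o o))) (a (b o (c o o)) (b o (c o o))))) (a (c (a (b o o) (b
    o o)) (a o (b o o))) (c (a (b o (c o o)) (b o (c o o))) (a (b o (c o o)) (b o (c o o)))))) (c
    (a (c (a (c (b o o) (b o o)) (c (b o (a o p)) (b o (a o p)))) (a (b (c o o) (c o o)) (c (b o
    (a o p)) (b o (a o p))))) (a (a (b (c (b o p) (b o p)) p) p) p)) (a (c (a (b (c o o) (c (a o
    o) (a o o))) (b (c o (a o o)) (a (a (b o p) p) p))) (a (b (c o o) (c (a o o) (a o o))) (b (c
    (a o o) (a o o)) (a (a (b o p) p) p)))) (a (a (b (b (a (c o o) p) p) p) p) p)))) ⟨268435456,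
    536870912, 12884901888, 13958643712, 10737418240, 12884901888⟩ = true := by
  decide +kernel

theorem k64 : go fStop gS (b (a (b (a (b o o) (b o o)) (a (b o o) (b o (a o o)))) (b (a (b o o) (b
    o o)) (a (b (a o o) (a o o)) (b (a o o) (a o o))))) (a (b (a (b o o) (b (a o o) (a o o))) (a
    (b o o) (b (a o o) o))) (b (a (b (a o o) (a o o)) (b (a o o) (a o o))) (a (b (a o o) (a o o))
    (b (a o o) (a o o)))))) ⟨1252698795, 1342177280, 9126805504, 9663676416, 0, 0⟩ = true := by
  decide +kernel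

theorem k56 : go fStop gS (a (b (a (b (a o o) (a o o)) (b (a (a o o) (a o o)) (a o (a o o)))) (a
    (b (a o o) (a o o)) (b (a o o) (a o o)))) (b (a (b (a (a o o) (a o o)) (a (a o o) (a o o))) (b
    (a (a o o) (a o o)) (a (a o o) (a o o)))) (a (b (a o o) (a o o)) (b (a o o) (a o o)))))
    ⟨1073741824, 1431655766, 8053063680, 8589934592, 0, 0⟩ = true := by
  decide +kernel

theorem k33 : go fStop gS (a (b (a (b o o) (b (a o o) (a o o))) (a (b o o) (b (a o o) o))) (b (a
    (b (a o o) (a o o)) (b (a (a o o) (b o o)) (a (a o o) (b o o)))) (a (b (a o o) (a o o)) (b (a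
    (a o o) (b o o)) (a (a o o) (b o o)))))) ⟨1073741824, 1431655766, 1610612736, 2147483648, 0,
    0⟩ = true := by
  decide +kernel

theorem k75 : go (fFarA 3435134976 70975488) gA (c (a (c (a (b o (c o o)) (b o (c o o))) (a (b (c
    o o) (c o o)) (b (c o o) (c o o)))) (c (a (b o (c o o)) (b o p)) (a (b (c o o) (c o o)) (b (a
    o p) p)))) (a (c (a (b (c o o) (c o o)) (b (c o o) (c o o))) (a (b (c o o) (c o o)) (b (c o o)
    (c o o)))) (c (a (b (c o o) (c o o)) (b (a o p) p)) (a (b (c o o) (c o (a o o))) (b (a o p)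
    p))))) ⟨268435456, 536870912, 12884901888, 13958643712, 6442450944, 8589934592⟩ = true := by
  decide +kernel

theorem k11 : go fNearP gP (a (c (c (a (b o (c o o)) (b o (c o o))) (a (b o o) (b o (c o o)))) (c
    (b p (c (c (b p o) p) p)) p)) (c (c (a (b (c o o) (c o o)) (b (c o o) (c (a o o) (a o o)))) (a
    (b (c o p) (c o o)) (b (c o p) (c (a o o) (a o o))))) (c (a (b p (c o p)) (b p (c (b p (c o
    p)) p))) p))) ⟨0, 536870912, 8589934592, 10737418240, 8589934592, 12884901888⟩ = true := by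
  decide +kernel

theorem k90 : go (fFarA 3782213632 79888384) gA (a (c (c (a (c (c (c (a o o) p) p) p) (c (c (a (c
    (c o p) p) (c (c (c (c (c (c (c (c (c (c (c (c (c (c (c (c (c (c (c (c (c (c (c (c (c (a o o)
    p) p) p) p) p) p) p) p) p) p) p) p) p) p) p) p) p) p) p) p) p) p) p) p) p)) p) p)) p) p) (c (a
    (c (c (c (a (c (c (c (c (a o (b o o)) p) p) p) p) (c (c (a (c (b o (a o o)) p) (c (b o (a o
    p)) p)) p) p)) p) p) p) (c (b (a (c (a (a (c (b o p) p) p) p) p) p) p) p)) p)) ⟨0, 536870912,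
    13958643712, 15300820992, 12884901888, 17179869184⟩ = true := by
  decide +kernel

end Pool.Agent.Lib.MP_efb7ef_gt.T
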