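import Pool.Agent.Lib.MP_efb7ef_gt.T.ChkDef

/-! Runs of the tests (machine generated). -/

set_option maxRecDepth 100000

namespace Pool.Agent.Lib.MP_efb7ef_gt.T

open Tr

theorem k84 : go (fFarA 3782213632 79888384) gA (c (a (c (b (a (c (b o o) (b o o)) (c o o)) (a (c
    (b o (a o o)) (b o (a o o))) (c (b o o) (b o o)))) (b (a (c (b o o) o) (c o o)) (a (c (b o (a
    o o)) (b o (a o o))) (c (b o o) (b o o))))) (c (b (a (c o o) (c o o)) (a (c (b o o) (b o o))
    (c (b o o) (b o o)))) (b (a (c o o) (c o o)) (a (c (b o o) (b o o)) (c (b o o) (b o o)))))) (a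
    (c (b (a (c o o) (c o o)) (a (c (b o o) (b o o)) (c (b o o) (b o o)))) (b (a (c o o) (c o o))
    (a (c (b o o) (b o o)) (c (b o o) (b o o))))) (c (b (a (c o o) (c o o)) (a (c (b o o) (b o o))
    (c (b o o) (b o o)))) (a (b (c o o) (c (b o o) (a o o))) (b (c o o) (c (a o o) (a o o)))))))
    ⟨0, 268435456, 13958643712, 15300820992, 6442450944, 8589934592⟩ = true := by
  decide +kernel

theorem k123 : go (fFarB 21474836480 33267974144) gB (c (a (c (b (a o (c o o)) (a o o)) (a (b o o)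
    (b (c o o) (c o o)))) (c (a (b (c o o) (c o o)) (b (c o o) (c o o))) (a (b (c o o) (c o o)) (b
    (c o (a o o)) (c o o))))) (a (c (a (b (c o o) o) (b (c o o) (c o o))) (a (b (c o o) o) (b (c o
    o) (c o o)))) (c (a (b (c o (a o o)) (c o o)) (b (c (a o o) (a o o)) (c o (a o o)))) (a (b (c
    (a o o) (a o o)) (c o o)) (b (c (a o (b o o)) (a o (b o o))) (c (a o o) (a o o)))))))
    ⟨134217728, 268435456, 1073741824, 1207959552, 10737418240, 12884901888⟩ = true := by
  decide +kernel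

theorem k100 : go (fFarB 25769803776 45166034944) gB (c (b (a (c (b (a o o) (c o o)) (b (a o o) (a
    o o))) (c (b o o) (b o o))) (c (a (b (c (a o o) (a o o)) (c (a (b o o) o) (a o o))) (b (c o o)
    (c o o))) (a (b (a (c o o) o) (c (a o o) (a o o))) (b o (c o o))))) (b (a (c (b (a o o) (a o
    o)) (b o (a o o))) (c (b o o) (b o o))) (a (c (b (a o o) (a (c o o) o)) (b (a o o) (a o o)))
    (c (b o (a o o)) (b o o))))) ⟨0, 134217728, 805306368, 1073741824, 5368709120, 6442450944⟩ =
    true := by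
  decide +kernel

theorem k118 : go (fFarB 21474836480 33267974144) gB (a (c (a (b (c (a (b o o) o) (a (b o o) o))
    (c (a (b (c o o) (c (a o o) (a o o))) (b o o)) (a (b (c o o) (c (a o o) o)) (b o o)))) (b (c o
    o) (c (a o o) (a o o)))) (a (b (c (a (b o o) o) (a (b o o) o)) (c (a (b o (c o o)) (b o o)) (a
    (b o (c o o)) o))) (b (c o o) (c (a o o) (a o o))))) (c (a (b (c o o) (c o o)) (b o o)) (a (b
    (c o o) (c o o)) (b o o)))) ⟨0, 268435456, 1073741824, 1207959552, 4831838208, 5368709120⟩ =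
    true := by
  decide +kernel

theorem k8 : go fNearP gP (b (c (c (a (b (c (a o o) (a o o)) (c (a o o) (a o o))) (c (b o (a o p))
    (b (a o o) (a o p)))) (a (b (c (a o o) (a o o)) (c (a o o) (a o o))) (c (b (a o o) (a o p)) (b
    (a o o) (a o p))))) (a (c (a (b (c o o) (c o (b o o))) (b (c o o) (c (b o o) (a o o)))) (a (b
    (c o o) (c (a o o) (a o o))) (b (c o (b o o)) (c (a o o) (a o (b o o)))))) (c (c (b (a o o) (a
    (a o p) p)) (b (a o (b o o)) (a (a o p) p))) (a (b (c (b o o) (b o o)) (a (b (b (c o o) p) p)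
    p)) (b (c (b o o) (b o (a o p))) p))))) (a (c (c (b (c (a o o) (a (b o o) (b o p))) (a (a (b
    (a o p) p) p) p)) (b (c (a (b o o) (b o p)) (a (b o o) (a o p))) (a (a (b (a (c o o) p) p) p)
    p))) (c (a (b (c (b o (a o o)) (a (b o o) (b o o))) (a (b (a (c o o) p) p) p)) (b (a (b (a (c
    o o) p) p) p) p)) (a (c (b (a (b o o) (b o o)) (a (b (a o p) p) p)) (b (a (b o o) (c o o)) (a
    (b (a o p) p) p))) (a (b (a (b (c o o) p) p) p) p)))) p)) ⟨536870912, 1073741824, 8589934592,
    12884901888, 4294967296, 8589934592⟩ = true := by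
  decide +kernel

theorem k35 : go fStop gS (b (a (b (a (a o o) (a o o)) (a (a o o) (b o o))) (b (a (b o o) (b o o))
    (a (b o o) (b o o)))) (a (b (a (a o o) (b o o)) (a (b o o) (b o o))) (b (a (b o o) (b (a o o)
    (a o o))) (a (b o o) (b (a o o) (a o o)))))) ⟨715827883, 1073741824, 2147483648, 3221225472,
    0, 0⟩ = true := by
  decide +kernel

theorem k80 : go (fFarA 3782213632 79888384) gA (c (a (c (b (a (c o o) (c o o)) (a (c o o) (c o
    o))) (b (a (c o o) (c o o)) (a (c o o) (c o o)))) (c (b (a (c (b o o) (b o o)) (a (b (a o p)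
    p) p)) (a (c o o) p)) (b (a (c o o) (a (b (a o p) p) p)) (a (c o o) p)))) (a (c (b (a (c o o)
    (c o o)) (a o (c o o))) (b (a o o) (a o o))) (c (b (a (c o o) (a (b o p) p)) (a (c o o) p)) (b
    (a (c o o) (a o p)) (a (c o o) p))))) ⟨0, 536870912, 13958643712, 15300820992, 0, 2147483648⟩
    = true := by
  decide +kernel

theorem k0 : go fNearP gP (c (c (b (c (b (a o o) (a o o)) (a (b o o) (b o o))) (c (b (a o o) (a (c
    o o) (c o o))) (a (b (c o o) (c o o)) (b o (c o o))))) (b (c (b p (c (b p o) p)) p) (a (c (b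
    (c o o) (c o o)) (b (c o p) (a o o))) (c (b (c o o) (c o o)) (b (c o p) (a o o)))))) (c (b p
    (c (b p (c (b p (c o p)) p)) p)) p)) ⟨0, 1073741824, 0, 4294967296, 0, 8589934592⟩ = true :=
    by
  decide +kernel

theorem k124 : go (fFarB 21474836480 33267974144) gB (c (a (c (c (c (a (c (c (c o p) p) p) (c (c
    (c (c (c (c (c (c (c (c (c (c (c (c (c (c (c (c (c (c (c (c (c (c (c (b o o) p) p) p) p) p) p)
    p) p) p) p) p) p) p) p) p) p) p) p) p) p) p) p) p) p) p)) p) p) p) (c (c (c (a (c (c (c (c (a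
    o (b o o)) p) p) p) p) (c (c (a (b o o) (b (c (c o p) p) o)) p) p)) p) p) p)) p) ⟨0,
    268435456, 1073741824, 1207959552, 12884901888, 17179869184⟩ = true := by
  decide +kernel

end Pool.Agent.Lib.MP_efb7ef_gt.T
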