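import Pool.Agent.Lib.MP_efb7ef_gt.T.ChkDef

/-! Runs of the tests (machine generated). -/

set_option maxRecDepth 100000

namespace Pool.Agent.Lib.MP_efb7ef_gt.T

open Tr

theorem k106 : go (fFarB 34359738368 73898459136) gB (c (c (c (b (b p (a (b p (c (a o p) (a o p)))
    p)) (c (b (c (a o (b p (a o p))) (a o (b p (a o p)))) (c (a o (b (c o o) o)) (a o (b (c o o)
    o)))) (b (c (a o (b p (a o p))) (a o (b p o))) (c (a o (b o o)) (a o o))))) (b (b p (a (b p (c
    o o)) p)) (c (b (c (a o (b p o)) (a o o)) (c o o)) (b (c o o) o)))) (c (b (b p (a o p)) (c (b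
    o o) o)) (b (b p o) (c o o)))) (c (b (b p (a (b p (c o o)) p)) (c (c o o) (c (b o o) (b o
    o)))) (b (b p (a (b p (a (c o o) p)) p)) (c (b (c o (a o o)) (c (a o o) (a (b o o) (b o o))))
    (b (c (a o o) (a (b o o) o)) (c (a (b o (c o o)) (b o o)) (a (b (c o o) (c (a o o) (a o o)))
    (b o (c o o))))))))) ⟨134217728, 268435456, 536870912, 1073741824, 0, 4294967296⟩ = true := by
  decide +kernel

theorem k120 : go (fFarB 21474836480 33267974144) gB (c (a (c (a (c (b (a o o) (a o o)) (b (a o o)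
    (a o o))) (c (b o (a o o)) (b o o))) (a (c (b (a o o) (a o o)) (b o o)) (c (b o o) (b o o))))
    (c (a (c (b o o) (b o o)) (c (b o o) (b o o))) (a (c (b o o) (b o o)) (c (b o o) (b o o)))))
    (a (c (a (c (b o o) (b o o)) (c (b o o) (b o o))) (a (b (c o o) (c o o)) (b (c o o) (c o o))))
    (c (a (c (b o o) (b o o)) (c (b o o) (b o o))) (a (b (c o o) (c o o)) (c (b o o) (b o o))))))
    ⟨0, 268435456, 1073741824, 1207959552, 6442450944, 8589934592⟩ = true := by
  decide +kernel

theorem k107 : go (fFarB 34359738368 73898459136) gB (b (b p (a (b p (a (c o o) p)) p)) (c (b (c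
    (a (b o o) (b p o)) (a (b o o) (b p o))) (c (a (b (c o o) (c (a (b o o) o) (a (b o o) o))) (b
    o (c o o))) (a (b (c o o) (c (a (b o (c o o)) o) (a (b o (c o o)) o))) (b o (c o o))))) (b (c
    (a (b o (c o o)) (b p o)) (a (b o (c o o)) (b p o))) (c (a (b (c o o) (c (a (b o (c o o)) o)
    (a (b o (c o o)) o))) (b o (c o o))) (a (b (c o o) (c (a (b o o) o) (a (b o o) o))) (b o (c o
    o))))))) ⟨134217728, 268435456, 536870912, 1073741824, 4294967296, 5368709120⟩ = true := by
  decide +kernel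

theorem k117 : go (fFarB 21474836480 33267974144) gB (a (c (a (b (c (a o o) (a (b o o) o)) (c (a
    (b o (c o o)) o) (a (b o (c o o)) o))) (b (c o o) (c o (a o o)))) (a (b (c (a (b o o) o) (a (b
    o o) o)) (c (a (b o (c o (a o o))) (b o o)) (a (b (c o o) (c (a o o) (a o o))) (b o o)))) (b
    (c o o) (c (a o o) (a o o))))) (c (a (b o (c o o)) (b o o)) (a (b o (c o o)) (b o o)))) ⟨0,
    268435456, 1073741824, 1207959552, 4294967296, 4831838208⟩ = true := by
  decide +kernel

theorem k81 : go (fFarA 3782213632 79888384) gA (c (a (c (b (a o o) (a o o)) (b (a (c o o) (c o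
    o)) (a (c o o) (c o o)))) (c (b (a o o) (a o p)) (a (b (c o o) (c o o)) (b (a o p) p)))) (a (c
    (a (b (c o (b o o)) (c (b o o) (a o o))) (b (c o o) (c o (a o o)))) (a (b (c (a o o) (a o o))
    (c (a o o) (a (b o o) o))) (b (c (a o o) (a o o)) (c (a o o) (a o o))))) (c (a (b (c o o) (c o
    o)) (b (a o p) p)) (a (b (c o o) (c (a o o) (a o o))) (b (a o p) p))))) ⟨0, 536870912,
    13958643712, 15300820992, 2147483648, 4294967296⟩ = true := by
  decide +kernel

theorem k6 : go fNearP gP (b (c (a (b (c (a o o) (a o o)) (c (a o o) (a o o))) (b (c (a o o) (a o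
    o)) (c (a o o) (a o o)))) (a (b (c (a o o) (a o o)) (a (c o o) (c o o))) (b (c (a o o) (a o
    o)) (c (a o o) (a o o))))) (a (c (b (c (a (b o o) (b o o)) (a (b o o) (b o o))) (c (a (b o o)
    (b o o)) (a (b o o) (b o o)))) (b (a (c (b o o) (b o o)) (c (b o o) (b o o))) (a (c (b o o) (b
    o o)) (c (b o o) (b o o))))) (c (b (c (a (b o o) (b o o)) (a (b o o) (b o o))) (c (a (b o o)
    (b o o)) (a (b o o) (b o o)))) (b (c (a (b o o) (b o o)) (a (b o o) (b o o))) (a (c (b o o) (b
    o (a o o))) (c (b o (c o o)) (b (a o o) (a o o)))))))) ⟨0, 536870912, 8589934592, 12884901888,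
    4294967296, 6442450944⟩ = true := by
  decide +kernel

theorem k29 : go fStop gS (b (b (a (a o o) (a o o)) (a (b o o) (b (a o o) (a o o)))) (b (a (b (a o
    o) (a o o)) (b (a o o) (a o o))) (a (b (a o o) (a o o)) (b (a o o) (a o o))))) ⟨715827883,
    1073741824, 0, 1073741824, 0, 0⟩ = true := by
  decide +kernel

theorem k16 : go fNearP gP (c (a (b (c (a (b (b (a (c (b (b (b (b (b (c o o) p) p) p) p) p) (b (b
    (b (a o o) p) p) p)) (c (b (b (b (b (c o o) p) p) p) p) (b (b (a o (c o o)) p) p))) p) p) (b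
    (a (c (b (b (b (b (c (a o o) (a o o)) p) p) p) p) (b (b (b (a (c o o) (c o o)) p) p) p)) (c (b
    (b (b (c (a o (a o p)) (a (b (b o p) p) (a o p))) p) p) p) (b (b (a (c (b (b (b (b (b (b (b (b
    (b (b (b (b (b (b (b (b (b (b (b (b (b (b (b (b (b (a o o) p) p) p) p) p) p) p) p) p) p) p) p)
    p) p) p) p) p) p) p) p) p) p) p) p) p) (b (b (b (a o o) p) p) p)) (a (a (c o o) p) p)) p) p)))
    p)) (a (a (b (b (b (c (b (a o o) p) (a o o)) p) p) p) (b (b (c (b (a o (b (c o o) p)) p) (b (a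
    o (b o p)) p)) p) p)) (b (c (a (b (b (a (b (c o o) p) (c (b o p) (b (b o p) p))) p) p) (b (a
    (b (c (b (b (a o o) p) p) (b (a o o) p)) p) (a (a (c (b o p) (b (a o p) p)) p) p)) p)) (a (b
    (a (b (b (b (c o o) p) p) p) (b (b (c (a o o) (a o o)) p) p)) p) (b (c (b (a (b (a o (b o p))
    p) (a (a (a o p) p) p)) p) (a (b (b (a o (b (b (b (b (c o o) p) p) p) p)) p) p) (a (a (b (a o
    p) p) p) p))) p))) p))) p) p) (a (b (c (a (a (b (b (c (b o p) p) p) p) (b (b (c (b (c (a o o)
    p) p) p) p) p)) (b (c (a (b (a (b (c o p) p) (b (c (b (c o p) p) p) p)) p) (b (c (a (b (a (b o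
    p) (b (c o p) p)) p) (b (a (a (a (b (c o p) p) p) p) p) p)) (b p p)) p)) (b p p)) p)) (b p p))
    p) p)) ⟨0, 1073741824, 12884901888, 17179869184, 8589934592, 17179869184⟩ = true := by
  decide +kernel

theorem k17 : go fNearP gP p ⟨1073741824, 2147483648, 8589934592, 17179869184, 8589934592,
    17179869184⟩ = true := by
  decide +kernel

theorem k110 : go (fFarB 34359738368 73898459136) gB p ⟨134217728, 268435456, 0, 536870912,
    8589934592, 17179869184⟩ = true := by
  decide +kernel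

end Pool.Agent.Lib.MP_efb7ef_gt.T
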