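import Pool.Agent.Lib.MP_efb7ef_gt.T.ChkDef

/-! Runs of the tests (machine generated). -/

set_option maxRecDepth 100000

namespace Pool.Agent.Lib.MP_efb7ef_gt.T

open Tr

theorem k116 : go (fFarB 21474836480 33267974144) gB (c (c (c (c (a o (c (b (a o o) (a o o)) (a o
    (b o o)))) (a o (c (a o (b o o)) (a o o)))) (c (a o (c (a o o) o)) (a o (c o o)))) (c (c (a o
    o) (a o o)) (a o (c o o)))) (c (c (a o o) (a (c o (a o o)) (c o (a o o)))) (c (a (c (a (b o o)
    o) (a (b o (c o o)) (b o o))) (c (a o o) (a (b o o) o))) (a (c (a (b (c o o) (c o (a o o))) (b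
    o (c o o))) (a (b (c (a o o) (a o o)) (c (a (b o o) o) (a (b o o) o))) (b (c o o) (c o o))))
    (c (a (b o o) (b o o)) (a (b o o) (b o o))))))) ⟨0, 268435456, 1073741824, 1207959552, 0,
    4294967296⟩ = true := by
  decide +kernel

theorem k97 : go (fFarB 25769803776 45166034944) gB (c (c (c (c (b (c (a o o) (a o o)) (c (a o o)
    (a o o))) (b (c (a o o) o) (c o o))) (c (b (c o o) (c o o)) (b o o))) (c (c (b o o) o) (c o
    o))) (c (c (c o o) (c (b o o) (b o (a o o)))) (c (b (c (a o o) (a (b o o) o)) (c (a (b o o) o)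
    (a (b o (c o o)) (b o o)))) (b (c (a (b o o) (b o o)) (a (b o (c o o)) (b o o))) (c (a (b (c o
    o) (c o (a o o))) (b o o)) (a (b (c o o) (c (a o o) (a (b o o) o))) (b o (c o o)))))))) ⟨0,
    134217728, 805306368, 1073741824, 0, 4294967296⟩ = true := by
  decide +kernel

theorem k103 : go (fFarB 25769803776 45166034944) gB (c (b (a (c (b (a o o) (a o o)) (b (a o o) (a
    o o))) (c (b (a o o) (a o o)) (b (a o (c o o)) (a o o)))) (a (c (b o o) (b (a o o) o)) (c (b
    (a o o) (a o o)) (b (a o o) (a o o))))) (b (a (b (c (a o o) (a o o)) (c (a o o) (a o o))) (c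
    (b (a o (c o o)) (a o (c o o))) (b (a (b o o) (b o o)) (a o (c o o))))) (a (c (b (a o o) o) (b
    (a o o) o)) (c (b (a o o) (a o o)) (a (b o o) (b o o)))))) ⟨0, 134217728, 805306368,
    1073741824, 10737418240, 12884901888⟩ = true := by
  decide +kernel

theorem k77 : go (fFarA 3435134976 70975488) gA (a (c (c (a (b (c o o) (c o o)) (b (c o o) (c o (a
    o o)))) (a (b (c o o) (a o o)) (b (c o o) (a (c o o) (c o o))))) (a (c (b (a o o) (a o o)) (a
    (b o o) (b o o))) (c (b (a o o) (a (c o o) (c o o))) (a (b o (c o o)) (b o (c o o)))))) (c (c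
    (a (b (c o o) (c (a o o) (a o o))) (a (b (a o p) p) p)) (a (b (c o o) (c (a o o) (a o o))) (a
    (b (a o p) p) p))) (a (c (a (b o (c o o)) (b (c o o) (a (b o p) p))) (a (b o (c o o)) (c (b o
    o) (b o (a o p))))) (a (b (a (c o o) p) p) p)))) ⟨268435456, 536870912, 12884901888,
    13958643712, 8589934592, 10737418240⟩ = true := by
  decide +kernel

theorem k21 : go fNearM gM (a (b (c (a (c (b (c (b (a o o) (a o o)) (a (b o o) (b o o))) (c (a o
    (b o o)) (a o (b o o)))) (b (c (a (b o o) (b o o)) (a (b o o) (b o o))) (a (c o o) (c (b o o)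
    (b o o))))) (c (b (c (b (a o o) (a o o)) (a (b o o) (a o p))) (c (b (a o o) (a o o)) (a (b o
    o) (a o p)))) (a (b (c (b o o) (a o p)) (c (b o o) (a o p))) p))) (a (c (b (c (c (c (c (b o o)
    p) p) p) p) (c (c (c (c o p) p) p) p)) p) p)) (c (a (a (c (b (c o o) (c o o)) (b (c o o) (c o
    (a o o)))) (b (c (c (b o o) (b o o)) (c (b o o) (b o o))) (c (c (b o o) (b o o)) (a (c o o) (b
    (c o o) (c o o)))))) (b (c (a (c (b o o) (b o o)) (b (c o o) (c o (a o p)))) (a (c (b o o) (a
    (c o p) p)) p)) (c (a (a (b (c o o) (c o o)) (b (c o o) (c o o))) (a (b (c o o) (c (b o o) (a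
    o p))) (c (b o (b o o)) p))) (a (a (b (c o o) (c o (a o p))) (c (a (b o o) p) p)) p)))) (a (c
    (c (b (c (c (a o o) p) p) (a (c o p) (c (c (b o o) p) p))) p) p) p))) p) ⟨0, 2147483648, 0,
    8589934592, 8589934592, 17179869184⟩ = true := by
  decide +kernel

theorem k61 : go fStop gS (a (b (a (b (a o o) (a o o)) (b (a o (a o o)) (a o o))) (a (b o o) (b (a
    o o) o))) (b (a (b (a (a o o) (a o o)) (a o o)) (b (a (b o o) (b o o)) (a (a o o) (a o o))))
    (a (b (a o o) o) (b (a o o) (a o o))))) ⟨715827883, 1073741824, 9663676416, 10737418240, 0, 0⟩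
    = true := by
  decide +kernel

theorem k96 : go (fFarB 68719476736 184150458368) gB (c (c (c (b (a (c o o) (c o o)) (a (c o o) (c
    o o))) (b (a (c o o) (c o o)) (a (c o o) (c o o)))) (b (c (a (b o o) (b o o)) (a (b o o) (b (a
    o p) (c o o)))) (c (a (c o o) (c o o)) (a (b o o) (b (c o o) (c o o)))))) (c (c (c (c (c (b (a
    o o) (a o o)) p) p) p) p) p)) ⟨0, 134217728, 536870912, 805306368, 8589934592, 17179869184⟩ =
    true := by
  decide +kernel

theorem k25 : go fRowM gM (a (a (c (b o (b o p)) (b (a o o) (a (c o o) (c o o)))) (c (b o (c p o))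
    (a (b o (c o o)) (b o (c o o))))) (c (a (b o (c p o)) (b (c o o) (c p o))) (a (a (b o (c o o))
    (b o (c o o))) (b (c o o) (c (a o o) (a o o)))))) ⟨0, 4294967296, 0, 2147483648, 0,
    2147483648⟩ = true := by
  decide +kernel

theorem k114 : go (fFarB 34359738368 73898459136) gB (b (c (c (a (b p (c (a (b p (c o p)) p) p))
    p) p) p) (c (c (c (c (a (b (c (c (c (c (c (c (c (c (c (c (c (c (c (c (c (c (c (c (c (c (c (c
    (c (c (c (b (a o o) o) p) p) p) p) p) p) p) p) p) p) p) p) p) p) p) p) p) p) p) p) p) p) p) p)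
    p) (c (c (c (c (c (a o o) p) p) p) p) p)) (b (a (b p (a o p)) p) (c (c (c (a (b o o) (b o o))
    p) p) p))) p) p) p) p)) ⟨134217728, 268435456, 536870912, 1073741824, 12884901888,
    17179869184⟩ = true := by
  decide +kernel

end Pool.Agent.Lib.MP_efb7ef_gt.T
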