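import Pool.Agent.Lib.MP_efb7ef_gt.T.ChkDef

/-! Runs of the tests (machine generated). -/

set_option maxRecDepth 100000

namespace Pool.Agent.Lib.MP_efb7ef_gt.T

open Tr

theorem k62 : go fStop gS (b (a (b (b (a o o) (a o o)) (a (b o o) (b o (a o o)))) (b (b (a o o) (a
    o o)) (a (b (a o o) (a o o)) (b (a o o) (a o (a o o)))))) (a (b (a (b (a o o) (a o o)) (b (a o
    o) (a o o))) (a (b (a o o) (a o o)) (b (a o o) (a o o)))) (b (a (b (a o (a o o)) (a o (a o
    o))) (b (a (a o o) (a o o)) (a (a o o) (b o o)))) (a (b (a (a o o) (a o o)) (a o (a o o))) (b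
    (a (a o o) (b o o)) (a (a o o) (b o o))))))) ⟨1073741824, 1252698795, 8589934592, 9663676416,
    0, 0⟩ = true := by
  decide +kernel

theorem k126 : go (fFarB 30064771072 62352850944) gB (c (a (c (c (c (a (b (c o o) (c (a o o) (a o
    o))) (b p (a o p))) (a (b (c o o) (c (a o o) (a (b o o) o))) (b p (a o p)))) (c (a (b (c o o)
    (c (a o o) (a o o))) (b p (a o p))) (a (b (c o o) (c (a o o) (a o o))) (b p (a o p))))) (c (c
    (a (b (c o o) (c (a o o) (a o o))) (b p (a o p))) (a (b (c o o) (c (a o o) o)) (b p (a o p))))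
    (c (a (b (c o o) (c o o)) (b p o)) (a (b o (a o o)) (b p o))))) p) (a (c (c (a (c (b o (a o
    o)) (b o o)) (b p (a (b p o) p))) (a (c (b o o) (b o o)) (b p (a (b p o) p)))) (c (a (c (b o
    o) (b o o)) (a (b p o) p)) (a (c (b o o) (b o o)) (a (b p o) p)))) p)) ⟨268435456, 536870912,
    1073741824, 1207959552, 4294967296, 8589934592⟩ = true := by
  decide +kernel

theorem k119 : go (fFarB 21474836480 33267974144) gB (a (c (c (a (b (c (a (b o o) o) (a o o)) (c
    (a (b o o) o) (a (b o o) o))) (b (c o o) (c (a o o) o))) (a (b (c (a o o) (a o o)) (c (a (b o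
    o) o) (a o o))) (b (c o o) (c o o)))) (a (c (b (a (c o o) o) (a (c o o) o)) (b (a o o) (a (c o
    o) o))) (c (b (a o o) (a o o)) (b (a o o) (a o o))))) (c (c (a (b o (c o o)) (b o o)) (a (b o
    (c o o)) (b o o))) (a (c (b o o) (b o o)) (c (b o o) (b o o))))) ⟨0, 268435456, 1073741824,
    1207959552, 5368709120, 6442450944⟩ = true := by
  decide +kernel

theorem k40 : go fStop gS (a (b (a (b (a o o) (a o o)) (b (a o (a o o)) (a o o))) (a (b (a o o) o)
    (b (a o o) (a o o)))) (b (a (b (a (a o o) (a o o)) (a (a o o) (a o o))) (b (a (b o o) (b o o))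
    (a (a o o) (a o o)))) (a (b (a o (a o o)) (a o o)) (b (a (a o o) (a o o)) (a (a o o) (a o
    o)))))) ⟨1073741824, 1431655766, 3758096384, 4294967296, 0, 0⟩ = true := by
  decide +kernel

theorem k60 : go fStop gS (a (b (b (a o o) (a (a o o) (a o o))) (a (b (a o o) (a o o)) (b (a o (a
    o o)) (a o (a o o))))) (b (b (a (a o o) (b o (a o o))) (a (b o (a o o)) (b (a o o) (a o o))))
    (a (b (a (a o o) (a o o)) (a (a o o) (a o o))) (b (a (b o o) (b o o)) (a (b o o) (b o o))))))
    ⟨715827883, 1073741824, 8589934592, 9663676416, 0, 0⟩ = true := by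
  decide +kernel

theorem k23 : go fNearM gM (b (c (a (b (c (c (b (c (a (b o o) (c o o)) (a (b o o) (b o o))) (c p
    (b (c p o) p))) (b (c (a (b o o) (b o o)) (a (b o o) (b o o))) (c (a (b o o) (b o o)) (a (b o
    o) (b o o))))) (a (c (b (c (b (a o o) o) (b (a o o) (a o o))) (c (b o o) (b (a o o) (a o o))))
    p) (c (b (c (a (b o o) (b o o)) (a (c o p) p)) (c (b o o) (a (c o p) p))) p))) (c (c p (b (c p
    (b (c p (b o p)) p)) p)) (a (c (b (c (b o o) (b (a o o) (a o o))) (b (c p (b (c p o) p)) p))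
    p) (c (c (b (a o o) p) (a (c (b o p) p) p)) p)))) (b (c (c (c (b (b (c o o) (c p o)) p) (b (a
    (c o o) (c o o)) (b (c p o) p))) (c (b (a (b o o) (b o o)) (a (b o o) (b o o))) (b (a (a (b o
    o) (b o o)) (a (b o o) (b o o))) (a (a o o) (a o o))))) (c (c (a (b (a (b o o) (c o p)) (a o
    o)) (c (b (b o o) o) p)) p) p)) (c (c p (b (c p (b (b o p) p)) p)) (c (c (b (a (a o o) (c o
    p)) p) p) p)))) p) (c (a (b (c p (c p p)) p) (b (c p (c p p)) p)) p)) ⟨2147483648, 4294967296,
    0, 17179869184, 0, 17179869184⟩ = true := by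
  decide +kernel

theorem k31 : go fStop gS (b (a (b (b (a o o) (a o o)) (b (a o o) (a o o))) (b (a (b o o) (b o o))
    (a (b o o) (b o o)))) (a (b (a (b o o) (b o o)) (a (a o o) (a o o))) (b (a (b o o) (b o o)) (a
    (a o o) (b o o))))) ⟨715827883, 1073741824, 1073741824, 2147483648, 0, 0⟩ = true := by
  decide +kernel

theorem k49 : go fStop gS (b (a (b o (a o o)) (b (a o o) (a o (a o o)))) (a (b (a o o) (a o o)) (b
    (a o (a o o)) (a (a o o) (b o o))))) ⟨715827883, 1073741824, 6442450944, 7516192768, 0, 0⟩ =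
    true := by
  decide +kernel

theorem k59 : go fStop gS (b (a o o) p) ⟨0, 715827883, 12884901888, 17179869184, 0, 0⟩ = true :=
    by
  decide +kernel

end Pool.Agent.Lib.MP_efb7ef_gt.T
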