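import Pool.Agent.Lib.MP_efb7ef_gt.T.Run0
import Pool.Agent.Lib.MP_efb7ef_gt.T.Run1
import Pool.Agent.Lib.MP_efb7ef_gt.T.Run2
import Pool.Agent.Lib.MP_efb7ef_gt.T.Run3
import Pool.Agent.Lib.MP_efb7ef_gt.T.Run4
import Pool.Agent.Lib.MP_efb7ef_gt.T.Run5
import Pool.Agent.Lib.MP_efb7ef_gt.T.Run6
import Pool.Agent.Lib.MP_efb7ef_gt.T.Run7
import Pool.Agent.Lib.MP_efb7ef_gt.T.Run8
import Pool.Agent.Lib.MP_efb7ef_gt.T.Run9
import Pool.Agent.Lib.MP_efb7ef_gt.T.Run10
import Pool.Agent.Lib.MP_efb7ef_gt.T.Run11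
import Pool.Agent.Lib.MP_efb7ef_gt.T.Run12
import Pool.Agent.Lib.MP_efb7ef_gt.T.Run13
import Pool.Agent.Lib.MP_efb7ef_gt.T.Cov
import Pool.Agent.Lib.MP_efb7ef_gt.T.Hyp

/-! The signs of the test functions. -/

namespace Pool.Agent.Lib.MP_efb7ef_gt.T

theorem allNearP : Cov (PP rNearP) ⟨0, 4294967296, 0, 17179869184, 0, 17179869184⟩ :=
  Cov.a (Cov.b (Cov.c (Cov.a (Cov.b (covNearP k0) (covNearP k1)) (covNearP k2)) (covNearP k3))
    (Cov.c (Cov.a (Cov.b (Cov.c (Cov.a (covNearP k4) (covNearP k5)) (Cov.a (Cov.c (covNearP k6)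
    (covNearP k7)) (covNearP k8))) (covNearP k9)) (covNearP k10)) (Cov.a (Cov.b (Cov.c (Cov.a
    (Cov.b (covNearP k11) (Cov.c (covNearP k12) (covNearP k13))) (covNearP k14)) (covNearP k15))
    (covNearP k16)) (covNearP k17)))) (covNearP k18)

theorem allNearM : Cov (PM rNearM) ⟨0, 4294967296, 0, 17179869184, 0, 17179869184⟩ :=
  Cov.a (Cov.b (Cov.c (Cov.a (covNearM k19) (covNearM k20)) (covNearM k21)) (covNearM k22))
    (covNearM k23)

theorem allRowP : Cov (PP rRowP) ⟨0, 4294967296, 0, 2147483648, 0, 2147483648⟩ :=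
  covRowP k24

theorem allRowM : Cov (PM rRowM) ⟨0, 4294967296, 0, 2147483648, 0, 2147483648⟩ :=
  covRowM k25

theorem allStart : Cov (PS rStart) ⟨0, 4294967296, 0, 2147483648, 0, 0⟩ :=
  covStart k26

theorem allStop : Cov (PS rStop) ⟨0, 1431655766, 0, 17179869184, 0, 0⟩ :=
  Cov.b (Cov.b (Cov.b (Cov.a (Cov.b (covStop k27) (covStop k28)) (Cov.b (Cov.a (covStop k29)
    (covStop k30)) (Cov.a (covStop k31) (Cov.b (covStop k32) (covStop k33))))) (Cov.a (covStop
    k34) (Cov.b (Cov.a (covStop k35) (Cov.b (covStop k36) (covStop k37))) (Cov.a (covStop k38)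
    (Cov.b (covStop k39) (covStop k40)))))) (Cov.b (Cov.a (covStop k41) (Cov.b (Cov.a (covStop
    k42) (Cov.b (covStop k43) (covStop k44))) (Cov.a (covStop k45) (Cov.b (covStop k46) (covStop
    k47))))) (Cov.a (covStop k48) (Cov.b (Cov.a (covStop k49) (Cov.b (covStop k50) (Cov.a (covStop
    k51) (covStop k52)))) (Cov.a (covStop k53) (Cov.b (Cov.a (covStop k54) (covStop k55)) (covStop
    k56))))))) (Cov.a (Cov.b (Cov.b (covStop k57) (covStop k58)) (covStop k59)) (Cov.b (Cov.b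
    (Cov.a (Cov.b (covStop k60) (covStop k61)) (Cov.b (Cov.a (covStop k62) (Cov.b (covStop k63)
    (Cov.a (covStop k64) (covStop k65)))) (Cov.a (covStop k66) (Cov.b (Cov.a (covStop k67)
    (covStop k68)) (covStop k69))))) (covStop k70)) (covStop k71)))

theorem allA : Cov QA ⟨0, 536870912, 12884901888, 15300820992, 0, 0⟩ :=
  Cov.b (m := 13958643712) (cellA (Cov.c (Cov.c (covFarA k72) (Cov.c (covFarA k73) (Cov.a (covFarA
    k74) (covFarA k75)))) (Cov.c (Cov.a (covFarA k76) (Cov.c (covFarA k77) (covFarA k78)))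
    (covFarA k79))) (by norm_num)) (cellA (Cov.c (Cov.c (Cov.c (covFarA k80) (covFarA k81)) (Cov.c
    (Cov.a (covFarA k82) (covFarA k83)) (Cov.a (covFarA k84) (covFarA k85)))) (Cov.c (Cov.a (Cov.c
    (covFarA k86) (covFarA k87)) (Cov.c (covFarA k88) (covFarA k89))) (covFarA k90))) (by
    norm_num))

theorem allB : Cov QB ⟨0, 536870912, 0, 1207959552, 0, 0⟩ :=
  Cov.b (m := 1073741824) (Cov.a (m := 268435456) (Cov.a (m := 134217728) (Cov.b (m := 536870912)
    (cellB (Cov.c (covFarB k91) (covFarB k92)) (by norm_num)) (Cov.b (m := 805306368) (cellB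
    (Cov.c (Cov.c (covFarB k93) (Cov.c (covFarB k94) (covFarB k95))) (covFarB k96)) (by norm_num))
    (cellB (Cov.c (Cov.c (covFarB k97) (Cov.c (Cov.c (Cov.c (covFarB k98) (covFarB k99)) (covFarB
    k100)) (covFarB k101))) (Cov.c (Cov.c (covFarB k102) (covFarB k103)) (covFarB k104))) (by
    norm_num)))) (cellB (Cov.c (Cov.b (covFarB k105) (Cov.c (covFarB k106) (Cov.c (Cov.c (covFarB
    k107) (covFarB k108)) (covFarB k109)))) (Cov.b (covFarB k110) (Cov.c (Cov.b (covFarB k111)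
    (Cov.c (covFarB k112) (covFarB k113))) (covFarB k114)))) (by norm_num))) (cellB (covFarB k115)
    (by norm_num))) (Cov.a (m := 268435456) (cellB (Cov.c (Cov.c (covFarB k116) (Cov.c (Cov.c
    (Cov.c (covFarB k117) (covFarB k118)) (covFarB k119)) (covFarB k120))) (Cov.c (Cov.c (covFarB
    k121) (Cov.a (covFarB k122) (covFarB k123))) (covFarB k124))) (by norm_num)) (cellB (Cov.c
    (Cov.c (covFarB k125) (covFarB k126)) (covFarB k127)) (by norm_num)))

theorem mem_box {l0 h0 l1 h1 l2 h2 : ℕ} {x y z : ℝ} (a : l0 ≤ x * 4294967296)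
    (b : x * 4294967296 ≤ h0) (c : l1 ≤ y * 4294967296) (d : y * 4294967296 ≤ h1)
    (e : l2 ≤ z * 4294967296) (f : z * 4294967296 ≤ h2) :
    Box.mem ⟨l0, h0, l1, h1, l2, h2⟩ x y z := ⟨⟨a, b⟩, ⟨c, d⟩, e, f⟩

theorem num : Num where
  nearP e t s a b c d f g := allNearP e t s
    (by apply mem_box <;> push_cast <;> linarith) d f g
  nearM e t s a b c d f g := allNearM e t s
    (by apply mem_box <;> push_cast <;> linarith) d f g
  rowP e t s a b c d f := allRowP e t s (by apply mem_box <;> push_cast <;> linarith) d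
    (by linarith) (by nlinarith [mul_le_mul_of_nonneg_right b (sq_nonneg t)])
  rowM e t s a b c d f := allRowM e t s (by apply mem_box <;> push_cast <;> linarith) d
    (by linarith) (by nlinarith [mul_le_mul_of_nonneg_right b (sq_nonneg s)])
  start r s a b c d := allStart r s 0 (by apply mem_box <;> push_cast <;> linarith) (by linarith)
  stop r s a b c d := allStop r s 0 (by apply mem_box <;> push_cast <;> linarith) d
  farA e t a b c d := by
    have : e * 9 ≤ e * t ^ 2 := mul_le_mul_of_nonneg_left (by nlinarith) a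
    exact allA e t 0 (by apply mem_box <;> push_cast <;> linarith) d
  farB e z a b c d := by
    have : z ^ 2 ≤ 81 / 1024 := by nlinarith
    exact allB e z 0 (by apply mem_box <;> push_cast <;> linarith) d

end Pool.Agent.Lib.MP_efb7ef_gt.T
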