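import Pool.Agent.Lib.MP_efb7ef_gt.T.AfDef

/-! The test functions on affine forms (machine generated). -/

namespace Pool.Agent.Lib.MP_efb7ef_gt.T

def pPlus (e t s l : Af) : Af :=
  let X := (Af.ssub 1 (Af.mul e (Af.sq s)))
  let a := (Af.ssub 1 e)
  let v := (Af.add (Af.mul a t) (Af.mul (Af.sadd 1 e) s))
  let w := (Af.rt (Af.add (Af.sq v) (Af.smul 4 X)))
  let ig := (Af.inv (Af.add v w))
  let u := (Af.mul (Af.smul 4 X) ig)
  let iw := (Af.inv w)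
  let q := (Af.inv (Af.rt (Af.sadd 1 (Af.smul 2 (Af.mul e (Af.mul (Af.sub t s) ig))))))
  let p := (Af.mul (Af.add u (Af.smul 2 s)) iw)
  (Af.mul (Af.smul 2 (Af.mul (Af.rt X) (Af.mul ig q))) (Af.sub (Af.sub (Af.mul l p) (Af.mul
      (Af.mul a (Af.add (Af.add (Af.smul 2 (Af.sq u)) (Af.smul 3 (Af.mul u v))) (Af.smul 2 (Af.mul
      s (Af.add u (Af.smul 2 v)))))) (Af.mul iw (Af.sq iw)))) (Af.mul (Af.mul e ig) (Af.sq (Af.mul
      p q)))))

def pMir (e t s l : Af) : Af :=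
  let X := (Af.ssub 1 (Af.mul e (Af.sq s)))
  let a := (Af.ssub 1 e)
  let v := (Af.sub (Af.mul a t) (Af.mul (Af.sadd 1 e) s))
  let w := (Af.rt (Af.add (Af.sq v) (Af.smul 4 X)))
  let u := (Af.sub w v)
  let iw := (Af.inv w)
  let h := (Af.mul (Af.mul u (Af.sub u (Af.smul 2 s))) iw)
  let i := (Af.inv (Af.rt (Af.add (Af.smul 4 X) (Af.smul 2 (Af.mul e (Af.mul (Af.add t s) u))))))
  (Af.mul (Af.sub (Af.sub (Af.mul l h) (Af.mul (Af.mul (Af.mul a u) (Af.sub (Af.add (Af.smul 2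
      (Af.sq u)) (Af.smul 3 (Af.mul u v))) (Af.smul 2 (Af.mul s (Af.add u (Af.smul 2 v))))))
      (Af.mul iw (Af.sq iw)))) (Af.mul e (Af.sq (Af.mul h i)))) i)

def pLow (e t s l m : Af) : Af :=
  let X := (Af.ssub 1 (Af.mul e (Af.sq s)))
  let a := (Af.ssub 1 e)
  let v := (Af.add (Af.mul a t) (Af.mul (Af.sadd 1 e) s))
  let w := (Af.rt (Af.add (Af.sq v) (Af.smul 4 X)))
  let g := (Af.add v w)
  let iw := (Af.inv w)
  let h := (Af.mul (Af.mul g (Af.sub g (Af.smul 2 s))) iw)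
  let Q := (Af.add (Af.smul 4 X) (Af.smul 2 (Af.mul e (Af.mul (Af.sub s t) g))))
  (Af.sub (Af.mul Q (Af.sub (Af.sub (Af.mul (Af.rt Q) m) (Af.mul l h)) (Af.mul (Af.mul (Af.mul a
      g) (Af.sub (Af.sub (Af.smul 2 (Af.sq g)) (Af.smul 3 (Af.mul g v))) (Af.smul 2 (Af.mul s
      (Af.sub g (Af.smul 2 v)))))) (Af.mul iw (Af.sq iw))))) (Af.mul e (Af.sq h)))

def pKap (e t s : Af) : Af :=
  let X := (Af.ssub 1 (Af.mul e (Af.sq s)))
  let v := (Af.add (Af.mul (Af.ssub 1 e) t) (Af.mul (Af.sadd 1 e) s))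
  let d := (Af.sub t s)
  let H := (Af.sub (Af.mul (Af.abs d) (Af.rt (Af.add (Af.sq v) (Af.smul 4 X)))) (Af.mul d v))
  (Af.mul (Af.sub (Af.smul 2 H) (Af.smul 4 (Af.sq s))) (Af.inv (Af.sadd 2 (Af.rt (Af.add (Af.smul
      4 X) (Af.smul 2 (Af.mul e H)))))))

def pKk (e t s : Af) : Af :=
  (Af.add (pKap e t s) (pKap e t (Af.neg s)))

def pKv (r s : Af) : Af :=
  let p := (Af.sq (Af.ssub 1 (Af.mul r s)))
  let n := (Af.sub p (Af.sq s))
  (Af.smul 2 (Af.mul n (Af.inv (Af.sadd 1 (Af.rt (Af.sadd 1 (Af.mul (Af.sq r) n)))))))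

def pKL (r s : Af) : Af :=
  (Af.add (pKv r s) (pKv r (Af.neg s)))

def pNearP (e t s : Af) : Af :=
  let l := (Af.mul (Af.cst (2) 3) (Af.ssub 1 e))
  (Af.add (pPlus e t s l) (pMir e t s l))

def pNearM (e t s : Af) : Af :=
  let l := (Af.mul (Af.cst (2) 3) (Af.ssub 1 e))
  (pLow e t s l (pMir e t s l))

def pRowP (e t s : Af) : Af :=
  (Af.sub (Af.neg (pNearP e t s)) (Af.cst (19) 5))

def pRowM (e t s : Af) : Af :=
  let l := (Af.mul (Af.cst (2) 3) (Af.ssub 1 e))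
  (Af.neg (pLow e t s l (Af.add (pMir e t s l) (Af.cst (19) 5))))

def pFarA (e t s l k : Af) : Af :=
  (Af.sub (Af.add (pPlus e t s l) (pMir e t s l)) (Af.mul k (Af.sub (pKk e t s) (pKk e (Af.dy
      2147483648) s))))

def pFarB (e z s l k : Af) : Af :=
  let s2 := (Af.sq s)
  let X := (Af.ssub 1 (Af.mul e s2))
  let a := (Af.ssub 1 e)
  let b := (Af.sadd 1 e)
  let y := (Af.mul s z)
  let Z := (Af.mul (Af.smul 4 X) (Af.sq z))
  let yb := (Af.mul b y)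
  let vp := (Af.add a yb)
  let vm := (Af.sub a yb)
  let wp := (Af.rt (Af.add (Af.sq vp) Z))
  let wm := (Af.rt (Af.add (Af.sq vm) Z))
  let gm := (Af.inv (Af.add vm wm))
  let up := (Af.mul (Af.smul 4 X) (Af.inv (Af.add vp wp)))
  let um := (Af.mul (Af.smul 4 X) gm)
  let ip := (Af.inv wp)
  let im := (Af.inv wm)
  let Hp := (Af.mul (Af.ssub 1 y) up)
  let Hm := (Af.mul (Af.sadd 1 y) um)
  let Sp := (Af.rt (Af.add (Af.smul 4 X) (Af.smul 2 (Af.mul e Hp))))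
  let Sm := (Af.rt (Af.add (Af.smul 4 X) (Af.smul 2 (Af.mul e Hm))))
  let jp := (Af.inv Sp)
  let jm := (Af.inv Sm)
  let Dw := (Af.smul 4 (Af.mul (Af.mul a b) (Af.inv (Af.add wp wm))))
  let Du := (Af.neg (Af.mul (Af.mul up gm) (Af.add (Af.smul 2 b) Dw)))
  let Di := (Af.neg (Af.mul Dw (Af.mul ip im)))
  let Dj := (Af.neg (Af.mul (Af.smul 2 (Af.mul (Af.mul e (Af.sub Du (Af.add up um))) (Af.inv
      (Af.add Sp Sm)))) (Af.mul jp jm)))
  let mp := (Af.mul ip jp)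
  let Pp := (Af.mul up mp)
  let Pm := (Af.mul um (Af.mul im jm))
  let D1 := (Af.add (Af.mul Du mp) (Af.mul um (Af.add (Af.mul Di jp) (Af.mul im Dj))))
  let ip2 := (Af.sq ip)
  let im2 := (Af.sq im)
  let D2 := (Af.add (Af.mul D1 (Af.mul vp ip2)) (Af.mul Pm (Af.add (Af.smul 2 (Af.mul b ip2))
      (Af.mul vm (Af.mul Di (Af.add ip im))))))
  let zp := (Af.mul z up)
  let zm := (Af.mul z um)
  let k1 := (Af.add (Af.add (Af.mul up Pp) (Af.mul um Pm)) (Af.smul 2 (Af.mul s2 D1)))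
  let k2 := (Af.add (Af.mul a (Af.add (Af.add (Af.mul (Af.mul (Af.mul Pp up) ip2) (Af.add (Af.add
      (Af.smul 2 (Af.mul z zp)) (Af.smul 3 vp)) (Af.smul 2 y))) (Af.mul (Af.mul (Af.mul Pm um)
      im2) (Af.sub (Af.add (Af.smul 2 (Af.mul z zm)) (Af.smul 3 vm)) (Af.smul 2 y)))) (Af.smul 4
      (Af.mul s2 D2)))) (Af.mul e (Af.add (Af.mul (Af.sq (Af.mul Pp (Af.add zp (Af.smul 2 s))))
      jp) (Af.mul (Af.sq (Af.mul Pm (Af.sub zm (Af.smul 2 s)))) jm))))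
  let k0 := (Af.add (Af.mul (Af.sub (Af.smul 2 Hp) (Af.smul 4 s2)) (Af.inv (Af.sadd 2 Sp)))
      (Af.mul (Af.sub (Af.smul 2 Hm) (Af.smul 4 s2)) (Af.inv (Af.sadd 2 Sm))))
  (Af.sub (Af.sub (Af.mul l k1) k2) (Af.mul k (Af.sub k0 (pKk e (Af.dy 2147483648) s))))

def pStart (r s : Af) : Af :=
  (Af.sub (pKk (Af.sq r) (Af.dy 0) s) (pKL r s))

def pStop (r s : Af) : Af :=
  let e := (Af.sq r)
  let k := (pKk e (Af.dy 11811160064) s)
  (Af.sub (Af.sub (Af.sub (Af.sub (Af.sub (Af.sub (pKL r s) k) (Af.mul (Af.add (Af.cst (-508)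
      10000) (Af.mul (Af.cst (4093) 10000) e)) (Af.sub (pKk e (Af.dy 0) s) k))) (Af.mul (Af.add
      (Af.cst (-601) 10000) (Af.mul (Af.cst (4641) 10000) e)) (Af.sub (pKk e (Af.dy 2147483648) s)
      k))) (Af.mul (Af.add (Af.cst (-456) 10000) (Af.mul (Af.cst (3037) 10000) e)) (Af.sub (pKk e
      (Af.dy 4294967296) s) k))) (Af.mul (Af.add (Af.cst (-1471) 10000) (Af.mul (Af.cst (12117)
      10000) e)) (Af.sub (pKk e (Af.dy 6442450944) s) k))) (Af.mul (Af.add (Af.cst (-992) 10000)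
      (Af.mul (Af.cst (5606) 10000) e)) (Af.sub (pKk e (Af.dy 8589934592) s) k)))

end Pool.Agent.Lib.MP_efb7ef_gt.T
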