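import Pool.Agent.Lib.MP_efb7ef_gt.T.ChkDef

/-! Runs of the tests (machine generated). -/

set_option maxRecDepth 100000

namespace Pool.Agent.Lib.MP_efb7ef_gt.T

open Tr

theorem k82 : go (fFarA 3782213632 79888384) gA (c (c (a (b (c (a o o) (a (b o o) o)) (c (a (b o
    o) (b o o)) (a (b o o) (b o o)))) (b (c (a o o) (a o o)) (c (a o o) (a (b o o) o)))) (a (b (c
    (a (b o o) o) (a (b o o) o)) (c (a (b o o) (b o o)) (a (b o (c o o)) (b o o)))) (b (c (a o o)
    (a o o)) (c (a (b o o) o) (a (b o o) (b o o)))))) (a (c (b (a (c (b o o) (b o o)) (c o (b o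
    o))) (a (c (b o (a o o)) (b o (a o o))) (c (b o o) (b o o)))) (b (a (c (b o o) (b o o)) (c (b
    o o) o)) (a (c (b o (a o o)) (b o (a o o))) (c (b o o) (b o o))))) (c (b (a (c o o) (c o o))
    (a (c (b o o) (b o o)) (c (b o o) (b o o)))) (b (a (c o o) (c o o)) (a (c (b o o) (b o o)) (c
    (b o o) (b o o))))))) ⟨0, 268435456, 13958643712, 15300820992, 4294967296, 6442450944⟩ = true
    := by
  decide +kernel

theorem k88 : go (fFarA 3782213632 79888384) gA (c (a (a (c (b (c o (a o o)) (c (a o o) (a o (b o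
    o)))) (b (a (c o o) (c o o)) (a (c o o) (c (b o o) (b o o))))) (c (b (c (a o o) (a o o)) (c (a
    (b o o) (b o p)) (a (b o o) (b o p)))) (b (a (c o o) (c o o)) (a (c (b o o) (b o o)) (b (a o
    p) p))))) (a (a (b (a (b (c o o) p) p) p) p) p)) (a (a (c (b (a (c o o) (c o o)) (a (c (b o o)
    (b o o)) (c (b o o) (b o o)))) (b (a (c o o) (c o o)) (a (c (b o o) (b o o)) (c (b o o) (b o
    o))))) (c (b (a (c o o) (c o o)) (a (c (b o o) (b o o)) (a (b (a o p) p) p))) (b (a (c o o) (c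
    o (b o o))) (a (c (b o (a o o)) (b o (a o o))) (a (b (a o p) p) p))))) (a (a (b (a (b (c o o)
    p) p) p) p) p))) ⟨268435456, 536870912, 13958643712, 15300820992, 8589934592, 10737418240⟩ =
    true := by
  decide +kernel

theorem k22 : go fNearM gM (c (a (b (c p (a (c p (b (c p (b (c p o) p)) p)) (b (c p (b (a (c p o)
    (c p (b o p))) p)) p))) p) (b (c p (a (b (c p (a (b (b (c p (b (a o (c p o)) p)) p) p) (b (c p
    (c p p)) p))) p) (b (c p (c p p)) p))) p)) (a (b (c (a (b (a (c (a o o) (a o (c o o))) (a (c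
    (c o o) (b (c o o) (c o o))) (c (b (c o o) (c o o)) (b (c o o) (a (c o o) (c o o)))))) (c (a
    (c p (b o p)) (a (c p o) (b (c p o) p))) (a (a o (c o o)) (a (a (c o o) (b o (c o o))) (a (b
    (c o o) (c o (a o (b o o)))) (c (b o (b o p)) (b (b o (a o o)) (a (b o (c o o)) (c (b o (b o
    p)) (a (c (b o o) p) p)))))))))) (b (c (a (a (b (c o o) (c o (a o o))) (c (b o (b o p)) (b (a
    o (b o o)) (a (c o (b o o)) (c (b o o) (a (c o p) p)))))) (b (c (a (a o o) (c (b o (b o p)) (a
    (a o p) p))) (a (a (c o p) p) p)) (c (a (b (b (c p o) p) p) (b (b (b (c p (c p p)) p) p) p))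
    (a (b (a (c o p) p) (c (c p p) p)) p)))) (a (b (a (c (a o o) (a o p)) (a (c (c o p) p) p)) (c
    (a (a (b o o) (b o (a o o))) (a (c (a (c o p) p) p) p)) (a (a (a o p) p) p))) p)) (c (a (b (c
    p (a (b (c p o) p) (b (b (b (a o (c p (c p p))) p) p) p))) p) (b (c p (c p p)) p)) (a (b (c (a
    (b (a o (a (c o o) (c o p))) (c (b (a o (b o p)) p) (a (a o o) (a (c o p) p)))) (b (c (a (a (c
    o p) p) p) p) (c (c p p) p))) (a (a (a (c (b o o) p) p) p) p)) (c (a (b (c p (a (b (a o o) p)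
    (c p p))) p) (c p p)) (a (b (c (a (a (b o (a o o)) p) p) p) (c (a (a (b (b (b (c p o) p) p) p)
    p) p) p)) p))) p)))) (a (b (c (c (a (c (c o p) p) (a (c (b o o) p) (b (c o p) (c (c (a o o) p)
    p)))) p) p) (c (a (c (c (a o o) p) p) (b (c (a (c o p) (c (a o (a o p)) p)) p) (c (a (c (a o
    o) p) (b (c (a o (a o p)) p) (c (a (c o p) (a (a o p) p)) p))) p))) p)) p)) (c (a (b (c p (a
    (a o (c p (b o p))) (b (c p (a (a o o) (b (c p (a (a o o) (b (b (b (a o (c p p)) p) p) p)))
    p))) p))) p) (b (c p (a (b (c p (c p p)) p) p)) p)) (a (b (c (a (a (c o p) (c (c o p) p)) (b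
    (c (a (c (a o (c o p)) p) (b (c (a (a o (c o p)) (b (a (a (a o p) p) p) (c (c p p) p))) p) (c
    (c p p) p))) p) (c (c p p) p))) p) (c (c p p) p)) p))) p)) ⟨0, 2147483648, 8589934592,
    17179869184, 0, 17179869184⟩ = true := by
  decide +kernel

theorem k102 : go (fFarB 25769803776 45166034944) gB (c (b (a (c (b (a o o) (a o o)) (b (a o o) (a
    o o))) (c (b (a o o) (c o o)) (b (a o o) (a o o)))) (a (c (b (c o o) (c o o)) (b (a o o) o))
    (c (b (c o o) (c o o)) (b (a o o) (a o o))))) (b (a (c (b (a o o) (a o o)) (b (a o o) (a o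
    o))) (c (b (a o o) (a o o)) (b (a o o) (a o o)))) (a (c (b o o) (b o o)) (c (b (a o o) (a o
    o)) (b (a o o) (a o o)))))) ⟨0, 134217728, 805306368, 1073741824, 8589934592, 10737418240⟩ =
    true := by
  decide +kernel

theorem k13 : go fNearP gP (a (a (c (b (a o o) (a o (c o o))) (b (c o p) (a o o))) (c (b (a o (c o
    o)) (a (c o o) (c o o))) (b (c o p) (a (c o o) (c o o))))) (a (c (b (a (c o o) (c o o)) (a (c
    (b o o) (b o o)) (c (a o (b o o)) (a o (b o o))))) (b (c (c (b p o) p) p) (a (c (b o o) (b o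
    o)) (c (a o (b o o)) (a o (b o o)))))) (c (a (b (c (b o o) (b o o)) (c (a (b o o) (b o (c o
    o))) (a (b o o) (b o (c o o))))) (b (c (b o (a o o)) (b o (a o o))) (c (a (b o (c o o)) (b (c
    o o) (a (b o p) p))) (a (b o (c o o)) (b (c o o) (a (b o p) p)))))) (a (b (c (b p o) p) (c (a
    (b o o) (b o (c o o))) (a (b o o) (b o (c o o))))) (b (c (c (b p o) p) p) (c (b (a (c o o) (c
    o (a o o))) (a (c o (a o o)) (a (b o p) p))) (a (b (c o p) (a (c o o) (c o (b o o)))) (b (c (c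
    (b p o) p) p) (a (b (c o o) p) p))))))))) ⟨0, 536870912, 10737418240, 12884901888,
    10737418240, 12884901888⟩ = true := by
  decide +kernel

theorem k85 : go (fFarA 3782213632 79888384) gA (c (a (c (b (a (c o o) (c o o)) (a (c (b o o) (b o
    o)) (c (b o o) (b o o)))) (b (a (c o o) (c o o)) (a (c (b o o) (b o o)) (c (b o o) (b o o)))))
    (a (b (a (b (c o o) p) p) p) p)) (a (c (b (a (c o o) (c o o)) (a (c (b o o) (a o o)) (c (b o
    o) (a o o)))) (a (b (c o o) (c (a o o) (a o o))) (b (c o (a o o)) (c (a o o) (a o (b o p))))))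
    (a (b (a (b (c o o) p) p) p) p))) ⟨268435456, 536870912, 13958643712, 15300820992, 6442450944,
    8589934592⟩ = true := by
  decide +kernel

theorem k38 : go fStop gS (b (a (b (a (a o o) (b o o)) (a (a o o) (b o o))) (b (a (b o o) (b (a o
    o) (a o o))) (a (b o o) (b (a o o) (a o o))))) (a (b (a o (a o o)) (a o o)) (b (a (b o o) (b o
    o)) (a (a o o) (b o o))))) ⟨715827883, 1073741824, 3221225472, 4294967296, 0, 0⟩ = true := by
  decide +kernel

theorem k45 : go fStop gS (b (a (b (a o o) (a o o)) (b (a o (a o o)) (a o (a o o)))) (a (b o o) (b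
    (a o o) (a o o)))) ⟨715827883, 1073741824, 5368709120, 6442450944, 0, 0⟩ = true := by
  decide +kernel

theorem k111 : go (fFarB 34359738368 73898459136) gB (a (b p (c (a (b p (c (c o o) (c o o))) p) (a
    (b p (c (c o o) (c o (b o o)))) p))) p) ⟨134217728, 268435456, 536870912, 805306368,
    8589934592, 12884901888⟩ = true := by
  decide +kernel

end Pool.Agent.Lib.MP_efb7ef_gt.T
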