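import Pool.Agent.Lib.MP_efb7ef_gt.T.ChkDef

/-! Runs of the tests (machine generated). -/

set_option maxRecDepth 100000

namespace Pool.Agent.Lib.MP_efb7ef_gt.T

open Tr

theorem k44 : go fStop gS (a (b (a (b (a o o) (a o o)) (b (a o o) (a o (a o o)))) (a (b (a o o) (a
    o o)) (b (a o (a o o)) (a o o)))) (b (a (b (a (a o o) (b o o)) (a (a o o) (b o o))) (b (a (b
    (a o o) (a o o)) (b (a o o) (a o o))) (a (b (a o o) (a o o)) (b (a o o) (a o o))))) (a (b (a
    (a o o) (b o o)) (a (a o o) (b o o))) (b (a (b (a o o) (a o o)) (b (a o o) (a o o))) (a (b (a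
    o o) (a o o)) (b (a o o) (a o o))))))) ⟨1073741824, 1431655766, 4831838208, 5368709120, 0, 0⟩
    = true := by
  decide +kernel

theorem k34 : go fStop gS (b (a (b (b (a (a o o) (a o o)) (a (a o o) (a o o))) (a (b (a o o) (a o
    o)) (b (a o o) (a o o)))) (b (a (b (a o o) (a o o)) (b (b o o) (a (a o o) (a o o)))) (a (b (a
    o o) (a o o)) (b (a (a o o) (a o o)) (a (a o o) (a o o)))))) (a (b (a (b o o) (b (a o o) o))
    (a (b o o) (b o o))) (b (a (b (a o o) (a o o)) (b (a o (a o o)) (a o o))) (a (b (a o o) o) (b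
    (a o o) (a o o)))))) ⟨0, 715827883, 2147483648, 4294967296, 0, 0⟩ = true := by
  decide +kernel

theorem k39 : go fStop gS (a (b (a (b (a o o) (a o o)) (b (a (a o o) (a o o)) (a (a o o) (a o
    o)))) (a (b (a o o) (a o o)) (b (a (a o o) (a o o)) (a o (a o o))))) (b (a (b (a (b o o) (b o
    o)) (a (b o o) (b o o))) (b (a (b o o) (b (a o o) (a o o))) (a (b o o) (b (a o o) o)))) (a (b
    (a (a o o) (b o o)) (a (a o o) (b o o))) (b (a (b o o) (b o o)) (a (b o o) (b o o))))))
    ⟨1073741824, 1431655766, 3221225472, 3758096384, 0, 0⟩ = true := by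
  decide +kernel

theorem k76 : go (fFarA 3435134976 70975488) gA (c (a (c (a (c (b o (c o o)) (b o o)) (c (b o (c o
    o)) (b o (a o o)))) (a (c (b o o) (b o o)) (c (b o o) (b o o)))) (c (c (a (b o (c o o)) (b o
    (c o o))) (a (b o (a o o)) (b o (a o o)))) (a (c (b o (a o o)) (b o o)) (c (b o (a o o)) (b o
    (a o o)))))) (a (c (a (c (b o o) o) (c (b o o) o)) (a (c o o) (c o o))) (c (a (c (b o o) (a o
    o)) (c (a (b o o) (b o o)) (a o o))) (a (c (a o o) o) (c (a o o) (a o o)))))) ⟨0, 268435456,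
    12884901888, 13958643712, 8589934592, 12884901888⟩ = true := by
  decide +kernel

theorem k112 : go (fFarB 34359738368 73898459136) gB (c (b (a (c (b o o) (b (a o o) (a o o))) (a
    (b p (a (b p o) p)) p)) (a (c (b (c o o) (c o o)) (b (a o o) (a o o))) (c (b (c o o) (c o o))
    (b (a o o) (a o o))))) (b (a (c (b (a o o) (a o o)) (b (a o o) (a o o))) (a (b p (a (b p o)
    p)) p)) (a (c (b (a o o) (a o o)) (b (a o o) (a o o))) (c (b (a o o) (a o o)) (b (a o o) (a o
    o)))))) ⟨134217728, 268435456, 805306368, 1073741824, 8589934592, 10737418240⟩ = true := by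
  decide +kernel

theorem k47 : go fStop gS (a (b (a (a o o) (b (a o o) o)) (a (a o o) (b o o))) (b (a (b (a o (a o
    o)) (a o o)) (b (a (b o o) (b (a o o) (a o o))) (a (a o o) (b (a o o) o)))) (a (b (a o o) (a o
    o)) (b (a (a o o) (b o o)) (a (a o o) (a o o)))))) ⟨1073741824, 1431655766, 5905580032,
    6442450944, 0, 0⟩ = true := by
  decide +kernel

theorem k125 : go (fFarB 30064771072 62352850944) gB (c (c (a (c (c (c (b (a o p) o) (b (a o p)
    o)) (c (b (a o p) o) (b o o))) (c (c o o) o)) p) (a (c (c o o) o) p)) (a (c (c o (c o (a o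
    o))) (c (c (a o o) (a (b o o) (b p o))) (c (a (b o (c o o)) (b p o)) (a (b (c o o) (c o (a o
    o))) (b p (a o p)))))) p)) ⟨268435456, 536870912, 1073741824, 1207959552, 0, 4294967296⟩ =
    true := by
  decide +kernel

theorem k95 : go (fFarB 68719476736 184150458368) gB (c (b (c (a (b o o) o) (a o o)) (c (a (c (b o
    o) o) (c o o)) (a (b o o) (b o o)))) (b (c (a o o) (a o o)) (c (a (b o o) o) (a o o)))) ⟨0,
    134217728, 536870912, 805306368, 6442450944, 8589934592⟩ = true := by
  decide +kernel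

theorem k79 : go (fFarA 3435134976 70975488) gA (a (c (c (c (a (c (c o p) p) (c (c (a o o) p) p))
    p) p) p) (c (a (c (c (a (c (c (c (c o p) p) p) p) (c (c (c (c (a o o) p) p) p) p)) p) p) (c (a
    (c (c (c (c (a (b o o) (b o (a o p))) p) p) p) p) (b (c (a (a (c (b (a o p) p) p) p) p) p) p))
    p)) p)) ⟨0, 536870912, 12884901888, 13958643712, 12884901888, 17179869184⟩ = true := by
  decide +kernel

end Pool.Agent.Lib.MP_efb7ef_gt.T
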